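import Mathlib
import Pool.Agent.Lib.MP_44a246_ntL.LFF

/-!
Matrices with integral entries at a place.
-/

namespace Pool.Agent.Lib.MP_44a246_ntO

open Pool.Agent.Lib.MP_44a246_nt
open Pool.Agent.Lib.MP_44a246_ntL
open WithZero Module

variable {κ L : Type*} [Field κ] [Field L] [Algebra κ L] {ρ : Type*} [Fintype ρ] [DecidableEq ρ]

theorem det_le_one (v : Valuation L ℤᵐ⁰) {G : Matrix ρ ρ L} (hG : ∀ i j, v (G i j) ≤ 1) :
    v G.det ≤ 1 := by
  rw [Matrix.det_apply]
  refine Valuation.map_sum_le v fun σ _ => ?_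
  have h1 : v (∏ i, G (σ i) i) ≤ 1 := by
    rw [map_prod]
    exact Finset.prod_le_one' fun i _ => hG _ _
  rcases Int.units_eq_one_or (Equiv.Perm.sign σ) with h2 | h2
  · rw [h2, one_smul]
    exact h1
  · rw [h2, Units.neg_smul, one_smul, Valuation.map_neg]
    exact h1

theorem adjugate_le_one (v : Valuation L ℤᵐ⁰) {G : Matrix ρ ρ L} (hG : ∀ i j, v (G i j) ≤ 1)
    (i j : ρ) : v (G.adjugate i j) ≤ 1 := by
  rw [Matrix.adjugate_apply]
  refine det_le_one v fun a b => ?_
  rw [Matrix.updateRow_apply]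
  split_ifs with h
  · rw [Pi.single_apply]
    split_ifs
    · rw [map_one]
    · rw [map_zero]
      exact zero_le
  · exact hG a b

/-- constants of absolute value less than one -/
theorem const_eq_zero_of_lt (v : Place κ L) {c : κ} (hc : v.1 (algebraMap κ L c) < 1) : c = 0 := by
  by_contra h
  rw [v.2.2 c h] at hc
  exact lt_irrefl _ hc

theorem const_le_one (v : Place κ L) (c : κ) : v.1 (algebraMap κ L c) ≤ 1 := by
  by_cases h : c = 0
  · rw [h, map_zero, map_zero]
    exact zero_le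
  · rw [v.2.2 c h]

end Pool.Agent.Lib.MP_44a246_ntO
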