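import Mathlib
import Pool.Agent.Lib.MP_44a246_ntS.SC3

/-!
The maximal slope of the subspaces which contain a vector.
-/

namespace Pool.Agent.Lib.MP_44a246_ntO

open Pool.Agent.Lib.MP_44a246_nt
open Pool.Agent.Lib.MP_44a246_ntL
open Pool.Agent.Lib.MP_44a246_ntS
open WithZero Module

variable {κ L : Type*} [Field κ] [IsAlgClosed κ] [CharZero κ] [Field L] [Algebra κ L]
  {ι : Type*} [Fintype ι]

/-- The maximal slope is attained. Proof: for every dimension `s` with `2 ≤ s ≤ card ι` there is a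
space through `x` of dimension `s` of minimal height (heights are `≥ 0` integers: `ht_nonneg`,
compare the proof of `exists_max_slope`, SC1); take the maximum over `s` of the finitely many
numbers `(height x - minheight s) / (s - 1)`. A space of dimension 1 which contains `x` is
`span {x}` and has height `height x` (`ht_single`). -/
theorem exists_slope (h : IsFF κ L) {x : ι → L} (hx : x ≠ 0) (hι : 2 ≤ Fintype.card ι) :
    ∃ (E : Submodule L (ι → L)) (M : ℝ), x ∈ E ∧ 2 ≤ finrank L E ∧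
      (height κ x : ℝ) - ht κ E = M * ((finrank L E : ℝ) - 1) ∧
      ∀ E' : Submodule L (ι → L), x ∈ E' →
        (height κ x : ℝ) - ht κ E' ≤ M * ((finrank L E' : ℝ) - 1) := by
  -- the minimal height for every dimension
  have hmin : ∀ m : ℕ, (∃ Q : Submodule L (ι → L), x ∈ Q ∧ finrank L Q = m) →
      ∃ Q : Submodule L (ι → L), x ∈ Q ∧ finrank L Q = m ∧
        ∀ Q' : Submodule L (ι → L), x ∈ Q' → finrank L Q' = m → ht κ Q ≤ ht κ Q' := by
    rintro m ⟨Q0, hQ0⟩
    obtain ⟨n, ⟨Q, hQ2, hQ3, hQ4⟩, hn⟩ :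
        ∃ n : ℕ, (∃ Q : Submodule L (ι → L), x ∈ Q ∧ finrank L Q = m ∧ (ht κ Q).toNat = n) ∧
          ∀ k : ℕ, (∃ Q : Submodule L (ι → L), x ∈ Q ∧ finrank L Q = m ∧ (ht κ Q).toNat = k) →
            n ≤ k := by
      classical
      have hex : ∃ n : ℕ, ∃ Q : Submodule L (ι → L), x ∈ Q ∧ finrank L Q = m ∧
          (ht κ Q).toNat = n := ⟨_, Q0, hQ0.1, hQ0.2, rfl⟩
      exact ⟨Nat.find hex, Nat.find_spec hex, fun k hk => Nat.find_min' hex hk⟩
    refine ⟨Q, hQ2, hQ3, fun Q' h2 h3 => ?_⟩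
    have h4 := hn _ ⟨Q', h2, h3, rfl⟩
    have h5 := ht_nonneg h Q
    have h6 := ht_nonneg h Q'
    omega
  choose! F hF2 hF3 hF4 using hmin
  classical
  let s : Finset ℕ := (Finset.range (Fintype.card ι + 1)).filter
    fun m => 2 ≤ m ∧ ∃ Q : Submodule L (ι → L), x ∈ Q ∧ finrank L Q = m
  have hmem : ∀ Q : Submodule L (ι → L), x ∈ Q → 2 ≤ finrank L Q → finrank L Q ∈ s := by
    intro Q h2 h3
    refine Finset.mem_filter.2 ⟨?_, h3, Q, h2, rfl⟩
    rw [Finset.mem_range]
    have := Submodule.finrank_le Q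
    rw [finrank_fintype_fun_eq_card] at this
    omega
  let g : ℕ → ℝ := fun m => ((height κ x : ℝ) - ht κ (F m)) / ((m : ℝ) - 1)
  have htop : finrank L (⊤ : Submodule L (ι → L)) = Fintype.card ι := by
    rw [finrank_top, finrank_fintype_fun_eq_card]
  obtain ⟨m, hm, hm'⟩ := Finset.exists_max_image s g
    ⟨_, hmem ⊤ trivial (by rw [htop]; exact hι)⟩
  obtain ⟨-, hm2, hms⟩ := Finset.mem_filter.1 hm
  have hmR : (0 : ℝ) < (m : ℝ) - 1 := by
    have : (2 : ℝ) ≤ m := by exact_mod_cast hm2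
    linarith
  refine ⟨F m, g m, hF2 m hms, by rw [hF3 m hms]; exact hm2, ?_, fun E' hE' => ?_⟩
  · rw [hF3 m hms]
    exact (div_mul_cancel₀ _ hmR.ne').symm
  · rcases Nat.lt_or_ge (finrank L E') 2 with h1 | h1
    · -- dimension 1
      have h2 : Submodule.span L {x} ≤ E' := by
        rw [Submodule.span_singleton_le_iff_mem]
        exact hE'
      have h3 : finrank L (Submodule.span L {x}) = 1 := finrank_span_singleton hx
      have h4 : Submodule.span L {x} = E' := by
        refine Submodule.eq_of_le_of_finrank_le h2 ?_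
        omega
      rw [← h4, ht_single h hx, h3]
      simp
    · have h2 := hmem E' hE' h1
      have h3 := hm' _ h2
      have h4 := hF4 _ (Finset.mem_filter.1 h2).2.2 E' hE' rfl
      have h5 : (ht κ (F (finrank L E')) : ℝ) ≤ (ht κ E' : ℝ) := by exact_mod_cast h4
      have h6 : (0 : ℝ) < (finrank L E' : ℝ) - 1 := by
        have : (2 : ℝ) ≤ (finrank L E' : ℝ) := by exact_mod_cast h1
        linarith
      have h7 : (height κ x : ℝ) - ht κ (F (finrank L E')) ≤ g m * ((finrank L E' : ℝ) - 1) :=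
        (div_le_iff₀ h6).1 h3
      linarith

end Pool.Agent.Lib.MP_44a246_ntO
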