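import Mathlib
import Pool.Agent.Lib.MP_44a246_ntR.GR4

/-!
Vectors with coordinates in a Riemann-Roch space.
-/

namespace Pool.Agent.Lib.MP_44a246_ntO

open Pool.Agent.Lib.MP_44a246_nt
open Pool.Agent.Lib.MP_44a246_ntL
open Pool.Agent.Lib.MP_44a246_ntR
open WithZero Module

variable {κ L : Type*} [Field κ] [IsAlgClosed κ] [CharZero κ] [Field L] [Algebra κ L]
  {ρ : Type*} [Fintype ρ]

/-- vectors with coordinates in a Riemann-Roch space -/
def box (ρ : Type*) (B : Place κ L →₀ ℤ) : Submodule κ (ρ → L) where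
  carrier := {c | ∀ i, c i ∈ rr B}
  add_mem' := fun ha hb i => (rr B).add_mem (ha i) (hb i)
  zero_mem' := fun _ => (rr B).zero_mem
  smul_mem' := fun a _ hc i => (rr B).smul_mem a (hc i)

omit [IsAlgClosed κ] [CharZero κ] [Fintype ρ] in
theorem mem_box {B : Place κ L →₀ ℤ} {c : ρ → L} :
    c ∈ box ρ B ↔ ∀ i, ∀ w : Place κ L, w.1 (c i) ≤ exp (B w) := Iff.rfl

private def boxEquiv (ρ : Type*) (B : Place κ L →₀ ℤ) : box ρ B ≃ₗ[κ] (ρ → rr B) where
  toFun c := fun i => ⟨c.1 i, c.2 i⟩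
  invFun f := ⟨fun i => (f i).1, fun i => (f i).2⟩
  left_inv _ := rfl
  right_inv _ := rfl
  map_add' _ _ := rfl
  map_smul' _ _ := rfl

/-- `finite_rr` (GR1); `box ρ B = Submodule.pi Set.univ fun _ => rr B` is linearly equivalent to
`ρ → rr B` -/
theorem finite_box (h : IsFF κ L) (B : Place κ L →₀ ℤ) : FiniteDimensional κ (box ρ B) := by
  have h1 : FiniteDimensional κ (rr B) := finite_rr h B
  exact Module.Finite.equiv (boxEquiv ρ B).symm

/-- `genus_spec` (GR4) and `finrank (ρ → rr B) = card ρ * finrank (rr B)` -/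
theorem finrank_box (h : IsFF κ L) (B : Place κ L →₀ ℤ) :
    (Fintype.card ρ : ℤ) * (divDeg B + 1 - genus κ L) ≤ finrank κ (box ρ B) := by
  have h1 : FiniteDimensional κ (rr B) := finite_rr h B
  have h2 : finrank κ (box ρ B) = Fintype.card ρ * finrank κ (rr B) := by
    rw [(boxEquiv ρ B).finrank_eq, Module.finrank_pi_fintype, Finset.sum_const, Finset.card_univ,
      smul_eq_mul]
  rw [h2]
  push_cast
  exact mul_le_mul_of_nonneg_left (genus_spec h B) (Nat.cast_nonneg _)

end Pool.Agent.Lib.MP_44a246_ntO
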