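import Mathlib
import Pool.Agent.Lib.MP_44a246_ntO.O00

/-!
One linear condition over the residue field.
-/

namespace Pool.Agent.Lib.MP_44a246_ntO

open Pool.Agent.Lib.MP_44a246_nt
open Pool.Agent.Lib.MP_44a246_ntL
open WithZero Module

variable {κ L : Type*} [Field κ] [IsAlgClosed κ] [CharZero κ] [Field L] [Algebra κ L]
  {ρ : Type*} [Fintype ρ]

/-- one linear condition over the residue field. Proof: for `c ∈ F` the element
`s c := ∑ i, lam i * c i` has `v (s c) ≤ 1`, so by `h.place_residue` there is a constant `r` with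
`v (s c - r) < 1`. Let `F' := {c ∈ F | v (s c) < 1}` (a `κ`-submodule). If `F' ≠ F` choose
`c₀ ∈ F`, `v (s c₀) = 1`, residue `r₀ ≠ 0`; for `c ∈ F` with residue `r` the vector
`c - (r / r₀) • c₀` is in `F'`, so `F ≤ F' ⊔ span {c₀}` and `finrank F ≤ finrank F' + 1`. -/
theorem one_condition (h : IsFF κ L) (v : Place κ L) (lam : ρ → κ) (F : Submodule κ (ρ → L))
    [FiniteDimensional κ F] (hF : ∀ c ∈ F, ∀ i, v.1 (c i) ≤ 1) :
    ∃ F' ≤ F, finrank κ F ≤ finrank κ F' + 1 ∧
      ∀ c ∈ F', v.1 (∑ i, algebraMap κ L (lam i) * c i) < 1 := by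
  -- the linear form and its properties
  have hsadd : ∀ c d : ρ → L, ∑ i, algebraMap κ L (lam i) * (c + d) i =
      ∑ i, algebraMap κ L (lam i) * c i + ∑ i, algebraMap κ L (lam i) * d i := by
    intro c d
    rw [← Finset.sum_add_distrib]
    refine Finset.sum_congr rfl fun i _ => ?_
    rw [Pi.add_apply, mul_add]
  have hssmul : ∀ (r : κ) (c : ρ → L), ∑ i, algebraMap κ L (lam i) * (r • c) i =
      algebraMap κ L r * ∑ i, algebraMap κ L (lam i) * c i := by
    intro r c
    rw [Finset.mul_sum]
    refine Finset.sum_congr rfl fun i _ => ?_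
    rw [Pi.smul_apply, Algebra.smul_def]
    ring
  have hs1 : ∀ c ∈ F, v.1 (∑ i, algebraMap κ L (lam i) * c i) ≤ 1 := by
    intro c hc
    refine Valuation.map_sum_le v.1 fun i _ => ?_
    rw [map_mul]
    exact mul_le_one' (const_le_one v _) (hF c hc i)
  let F' : Submodule κ (ρ → L) :=
    { carrier := {c | c ∈ F ∧ v.1 (∑ i, algebraMap κ L (lam i) * c i) < 1}
      add_mem' := by
        rintro a b ⟨ha, ha'⟩ ⟨hb, hb'⟩
        refine ⟨F.add_mem ha hb, ?_⟩
        rw [hsadd]
        exact Valuation.map_add_lt v.1 ha' hb'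
      zero_mem' := by
        refine ⟨F.zero_mem, ?_⟩
        simp
      smul_mem' := by
        rintro r a ⟨ha, ha'⟩
        refine ⟨F.smul_mem r ha, ?_⟩
        rw [hssmul, map_mul]
        exact lt_of_le_of_lt (mul_le_mul_left (const_le_one v r) _)
          (by rw [one_mul]; exact ha') }
  have hF'F : F' ≤ F := fun c hc => hc.1
  have : FiniteDimensional κ F' := Submodule.finiteDimensional_of_le hF'F
  refine ⟨F', hF'F, ?_, fun c hc => hc.2⟩
  by_cases hall : ∀ c ∈ F, v.1 (∑ i, algebraMap κ L (lam i) * c i) < 1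
  · have : F ≤ F' := fun c hc => ⟨hc, hall c hc⟩
    exact (Submodule.finrank_mono this).trans (Nat.le_succ _)
  · push Not at hall
    obtain ⟨c₀, hc₀, hv₀⟩ := hall
    obtain ⟨r₀, hr₀⟩ := h.place_residue v (hs1 c₀ hc₀)
    have hr₀0 : r₀ ≠ 0 := by
      rintro rfl
      rw [map_zero, sub_zero] at hr₀
      exact absurd hr₀ (not_lt.2 hv₀)
    have hle : F ≤ F' ⊔ Submodule.span κ {c₀} := by
      intro c hc
      obtain ⟨r, hr⟩ := h.place_residue v (hs1 c hc)
      have hmem : c - (r / r₀) • c₀ ∈ F' := by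
        refine ⟨F.sub_mem hc (F.smul_mem _ hc₀), ?_⟩
        have h1 : ∑ i, algebraMap κ L (lam i) * (c - (r / r₀) • c₀) i =
            (∑ i, algebraMap κ L (lam i) * c i - algebraMap κ L r) +
            algebraMap κ L (-(r / r₀)) *
              (∑ i, algebraMap κ L (lam i) * c₀ i - algebraMap κ L r₀) := by
          rw [sub_eq_add_neg c, ← neg_smul, hsadd, hssmul, mul_sub, ← map_mul]
          have h2 : -(r / r₀) * r₀ = -r := by
            field_simp
          rw [h2]
          simp only [map_neg]
          ring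
        rw [h1]
        refine Valuation.map_add_lt v.1 hr ?_
        rw [map_mul]
        exact lt_of_le_of_lt (mul_le_mul_left (const_le_one v _) _)
          (by rw [one_mul]; exact hr₀)
      have h3 : c = (c - (r / r₀) • c₀) + (r / r₀) • c₀ := by abel
      rw [h3]
      exact Submodule.add_mem_sup hmem
        (Submodule.smul_mem _ _ (Submodule.mem_span_singleton_self c₀))
    calc finrank κ F ≤ finrank κ ↥(F' ⊔ Submodule.span κ {c₀}) := Submodule.finrank_mono hle
      _ ≤ finrank κ F' + finrank κ ↥(Submodule.span κ {c₀}) :=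
          Submodule.finrank_add_le_finrank_add_finrank _ _
      _ ≤ finrank κ F' + 1 := by
          have := finrank_span_le_card (R := κ) ({c₀} : Set (ρ → L))
          simp only [Set.toFinset_singleton, Finset.card_singleton] at this
          omega

end Pool.Agent.Lib.MP_44a246_ntO
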