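import Mathlib
import Pool.Agent.Lib.MP_44a246_ntO.O01a

/-!
The index of a lattice at one place.
-/

namespace Pool.Agent.Lib.MP_44a246_ntO

open Pool.Agent.Lib.MP_44a246_nt
open Pool.Agent.Lib.MP_44a246_ntL
open WithZero Module

variable {κ L : Type*} [Field κ] [IsAlgClosed κ] [CharZero κ] [Field L] [Algebra κ L]
  {ρ : Type*} [Fintype ρ] [DecidableEq ρ]

private theorem lt_one_le_exp {x : ℤᵐ⁰} (hx : x < 1) : x ≤ exp (-1) := by
  rcases eq_or_ne x 0 with h0 | h0
  · rw [h0]
    exact zero_le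
  · rw [← exp_log h0] at hx ⊢
    have h1 : (1 : ℤᵐ⁰) = exp 0 := rfl
    rw [h1, exp_lt_exp] at hx
    rw [exp_le_exp]
    omega

private theorem prod_sub_lt (v : Valuation L ℤᵐ⁰) {ι : Type*} (s : Finset ι) {a b : ι → L}
    (ha : ∀ i, v (a i) ≤ 1) (hb : ∀ i, v (b i) ≤ 1) (hab : ∀ i, v (a i - b i) < 1) :
    v (∏ i ∈ s, a i - ∏ i ∈ s, b i) < 1 := by
  classical
  induction s using Finset.induction_on with
  | empty =>
    rw [Finset.prod_empty, Finset.prod_empty, sub_self, map_zero]
    exact zero_lt_one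
  | insert i s hi ih =>
    rw [Finset.prod_insert hi, Finset.prod_insert hi]
    have e : a i * ∏ j ∈ s, a j - b i * ∏ j ∈ s, b j =
        a i * (∏ j ∈ s, a j - ∏ j ∈ s, b j) + (a i - b i) * ∏ j ∈ s, b j := by ring
    rw [e]
    refine Valuation.map_add_lt v ?_ ?_
    · rw [map_mul]
      exact mul_lt_one_of_nonneg_of_lt_one_right (ha i) zero_le ih
    · rw [map_mul]
      refine mul_lt_one_of_nonneg_of_lt_one_left zero_le (hab i) ?_
      rw [map_prod]
      exact Finset.prod_le_one' fun j _ => hb j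

private theorem det_sub_lt (v : Valuation L ℤᵐ⁰) {A B : Matrix ρ ρ L}
    (hA : ∀ i j, v (A i j) ≤ 1) (hB : ∀ i j, v (B i j) ≤ 1) (hAB : ∀ i j, v (A i j - B i j) < 1) :
    v (A.det - B.det) < 1 := by
  rw [Matrix.det_apply, Matrix.det_apply, ← Finset.sum_sub_distrib]
  refine Valuation.map_sum_lt v one_ne_zero fun σ _ => ?_
  have h1 : v (∏ i, A (σ i) i - ∏ i, B (σ i) i) < 1 :=
    prod_sub_lt v _ (fun i => hA _ _) (fun i => hB _ _) (fun i => hAB _ _)
  rcases Int.units_eq_one_or (Equiv.Perm.sign σ) with h2 | h2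
  · rw [h2, one_smul, one_smul]
    exact h1
  · rw [h2, Units.neg_smul, one_smul, Units.neg_smul, one_smul]
    have e : -∏ i, A (σ i) i - -∏ i, B (σ i) i = -(∏ i, A (σ i) i - ∏ i, B (σ i) i) := by ring
    rw [e, Valuation.map_neg]
    exact h1

private theorem inv_le_one (v : Valuation L ℤᵐ⁰) {G : Matrix ρ ρ L} (hG : ∀ i j, v (G i j) ≤ 1)
    (hd : v G.det = 1) {c : ρ → L} (hc : ∀ i, v (c i) ≤ 1) (i : ρ) :
    v (G⁻¹.mulVec c i) ≤ 1 := by
  rw [Matrix.inv_def, Matrix.smul_mulVec, Pi.smul_apply, smul_eq_mul, map_mul,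
    Ring.inverse_eq_inv', map_inv₀, hd, inv_one, one_mul]
  unfold Matrix.mulVec dotProduct
  refine Valuation.map_sum_le v fun j _ => ?_
  rw [map_mul]
  exact mul_le_one' (adjugate_le_one v hG i j) (hc j)

/-- **The local index.** Proof by induction on `e`.
`e = 0`: `G⁻¹ = det⁻¹ • adjugate` has integral entries (`adjugate_le_one`), `F' = F`.
`e + 1`: choose constants `Ḡ i j : κ` with `v (G i j - Ḡ i j) < 1` (`h.place_residue`); then
`v (det G - det Ḡ) < 1` (reduce modulo the maximal ideal, e.g. work in the residue field of the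
valuation subring, or expand the determinant) so `v (det Ḡ) < 1` and `det Ḡ = 0`
(`const_eq_zero_of_lt`). `Matrix.exists_vecMul_eq_zero_iff` gives `lam : ρ → κ`, `lam ≠ 0`,
`lam ᵥ* Ḡ = 0`, so `v (∑ i, lam i * G i j) < 1`, i.e. `≤ exp (-1)`, for every `j`. Let `lam i₀ ≠ 0`
and `π : L` with `v π = exp (-1)`. Let `E` be the identity matrix with the row `i₀` replaced by
`π⁻¹ • lam` (`Matrix.updateRow 1 i₀ _`), `det E = π⁻¹ * lam i₀`. `G' := E * G` has integral entries
and `v (det G') = exp (-e)`. Apply `one_condition` to `F` (get `F₁`), the induction hypothesis to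
`F₁.map E` (integral vectors!) and `G'` (get `F₂`), and put `F' := F₂.map E⁻¹`;
`G⁻¹ c = G'⁻¹ (E c)`. -/
theorem index_le (h : IsFF κ L) (v : Place κ L) : ∀ (e : ℕ) (G : Matrix ρ ρ L),
    (∀ i j, v.1 (G i j) ≤ 1) → v.1 G.det = exp (-(e : ℤ)) →
    ∀ F : Submodule κ (ρ → L), FiniteDimensional κ F → (∀ c ∈ F, ∀ i, v.1 (c i) ≤ 1) →
    ∃ F' ≤ F, finrank κ F ≤ finrank κ F' + e ∧ ∀ c ∈ F', ∀ i, v.1 (G⁻¹.mulVec c i) ≤ 1 := by
  intro e
  induction e with
  | zero =>
    intro G hG hd F hfin hF
    refine ⟨F, le_refl F, by omega, fun c hc i => inv_le_one v.1 hG ?_ (hF c hc) i⟩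
    rw [hd]
    rfl
  | succ e ih =>
    intro G hG hd F hfin hF
    have hGb : ∀ i j, ∃ g : κ, v.1 (G i j - algebraMap κ L g) < 1 :=
      fun i j => h.place_residue v (hG i j)
    choose Gb hGb using hGb
    have hlt1 : v.1 (G.det - ((Matrix.of Gb).map (algebraMap κ L)).det) < 1 :=
      det_sub_lt v.1 hG (fun i j => const_le_one v _) hGb
    have hdet0 : (Matrix.of Gb).det = 0 := by
      apply const_eq_zero_of_lt v
      have e1 : algebraMap κ L (Matrix.of Gb).det = ((Matrix.of Gb).map (algebraMap κ L)).det :=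
        RingHom.map_det _ _
      rw [e1]
      have e2 : ((Matrix.of Gb).map (algebraMap κ L)).det =
          G.det - (G.det - ((Matrix.of Gb).map (algebraMap κ L)).det) := by ring
      rw [e2]
      refine Valuation.map_sub_lt v.1 ?_ hlt1
      rw [hd, ← exp_zero, exp_lt_exp]
      push_cast
      omega
    obtain ⟨lam, hlam0, hlam⟩ := Matrix.exists_vecMul_eq_zero_iff.2 hdet0
    obtain ⟨i₀, hi₀⟩ := Function.ne_iff.1 hlam0
    have hi₀' : lam i₀ ≠ 0 := hi₀
    obtain ⟨π, hπ⟩ := v.2.1 (exp (-1))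
    have hπ0 : π ≠ 0 := by
      rintro rfl
      rw [map_zero] at hπ
      exact exp_ne_zero hπ.symm
    have hπi : v.1 π⁻¹ = exp 1 := by
      rw [map_inv₀, hπ, ← exp_neg, neg_neg]
    have hexp : (exp (1 : ℤ) : ℤᵐ⁰) * exp (-1) = 1 := by
      rw [← exp_add]
      rfl
    set u : ρ → L := fun i => π⁻¹ * algebraMap κ L (lam i) with hu
    set E : Matrix ρ ρ L := Matrix.updateRow 1 i₀ u with hE
    have hdE : E.det = u i₀ := by
      rw [hE, ← Matrix.cramer_transpose_apply, Matrix.transpose_one, Matrix.cramer_one]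
      rfl
    have hdE0 : IsUnit E.det := by
      rw [hdE, hu, isUnit_iff_ne_zero]
      refine mul_ne_zero (inv_ne_zero hπ0) ?_
      rw [Ne, map_eq_zero]
      exact hi₀'
    have hvdE : v.1 E.det = exp 1 := by
      rw [hdE, hu]
      change v.1 (π⁻¹ * algebraMap κ L (lam i₀)) = _
      rw [map_mul, hπi, v.2.2 _ hi₀', mul_one]
    have hEc : ∀ (c : ρ → L) (i : ρ), E.mulVec c i =
        if i = i₀ then π⁻¹ * ∑ j, algebraMap κ L (lam j) * c j else c i := by
      intro c i
      rw [hE]
      unfold Matrix.mulVec dotProduct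
      split_ifs with hi
      · subst hi
        simp only [Matrix.updateRow_self, hu]
        rw [Finset.mul_sum]
        exact Finset.sum_congr rfl fun j _ => by ring
      · simp only [Matrix.updateRow_ne hi]
        simp [Matrix.one_apply]
    have hEG : ∀ i j, (E * G) i j = E.mulVec (fun k => G k j) i := fun i j => rfl
    have hsmall : ∀ j, v.1 (∑ i, algebraMap κ L (lam i) * G i j) ≤ exp (-1) := by
      intro j
      apply lt_one_le_exp
      have e1 : ∑ i, algebraMap κ L (lam i) * algebraMap κ L (Gb i j) = 0 := by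
        have e2 := congrFun hlam j
        have e3 : ∑ i, lam i * Gb i j = 0 := e2
        have e4 := congrArg (algebraMap κ L) e3
        rw [map_sum, map_zero] at e4
        simpa only [map_mul] using e4
      have e5 : ∑ i, algebraMap κ L (lam i) * G i j =
          ∑ i, algebraMap κ L (lam i) * (G i j - algebraMap κ L (Gb i j)) := by
        simp only [mul_sub, Finset.sum_sub_distrib]
        rw [e1, sub_zero]
      rw [e5]
      refine Valuation.map_sum_lt v.1 one_ne_zero fun i _ => ?_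
      rw [map_mul]
      exact mul_lt_one_of_nonneg_of_lt_one_right (const_le_one v _) zero_le (hGb i j)
    have hG' : ∀ i j, v.1 ((E * G) i j) ≤ 1 := by
      intro i j
      rw [hEG, hEc]
      split_ifs with hi
      · rw [map_mul, hπi]
        exact (mul_le_mul_right (hsmall j) _).trans hexp.le
      · exact hG i j
    have hd' : v.1 (E * G).det = exp (-(e : ℤ)) := by
      rw [Matrix.det_mul, map_mul, hvdE, hd, ← exp_add]
      congr 1
      push_cast
      ring
    obtain ⟨F₁, hF₁, hfr, hsm⟩ := one_condition h v lam F hF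
    have hfin₁ : FiniteDimensional κ F₁ := Submodule.finiteDimensional_of_le hF₁
    let f : (ρ → L) →ₗ[κ] (ρ → L) := (Matrix.mulVecLin E).restrictScalars κ
    have hf : ∀ c, f c = E.mulVec c := fun c => rfl
    have hfinj : Function.Injective f := by
      intro a b hab
      have h1 : E.mulVec a = E.mulVec b := hab
      have h2 := congrArg (fun x => E⁻¹.mulVec x) h1
      simp only [Matrix.mulVec_mulVec, Matrix.nonsing_inv_mul _ hdE0, Matrix.one_mulVec] at h2
      exact h2
    have hfrk : ∀ W : Submodule κ (ρ → L), finrank κ (W.map f) = finrank κ W := fun W =>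
      (LinearEquiv.finrank_eq (Submodule.equivMapOfInjective f hfinj W)).symm
    have hint : ∀ c ∈ F₁.map f, ∀ i, v.1 (c i) ≤ 1 := by
      rintro c ⟨b, hb, rfl⟩ i
      rw [hf, hEc]
      split_ifs with hi
      · rw [map_mul, hπi]
        exact (mul_le_mul_right (lt_one_le_exp (hsm b hb)) _).trans hexp.le
      · exact hF b (hF₁ hb) i
    obtain ⟨F₂, hF₂, hfr₂, hc₂⟩ := ih (E * G) hG' hd' (F₁.map f) inferInstance hint
    have hmap : (F₂.comap f).map f = F₂ := by
      apply Submodule.map_comap_eq_of_le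
      intro x hx
      obtain ⟨y, _, rfl⟩ := hF₂ hx
      exact ⟨y, rfl⟩
    refine ⟨F₂.comap f, ?_, ?_, ?_⟩
    · intro x hx
      obtain ⟨y, hy, hxy⟩ := hF₂ hx
      rw [← hfinj hxy]
      exact hF₁ hy
    · have h1 := hfrk (F₂.comap f)
      rw [hmap] at h1
      rw [hfrk] at hfr₂
      omega
    · intro c hc i
      have h1 := hc₂ (f c) hc i
      rw [Matrix.mul_inv_rev, hf, Matrix.mulVec_mulVec, Matrix.mul_assoc,
        Matrix.nonsing_inv_mul _ hdE0, Matrix.mul_one] at h1
      exact h1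

end Pool.Agent.Lib.MP_44a246_ntO
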