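import Mathlib
import Pool.Agent.Lib.MP_44a246_ntO.O01

/-!
The condition at one place.
-/

namespace Pool.Agent.Lib.MP_44a246_ntO

open Pool.Agent.Lib.MP_44a246_nt
open Pool.Agent.Lib.MP_44a246_ntL
open WithZero Module

variable {κ L : Type*} [Field κ] [IsAlgClosed κ] [CharZero κ] [Field L] [Algebra κ L]
  {ρ : Type*} [Fintype ρ] [DecidableEq ρ]

/-- The condition at one place. Proof: choose `z₁, z₂ : L` with `w z₁ = exp (-b)`,
`w z₂ = exp (-a)`. `G := (z₁ / z₂) • g⁻¹` has integral entries (`g⁻¹ = det⁻¹ • adjugate`,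
`adjugate_le_one`, `a + e ≤ b`) and `w (det G) = exp (-(card ρ * (b - a) - e)) = exp (-m)`. Apply
`index_le` to `G` and `F.map (z₁ • ·)` (`κ`-linear, injective) and divide by `z₁`:
`G⁻¹ (z₁ • c) = z₂ • (g c)` has integral coordinates. -/
theorem place_condition (h : IsFF κ L) (w : Place κ L) {g : Matrix ρ ρ L}
    (hg : ∀ i j, w.1 (g i j) ≤ 1) {e : ℕ} (hdet : w.1 g.det = exp (-(e : ℤ))) {a b : ℤ}
    (hab : a + e ≤ b) {m : ℕ} (hm : (m : ℤ) = Fintype.card ρ * (b - a) - e)
    (F : Submodule κ (ρ → L)) [FiniteDimensional κ F] (hF : ∀ c ∈ F, ∀ i, w.1 (c i) ≤ exp b) :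
    ∃ F' ≤ F, finrank κ F ≤ finrank κ F' + m ∧ ∀ c ∈ F', ∀ i, w.1 (g.mulVec c i) ≤ exp a := by
  obtain ⟨z₁, hz₁⟩ := w.2.1 (exp (-b))
  obtain ⟨z₂, hz₂⟩ := w.2.1 (exp (-a))
  have hz₁0 : z₁ ≠ 0 := by
    rintro rfl
    rw [map_zero] at hz₁
    exact exp_ne_zero hz₁.symm
  have hz₂0 : z₂ ≠ 0 := by
    rintro rfl
    rw [map_zero] at hz₂
    exact exp_ne_zero hz₂.symm
  have hd0 : g.det ≠ 0 := by
    intro h0
    rw [h0, map_zero] at hdet
    exact exp_ne_zero hdet.symm
  have hdu : IsUnit g.det := isUnit_iff_ne_zero.2 hd0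
  have hz : w.1 (z₁ / z₂) = exp (a - b) := by
    rw [map_div₀, hz₁, hz₂, ← exp_sub]
    congr 1
    ring
  have hz0 : z₁ / z₂ ≠ 0 := div_ne_zero hz₁0 hz₂0
  set G : Matrix ρ ρ L := (z₁ / z₂) • g⁻¹ with hGdef
  have hGint : ∀ i j, w.1 (G i j) ≤ 1 := by
    intro i j
    have h1 : G i j = (z₁ / z₂) * (g.det⁻¹ * g.adjugate i j) := by
      rw [hGdef, Matrix.smul_apply, Matrix.inv_def, Matrix.smul_apply, Ring.inverse_eq_inv',
        smul_eq_mul, smul_eq_mul]
    rw [h1, map_mul, map_mul, hz, map_inv₀, hdet]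
    calc exp (a - b) * ((exp (-(e : ℤ)))⁻¹ * w.1 (g.adjugate i j))
        ≤ exp (a - b) * ((exp (-(e : ℤ)))⁻¹ * 1) := by
          gcongr
          exact adjugate_le_one w.1 hg i j
      _ = exp (a - b + e) := by
          rw [mul_one, ← exp_neg, ← exp_add, neg_neg]
      _ ≤ exp 0 := exp_le_exp.2 (by linarith)
      _ = 1 := exp_zero
  have hGdet : w.1 G.det = exp (-(m : ℤ)) := by
    rw [hGdef, Matrix.det_smul, map_mul, map_pow, hz, Matrix.det_nonsing_inv,
      Ring.inverse_eq_inv', map_inv₀, hdet, ← exp_nsmul, ← exp_neg, ← exp_add]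
    congr 1
    rw [hm, nsmul_eq_mul]
    ring
  have hGinv : G⁻¹ = (z₁ / z₂)⁻¹ • g := by
    apply Matrix.inv_eq_left_inv
    rw [hGdef, Matrix.smul_mul, Matrix.mul_smul, smul_smul, Matrix.mul_nonsing_inv _ hdu,
      inv_mul_cancel₀ hz0, one_smul]
  let f : (ρ → L) →ₗ[κ] (ρ → L) :=
    { toFun := fun c i => z₁ * c i
      map_add' := fun c d => by
        funext i
        simp only [Pi.add_apply]
        ring
      map_smul' := fun r c => by
        funext i
        simp only [Pi.smul_apply, RingHom.id_apply]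
        rw [mul_smul_comm] }
  have hfa : ∀ c i, f c i = z₁ * c i := fun _ _ => rfl
  have hf : Function.Injective f := by
    intro c d hcd
    funext i
    have h1 := congrFun hcd i
    rw [hfa, hfa] at h1
    exact mul_left_cancel₀ hz₁0 h1
  have hF1 : ∀ c ∈ F.map f, ∀ i, w.1 (c i) ≤ 1 := by
    rintro c ⟨d, hd, rfl⟩ i
    rw [hfa, map_mul, hz₁]
    calc exp (-b) * w.1 (d i) ≤ exp (-b) * exp b := by
          gcongr
          exact hF d hd i
      _ = 1 := by
          rw [← exp_add, neg_add_cancel, exp_zero]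
  obtain ⟨F₁, hF₁, hrk, hF₁c⟩ := index_le h w m G hGint hGdet (F.map f) inferInstance hF1
  have hmap : (F₁.comap f).map f = F₁ := by
    rw [Submodule.map_comap_eq]
    refine inf_eq_right.2 (hF₁.trans ?_)
    exact LinearMap.map_le_range
  refine ⟨F₁.comap f, ?_, ?_, ?_⟩
  · intro c hc
    obtain ⟨d, hd, hdc⟩ := hF₁ hc
    rw [← hf hdc]
    exact hd
  · have h1 : finrank κ (F.map f) = finrank κ F :=
      (Submodule.equivMapOfInjective f hf F).finrank_eq.symm
    have h2 : finrank κ ((F₁.comap f).map f) = finrank κ (F₁.comap f) :=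
      (Submodule.equivMapOfInjective f hf (F₁.comap f)).finrank_eq.symm
    rw [hmap] at h2
    rw [← h1, ← h2]
    exact hrk
  · intro c hc i
    have h1 := hF₁c (f c) hc i
    have h2 : G⁻¹.mulVec (f c) i = z₂ * g.mulVec c i := by
      rw [hGinv, Matrix.smul_mulVec]
      have h3 : f c = z₁ • c := by
        funext j
        rw [hfa]
        rfl
      rw [h3, Matrix.mulVec_smul, smul_smul, Pi.smul_apply, smul_eq_mul]
      congr 1
      field_simp
    rw [h2, map_mul, hz₂] at h1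
    calc w.1 (g.mulVec c i) = exp a * (exp (-a) * w.1 (g.mulVec c i)) := by
          rw [← mul_assoc, ← exp_add, add_neg_cancel, exp_zero, one_mul]
      _ ≤ exp a * 1 := by gcongr
      _ = exp a := mul_one _

end Pool.Agent.Lib.MP_44a246_ntO
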