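import Mathlib
import Pool.Agent.Lib.MP_44a246_ntO.O02a
import Pool.Agent.Lib.MP_44a246_ntO.O02b

/-!
The inequality of Riemann for a lattice.
-/

namespace Pool.Agent.Lib.MP_44a246_ntO

open Pool.Agent.Lib.MP_44a246_nt
open Pool.Agent.Lib.MP_44a246_ntL
open Pool.Agent.Lib.MP_44a246_ntR
open WithZero Module

variable {κ L : Type*} [Field κ] [IsAlgClosed κ] [CharZero κ] [Field L] [Algebra κ L]
  {ρ : Type*} [Fintype ρ] [DecidableEq ρ]

/-- **The inequality of Riemann for a lattice.** `g w` is the identity matrix at almost all places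
and integral with determinant of order `e w` at the other places. Proof: `B w := D w + e w`
(`Finsupp`), `F := box ρ B`, `finrank F ≥ card ρ * (divDeg B + 1 - genus)` (`finrank_box`),
`divDeg B = divDeg D + ∑ e`. Induction over the finite set `e.support` with `place_condition`
(`a = D w`, `b = B w`, `m = card ρ * e w - e w ≥ 0`): after all places of `e.support` there is
`F' ≤ F` with `finrank F ≤ finrank F' + ∑ (card ρ - 1) * e w` and
`w (g w c i) ≤ exp (D w)` for `c ∈ F'`, `w ∈ e.support`; at the other places `g w = 1` and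
`B w = D w`. So `finrank F' ≥ card ρ * (divDeg D + 1 - genus) + ∑ e > 0` and `F'` contains a
nonzero vector. -/
theorem exists_lattice_vector (h : IsFF κ L) [Nonempty ρ] {g : Place κ L → Matrix ρ ρ L}
    (hg : ∀ (w : Place κ L) i j, w.1 (g w i j) ≤ 1) {e : Place κ L →₀ ℕ}
    (hdet : ∀ w : Place κ L, w.1 (g w).det = exp (-(e w : ℤ))) (hone : ∀ w, e w = 0 → g w = 1)
    (D : Place κ L →₀ ℤ)
    (hD : 0 < (Fintype.card ρ : ℤ) * (divDeg D + 1 - genus κ L) + e.sum fun _ n => (n : ℤ)) :
    ∃ c : ρ → L, c ≠ 0 ∧ ∀ (w : Place κ L) i, w.1 ((g w).mulVec c i) ≤ exp (D w) := by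
  classical
  have hcard : 1 ≤ Fintype.card ρ := Fintype.card_pos
  set eZ : Place κ L →₀ ℤ := e.mapRange (fun n : ℕ => (n : ℤ)) rfl with heZ
  set B : Place κ L →₀ ℤ := D + eZ with hB
  have hBw : ∀ w, B w = D w + (e w : ℤ) := fun w => by
    rw [hB, heZ, Finsupp.add_apply, Finsupp.mapRange_apply]
  have hfin : FiniteDimensional κ (box ρ B) := finite_box h B
  have key : ∀ S : Finset (Place κ L), ∃ F' : Submodule κ (ρ → L), F' ≤ box ρ B ∧
      finrank κ (box ρ B) ≤ finrank κ F' + ∑ w ∈ S, (Fintype.card ρ - 1) * e w ∧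
      ∀ c ∈ F', ∀ w ∈ S, ∀ i, w.1 ((g w).mulVec c i) ≤ exp (D w) := by
    intro S
    induction S using Finset.induction_on with
    | empty => exact ⟨box ρ B, le_rfl, by simp, fun _ _ w hw => absurd hw (Finset.notMem_empty w)⟩
    | @insert w S hw ih =>
      obtain ⟨F, hF1, hF2, hF3⟩ := ih
      haveI : FiniteDimensional κ F := Submodule.finiteDimensional_of_le hF1
      obtain ⟨F', hF'1, hF'2, hF'3⟩ := place_condition h w (g := g w) (hg w) (e := e w) (hdet w)
        (a := D w) (b := B w) (by rw [hBw]) (m := (Fintype.card ρ - 1) * e w)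
        (by rw [hBw]; push_cast [Nat.cast_sub hcard]; ring) F (fun c hc i => hF1 hc i w)
      refine ⟨F', hF'1.trans hF1, ?_, ?_⟩
      · rw [Finset.sum_insert hw]
        omega
      · intro c hc w' hw' i
        rcases Finset.mem_insert.1 hw' with rfl | h'
        · exact hF'3 c hc i
        · exact hF3 c (hF'1 hc) w' h' i
  obtain ⟨F', hF'1, hF'2, hF'3⟩ := key e.support
  have hdeg : divDeg B = divDeg D + e.sum fun _ n => (n : ℤ) := by
    unfold divDeg
    rw [hB, Finsupp.sum_add_index' (fun _ => rfl) (fun _ _ _ => rfl), heZ,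
      Finsupp.sum_mapRange_index (fun _ => rfl)]
  have hbox := finrank_box (ρ := ρ) h B
  have hsum : ((∑ w ∈ e.support, (Fintype.card ρ - 1) * e w : ℕ) : ℤ) =
      ((Fintype.card ρ : ℤ) - 1) * e.sum fun _ n => (n : ℤ) := by
    rw [← Finset.mul_sum]
    push_cast [Nat.cast_sub hcard]
    rfl
  have hpos : 0 < finrank κ F' := by
    have h1 : ((finrank κ (box ρ B) : ℕ) : ℤ) ≤ (finrank κ F' : ℤ) +
        ((∑ w ∈ e.support, (Fintype.card ρ - 1) * e w : ℕ) : ℤ) := by exact_mod_cast hF'2
    rw [hsum] at h1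
    rw [hdeg] at hbox
    have h2 : (0 : ℤ) < finrank κ F' := by nlinarith
    exact_mod_cast h2
  haveI : FiniteDimensional κ F' := Submodule.finiteDimensional_of_le hF'1
  have hne : F' ≠ ⊥ := by
    rintro rfl
    rw [finrank_bot] at hpos
    exact lt_irrefl _ hpos
  obtain ⟨c, hc, hc0⟩ := Submodule.exists_mem_ne_zero_of_ne_bot hne
  refine ⟨c, hc0, fun w i => ?_⟩
  by_cases hw : e w = 0
  · rw [hone w hw, Matrix.one_mulVec]
    have := hF'1 hc i w
    rwa [hBw, hw, Nat.cast_zero, add_zero] at this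
  · exact hF'3 c hc w (Finsupp.mem_support_iff.2 hw) i

end Pool.Agent.Lib.MP_44a246_ntO
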