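import Mathlib
import Pool.Agent.Lib.MP_44a246_ntO.O02
import Pool.Agent.Lib.MP_44a246_ntS.SB1b
import Pool.Agent.Lib.MP_44a246_ntS.SA2b

/-!
Siegel's lemma for the dual of a subspace.
-/

namespace Pool.Agent.Lib.MP_44a246_ntO

open Pool.Agent.Lib.MP_44a246_nt
open Pool.Agent.Lib.MP_44a246_ntL
open Pool.Agent.Lib.MP_44a246_ntS
open Pool.Agent.Lib.MP_44a246_ntR
open WithZero Module

section aux

variable {L : Type*} [Field L] {ρ ι : Type*} [Fintype ρ] [DecidableEq ρ] [Fintype ι]

omit [Fintype ι] in
private theorem span_change {a : ρ → ι → L} {g : Matrix ρ ρ L} (hg : g.det ≠ 0) :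
    Submodule.span L (Set.range fun i k => ∑ j, g i j * a j k) =
      Submodule.span L (Set.range a) := by
  have hu : IsUnit g.det := isUnit_iff_ne_zero.2 hg
  have hb : ∀ i, (fun k => ∑ j, g i j * a j k) = ∑ j, g i j • a j := by
    intro i
    funext k
    rw [Finset.sum_apply]
    rfl
  apply le_antisymm
  · rw [Submodule.span_le]
    rintro _ ⟨i, rfl⟩
    simp only [SetLike.mem_coe]
    rw [hb i]
    exact Submodule.sum_mem _ fun j _ => Submodule.smul_mem _ _ (Submodule.subset_span ⟨j, rfl⟩)
  · rw [Submodule.span_le]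
    rintro _ ⟨i, rfl⟩
    simp only [SetLike.mem_coe]
    have h1 : a i = ∑ l, g⁻¹ i l • (fun k => ∑ j, g l j * a j k) := by
      funext k
      rw [Finset.sum_apply]
      have h2 : ∑ l, (g⁻¹ i l • (fun k => ∑ j, g l j * a j k)) k =
          ∑ l, ∑ j, g⁻¹ i l * (g l j * a j k) := by
        refine Finset.sum_congr rfl fun l _ => ?_
        rw [Pi.smul_apply, smul_eq_mul, Finset.mul_sum]
      rw [h2, Finset.sum_comm]
      have h3 : ∀ j, ∑ l, g⁻¹ i l * (g l j * a j k) = (g⁻¹ * g) i j * a j k := by
        intro j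
        rw [Matrix.mul_apply, Finset.sum_mul]
        exact Finset.sum_congr rfl fun l _ => by ring
      rw [Finset.sum_congr rfl fun j _ => h3 j, Matrix.nonsing_inv_mul g hu]
      rw [Finset.sum_eq_single i]
      · rw [Matrix.one_apply_eq, one_mul]
      · intro j _ hj
        rw [Matrix.one_apply_ne (Ne.symm hj), zero_mul]
      · intro h
        exact absurd (Finset.mem_univ i) h
    rw [h1]
    exact Submodule.sum_mem _ fun l _ => Submodule.smul_mem _ _ (Submodule.subset_span ⟨l, rfl⟩)

omit [Fintype ι] in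
/-- expansion of a vector in a family with a unit minor -/
private theorem expand {b : ρ → ι → L} {q : ρ → ι}
    (hq : ∀ i j, b i (q j) = if i = j then 1 else 0) {y : ι → L}
    (hy : y ∈ Submodule.span L (Set.range b)) (k : ι) : y k = ∑ i, y (q i) * b i k := by
  rw [Submodule.mem_span_range_iff_exists_fun] at hy
  obtain ⟨t, rfl⟩ := hy
  have h1 : ∀ i, (∑ j, t j • b j) (q i) = t i := by
    intro i
    rw [Finset.sum_apply, Finset.sum_eq_single i]
    · rw [Pi.smul_apply, hq, if_pos rfl, smul_eq_mul, mul_one]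
    · intro j _ hj
      rw [Pi.smul_apply, hq, if_neg hj, smul_zero]
    · intro h
      exact absurd (Finset.mem_univ i) h
  have h2 : ∑ i, (∑ j, t j • b j) (q i) * b i k = ∑ i, t i * b i k :=
    Finset.sum_congr rfl fun i _ => by rw [h1 i]
  rw [h2, Finset.sum_apply]
  rfl

/-- the entries of a family with a unit minor are minors -/
private theorem entry_le_pl (v : Valuation L ℤᵐ⁰) {a : ρ → ι → L} {f : ρ → ι}
    (hf : ∀ i j, a i (f j) = if i = j then 1 else 0) (i : ρ) (k : ι) : v (a i k) ≤ pl v a := by
  have h1 := le_vmax v (fun e : ρ → ι => (Matrix.of fun i j => a i (e j)).det)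
    (Function.update f i k)
  have h2 : (Matrix.of fun i' j' => a i' (Function.update f i k j')).det = a i k := by
    have h3 : (Matrix.of fun i' j' => a i' (Function.update f i k j')) =
        (1 : Matrix ρ ρ L).updateCol i (fun i' => a i' k) := by
      ext i' j'
      rw [Matrix.updateCol_apply, Matrix.of_apply]
      by_cases hj : j' = i
      · rw [if_pos hj, hj, Function.update_self]
      · rw [if_neg hj, Function.update_of_ne hj, hf, Matrix.one_apply]
    rw [h3, ← Matrix.cramer_apply, Matrix.cramer_one]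
    rfl
  rw [h2] at h1
  exact h1

/-- the unit minor -/
private theorem one_le_pl (v : Valuation L ℤᵐ⁰) {a : ρ → ι → L} {f : ρ → ι}
    (hf : ∀ i j, a i (f j) = if i = j then 1 else 0) : 1 ≤ pl v a := by
  have h1 := le_vmax v (fun e : ρ → ι => (Matrix.of fun i j => a i (e j)).det) f
  have h2 : (Matrix.of fun i' j' => a i' (f j')) = (1 : Matrix ρ ρ L) := by
    ext i' j'
    rw [Matrix.of_apply, hf, Matrix.one_apply]
  simp only [h2, Matrix.det_one, map_one] at h1
  exact h1

/-- the local matrix -/
private theorem exists_local (v : Valuation L ℤᵐ⁰) {a : ρ → ι → L} (ha : LinearIndependent L a)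
    {f : ρ → ι} (hf : ∀ i j, a i (f j) = if i = j then 1 else 0) :
    ∃ (G : Matrix ρ ρ L) (q : ρ → ι), (∀ i j, v (G i j) ≤ 1) ∧
      v G.det = exp (-((log (pl v a)).toNat : ℤ)) ∧ ((log (pl v a)).toNat = 0 → G = 1) ∧
      Red v (fun i k => ∑ j, G i j * a j k) q := by
  have hone := one_le_pl v hf
  have hne := pl_ne_zero v ha
  have hlog : 0 ≤ log (pl v a) := by
    rw [← log_one]
    exact (log_le_log one_ne_zero hne).2 hone
  have hcast : ((log (pl v a)).toNat : ℤ) = log (pl v a) := Int.toNat_of_nonneg hlog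
  by_cases h0 : (log (pl v a)).toNat = 0
  · have h1 : pl v a = 1 := by
      rw [h0, Nat.cast_zero] at hcast
      rw [← exp_log hne, ← hcast, exp_zero]
    have h2 : (fun i k => ∑ j, (1 : Matrix ρ ρ L) i j * a j k) = a := by
      funext i k
      rw [Finset.sum_eq_single i]
      · rw [Matrix.one_apply_eq, one_mul]
      · intro j _ hj
        rw [Matrix.one_apply_ne (Ne.symm hj), zero_mul]
      · intro h
        exact absurd (Finset.mem_univ i) h
    refine ⟨1, f, ?_, ?_, fun _ => rfl, ?_⟩
    · intro i j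
      rw [Matrix.one_apply]
      split_ifs
      · rw [map_one]
      · rw [map_zero]
        exact zero_le
    · rw [Matrix.det_one, map_one, h0, Nat.cast_zero, neg_zero, exp_zero]
    · rw [h2]
      exact ⟨hf, fun i k => by rw [← h1]; exact entry_le_pl v hf i k⟩
  · obtain ⟨G, q, hG, hR⟩ := exists_red v ha
    have h3 : ∀ i j, (∑ l, G i l * a l (f j)) = G i j := by
      intro i j
      rw [Finset.sum_eq_single j]
      · rw [hf, if_pos rfl, mul_one]
      · intro l _ hl
        rw [hf, if_neg hl, mul_zero]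
      · intro h
        exact absurd (Finset.mem_univ j) h
    refine ⟨G, q, ?_, ?_, fun h => absurd h h0, hR⟩
    · intro i j
      have := hR.int i (f j)
      rw [h3] at this
      exact this
    · have h4 := hR.pl_eq
      rw [pl_mul] at h4
      rw [hcast, exp_neg, exp_log hne]
      exact eq_inv_of_mul_eq_one_left h4

end aux

variable {κ L : Type*} [Field κ] [IsAlgClosed κ] [CharZero κ] [Field L] [Algebra κ L]
  {ι : Type*} [Fintype ι]

/-- **Siegel's lemma (dual form).** A linear form on the space `Λ`, not zero on `Λ`, of norm at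
most `exp (D w)` on `Λ` at every place `w`.
Proof. Let `r = finrank Λ ≥ 1`. Take any basis of `Λ` and columns `f : Fin r → ι` with nonzero
minor; after a change of basis we have a basis `a : Fin r → ι → L` of `Λ` with
`a i (f j) = if i = j then 1 else 0` (so `y = ∑ i, y (f i) • a i` for `y ∈ Λ`). At a place `w`
`exists_red w.1` gives `G` and pivots `q` with `b i k = ∑ j, G i j * a j k` reduced
(`Red w.1 b q`); `G.det ≠ 0`; `pl w.1 b = 1` (`Red.pl_eq`) and `pl_mul` give
`w G.det * pl w a = 1`. If `pl w a = 1` choose `G = 1`, `q = f` instead (`a` is then itself reduced: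
its entries are minors up to sign - or: `v (a i k) ≤ pl`). The columns `f`: `b i (f j) = G i j`, so
`G` has integral entries. For `y ∈ Λ`: `y = ∑ i, y (q i) • b i`, hence `y (f j) = ∑ i, y (q i) * G i j`
and `∑ j, c j * y (f j) = ∑ i, (G.mulVec c) i * y (q i)`. So `g w := G`,
`e w := (log (pl w a)).toNat` (finite support: `pl_support`), `∑ e = ht Λ` (`ht_span`),
`exists_lattice_vector` gives `c ≠ 0`; `l k := ∑ j, if k = f j then c j else 0`,
`m k := ∑ i, if k = q i then (G.mulVec c) i else 0`; `l` is not zero on `Λ`: `∑ k, l k * a j k = c j`. -/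
theorem siegel (h : IsFF κ L) {Λ : Submodule L (ι → L)} (hΛ : Λ ≠ ⊥) (D : Place κ L →₀ ℤ)
    (hD : 0 < (finrank L Λ : ℤ) * (divDeg D + 1 - genus κ L) + ht κ Λ) :
    ∃ l : ι → L, (∃ y ∈ Λ, ∑ k, l k * y k ≠ 0) ∧
      ∀ w : Place κ L, ∃ m : ι → L, (∀ k, w.1 (m k) ≤ exp (D w)) ∧
        ∀ y ∈ Λ, ∑ k, m k * y k = ∑ k, l k * y k := by
  classical
  obtain ⟨r, hr⟩ : ∃ r, r = finrank L Λ := ⟨_, rfl⟩
  have hpos : 0 < finrank L Λ := by
    rw [Module.finrank_pos_iff]
    exact Submodule.nontrivial_iff_ne_bot.2 hΛ
  rcases isEmpty_or_nonempty (Place κ L) with hp | ⟨⟨w0⟩⟩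
  · obtain ⟨y, hy, hy0⟩ := Submodule.exists_mem_ne_zero_of_ne_bot hΛ
    obtain ⟨k, hk⟩ := Function.ne_iff.1 hy0
    refine ⟨Pi.single k 1, ⟨y, hy, ?_⟩, fun w => (hp.false w).elim⟩
    rw [Finset.sum_eq_single k]
    · rw [Pi.single_eq_same, one_mul]
      exact hk
    · intro j _ hj
      rw [Pi.single_eq_of_ne hj, zero_mul]
    · intro h
      exact absurd (Finset.mem_univ k) h
  haveI : Nonempty (Fin (finrank L Λ)) := ⟨⟨0, hpos⟩⟩
  obtain ⟨hli0, hsp0⟩ := finBasis_val Λ
  obtain ⟨g0, f, hg0, hR0⟩ := exists_red w0.1 hli0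
  obtain ⟨a, haa⟩ : ∃ a : Fin (finrank L Λ) → ι → L,
      a = fun i k => ∑ j, g0 i j * (Module.finBasis L Λ j : ι → L) k := ⟨_, rfl⟩
  have hf : ∀ i j, a i (f j) = if i = j then 1 else 0 := by
    rw [haa]
    exact hR0.piv
  have hli : LinearIndependent L a := by
    rw [haa]
    exact hR0.linearIndependent
  have hsp : Submodule.span L (Set.range a) = Λ := by
    rw [haa, span_change hg0]
    exact hsp0
  choose G q hG1 hGdet hGone hGR using fun w : Place κ L => exists_local w.1 hli hf
  have hfin : (Function.support fun w : Place κ L => (log (pl w.1 a)).toNat).Finite := by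
    refine (pl_support h hli).subset fun w hw => ?_
    rw [Function.mem_support] at hw ⊢
    intro h0
    rw [h0] at hw
    exact hw rfl
  obtain ⟨e, he⟩ : ∃ e : Place κ L →₀ ℕ, ∀ w, e w = (log (pl w.1 a)).toNat :=
    ⟨Finsupp.ofSupportFinite _ hfin, fun w => rfl⟩
  have hht : ht κ Λ = e.sum fun _ n => (n : ℤ) := by
    have h1 := ht_span h hli
    rw [hsp] at h1
    rw [h1, Finsupp.sum]
    have h2 : (fun w : Place κ L => log (pl w.1 a)) = fun w => ((e w : ℕ) : ℤ) := by
      funext w
      have hone := one_le_pl w.1 hf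
      have hne := pl_ne_zero w.1 hli
      have hlog : 0 ≤ log (pl w.1 a) := by
        rw [← log_one]
        exact (log_le_log one_ne_zero hne).2 hone
      rw [he w, Int.toNat_of_nonneg hlog]
    rw [h2]
    refine finsum_eq_sum_of_support_subset _ fun w hw => ?_
    rw [Function.mem_support] at hw
    rw [Finset.mem_coe, Finsupp.mem_support_iff]
    intro h0
    rw [h0] at hw
    exact hw rfl
  obtain ⟨c, hc0, hc⟩ := exists_lattice_vector h (ρ := Fin (finrank L Λ)) (g := G) hG1 (e := e)
    (fun w => by rw [he w]; exact hGdet w) (fun w hw => hGone w (by rw [← he w]; exact hw)) D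
    (by rw [Fintype.card_fin, ← hht]; exact hD)
  have hl : ∀ y : ι → L, ∑ k, (∑ j, if k = f j then c j else 0) * y k = ∑ j, c j * y (f j) := by
    intro y
    simp only [Finset.sum_mul]
    rw [Finset.sum_comm]
    refine Finset.sum_congr rfl fun j _ => ?_
    rw [Finset.sum_eq_single (f j)]
    · rw [if_pos rfl]
    · intro k _ hk
      rw [if_neg hk, zero_mul]
    · intro h
      exact absurd (Finset.mem_univ _) h
  refine ⟨fun k => ∑ j, if k = f j then c j else 0, ?_, ?_⟩
  · obtain ⟨j, hj⟩ := Function.ne_iff.1 hc0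
    refine ⟨a j, ?_, ?_⟩
    · rw [← hsp]
      exact Submodule.subset_span ⟨j, rfl⟩
    · rw [hl, Finset.sum_eq_single j]
      · rw [hf, if_pos rfl, mul_one]
        exact hj
      · intro i _ hi
        rw [hf, if_neg (Ne.symm hi), mul_zero]
      · intro h
        exact absurd (Finset.mem_univ _) h
  · intro w
    refine ⟨fun k => ∑ i, if k = q w i then (G w).mulVec c i else 0, ?_, ?_⟩
    · intro k
      refine Valuation.map_sum_le w.1 fun i _ => ?_
      split_ifs
      · exact hc w i
      · rw [map_zero]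
        exact zero_le
    · intro y hy
      rw [hl y]
      have hm : ∑ k, (∑ i, if k = q w i then (G w).mulVec c i else 0) * y k =
          ∑ i, (G w).mulVec c i * y (q w i) := by
        simp only [Finset.sum_mul]
        rw [Finset.sum_comm]
        refine Finset.sum_congr rfl fun j _ => ?_
        rw [Finset.sum_eq_single (q w j)]
        · rw [if_pos rfl]
        · intro k _ hk
          rw [if_neg hk, zero_mul]
        · intro h
          exact absurd (Finset.mem_univ _) h
      rw [hm]
      have hGne : (G w).det ≠ 0 := by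
        intro h0
        have h1 := hGdet w
        rw [h0, map_zero] at h1
        exact exp_ne_zero h1.symm
      have hyb : y ∈ Submodule.span L (Set.range fun i k => ∑ j, G w i j * a j k) := by
        rw [span_change hGne, hsp]
        exact hy
      have hye : ∀ j, y (f j) = ∑ i, y (q w i) * G w i j := by
        intro j
        rw [expand (hGR w).piv hyb (f j)]
        refine Finset.sum_congr rfl fun i _ => ?_
        congr 1
        rw [Finset.sum_eq_single j]
        · rw [hf, if_pos rfl, mul_one]
        · intro l _ hl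
          rw [hf, if_neg hl, mul_zero]
        · intro h
          exact absurd (Finset.mem_univ _) h
      have h5 : ∑ j, c j * y (f j) = ∑ j, c j * ∑ i, y (q w i) * G w i j :=
        Finset.sum_congr rfl fun j _ => by rw [hye j]
      rw [h5]
      simp only [Matrix.mulVec, dotProduct, Finset.mul_sum, Finset.sum_mul]
      rw [Finset.sum_comm]
      refine Finset.sum_congr rfl fun i _ => Finset.sum_congr rfl fun j _ => ?_
      ring

end Pool.Agent.Lib.MP_44a246_ntO
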