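import Mathlib
import Pool.Agent.Lib.MP_44a246_ntO.O03a

/-!
Siegel's lemma for the dual of a subspace: bound for the height of the linear form.
-/

namespace Pool.Agent.Lib.MP_44a246_ntO

open Pool.Agent.Lib.MP_44a246_nt
open Pool.Agent.Lib.MP_44a246_ntL
open Pool.Agent.Lib.MP_44a246_ntS
open Pool.Agent.Lib.MP_44a246_ntR
open WithZero Module

variable {κ L : Type*} [Field κ] [IsAlgClosed κ] [CharZero κ] [Field L] [Algebra κ L]
  {ι : Type*} [Fintype ι]

/-- the version with a bound for the height of the linear form: `D := Finsupp.single P (-a)` for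
any place `P` (`exists_place`, GR1), `divDeg D = -a` (`divDeg_single`); the condition of `siegel` is
`0 < r (1 - a - genus) + ht Λ`, `r ≥ 1`. -/
theorem siegel_height (h : IsFF κ L) {Λ : Submodule L (ι → L)} (hΛ : Λ ≠ ⊥) {a : ℤ}
    (ha : (finrank L Λ : ℤ) * (a + genus κ L) ≤ ht κ Λ) :
    ∃ (l : ι → L) (τ : Place κ L → ℤ), (Function.support τ).Finite ∧ (∑ᶠ w, τ w) = -a ∧
      (∃ y ∈ Λ, ∑ k, l k * y k ≠ 0) ∧
      ∀ w : Place κ L, ∃ m : ι → L, (∀ k, w.1 (m k) ≤ exp (τ w)) ∧
        ∀ y ∈ Λ, ∑ k, m k * y k = ∑ k, l k * y k := by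
  classical
  have hpos : 0 < finrank L Λ := by
    rw [Module.finrank_pos_iff]
    exact Submodule.nontrivial_iff_ne_bot.2 hΛ
  obtain ⟨P⟩ := exists_place h
  obtain ⟨l, hl, hm⟩ := siegel h hΛ (Finsupp.single P (-a)) (by
    rw [divDeg_single]
    have h1 : (0 : ℤ) < finrank L Λ := by exact_mod_cast hpos
    have h2 : (finrank L Λ : ℤ) * (-a + 1 - genus κ L) + ht κ Λ =
        finrank L Λ + (ht κ Λ - (finrank L Λ : ℤ) * (a + genus κ L)) := by ring
    rw [h2]
    linarith)
  refine ⟨l, fun w => Finsupp.single P (-a) w, ?_, ?_, hl, hm⟩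
  · exact (Finsupp.finite_support (Finsupp.single P (-a)))
  · rw [finsum_eq_single _ P]
    · rw [Finsupp.single_eq_same]
    · intro w hw
      exact Finsupp.single_eq_of_ne hw

end Pool.Agent.Lib.MP_44a246_ntO
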