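import Mathlib
import Pool.Agent.Lib.MP_44a246_ntF.F02
import Pool.Agent.Lib.MP_44a246_ntS.SC3

/-!
The space spanned by the contractions of a space of functionals.
-/

namespace Pool.Agent.Lib.MP_44a246_ntO

open Pool.Agent.Lib.MP_44a246_nt
open Pool.Agent.Lib.MP_44a246_ntL
open Pool.Agent.Lib.MP_44a246_ntS
open Pool.Agent.Lib.MP_44a246_ntF
open WithZero Module

variable {L : Type*} [Field L] {n d : ℕ}

/-- the space spanned by the contractions by the monomials of degree `d` -/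
noncomputable def spn (W : Submodule L (EX n (d + 1) → L)) : Submodule L (Fin n → L) :=
  ⨆ φ : EX n d, W.map (cm φ)

theorem cm_mem_spn {W : Submodule L (EX n (d + 1) → L)} {u : EX n (d + 1) → L} (hu : u ∈ W)
    (φ : EX n d) : cm φ u ∈ spn W :=
  Submodule.mem_iSup_of_mem φ ⟨u, hu, rfl⟩

theorem le_Sd_spn (W : Submodule L (EX n (d + 1) → L)) : W ≤ Sd (spn W) (d + 1) := fun _ hu =>
  mem_Sd.2 fun φ => cm_mem_spn hu φ

theorem spn_le {W : Submodule L (EX n (d + 1) → L)} {Λ : Submodule L (Fin n → L)}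
    (hW : W ≤ Sd Λ (d + 1)) : spn W ≤ Λ :=
  iSup_le fun φ => by
    rintro _ ⟨u, hu, rfl⟩
    exact mem_Sd.1 (hW hu) φ

theorem mem_spn {x : Fin n → L} (hx : x ≠ 0) {W : Submodule L (EX n (d + 1) → L)}
    (hW : xm (d + 1) x ∈ W) : x ∈ spn W := by
  obtain ⟨φ, hφ⟩ := Function.ne_iff.1 (xm_ne_zero (d := d) hx)
  have h1 := cm_mem_spn hW φ
  rw [cm_xm] at h1
  exact (Submodule.smul_mem_iff _ hφ).1 h1

end Pool.Agent.Lib.MP_44a246_ntO
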