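import Mathlib
import Pool.Agent.Lib.MP_44a246_ntO.O07a

/-!
The slopes of the space spanned by the contractions of a space of functionals.
-/

namespace Pool.Agent.Lib.MP_44a246_ntO

open Pool.Agent.Lib.MP_44a246_nt
open Pool.Agent.Lib.MP_44a246_ntL
open Pool.Agent.Lib.MP_44a246_ntS
open Pool.Agent.Lib.MP_44a246_ntF
open WithZero Module

variable {κ L : Type*} [Field κ] [IsAlgClosed κ] [CharZero κ] [Field L] [Algebra κ L] {n d : ℕ}

/-- (2.c): the slopes of the space spanned by the contractions. Proof: let `x ∈ Λ' ≤ spn W`. Show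
`t * (finrank (spn W) - finrank Λ') ≤ ht Λ' - ht (spn W)` by strong induction on
`finrank (spn W) - finrank Λ'`. If `W.map (cm φ) ≤ Λ'` for all `φ` then `Λ' = spn W`. Otherwise
take such a `φ`, `Λ'' := Λ' ⊔ W.map (cm φ)`, `W' := W ⊓ Λ'.comap (cm φ)` (contains `xm (d+1) x` by
`cm_xm`). `ht_contr` (`Mcm_eq φ`) and `rank_contr`: `ht Λ'' + ht W' ≤ ht W + ht Λ'`,
`finrank Λ'' + finrank W' = finrank Λ' + finrank W`; `hW.le W'` gives
`t * (finrank Λ'' - finrank Λ') ≤ ht Λ' - ht Λ''`; induction for `Λ''`. -/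
theorem hasSl_spn (h : IsFF κ L) {x : Fin n → L} (hx : x ≠ 0) {t : ℝ}
    {W : Submodule L (EX n (d + 1) → L)} (hW : HasSl κ t (xm (d + 1) x) W) :
    HasSl κ t x (spn W) := by
  refine ⟨mem_spn hx hW.mem, ?_⟩
  have key : ∀ k : ℕ, ∀ Λ' : Submodule L (Fin n → L), Λ' ≤ spn W → x ∈ Λ' →
      finrank L (spn W) - finrank L Λ' ≤ k →
      t * ((finrank L (spn W) : ℝ) - finrank L Λ') ≤ (ht κ Λ' : ℝ) - ht κ (spn W) := by
    intro k
    induction k with
    | zero =>
      intro Λ' hle _ hk
      have h1 : finrank L (spn W) ≤ finrank L Λ' := by omega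
      have h2 : Λ' = spn W := Submodule.eq_of_le_of_finrank_le hle h1
      rw [h2, sub_self, sub_self, mul_zero]
    | succ k ih =>
      intro Λ' hle hxΛ hk
      by_cases hall : ∀ φ : EX n d, W.map (cm φ) ≤ Λ'
      · have h2 : Λ' = spn W := le_antisymm hle (iSup_le hall)
        rw [h2, sub_self, sub_self, mul_zero]
      · obtain ⟨φ, hφ⟩ := not_forall.1 hall
        have h1 := ht_contr h (Mcm κ φ) (Mcm_eq φ) W Λ'
        have h2 := rank_contr (cm φ) W Λ'
        have hΛ : Λ' ⊔ W.map (cm φ) ≤ spn W := sup_le hle (le_iSup (fun φ : EX n d => W.map (cm φ)) φ)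
        have hlt : finrank L Λ' < finrank L (Λ' ⊔ W.map (cm φ) : Submodule L (Fin n → L)) := by
          refine Submodule.finrank_lt_finrank_of_lt (lt_of_le_of_ne le_sup_left fun h4 => hφ ?_)
          rw [h4]
          exact le_sup_right
        have h3 := ih (Λ' ⊔ W.map (cm φ)) hΛ (Submodule.mem_sup_left hxΛ) (by omega)
        have h4 : xm (d + 1) x ∈ W ⊓ Λ'.comap (cm φ) := by
          refine Submodule.mem_inf.2 ⟨hW.mem, ?_⟩
          rw [Submodule.mem_comap, cm_xm]
          exact Submodule.smul_mem _ _ hxΛ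
        have h5 := hW.le (W ⊓ Λ'.comap (cm φ)) inf_le_left h4
        have h6 : ((finrank L (Λ' ⊔ W.map (cm φ) : Submodule L (Fin n → L)) : ℕ) : ℝ) +
            finrank L (W ⊓ Λ'.comap (cm φ) : Submodule L (EX n (d + 1) → L)) =
            finrank L Λ' + finrank L W := by exact_mod_cast h2
        have h7 : ((ht κ (Λ' ⊔ W.map (cm φ)) : ℤ) : ℝ) + ht κ (W ⊓ Λ'.comap (cm φ)) ≤
            ht κ W + ht κ Λ' := by exact_mod_cast h1
        have h8 : (finrank L W : ℝ) - finrank L (W ⊓ Λ'.comap (cm φ) :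
            Submodule L (EX n (d + 1) → L)) =
            finrank L (Λ' ⊔ W.map (cm φ) : Submodule L (Fin n → L)) - finrank L Λ' := by
          linarith
        rw [h8] at h5
        have h9 : t * ((finrank L (spn W) : ℝ) - finrank L Λ') =
            t * ((finrank L (spn W) : ℝ) -
              finrank L (Λ' ⊔ W.map (cm φ) : Submodule L (Fin n → L))) +
            t * ((finrank L (Λ' ⊔ W.map (cm φ) : Submodule L (Fin n → L)) : ℝ) -
              finrank L Λ') := by ring
        rw [h9]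
        linarith
  intro Λ' hle hxΛ
  exact key _ Λ' hle hxΛ le_rfl

end Pool.Agent.Lib.MP_44a246_ntO
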