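import Mathlib
import Pool.Agent.Lib.MP_44a246_ntO.O04

/-!
Slopes and linear maps given by different matrices at the different places.
-/

namespace Pool.Agent.Lib.MP_44a246_ntO

open Pool.Agent.Lib.MP_44a246_nt
open Pool.Agent.Lib.MP_44a246_ntL
open Pool.Agent.Lib.MP_44a246_ntS
open WithZero Module

variable {κ L : Type*} [Field κ] [IsAlgClosed κ] [CharZero κ] [Field L] [Algebra κ L]
  {ι ι' : Type*} [Fintype ι] [Fintype ι']

/-- The image of a space with slopes at least `t` under a map of height `-a` has slopes at least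
`t + a`. Proof: for `ξ' ∈ U' ≤ B.map T` put `A := B ⊓ U'.comap T` (contains `ξ` because
`T ξ = c • ξ' ∈ U'`); `ht_mapw` with `A ≤ B`, `A' = U'` (so `U' ⊔ B.map T = B.map T`) and
`hB.le A`; `finrank (B.map T) - finrank U' = finrank B - finrank A` (`finrank_sup_map`, SB2). -/
theorem HasSl_mapw (h : IsFF κ L) {t : ℝ} {ξ : ι → L} {ξ' : ι' → L} {B : Submodule L (ι → L)}
    (hB : HasSl κ t ξ B) (T : (ι → L) →ₗ[L] (ι' → L)) (Tw : Place κ L → Matrix ι' ι L)
    {τ : Place κ L → ℤ} (hτ : (Function.support τ).Finite)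
    (hTw : ∀ (w : Place κ L) k m, w.1 (Tw w k m) ≤ exp (τ w))
    (hT : ∀ w, ∀ b ∈ B, (Tw w).mulVec b = T b) {c : L} (hc : c ≠ 0) (hξ : T ξ = c • ξ') :
    HasSl κ (t - (∑ᶠ w, τ w : ℤ)) ξ' (B.map T) := by
  have hmem : ∀ U' : Submodule L (ι' → L), ξ' ∈ U' ↔ T ξ ∈ U' := by
    intro U'
    rw [hξ]
    constructor
    · exact fun hx => U'.smul_mem c hx
    · intro hx
      have h1 := U'.smul_mem c⁻¹ hx
      rw [smul_smul, inv_mul_cancel₀ hc, one_smul] at h1
      exact h1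
  refine ⟨(hmem _).2 (Submodule.mem_map_of_mem hB.mem), fun U' hU' hξ' => ?_⟩
  have hTξ : T ξ ∈ U' := (hmem U').1 hξ'
  have hA : (B ⊓ U'.comap T).map T ≤ U' := by
    rintro _ ⟨b, hb, rfl⟩
    exact hb.2
  have hinj : ∀ b ∈ B, T b ∈ U' → b ∈ B ⊓ U'.comap T := fun b hb hb' => ⟨hb, hb'⟩
  have h1 := ht_mapw h T Tw hτ hTw hT (inf_le_left : B ⊓ U'.comap T ≤ B) hA hinj
  have h2 := finrank_sup_map (inf_le_left : B ⊓ U'.comap T ≤ B) T hA hinj
  have h3 := hB.le _ (inf_le_left : B ⊓ U'.comap T ≤ B) ⟨hB.mem, hTξ⟩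
  have h4 : U' ⊔ B.map T = B.map T := sup_eq_right.2 hU'
  rw [h4] at h1 h2
  have h5 : (finrank L (B.map T) : ℝ) + finrank L (B ⊓ U'.comap T : Submodule L (ι → L)) =
      finrank L U' + finrank L B := by exact_mod_cast h2
  have h6 : (ht κ (B.map T) : ℝ) + ht κ (B ⊓ U'.comap T) ≤
      ht κ B + ht κ U' + ((∑ᶠ w, τ w : ℤ) : ℝ) *
        ((finrank L B : ℝ) - finrank L (B ⊓ U'.comap T : Submodule L (ι → L))) := by
    exact_mod_cast h1
  have h7 : (finrank L (B.map T) : ℝ) - finrank L U' =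
      (finrank L B : ℝ) - finrank L (B ⊓ U'.comap T : Submodule L (ι → L)) := by linarith
  rw [h7, sub_mul]
  linarith

end Pool.Agent.Lib.MP_44a246_ntO
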