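import Mathlib
import Pool.Agent.Lib.MP_44a246_ntO.O04

/-!
The cost of a space in terms of the cost of its image.
-/

namespace Pool.Agent.Lib.MP_44a246_ntO

open Pool.Agent.Lib.MP_44a246_nt
open Pool.Agent.Lib.MP_44a246_ntL
open Pool.Agent.Lib.MP_44a246_ntS
open WithZero Module

variable {κ L : Type*} [Field κ] [IsAlgClosed κ] [CharZero κ] [Field L] [Algebra κ L]
  {ι ι' : Type*} [Fintype ι] [Fintype ι']

/-- The cost of a space in terms of the cost of its image. Proof: `R := B ⊓ ker T`,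
`A := R ⊔ span {ξ} = B ⊓ (span {ξ'}).comap T`. (a) `ht_mapw` for `A ≤ B`, `A' = span {ξ'}`
(`ht A' = height ξ'`, `ξ' ∈ B.map T`, `∑ τ ≤ 0`): `ht (B.map T) + ht A ≤ ht B + height ξ'`.
(b) `ht_mapw` for `R ≤ A`, `A' = ⊥`, `A.map T = span {ξ'}` (`finrank A - finrank R = 1`):
`height ξ' + ht R ≤ ht A + ∑ τ`, `0 ≤ ht R`. Add. -/
theorem cost_step (h : IsFF κ L) {ξ : ι → L} {ξ' : ι' → L} (hξ0' : ξ' ≠ 0)
    {B : Submodule L (ι → L)} (hξB : ξ ∈ B) (T : (ι → L) →ₗ[L] (ι' → L))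
    (Tw : Place κ L → Matrix ι' ι L) {τ : Place κ L → ℤ} (hτ : (Function.support τ).Finite)
    (hTw : ∀ (w : Place κ L) k m, w.1 (Tw w k m) ≤ exp (τ w))
    (hT : ∀ w, ∀ b ∈ B, (Tw w).mulVec b = T b) {c : L} (hc : c ≠ 0) (hξ : T ξ = c • ξ')
    (hs : ∑ᶠ w, τ w ≤ 0) :
    height κ ξ - ht κ B ≤ (height κ ξ' - ht κ (B.map T)) +
      (height κ ξ - height κ ξ' + ∑ᶠ w, τ w) := by
  classical
  have hm : ξ' ∈ B.map T := ⟨c⁻¹ • ξ, Submodule.smul_mem _ _ hξB, by
    rw [map_smul, hξ, smul_smul, inv_mul_cancel₀ hc, one_smul]⟩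
  have hle' : Submodule.span L {ξ'} ≤ B.map T := by
    rw [Submodule.span_singleton_le_iff_mem]
    exact hm
  have hAB : B ⊓ (Submodule.span L {ξ'}).comap T ≤ B := inf_le_left
  have hA : (B ⊓ (Submodule.span L {ξ'}).comap T).map T ≤ Submodule.span L {ξ'} := by
    rintro _ ⟨u, hu, rfl⟩
    exact hu.2
  -- (a)
  have h1 := ht_mapw h T Tw hτ hTw hT hAB hA (fun b hb hb' => ⟨hb, hb'⟩)
  rw [sup_eq_right.2 hle', ht_single h hξ0'] at h1
  have h2 : finrank L (B ⊓ (Submodule.span L {ξ'}).comap T : Submodule L (ι → L)) ≤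
      finrank L B := Submodule.finrank_mono hAB
  have h3 : (∑ᶠ w, τ w) * ((finrank L B : ℤ) -
      finrank L (B ⊓ (Submodule.span L {ξ'}).comap T : Submodule L (ι → L))) ≤ 0 := by
    refine mul_nonpos_of_nonpos_of_nonneg hs ?_
    have : (finrank L (B ⊓ (Submodule.span L {ξ'}).comap T : Submodule L (ι → L)) : ℤ) ≤
      finrank L B := by exact_mod_cast h2
    linarith
  -- (b)
  have hRA : B ⊓ LinearMap.ker T ≤ B ⊓ (Submodule.span L {ξ'}).comap T := by
    refine inf_le_inf_left _ fun u hu => ?_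
    rw [Submodule.mem_comap, LinearMap.mem_ker.1 hu]
    exact Submodule.zero_mem _
  have hR : (B ⊓ LinearMap.ker T).map T ≤ ⊥ := by
    rintro _ ⟨u, hu, rfl⟩
    rw [LinearMap.mem_ker.1 hu.2]
    exact Submodule.zero_mem _
  have hmap : (B ⊓ (Submodule.span L {ξ'}).comap T).map T = Submodule.span L {ξ'} := by
    refine le_antisymm hA ?_
    rw [Submodule.span_singleton_le_iff_mem]
    refine ⟨c⁻¹ • ξ, ⟨Submodule.smul_mem _ _ hξB, ?_⟩, ?_⟩
    · change T (c⁻¹ • ξ) ∈ Submodule.span L {ξ'}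
      rw [map_smul, hξ, smul_smul, inv_mul_cancel₀ hc, one_smul]
      exact Submodule.mem_span_singleton_self _
    · rw [map_smul, hξ, smul_smul, inv_mul_cancel₀ hc, one_smul]
  have hT' : ∀ w, ∀ b ∈ B ⊓ (Submodule.span L {ξ'}).comap T, (Tw w).mulVec b = T b :=
    fun w b hb => hT w b hb.1
  have h4 := ht_mapw h T Tw hτ hTw hT' hRA hR
    (fun b hb hb' => ⟨hb.1, LinearMap.mem_ker.2 ((Submodule.mem_bot L).1 hb')⟩)
  have h5 := finrank_sup_map hRA T hR
    (fun b hb hb' => ⟨hb.1, LinearMap.mem_ker.2 ((Submodule.mem_bot L).1 hb')⟩)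
  rw [bot_sup_eq, hmap, ht_single h hξ0', ht_bot h] at h4
  rw [bot_sup_eq, hmap, finrank_span_singleton hξ0', finrank_bot] at h5
  have h6 : ((finrank L (B ⊓ (Submodule.span L {ξ'}).comap T : Submodule L (ι → L)) : ℤ) -
      finrank L (B ⊓ LinearMap.ker T : Submodule L (ι → L))) = 1 := by
    have : ((1 + finrank L (B ⊓ LinearMap.ker T : Submodule L (ι → L)) : ℕ) : ℤ) =
        (0 + finrank L (B ⊓ (Submodule.span L {ξ'}).comap T : Submodule L (ι → L)) : ℕ) := by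
      exact_mod_cast h5
    push_cast at this
    linarith
  rw [h6, mul_one] at h4
  have h7 := ht_nonneg h (B ⊓ LinearMap.ker T)
  linarith

end Pool.Agent.Lib.MP_44a246_ntO
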