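import Mathlib
import Pool.Agent.Lib.MP_44a246_ntO.O05a
import Pool.Agent.Lib.MP_44a246_ntO.O05b
import Pool.Agent.Lib.MP_44a246_ntO.O07a

/-!
The contraction by a linear form which is given by different linear forms at the different places.
-/

namespace Pool.Agent.Lib.MP_44a246_ntO

open Pool.Agent.Lib.MP_44a246_nt
open Pool.Agent.Lib.MP_44a246_ntL
open Pool.Agent.Lib.MP_44a246_ntS
open Pool.Agent.Lib.MP_44a246_ntF
open WithZero Module

variable {κ L : Type*} [Field κ] [IsAlgClosed κ] [CharZero κ] [Field L] [Algebra κ L] {n d : ℕ}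

/-- the matrix of the contraction by a linear form with coefficients in `L` -/
noncomputable def MchL (H : Fin n → L) : Matrix (EX n d) (EX n (d + 1)) L :=
  Matrix.of fun φ I => ∑ j, if I = up j φ then H j else 0

/-- see `Mch_eq` (F01) -/
theorem MchL_mulVec (H : Fin n → L) (u : EX n (d + 1) → L) :
    (MchL (d := d) H).mulVec u = ch H u := by
  funext φ
  rw [ch_apply]
  unfold Matrix.mulVec dotProduct
  have h1 : ∀ I : EX n (d + 1), MchL H φ I * u I = ∑ j, if I = up j φ then H j * u I else 0 := by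
    intro I
    simp only [MchL, Matrix.of_apply, Finset.sum_mul]
    refine Finset.sum_congr rfl fun j _ => ?_
    split_ifs <;> simp
  rw [Finset.sum_congr rfl fun I _ => h1 I, Finset.sum_comm]
  refine Finset.sum_congr rfl fun j _ => ?_
  rw [Finset.sum_eq_single (up j φ)]
  · rw [if_pos rfl, cm_apply]
  · intro I _ hI
    rw [if_neg hI]
  · intro hI
    exact absurd (Finset.mem_univ _) hI

theorem MchL_le (v : Valuation L ℤᵐ⁰) {H : Fin n → L} {τ : ℤ} (hH : ∀ k, v (H k) ≤ exp τ)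
    (φ : EX n d) (I : EX n (d + 1)) : v (MchL H φ I) ≤ exp τ := by
  unfold MchL
  rw [Matrix.of_apply]
  refine Valuation.map_sum_le v fun j _ => ?_
  split_ifs
  · exact hH j
  · rw [map_zero]; exact zero_le

/-- linear forms which agree on `Λ` have the same contractions on `Sd Λ` -/
theorem ch_congr {Λ : Submodule L (Fin n → L)} {l m : Fin n → L}
    (hm : ∀ y ∈ Λ, ∑ k, m k * y k = ∑ k, l k * y k) {u : EX n (d + 1) → L}
    (hu : u ∈ Sd Λ (d + 1)) : ch m u = ch l u := by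
  funext φ
  rw [ch_apply, ch_apply]
  exact hm _ (mem_Sd.1 hu φ)

/-- the slopes after a contraction -/
theorem hasSl_ch (h : IsFF κ L) {x : Fin n → L} {t : ℝ} {a : ℤ}
    {W : Submodule L (EX n (d + 1) → L)} (hW : HasSl κ t (xm (d + 1) x) W)
    {Λ : Submodule L (Fin n → L)} (hΛ : W ≤ Sd Λ (d + 1)) {l : Fin n → L}
    {τ : Place κ L → ℤ} (hτ : (Function.support τ).Finite) (hsum : ∑ᶠ w, τ w = -a)
    (hlx : ∑ k, l k * x k ≠ 0)
    (hm : ∀ w : Place κ L, ∃ m : Fin n → L, (∀ k, w.1 (m k) ≤ exp (τ w)) ∧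
        ∀ y ∈ Λ, ∑ k, m k * y k = ∑ k, l k * y k) :
    HasSl κ (t + a) (xm d x) (W.map (ch l)) := by
  choose m hm1 hm2 using hm
  have h1 := HasSl_mapw h hW (ch l) (fun w => MchL (m w)) hτ
    (fun w k I => MchL_le w.1 (hm1 w) k I)
    (fun w b hb => by rw [MchL_mulVec]; exact ch_congr (hm2 w) (hΛ hb)) hlx (ch_xm l x)
  rw [hsum] at h1
  have e : t - ((-a : ℤ) : ℝ) = t + a := by push_cast; ring
  rwa [e] at h1

/-- the cost after a contraction: `cost_step` with `height_xm` -/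
theorem cost_ch (h : IsFF κ L) {x : Fin n → L} (hx : x ≠ 0) {a : ℤ} (ha : 0 ≤ a)
    {W : Submodule L (EX n (d + 1) → L)} (hW : xm (d + 1) x ∈ W)
    {Λ : Submodule L (Fin n → L)} (hΛ : W ≤ Sd Λ (d + 1)) {l : Fin n → L}
    {τ : Place κ L → ℤ} (hτ : (Function.support τ).Finite) (hsum : ∑ᶠ w, τ w = -a)
    (hlx : ∑ k, l k * x k ≠ 0)
    (hm : ∀ w : Place κ L, ∃ m : Fin n → L, (∀ k, w.1 (m k) ≤ exp (τ w)) ∧
        ∀ y ∈ Λ, ∑ k, m k * y k = ∑ k, l k * y k) :
    ((d + 1 : ℕ) : ℤ) * height κ x - ht κ W ≤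
      (d * height κ x - ht κ (W.map (ch l))) + (height κ x - a) := by
  choose m hm1 hm2 using hm
  have h1 := cost_step h (xm_ne_zero hx) hW (ch l) (fun w => MchL (m w)) hτ
    (fun w k I => MchL_le w.1 (hm1 w) k I)
    (fun w b hb => by rw [MchL_mulVec]; exact ch_congr (hm2 w) (hΛ hb)) hlx (ch_xm l x)
    (by rw [hsum]; linarith)
  rw [hsum, height_xm h (d + 1) hx, height_xm h d hx] at h1
  have e : ((d + 1 : ℕ) : ℤ) * height κ x = d * height κ x + height κ x := by push_cast; ring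
  rw [e] at h1 ⊢
  linarith

end Pool.Agent.Lib.MP_44a246_ntO
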