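import Mathlib
import Pool.Agent.Lib.MP_44a246_ntO.O08a

/-!
The linear form does not vanish at the point.
-/

namespace Pool.Agent.Lib.MP_44a246_ntO

open Pool.Agent.Lib.MP_44a246_nt
open Pool.Agent.Lib.MP_44a246_ntL
open Pool.Agent.Lib.MP_44a246_ntS
open Pool.Agent.Lib.MP_44a246_ntF
open WithZero Module

variable {κ L : Type*} [Field κ] [IsAlgClosed κ] [CharZero κ] [Field L] [Algebra κ L] {n d : ℕ}

/-- The linear form does not vanish at the point. Proof: suppose `l(x) = 0`. `A := W ⊓ ker (ch l)`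
contains `xm (d+1) x` (`ch_xm`). `ht_mapw` for `A ≤ W`, `A' = ⊥`, `T = ch l`, `Tw w = MchL (m w)`
(`MchL_mulVec`, `ch_congr`, `le_Sd_spn`): `ht (W.map T) + ht A ≤ ht W - a (finrank W - finrank A)`;
with `0 ≤ ht` and `hW.le A`: `(t + a) (finrank W - finrank A) ≤ 0`, so `A = W` and `ch l u = 0` for
all `u ∈ W`, i.e. (`ch_apply`) `l` vanishes on all `cm φ u`, so on `spn W`. -/
theorem form_ne_zero (h : IsFF κ L) {x : Fin n → L} {t : ℝ} {a : ℤ} (hta : 0 < t + a)
    {W : Submodule L (EX n (d + 1) → L)} (hW : HasSl κ t (xm (d + 1) x) W)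
    {l : Fin n → L} {τ : Place κ L → ℤ} (hτ : (Function.support τ).Finite)
    (hsum : ∑ᶠ w, τ w = -a) (hl : ∃ y ∈ spn W, ∑ k, l k * y k ≠ 0)
    (hm : ∀ w : Place κ L, ∃ m : Fin n → L, (∀ k, w.1 (m k) ≤ exp (τ w)) ∧
        ∀ y ∈ spn W, ∑ k, m k * y k = ∑ k, l k * y k) :
    ∑ k, l k * x k ≠ 0 := by
  classical
  intro hlx
  obtain ⟨y, hy, hly⟩ := hl
  choose m hm1 hm2 using hm
  set T := ch (d := d) l with hT
  set A : Submodule L (EX n (d + 1) → L) := W ⊓ LinearMap.ker T with hA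
  have hxA : xm (d + 1) x ∈ A :=
    ⟨hW.mem, LinearMap.mem_ker.2 (by rw [hT, ch_xm, hlx, zero_smul])⟩
  have hAW : A ≤ W := inf_le_left
  have key := ht_mapw h T (fun w => MchL (m w)) hτ (fun w φ I => MchL_le w.1 (hm1 w) φ I)
    (A := A) (B := W) (A' := ⊥) (fun w b hb => by
      rw [MchL_mulVec]
      exact ch_congr (hm2 w) (le_Sd_spn W hb)) hAW
    (by
      rintro _ ⟨u, hu, rfl⟩
      exact (Submodule.mem_bot L).2 (LinearMap.mem_ker.1 hu.2))
    (fun b hb hTb => ⟨hb, LinearMap.mem_ker.2 ((Submodule.mem_bot L).1 hTb)⟩)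
  rw [ht_bot h, hsum] at key
  have h1 := ht_nonneg h (κ := κ) (⊥ ⊔ W.map T)
  have h2 := hW.le A hAW hxA
  have h3 : finrank L A ≤ finrank L W := Submodule.finrank_mono hAW
  have h4 : ht κ A ≤ ht κ W + -a * ((finrank L W : ℤ) - finrank L A) := by linarith
  have h5 : (ht κ A : ℝ) ≤ ht κ W + -a * ((finrank L W : ℝ) - finrank L A) := by
    exact_mod_cast h4
  have h6 : (t + a) * ((finrank L W : ℝ) - finrank L A) ≤ 0 := by nlinarith
  have h7 : (finrank L W : ℝ) - finrank L A ≤ 0 := by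
    by_contra h8
    push Not at h8
    have := mul_pos hta h8
    linarith
  have h8 : finrank L W ≤ finrank L A := by
    have : (finrank L W : ℝ) ≤ finrank L A := by linarith
    exact_mod_cast this
  have h9 : A = W := Submodule.eq_of_le_of_finrank_le hAW h8
  let f : (Fin n → L) →ₗ[L] L := ∑ k, l k • LinearMap.proj k
  have hf : ∀ z, f z = ∑ k, l k * z k := by
    intro z
    simp [f, LinearMap.sum_apply]
  have h10 : spn W ≤ LinearMap.ker f := by
    refine iSup_le fun φ => ?_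
    rintro _ ⟨u, hu, rfl⟩
    rw [LinearMap.mem_ker, hf]
    have hu' : u ∈ A := by rw [h9]; exact hu
    have h11 : T u = 0 := LinearMap.mem_ker.1 hu'.2
    have h12 := congrFun h11 φ
    rw [hT, ch_apply] at h12
    exact h12
  have h13 := LinearMap.mem_ker.1 (h10 hy)
  rw [hf] at h13
  exact hly h13

end Pool.Agent.Lib.MP_44a246_ntO
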