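import Mathlib
import Pool.Agent.Lib.MP_44a246_ntF.F02

/-!
The cost of a space of functionals is bounded by the maximal slope of the spaces through the point.
-/

namespace Pool.Agent.Lib.MP_44a246_ntO

open Pool.Agent.Lib.MP_44a246_nt
open Pool.Agent.Lib.MP_44a246_ntL
open Pool.Agent.Lib.MP_44a246_ntS
open Pool.Agent.Lib.MP_44a246_ntF
open WithZero Module

variable {κ L : Type*} [Field κ] [IsAlgClosed κ] [CharZero κ] [Field L] [Algebra κ L] {n : ℕ}

/-- (2.a): all slopes of the spaces of functionals are bounded by the maximal slope `m` of the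
subspaces which contain the point. Proof by strong induction on `finrank W` (as in `exists_line`,
F02): if `cm φ u ∈ span {x}` for all `u ∈ W` and all `φ`, then `W = span {xm (d+1) x}`
(`mem_span_xm`) and both sides are `0` (`height_xm`, `ht_single`). Otherwise choose `φ` with
`W.map (cm φ)` not in `span {x}`, `E := span {x} ⊔ W.map (cm φ)`, `W' := W ⊓ (span {x}).comap (cm φ)`
(contains `xm (d+1) x` by `cm_xm`), `ht_contr` (with `Mcm_eq φ`) and `rank_contr` (F01):
`ht E + ht W' ≤ ht W + height x`, `finrank E + finrank W' = 1 + finrank W`, `finrank W' < finrank W`;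
induction for `W'` and `hm E`. -/
theorem cost_le (h : IsFF κ L) {x : Fin n → L} (hx : x ≠ 0) {m : ℝ}
    (hm : ∀ E : Submodule L (Fin n → L), x ∈ E →
      (height κ x : ℝ) - ht κ E ≤ m * ((finrank L E : ℝ) - 1)) {d : ℕ}
    {W : Submodule L (EX n (d + 1) → L)} (hW : xm (d + 1) x ∈ W) :
    ((d + 1 : ℕ) : ℝ) * height κ x - ht κ W ≤ m * ((finrank L W : ℝ) - 1) := by
  suffices H : ∀ (r : ℕ) (W : Submodule L (EX n (d + 1) → L)), finrank L W = r →
      xm (d + 1) x ∈ W →
      ((d + 1 : ℕ) : ℝ) * height κ x - ht κ W ≤ m * ((r : ℝ) - 1) from H _ W rfl hW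
  intro r
  induction r using Nat.strong_induction_on with
  | _ r ih =>
    intro W hr hxW
    have hxm : xm (d + 1) x ≠ 0 := xm_ne_zero hx
    by_cases hall : ∀ φ : EX n d, W.map (cm φ) ≤ Submodule.span L {x}
    · -- then `W` is the line spanned by the vector of the monomials
      have h1 : W = Submodule.span L {xm (d + 1) x} := by
        refine le_antisymm (fun u hu => mem_span_xm hx fun φ => hall φ ⟨u, hu, rfl⟩) ?_
        rwa [Submodule.span_singleton_le_iff_mem]
      have h2 : r = 1 := by
        rw [← hr, h1]
        exact finrank_span_singleton hxm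
      rw [h1, ht_single h hxm, height_xm h (d + 1) hx, h2]
      push_cast
      simp
    · push Not at hall
      obtain ⟨φ, hφ⟩ := hall
      set F : Submodule L (Fin n → L) := Submodule.span L {x} ⊔ W.map (cm φ) with hF
      set W₁ : Submodule L (EX n (d + 1) → L) := W ⊓ (Submodule.span L {x}).comap (cm φ) with hW₁
      have h1 := ht_contr h (Mcm κ φ) (Mcm_eq φ) W (Submodule.span L {x})
      have h2 := rank_contr (cm φ) W (Submodule.span L {x})
      rw [← hF, ← hW₁, ht_single h hx] at h1
      rw [← hF, ← hW₁, finrank_span_singleton hx, hr] at h2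
      have hxF : x ∈ F := Submodule.mem_sup_left (Submodule.mem_span_singleton_self x)
      have hFr : 2 ≤ finrank L F := by
        have h3 : Submodule.span L {x} < F := by
          refine lt_of_le_of_ne le_sup_left fun h4 => hφ ?_
          rw [h4]
          exact le_sup_right
        have h4 := Submodule.finrank_lt_finrank_of_lt h3
        rw [finrank_span_singleton hx] at h4
        omega
      have hxW₁ : xm (d + 1) x ∈ W₁ := by
        refine ⟨hxW, ?_⟩
        rw [SetLike.mem_coe, Submodule.mem_comap, cm_xm]
        exact Submodule.smul_mem _ _ (Submodule.mem_span_singleton_self x)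
      have h3 : finrank L W₁ < r := by omega
      have h4 := ih _ h3 W₁ rfl hxW₁
      have h5 := hm F hxF
      have h6 : (ht κ F : ℝ) + ht κ W₁ ≤ ht κ W + height κ x := by exact_mod_cast h1
      have h7 : (finrank L F : ℝ) + finrank L W₁ = 1 + r := by exact_mod_cast h2
      have h8 : m * ((finrank L W₁ : ℝ) - 1) + m * ((finrank L F : ℝ) - 1) = m * ((r : ℝ) - 1) := by
        rw [← mul_add]
        congr 1
        linarith
      linarith

end Pool.Agent.Lib.MP_44a246_ntO
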