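import Mathlib
import Pool.Agent.Lib.MP_44a246_ntO.O06
import Pool.Agent.Lib.MP_44a246_ntO.O08a

/-!
The induction of the key lemma.
-/

namespace Pool.Agent.Lib.MP_44a246_ntO

open Pool.Agent.Lib.MP_44a246_nt
open Pool.Agent.Lib.MP_44a246_ntL
open Pool.Agent.Lib.MP_44a246_ntS
open Pool.Agent.Lib.MP_44a246_ntF
open WithZero Module

variable {κ L : Type*} [Field κ] [IsAlgClosed κ] [CharZero κ] [Field L] [Algebra κ L] {n d : ℕ}

/-- The induction of the key lemma. `j = 0`: `M < t`; `hW.le (span {xm})` gives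
`t (finrank W - 1) ≤ cost W` and `cost_le` gives `cost W ≤ M (finrank W - 1)`, so `finrank W = 1`
and the cost is `≤ 0`. `j + 1`: `W₁ := W.map (ch l)` is in `Sd Λ` (`ch_mem_Sd`), `hasSl_ch`,
`cost_ch`, induction hypothesis with `t + a`. -/
theorem key_induction (h : IsFF κ L) {x : Fin n → L} (hx : x ≠ 0) {M : ℝ}
    (hM : ∀ E : Submodule L (Fin n → L), x ∈ E →
      (height κ x : ℝ) - ht κ E ≤ M * ((finrank L E : ℝ) - 1))
    {Λ : Submodule L (Fin n → L)} {l : Fin n → L} {a : ℤ} (ha : 0 ≤ a)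
    {τ : Place κ L → ℤ} (hτ : (Function.support τ).Finite)
    (hsum : ∑ᶠ w, τ w = -a) (hlx : ∑ k, l k * x k ≠ 0)
    (hm : ∀ w : Place κ L, ∃ m : Fin n → L, (∀ k, w.1 (m k) ≤ exp (τ w)) ∧
        ∀ y ∈ Λ, ∑ k, m k * y k = ∑ k, l k * y k) :
    ∀ (j : ℕ) (t : ℝ) (W : Submodule L (EX n (d + 1 + j) → L)), W ≤ Sd Λ (d + 1 + j) →
      HasSl κ t (xm (d + 1 + j) x) W → M < t + j * a →
      ((d + 1 + j : ℕ) : ℝ) * height κ x - ht κ W ≤ j * ((height κ x : ℝ) - a) := by
  intro j
  induction j with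
  | zero =>
    intro t W hWΛ hW hMt
    have hxm : xm (d + 1) x ≠ 0 := xm_ne_zero hx
    have h1 := hW.le (Submodule.span L {xm (d + 1) x})
      ((Submodule.span_singleton_le_iff_mem _ _).2 hW.mem) (Submodule.mem_span_singleton_self _)
    have h2 : ht κ (Submodule.span L {xm (d + 1) x}) = height κ (xm (d + 1) x) :=
      ht_single h hxm
    have h3 : finrank L (Submodule.span L {xm (d + 1) x}) = 1 := finrank_span_singleton hxm
    have h4 := height_xm h (d + 1) hx
    have h5 := cost_le h hx hM (d := d) (W := W) hW.mem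
    have h6 : 1 ≤ finrank L W := by
      have h7 : Submodule.span L {xm (d + 1) x} ≤ W :=
        (Submodule.span_singleton_le_iff_mem _ _).2 hW.mem
      have h8 := Submodule.finrank_mono h7
      rwa [h3] at h8
    rw [h2, h3, h4] at h1
    push_cast at h1 h5 ⊢
    have h9 : (1 : ℝ) ≤ finrank L W := by exact_mod_cast h6
    have h10 : t * ((finrank L W : ℝ) - 1) ≤ M * ((finrank L W : ℝ) - 1) := by
      refine le_trans ?_ h5
      simpa using h1
    have h11 : (finrank L W : ℝ) - 1 = 0 := by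
      by_contra h12
      have h13 : 0 < (finrank L W : ℝ) - 1 := lt_of_le_of_ne (by linarith) (Ne.symm h12)
      have h14 : M < t := by simpa using hMt
      nlinarith
    rw [h11, mul_zero] at h5
    simpa using h5
  | succ j ih =>
    intro t W hWΛ hW hMt
    have hW1 : W.map (ch l) ≤ Sd Λ (d + 1 + j) := by
      rintro _ ⟨u, hu, rfl⟩
      exact ch_mem_Sd (hWΛ hu) l
    have h1 := hasSl_ch h (d := d + 1 + j) hW hWΛ hτ hsum hlx hm
    have h2 := cost_ch h hx (d := d + 1 + j) ha hW.mem hWΛ hτ hsum hlx hm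
    have h3 := ih (t + a) (W.map (ch l)) hW1 h1 (by push_cast at hMt; linarith)
    have h4 : (((d + 1 + j + 1 : ℕ) : ℤ) * height κ x - ht κ W : ℝ) ≤
        ((d + 1 + j : ℕ) * height κ x - ht κ (W.map (ch l))) + (height κ x - a) := by
      exact_mod_cast h2
    push_cast at h3 h4 ⊢
    linarith

end Pool.Agent.Lib.MP_44a246_ntO
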