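import Mathlib
import Pool.Agent.Lib.MP_44a246_ntO.O03
import Pool.Agent.Lib.MP_44a246_ntO.O07
import Pool.Agent.Lib.MP_44a246_ntO.O08b
import Pool.Agent.Lib.MP_44a246_ntO.O08c

/-!
The key lemma.
-/

namespace Pool.Agent.Lib.MP_44a246_ntO

open Pool.Agent.Lib.MP_44a246_nt
open Pool.Agent.Lib.MP_44a246_ntL
open Pool.Agent.Lib.MP_44a246_ntS
open Pool.Agent.Lib.MP_44a246_ntF
open Pool.Agent.Lib.MP_44a246_ntR (genus)
open WithZero Module

variable {κ L : Type*} [Field κ] [IsAlgClosed κ] [CharZero κ] [Field L] [Algebra κ L] {n d : ℕ}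

/-- **The key lemma (P3).** `siegel_height` for `spn W` (not zero: contains `x`, `mem_spn`),
`form_ne_zero`, `key_induction` with `Λ = spn W` (`le_Sd_spn`). Degree `d + 6 = (d + 1) + 5 =
(d + 5) + 1` (definitional equalities; use `show` / `change`). -/
theorem key_lemma (h : IsFF κ L) {x : Fin n → L} (hx : x ≠ 0) {M t : ℝ}
    (hM : ∀ E : Submodule L (Fin n → L), x ∈ E →
      (height κ x : ℝ) - ht κ E ≤ M * ((finrank L E : ℝ) - 1))
    {W : Submodule L (EX n (d + 5 + 1) → L)} (hW : HasSl κ t (xm (d + 5 + 1) x) W)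
    {a : ℤ} (ha : 0 ≤ a) (hta : 0 < t + a) (hj : M < t + 5 * a)
    (hsz : (finrank L (spn W) : ℤ) * (a + genus κ L) ≤ ht κ (spn W)) :
    ((d + 6 : ℕ) : ℝ) * height κ x - ht κ W ≤ 5 * ((height κ x : ℝ) - a) := by
  have hxs : x ∈ spn W := mem_spn hx hW.mem
  have hne : spn W ≠ ⊥ := by
    intro h0
    rw [h0, Submodule.mem_bot] at hxs
    exact hx hxs
  obtain ⟨l, τ, hτ, hsum, hl, hm⟩ := siegel_height h hne hsz
  have hlx := form_ne_zero h hta hW hτ hsum hl hm
  have key : ((d + 1 + 5 : ℕ) : ℝ) * height κ x - ht κ (show Submodule L (EX n (d + 1 + 5) → L)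
      from W) ≤ (5 : ℕ) * ((height κ x : ℝ) - a) :=
    key_induction h hx hM ha hτ hsum hlx hm 5 t W (le_Sd_spn W) hW (by
      push_cast
      exact hj)
  exact_mod_cast key

end Pool.Agent.Lib.MP_44a246_ntO
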