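import Mathlib
import Pool.Agent.Lib.MP_44a246_ntO.O08

/-!
A space with slopes at least a quarter of the maximal slope and of large cost: the space spanned by
its contractions has small height.
-/

namespace Pool.Agent.Lib.MP_44a246_ntO

open Pool.Agent.Lib.MP_44a246_nt
open Pool.Agent.Lib.MP_44a246_ntL
open Pool.Agent.Lib.MP_44a246_ntS
open Pool.Agent.Lib.MP_44a246_ntF
open Pool.Agent.Lib.MP_44a246_ntR (genus)
open WithZero Module

variable {κ L : Type*} [Field κ] [IsAlgClosed κ] [CharZero κ] [Field L] [Algebra κ L] {n d : ℕ}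

/-- Lemma P, one block. Let `H = height x`, `Λ = spn W`, `R = finrank Λ ≥ 1`, `η = ht Λ`.
`M ≤ H`: not needed if `t ≤ H / 4` is given. Suppose `2 η > H`. `a := η / R - 1 - genus` (integer
division `⌊η / R⌋ - genus`, and `η / R < ⌊η/R⌋ + 1`), so `R (a + genus) ≤ η` and
`R (a + genus + 1) > η`. `hasSl_spn`, `HasSl.le (span {x})`: `t (R - 1) ≤ H - η`. Then
`5 a R > 5 η - 5 (1 + genus) R` and `3 t R ≤ 3 t + 3 (H - η) ≤ 3 H / 4 + 3 H - 3 η`; since
`8 η > 4 H`, `H ≥ 20 (1 + genus) n ≥ 20 (1 + genus) R`: `5 a > 3 t`, i.e. `M = 4 t < t + 5 a`.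
`a ≥ C`: `a + 1 + genus > η / R ≥ H / (2 n)` and `H ≥ 2 n (C + 1 + genus)`. `key_lemma` gives
`cost W ≤ 5 (H - a) ≤ 5 (H - C)`, contradiction to `hcost`. -/
theorem spn_height (h : IsFF κ L) {x : Fin n → L} (hx : x ≠ 0) {t : ℝ} (ht0 : 0 < t)
    (htH : 4 * t ≤ height κ x)
    (hM : ∀ E : Submodule L (Fin n → L), x ∈ E →
      (height κ x : ℝ) - ht κ E ≤ (4 * t) * ((finrank L E : ℝ) - 1))
    {W : Submodule L (EX n (d + 5 + 1) → L)} (hW : HasSl κ t (xm (d + 5 + 1) x) W) {C : ℕ}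
    (hbig : (20 * (1 + genus κ L) * n : ℤ) ≤ height κ x)
    (hbig2 : (2 * n * (C + 1 + genus κ L) : ℤ) ≤ height κ x)
    (hcost : 5 * ((height κ x : ℝ) - C) < ((d + 6 : ℕ) : ℝ) * height κ x - ht κ W) :
    2 * ht κ (spn W) ≤ height κ x ∧
      t * ((finrank L (spn W) : ℝ) - 1) ≤ height κ x := by
  have hH0 : (0 : ℤ) ≤ height κ x := h.height_nonneg hx
  have hΛ := hasSl_spn (d := d + 5) h hx hW
  obtain ⟨R, hR⟩ : ∃ R : ℕ, R = finrank L (spn (d := d + 5) W) := ⟨_, rfl⟩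
  obtain ⟨η, hη⟩ : ∃ η : ℤ, η = ht κ (spn (d := d + 5) W) := ⟨_, rfl⟩
  obtain ⟨H, hH⟩ : ∃ H : ℤ, H = height κ x := ⟨_, rfl⟩
  obtain ⟨g, hg⟩ : ∃ g : ℕ, g = genus κ L := ⟨_, rfl⟩
  have hη0 : 0 ≤ η := by rw [hη]; exact ht_nonneg h _
  have hxs : x ∈ spn (d := d + 5) W := mem_spn (d := d + 5) hx hW.mem
  have hR1 : 1 ≤ R := by
    rw [hR]
    have h1 : Submodule.span L {x} ≤ spn (d := d + 5) W := by
      rw [Submodule.span_singleton_le_iff_mem]
      exact hxs
    calc 1 = finrank L (Submodule.span L {x}) := (finrank_span_singleton hx).symm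
      _ ≤ _ := Submodule.finrank_mono h1
  have hRn : R ≤ n := by
    rw [hR]
    calc finrank L (spn (d := d + 5) W) ≤ finrank L (Fin n → L) := Submodule.finrank_le _
      _ = n := by simp
  have hslope : t * ((R : ℝ) - 1) ≤ (H : ℝ) - η := by
    have h1 := hΛ.le (Submodule.span L {x}) (by
      rw [Submodule.span_singleton_le_iff_mem]
      exact hxs) (Submodule.mem_span_singleton_self x)
    rw [finrank_span_singleton hx, ht_single h hx, Nat.cast_one, ← hR, ← hη, ← hH] at h1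
    exact h1
  have hHR : (0 : ℝ) ≤ (H : ℝ) := by rw [hH]; exact_mod_cast hH0
  have hηR : (0 : ℝ) ≤ (η : ℝ) := by exact_mod_cast hη0
  rw [← hR, ← hη, ← hH]
  refine ⟨?_, by linarith⟩
  by_contra hcon
  rw [not_le] at hcon
  -- the number `a`
  obtain ⟨a, ha⟩ : ∃ a : ℤ, a = η / R - g := ⟨_, rfl⟩
  have hRZ : (0 : ℤ) < R := by exact_mod_cast hR1
  have hq1 : (R : ℤ) * (a + g) ≤ η := by
    rw [ha, sub_add_cancel]
    exact Int.mul_ediv_self_le hRZ.ne'
  have hq2 : η < R * (a + g + 1) := by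
    rw [ha, sub_add_cancel]
    have := Int.lt_ediv_add_one_mul_self η hRZ
    linarith
  have hbig' : 20 * (1 + (g : ℤ)) * n ≤ H := by rw [hg, hH]; exact hbig
  have hbig2' : 2 * (n : ℤ) * (C + 1 + g) ≤ H := by rw [hg, hH]; exact hbig2
  have hRnZ : (R : ℤ) ≤ n := by exact_mod_cast hRn
  have haC : (C : ℤ) ≤ a := by
    by_contra hlt
    rw [not_le] at hlt
    have h1 : a + g + 1 ≤ C + g := by omega
    have h2 : (R : ℤ) * (a + g + 1) ≤ R * (C + g) := mul_le_mul_of_nonneg_left h1 hRZ.le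
    have h3 : (R : ℤ) * (C + g) ≤ n * (C + g) :=
      mul_le_mul_of_nonneg_right hRnZ (by positivity)
    nlinarith
  have ha0 : 0 ≤ a := le_trans (by positivity) haC
  have key : 3 * t < 5 * (a : ℝ) := by
    have hRR : (1 : ℝ) ≤ R := by exact_mod_cast hR1
    have e1 : (η : ℝ) < R * (a + g + 1) := by exact_mod_cast hq2
    have e2 : 20 * (1 + (g : ℝ)) * n ≤ H := by exact_mod_cast hbig'
    have e3 : (H : ℝ) < 2 * η := by exact_mod_cast hcon
    have e4 : 4 * t ≤ H := by rw [hH]; exact htH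
    have e5 : (R : ℝ) ≤ n := by exact_mod_cast hRn
    have e6 : 20 * (1 + (g : ℝ)) * R ≤ H :=
      le_trans (mul_le_mul_of_nonneg_left e5 (by positivity)) e2
    have e7 : 3 * t * R < 5 * (a : ℝ) * R := by nlinarith
    exact lt_of_mul_lt_mul_right e7 (by linarith)
  have hfin := key_lemma (a := a) h hx hM hW ha0 (by
      have : (0 : ℝ) ≤ a := by exact_mod_cast ha0
      linarith) (by linarith) (by
      rw [← hR, ← hη, ← hg]
      exact hq1)
  have haCR : (C : ℝ) ≤ (a : ℝ) := by exact_mod_cast haC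
  linarith

end Pool.Agent.Lib.MP_44a246_ntO
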