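import Mathlib
import Pool.Agent.Lib.MP_44a246_ntO.O09
import Pool.Agent.Lib.MP_44a246_ntO.O10a

/-!
Lemma P: the point lies in a subspace of bounded dimension and small height.
-/

namespace Pool.Agent.Lib.MP_44a246_ntO

open Pool.Agent.Lib.MP_44a246_nt
open Pool.Agent.Lib.MP_44a246_ntL
open Pool.Agent.Lib.MP_44a246_ntS
open Pool.Agent.Lib.MP_44a246_ntF
open Pool.Agent.Lib.MP_44a246_ntR (genus)
open WithZero Module

variable {κ L : Type*} [Field κ] [IsAlgClosed κ] [CharZero κ] [Field L] [Algebra κ L] {n p : ℕ}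

/-- The pair hypothesis: for every subspace `Λ` which contains `x` and every slope `t ≥ 0` there
is a block `j` and a space of functionals of large cost in this block. -/
def PairHyp (κ : Type*) [Field κ] [Algebra κ L] (x : Fin n → L) (d : Fin p → ℕ)
    (ρ r c k : ℕ) (E : ℝ) : Prop :=
  ∀ Λ : Submodule L (Fin n → L), x ∈ Λ → ∀ t : ℝ, 0 ≤ t →
    ∃ (j : Fin p) (U : Submodule L (EX n (d j) → L)), xm (d j) x ∈ U ∧
      ((k : ℝ) - ((finrank L Λ : ℝ) - 1)) * height κ x + r * ((height κ x : ℝ) - ht κ Λ)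
        - t * ((finrank L Λ : ℝ) * r + c) - E ≤
      ρ * ((d j : ℝ) * height κ x - ht κ U - t * ((finrank L U : ℝ) - 1))

theorem cost_le_aux (h : IsFF κ L) {x : Fin n → L} (hx : x ≠ 0) {m : ℝ}
    (hm : ∀ E : Submodule L (Fin n → L), x ∈ E →
      (height κ x : ℝ) - ht κ E ≤ m * ((finrank L E : ℝ) - 1)) {D : ℕ} (hD : 1 ≤ D)
    {W : Submodule L (EX n D → L)} (hW : xm D x ∈ W) :
    (D : ℝ) * height κ x - ht κ W ≤ m * ((finrank L W : ℝ) - 1) := by
  obtain ⟨e, rfl⟩ : ∃ e, D = e + 1 := ⟨D - 1, by omega⟩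
  exact cost_le h hx hm hW

theorem one_le_finrank_aux {ι : Type*} [Fintype ι] {ξ : ι → L} (hξ : ξ ≠ 0)
    {W : Submodule L (ι → L)} (hW : ξ ∈ W) : 1 ≤ finrank L W := by
  have h1 : L ∙ ξ ≤ W := (Submodule.span_singleton_le_iff_mem _ _).2 hW
  have h2 := Submodule.finrank_mono h1
  rwa [finrank_span_singleton hξ] at h2

theorem block_aux (h : IsFF κ L) {x : Fin n → L} (hx : x ≠ 0) {t : ℝ} (ht0 : 0 < t)
    (htH : 4 * t ≤ height κ x)
    (hM : ∀ E : Submodule L (Fin n → L), x ∈ E →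
      (height κ x : ℝ) - ht κ E ≤ (4 * t) * ((finrank L E : ℝ) - 1)) {D : ℕ} (hD : 6 ≤ D)
    {U : Submodule L (EX n D → L)} (hU : xm D x ∈ U) {C : ℕ}
    (hbig : (20 * (1 + genus κ L) * n : ℤ) ≤ height κ x)
    (hbig2 : (2 * n * (C + 1 + genus κ L) : ℤ) ≤ height κ x)
    (hcost : 5 * ((height κ x : ℝ) - C) <
      (D : ℝ) * height κ x - ht κ U - t * ((finrank L U : ℝ) - 1)) :
    ∃ P : Submodule L (Fin n → L), x ∈ P ∧ 2 * ht κ P ≤ height κ x ∧
      t * ((finrank L P : ℝ) - 1) ≤ height κ x := by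
  obtain ⟨e, rfl⟩ : ∃ e, D = e + 5 + 1 := ⟨D - 6, by omega⟩
  obtain ⟨W, hWU, hW, hle⟩ := exists_hasSl h t hU
  have h1 : (1 : ℝ) ≤ finrank L W := by
    exact_mod_cast one_le_finrank_aux (xm_ne_zero (d := e + 5 + 1) hx) hW.mem
  have h2 : 0 ≤ t * ((finrank L W : ℝ) - 1) := mul_nonneg ht0.le (by linarith)
  have h3 := spn_height h hx ht0 htH hM hW (C := C) hbig hbig2 (by
    have e1 : ((e + 6 : ℕ) : ℝ) = ((e + 5 + 1 : ℕ) : ℝ) := by push_cast; ring
    rw [e1]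
    nlinarith)
  exact ⟨spn W, mem_spn hx hW.mem, h3.1, h3.2⟩

/-- **Lemma P.** Let `H = height x`. `exists_slope` gives `E₁`, `M` (`2 ≤ n`), `p₁ = finrank E₁ - 1`.
(0) `PairHyp` for `span {x}` and `t = M` and `cost_le`: `k H - E ≤ M (r + c)`; so `M > 0`, and
`M ≤ H` because `M (finrank E₁ - 1) = H - ht E₁ ≤ H`.
(1) `PairHyp` for `E₁`, `t = M / 4`, `exists_hasSl` inside `U` (SC1) gives `W` in the block `j` with
`HasSl (M/4)` and `ρ cost W ≥ (k - p₁) H + r M p₁ - (M/4) ((p₁+1) r + c) - E ≥ k H - c H / 4 - E +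
p₁ (r M / 2 - H)`, and `r M / 2 ≥ H` because `r M ≥ k H - E - c M ≥ (k - c) H - E ≥ 2 H`
(`c + 3 ≤ k`, `E ≤ H`). So `ρ cost W ≥ (k - c/4) H - E ≥ 5 ρ H - E > 5 ρ (H - C)` if `5 ρ C > E`.
(2) `spn_height` with `t = M / 4`, `P := spn W` (`d j = d' + 5 + 1` since `6 ≤ d j`; `x ∈ P` by
`mem_spn`): `2 ht P ≤ H`, `(M/4) (finrank P - 1) ≤ H`; with (0):
`(k H - E)(finrank P - 1) ≤ (r + c) M (finrank P - 1) ≤ 4 (r + c) H`, `E ≤ H`. -/
theorem lemmaP (h : IsFF κ L) (hn : 2 ≤ n) {x : Fin n → L} (hx : x ≠ 0) {d : Fin p → ℕ}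
    (hd : ∀ j, 6 ≤ d j) {ρ r c k : ℕ} (hρ : 1 ≤ ρ) {E : ℝ} (hE : 0 ≤ E)
    (hP : PairHyp κ x d ρ r c k E)
    (hk : c + 3 ≤ k) (hk2 : c + 20 * ρ ≤ 4 * k) {C : ℕ} (hC : E < 5 * ρ * C)
    (hEH : E ≤ height κ x)
    (hbig : (20 * (1 + genus κ L) * n : ℤ) ≤ height κ x)
    (hbig2 : (2 * n * (C + 1 + genus κ L) : ℤ) ≤ height κ x) (hH : 0 < height κ x) :
    ∃ P : Submodule L (Fin n → L), x ∈ P ∧ 2 * ht κ P ≤ height κ x ∧
      (k - 1 : ℤ) * ((finrank L P : ℤ) - 1) ≤ 4 * (r + c) := by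
  obtain ⟨E₁, M, hxE, hE2, hEM, hM⟩ := exists_slope h hx (by rw [Fintype.card_fin]; exact hn)
  have hHR : (0 : ℝ) < height κ x := by exact_mod_cast hH
  have hr0 : (0 : ℝ) ≤ r := Nat.cast_nonneg r
  have hc0 : (0 : ℝ) ≤ c := Nat.cast_nonneg c
  have hkc : (c : ℝ) + 3 ≤ k := by exact_mod_cast hk
  have hk2R : (c : ℝ) + 20 * ρ ≤ 4 * k := by exact_mod_cast hk2
  have hρR : (1 : ℝ) ≤ ρ := by exact_mod_cast hρ
  have hE2R : (2 : ℝ) ≤ finrank L E₁ := by exact_mod_cast hE2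
  have hE1ht : (0 : ℝ) ≤ ht κ E₁ := by exact_mod_cast ht_nonneg h E₁
  -- `M > 0`
  have h0 : ∀ t : ℝ, 0 ≤ t → M ≤ t → (k : ℝ) * height κ x - E ≤ t * (r + c) := by
    intro t ht0 hMt
    obtain ⟨j, U, hU, hle⟩ := hP (L ∙ x) (Submodule.mem_span_singleton_self x) t ht0
    have h1 := cost_le_aux h hx hM (by have := hd j; omega : 1 ≤ d j) hU
    have h2 : (1 : ℝ) ≤ finrank L U := by
      exact_mod_cast one_le_finrank_aux (xm_ne_zero (d := d j) hx) hU
    have h3 : ht κ (L ∙ x) = height κ x := ht_single h hx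
    rw [finrank_span_singleton hx, h3] at hle
    have h4 : (d j : ℝ) * height κ x - ht κ U - t * ((finrank L U : ℝ) - 1) ≤ 0 := by
      nlinarith
    have h5 : (ρ : ℝ) * ((d j : ℝ) * height κ x - ht κ U - t * ((finrank L U : ℝ) - 1)) ≤ 0 :=
      mul_nonpos_of_nonneg_of_nonpos (by linarith) h4
    push_cast at hle
    nlinarith
  have hM0 : 0 < M := by
    by_contra hM0
    have h1 := h0 0 le_rfl (not_lt.1 hM0)
    nlinarith
  have h01 := h0 M hM0.le le_rfl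
  have hMH : M ≤ height κ x := by
    have h1 : M * 1 ≤ M * ((finrank L E₁ : ℝ) - 1) :=
      mul_le_mul_of_nonneg_left (by linarith) hM0.le
    linarith
  obtain ⟨j, U, hU, hle⟩ := hP E₁ hxE (M / 4) (by linarith)
  have hrM : 2 * (height κ x : ℝ) ≤ r * M := by
    have h1 : (c : ℝ) * M ≤ c * height κ x := mul_le_mul_of_nonneg_left hMH hc0
    have h2 : (3 : ℝ) * height κ x ≤ (k - c) * height κ x :=
      mul_le_mul_of_nonneg_right (by linarith) hHR.le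
    nlinarith
  have hcost : 5 * ((height κ x : ℝ) - C) <
      (d j : ℝ) * height κ x - ht κ U - (M / 4) * ((finrank L U : ℝ) - 1) := by
    have h1 : (c : ℝ) * M ≤ c * height κ x := mul_le_mul_of_nonneg_left hMH hc0
    have h2 : 0 ≤ ((finrank L E₁ : ℝ) - 1) * (r * M / 2 - height κ x) :=
      mul_nonneg (by linarith) (by linarith)
    have h3 : 0 ≤ ((finrank L E₁ : ℝ) - 2) * (M * r) :=
      mul_nonneg (by linarith) (mul_nonneg hM0.le hr0)
    have h4 : (5 * ρ : ℝ) * height κ x ≤ (k - c / 4) * height κ x :=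
      mul_le_mul_of_nonneg_right (by linarith) hHR.le
    have h5 : (5 * ρ : ℝ) * ((height κ x : ℝ) - C) <
        ρ * ((d j : ℝ) * height κ x - ht κ U - M / 4 * ((finrank L U : ℝ) - 1)) := by
      refine lt_of_lt_of_le ?_ hle
      nlinarith
    have h6 : (ρ : ℝ) * (5 * ((height κ x : ℝ) - C)) <
        ρ * ((d j : ℝ) * height κ x - ht κ U - M / 4 * ((finrank L U : ℝ) - 1)) := by
      linarith
    exact lt_of_mul_lt_mul_left h6 (by linarith)
  obtain ⟨P, hxP, hP1, hP2⟩ := block_aux h hx (t := M / 4) (by linarith) (by linarith)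
    (by
      intro E' hE'
      have := hM E' hE'
      have e1 : 4 * (M / 4) = M := by ring
      rw [e1]
      exact this) (hd j) hU hbig hbig2 hcost
  refine ⟨P, hxP, hP1, ?_⟩
  have hP3 : (1 : ℝ) ≤ finrank L P := by exact_mod_cast one_le_finrank_aux hx hxP
  have h1 : ((k : ℝ) - 1) * height κ x ≤ M * (r + c) := by nlinarith
  have h2 : ((k : ℝ) - 1) * height κ x * ((finrank L P : ℝ) - 1) ≤
      M * (r + c) * ((finrank L P : ℝ) - 1) := mul_le_mul_of_nonneg_right h1 (by linarith)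
  have h3 : (r + c : ℝ) * (M * ((finrank L P : ℝ) - 1)) ≤ (r + c) * (4 * height κ x) :=
    mul_le_mul_of_nonneg_left (by linarith) (by linarith)
  have h4 : (((k : ℝ) - 1) * ((finrank L P : ℝ) - 1)) * height κ x ≤
      (4 * (r + c)) * height κ x := by nlinarith
  have h5 := le_of_mul_le_mul_right h4 hHR
  exact_mod_cast h5

end Pool.Agent.Lib.MP_44a246_ntO
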