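import Mathlib
import Pool.Agent.Lib.MP_44a246_ntL.LFF

/-!
Extension of scalars for subspaces of a coordinate space.
-/

namespace Pool.Agent.Lib.MP_44a246_ntO

open Module

/-- extension of scalars for a subspace of a coordinate space -/
noncomputable def bc (L : Type*) {K : Type*} [Field K] [Field L] [Algebra K L] {ι : Type*}
    (A : Submodule K (ι → K)) : Submodule L (ι → L) :=
  Submodule.span L ((fun (y : ι → K) k => algebraMap K L (y k)) '' (A : Set (ι → K)))

variable {K L : Type*} [Field K] [Field L] [Algebra K L] {ι : Type*}

theorem am_mem_bc {A : Submodule K (ι → K)} {y : ι → K} (hy : y ∈ A) :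
    (fun k => algebraMap K L (y k)) ∈ bc L A := Submodule.subset_span ⟨y, hy, rfl⟩

theorem bc_mono {A B : Submodule K (ι → K)} (h : A ≤ B) : bc L A ≤ bc L B :=
  Submodule.span_mono (Set.image_mono h)

/-- the extension of a span (`≤`: `Submodule.span_le` and `span_induction`) -/
theorem bc_span (S : Set (ι → K)) : bc L (Submodule.span K S) =
    Submodule.span L ((fun (y : ι → K) k => algebraMap K L (y k)) '' S) := by
  apply le_antisymm
  · unfold bc
    rw [Submodule.span_le]
    rintro _ ⟨y, hy, rfl⟩
    have hy' : y ∈ Submodule.span K S := hy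
    clear hy
    induction hy' using Submodule.span_induction with
    | mem x hx => exact Submodule.subset_span ⟨x, hx, rfl⟩
    | zero =>
      have h0 : (fun (k : ι) => algebraMap K L ((0 : ι → K) k)) = 0 := by
        funext k
        simp
      simp only [h0]
      exact Submodule.zero_mem _
    | add x y _ _ hx hy =>
      have h1 : (fun (k : ι) => algebraMap K L ((x + y) k)) =
          (fun k => algebraMap K L (x k)) + (fun k => algebraMap K L (y k)) := by
        funext k
        simp
      simp only [h1]
      exact Submodule.add_mem _ hx hy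
    | smul c x _ hx =>
      have h1 : (fun (k : ι) => algebraMap K L ((c • x) k)) =
          algebraMap K L c • (fun k => algebraMap K L (x k)) := by
        funext k
        simp
      simp only [h1]
      exact Submodule.smul_mem _ _ hx
  · exact Submodule.span_mono (Set.image_mono Submodule.subset_span)

/-- a family which is independent over `K` stays independent over `L`: e.g. a nonzero minor, or
`LinearIndependent.map_injOn`/`linearIndependent_algebraMap...`; for `ι` finite use a nonzero minor
(`pl_ne_zero`, `pl_eq_zero` are for valuations; Mathlib: `Matrix.rank`, `Matrix.map`), or: choose a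
`K`-basis of `L` and compare coefficients. -/
theorem linearIndependent_am {ρ : Type*} {a : ρ → ι → K} (ha : LinearIndependent K a) :
    LinearIndependent L (fun i k => algebraMap K L (a i k)) := by
  rw [linearIndependent_iff'] at ha ⊢
  intro s c hc i hi
  have b := Basis.ofVectorSpace K L
  apply b.ext_elem
  intro j
  have hc' : ∑ i ∈ s, (b.coord j (c i)) • a i = 0 := by
    funext k
    have h1 := congrFun hc k
    simp only [Finset.sum_apply, Pi.smul_apply, smul_eq_mul, Pi.zero_apply] at h1 ⊢
    have h2 : b.coord j (∑ i ∈ s, c i * algebraMap K L (a i k)) = 0 := by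
      rw [h1, map_zero]
    rw [map_sum] at h2
    rw [← h2]
    refine Finset.sum_congr rfl fun i _ => ?_
    rw [mul_comm (c i), ← Algebra.smul_def, map_smul, smul_eq_mul, mul_comm]
  have h3 := ha s (fun i => b.coord j (c i)) hc' i hi
  simpa using h3

theorem finrank_bc [Finite ι] (A : Submodule K (ι → K)) : finrank L (bc L A) = finrank K A := by
  have b := Module.finBasis K A
  have h1 : A = Submodule.span K (Set.range fun i => (b i : ι → K)) := by
    have h2 := b.span_eq
    have h3 : Submodule.map A.subtype (Submodule.span K (Set.range b)) =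
        Submodule.map A.subtype ⊤ := by rw [h2]
    rw [Submodule.map_span, Submodule.map_top, Submodule.range_subtype, ← Set.range_comp] at h3
    exact h3.symm
  have h4 : LinearIndependent K (fun i => (b i : ι → K)) :=
    b.linearIndependent.map' A.subtype (Submodule.ker_subtype A)
  have h5 := linearIndependent_am (L := L) h4
  have h6 : bc L A = Submodule.span L
      (Set.range fun i => (fun k => algebraMap K L ((b i : ι → K) k))) := by
    conv_lhs => rw [h1]
    rw [bc_span, ← Set.range_comp]
    rfl
  rw [h6, finrank_span_eq_card h5]
  simp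

/-- a `K`-linear retraction of the inclusion `K → L`, applied coordinatewise, maps the extension
of `A` to `A` -/
private theorem compLeft_mem (lam : L →ₗ[K] K) (A : Submodule K (ι → K)) {v : ι → L}
    (hv : v ∈ bc L A) : ∀ c : L, (fun k => lam (c * v k)) ∈ A := by
  unfold bc at hv
  induction hv using Submodule.span_induction with
  | mem x hx =>
    obtain ⟨y, hy, rfl⟩ := hx
    intro c
    have h1 : (fun k => lam (c * algebraMap K L (y k))) = lam c • y := by
      funext k
      rw [mul_comm c, ← Algebra.smul_def, map_smul, Pi.smul_apply, smul_eq_mul, smul_eq_mul,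
        mul_comm]
    simp only [h1]
    exact A.smul_mem _ hy
  | zero =>
    intro c
    have h1 : (fun k => lam (c * (0 : ι → L) k)) = 0 := by
      funext k
      simp
    rw [h1]
    exact A.zero_mem
  | add x y _ _ hx hy =>
    intro c
    have h1 : (fun k => lam (c * (x + y) k)) =
        (fun k => lam (c * x k)) + (fun k => lam (c * y k)) := by
      funext k
      simp [mul_add]
    rw [h1]
    exact A.add_mem (hx c) (hy c)
  | smul d x _ hx =>
    intro c
    have h1 : (fun k => lam (c * (d • x) k)) = (fun k => lam ((c * d) * x k)) := by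
      funext k
      simp [mul_assoc]
    rw [h1]
    exact hx _

/-- `A = K`-points of the extension: if `y` is not in `A`, a basis of `A` together with `y` is
independent, also over `L`. -/
theorem am_mem_bc_iff [Finite ι] {A : Submodule K (ι → K)} {y : ι → K} :
    (fun k => algebraMap K L (y k)) ∈ bc L A ↔ y ∈ A := by
  refine ⟨fun h => ?_, am_mem_bc⟩
  obtain ⟨lam, hlam⟩ : ∃ lam : L →ₗ[K] K, lam 1 = 1 := by
    have hinj : LinearMap.ker (Algebra.linearMap K L) = ⊥ := by
      rw [LinearMap.ker_eq_bot]
      exact (algebraMap K L).injective
    obtain ⟨g, hg⟩ := LinearMap.exists_leftInverse_of_injective (Algebra.linearMap K L) hinj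
    refine ⟨g, ?_⟩
    have := LinearMap.congr_fun hg 1
    simpa using this
  have h1 := compLeft_mem lam A h 1
  have h2 : (fun k => lam (1 * algebraMap K L (y k))) = y := by
    funext k
    rw [one_mul, Algebra.algebraMap_eq_smul_one, map_smul, hlam, smul_eq_mul, mul_one]
  rw [h2] at h1
  exact h1

theorem bc_le_bc [Finite ι] {A B : Submodule K (ι → K)} : bc L A ≤ bc L B ↔ A ≤ B := by
  refine ⟨fun h y hy => ?_, bc_mono⟩
  exact (am_mem_bc_iff (L := L)).1 (h (am_mem_bc hy))

theorem bc_top [Finite ι] : bc L (⊤ : Submodule K (ι → K)) = ⊤ := by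
  classical
  have := Fintype.ofFinite ι
  rw [eq_top_iff]
  intro v _
  have h1 : v = ∑ k, v k • (fun j => algebraMap K L ((Pi.single k (1 : K) : ι → K) j)) := by
    funext j
    simp [Finset.sum_apply, Pi.single_apply]
  rw [h1]
  refine Submodule.sum_mem _ fun k _ => Submodule.smul_mem _ _ (am_mem_bc Submodule.mem_top)

theorem bc_bot : bc L (⊥ : Submodule K (ι → K)) = ⊥ := by
  unfold bc
  rw [Submodule.span_eq_bot]
  rintro _ ⟨y, hy, rfl⟩
  have h1 : y = 0 := by simpa using hy
  subst h1
  funext k
  simp

theorem bc_bc {M : Type*} [Field M] [Algebra L M] [Algebra K M] [IsScalarTower K L M]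
    (A : Submodule K (ι → K)) : bc M (bc L A) = bc M A := by
  conv_lhs => rw [bc]
  change Submodule.span M (_ '' (bc L A : Set (ι → L))) = _
  have h1 := bc_span (K := L) (L := M) ((fun (y : ι → K) k => algebraMap K L (y k)) '' (A : Set (ι → K)))
  have h2 : bc M (bc L A) = Submodule.span M ((fun (y : ι → L) k => algebraMap L M (y k)) ''
      ((fun (y : ι → K) k => algebraMap K L (y k)) '' (A : Set (ι → K)))) := h1
  have h3 : bc M (bc L A) = bc M A := by
    rw [h2, Set.image_image]
    unfold bc
    congr 1
    refine Set.image_congr fun y _ => ?_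
    funext k
    exact (IsScalarTower.algebraMap_apply K L M (y k)).symm
  exact h3

end Pool.Agent.Lib.MP_44a246_ntO
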