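import Mathlib
import Pool.Agent.Lib.MP_44a246_ntO.OS1a
import Pool.Agent.Lib.MP_44a246_ntS.SB2c

/-!
Heights of subspaces in finite extensions.
-/

namespace Pool.Agent.Lib.MP_44a246_ntO

open Pool.Agent.Lib.MP_44a246_nt
open Pool.Agent.Lib.MP_44a246_ntL
open Pool.Agent.Lib.MP_44a246_ntS
open WithZero Module

variable {κ K L : Type*} [Field κ] [IsAlgClosed κ] [CharZero κ] [Field K] [Algebra κ K]
  [Field L] [Algebra κ L] [Algebra K L] [IsScalarTower κ K L] [FiniteDimensional K L]
  {ι : Type*} [Fintype ι]

/-- Proof: `ht` of the span of a basis `a` is the height of the vector of its minors (`ht_span`,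
`pl` is `vmax` of the minors by definition); `IsFF.height_ext`, the minors commute with
`algebraMap` (`RingHom.map_det`). Zero space: `ht_bot`, `bc_bot`, or the same argument. -/
theorem ht_bc (h : IsFF κ K) (A : Submodule K (ι → K)) :
    ht κ (bc L A) = finrank K L * ht κ A := by
  classical
  have hL : IsFF κ L := IsFF.of_finite (K := K) h
  obtain ⟨h1, h2⟩ := finBasis_val A
  rcases isEmpty_or_nonempty (Place κ K) with hp | ⟨⟨v⟩⟩
  · have hpL : IsEmpty (Place κ L) := ⟨fun w => hp.elim (below K w)⟩
    unfold ht
    rw [finsum_of_isEmpty, finsum_of_isEmpty, mul_zero]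
  have hne : (fun e : Fin (Module.finrank K A) → ι =>
      (Matrix.of fun i j => (Module.finBasis K A i : ι → K) (e j)).det) ≠ 0 := by
    intro h0
    refine pl_ne_zero v.1 h1 ?_
    unfold pl
    rw [h0, vmax_eq_zero_iff]
  have hbc : bc L A = Submodule.span L (Set.range fun i k =>
      algebraMap K L ((Module.finBasis K A i : ι → K) k)) := by
    conv_lhs => rw [← h2]
    rw [bc_span, ← Set.range_comp]
    rfl
  rw [hbc, ht_span hL (linearIndependent_am h1)]
  have h3 := hL.height_ext hne
  have h4 : ∑ᶠ w : Place κ L, log (pl w.1 fun i k =>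
      algebraMap K L ((Module.finBasis K A i : ι → K) k)) =
      height κ (fun e : Fin (Module.finrank K A) → ι => algebraMap K L
        (Matrix.of fun i j => (Module.finBasis K A i : ι → K) (e j)).det) := by
    unfold height
    refine finsum_congr fun w => ?_
    congr 1
    unfold pl
    congr 1
    funext e
    rw [RingHom.map_det]
    rfl
  rw [h4, h3]
  rfl

/-- `∑ e = n`: sums over the places of the extension -/
theorem finsum_below (h : IsFF κ K) {f : Place κ K → ℤ} (hf : (Function.support f).Finite) :
    (Function.support fun w : Place κ L => (ramIdx K w.1 : ℤ) * f (below K w)).Finite ∧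
      ∑ᶠ w : Place κ L, (ramIdx K w.1 : ℤ) * f (below K w) = finrank K L * ∑ᶠ v, f v := by
  classical
  have hL : IsFF κ L := IsFF.of_finite (K := K) h
  choose T _ hT hsum using fun v : Place κ K => hL.exists_over (L := L) v
  set F := hf.toFinset with hF
  have hsub : (Function.support fun w : Place κ L => (ramIdx K w.1 : ℤ) * f (below K w)) ⊆
      (F.biUnion T : Finset (Place κ L)) := by
    intro w hw
    rw [Finset.mem_coe, Finset.mem_biUnion]
    refine ⟨below K w, ?_, (hT _ w).2 rfl⟩
    rw [hF, Set.Finite.mem_toFinset]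
    intro h0
    apply hw
    simp only
    rw [h0, mul_zero]
  refine ⟨(Finset.finite_toSet _).subset hsub, ?_⟩
  rw [finsum_eq_sum_of_support_subset _ hsub, Finset.sum_biUnion]
  · have hfs : ∑ᶠ v, f v = ∑ v ∈ F, f v :=
      finsum_eq_sum_of_support_subset _ (by rw [hF, Set.Finite.coe_toFinset])
    rw [hfs, Finset.mul_sum]
    refine Finset.sum_congr rfl fun v _ => ?_
    rw [← hsum v, Finset.sum_mul]
    refine Finset.sum_congr rfl fun w hw => ?_
    rw [(hT v w).1 hw]
  · intro v _ v' _ hne
    rw [Function.onFun, Finset.disjoint_left]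
    intro w hw hw'
    exact hne (((hT v w).1 hw).symm.trans ((hT v' w).1 hw'))

end Pool.Agent.Lib.MP_44a246_ntO
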