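import Mathlib
import Pool.Agent.Lib.MP_44a246_ntO.OS1

/-!
The action of the Galois group on subspaces.
-/

namespace Pool.Agent.Lib.MP_44a246_ntO

open Pool.Agent.Lib.MP_44a246_nt
open Pool.Agent.Lib.MP_44a246_ntL
open Pool.Agent.Lib.MP_44a246_ntS
open WithZero Module

variable {κ K L : Type*} [Field κ] [Field K] [Algebra κ K]
  [Field L] [Algebra κ L] [Algebra K L] [IsScalarTower κ K L] {ι : Type*}

/-- the conjugate subspace -/
def cj (σ : L ≃ₐ[K] L) (A : Submodule L (ι → L)) : Submodule L (ι → L) where
  carrier := {y | (fun k => σ.symm (y k)) ∈ A}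
  zero_mem' := by
    simp only [Set.mem_setOf_eq, Pi.zero_apply, map_zero]
    exact A.zero_mem
  add_mem' := by
    intro y z hy hz
    simp only [Set.mem_setOf_eq, Pi.add_apply, map_add] at hy hz ⊢
    exact A.add_mem hy hz
  smul_mem' := by
    intro c y hy
    simp only [Set.mem_setOf_eq, Pi.smul_apply, smul_eq_mul, map_mul] at hy ⊢
    exact A.smul_mem (σ.symm c) hy

theorem mem_cj {σ : L ≃ₐ[K] L} {A : Submodule L (ι → L)} {y : ι → L} :
    y ∈ cj σ A ↔ (fun k => σ.symm (y k)) ∈ A := Iff.rfl

theorem finrank_cj [Finite ι] (σ : L ≃ₐ[K] L) (A : Submodule L (ι → L)) :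
    finrank L (cj σ A) = finrank L A := by
  unfold finrank
  congr 1
  let j : cj σ A ≃+ A :=
    { toFun := fun y => ⟨fun k => σ.symm (y.1 k), y.2⟩
      invFun := fun y => ⟨fun k => σ (y.1 k), by
        rw [mem_cj]
        simp⟩
      left_inv := by
        intro y
        ext k
        simp
      right_inv := by
        intro y
        ext k
        simp
      map_add' := by
        intro y z
        ext k
        simp }
  refine rank_eq_of_equiv_equiv (σ.symm : L → L) j σ.symm.bijective ?_
  intro r m
  ext k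
  simp [j]

private theorem bc_le_cj (σ : L ≃ₐ[K] L) (A : Submodule K (ι → K)) :
    bc L A ≤ cj σ (bc L A) := by
  unfold bc
  rw [Submodule.span_le]
  rintro _ ⟨y, hy, rfl⟩
  rw [SetLike.mem_coe, mem_cj]
  have h2 : (fun k => σ.symm (algebraMap K L (y k))) = fun k => algebraMap K L (y k) := by
    ext k
    simp
  change (fun k => σ.symm (algebraMap K L (y k))) ∈ _
  rw [h2]
  exact am_mem_bc hy

theorem cj_bc (σ : L ≃ₐ[K] L) (A : Submodule K (ι → K)) : cj σ (bc L A) = bc L A := by
  apply le_antisymm _ (bc_le_cj σ A)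
  intro y hy
  have h := bc_le_cj σ.symm A (mem_cj.1 hy)
  rw [mem_cj] at h
  simpa using h

theorem cj_mono {σ : L ≃ₐ[K] L} {A B : Submodule L (ι → L)} (h : A ≤ B) : cj σ A ≤ cj σ B :=
  fun _ hy => h hy

/-- Galois descent. Proof: `Q` has a basis `a` with `a i (f j) = if i = j then 1 else 0` for some
columns `f` (any basis, a nonzero minor); `σ ∘ a i ∈ Q` has the same coordinates at the columns `f`,
so `σ ∘ a i = a i`; entries fixed by all `σ` are in `K` (`IsGalois.mem_bot_iff_fixed`,
`IntermediateField.mem_bot`). `Q₀ :=` span of the descended basis (`bc_span`). -/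
theorem exists_descent [Finite ι] [FiniteDimensional K L] [IsGalois K L]
    {Q : Submodule L (ι → L)} (hQ : ∀ σ : L ≃ₐ[K] L, cj σ Q = Q) :
    ∃ Q₀ : Submodule K (ι → K), Q = bc L Q₀ := by
  classical
  let Q₀ : Submodule K (ι → K) :=
    { carrier := {y | (fun k => algebraMap K L (y k)) ∈ Q}
      zero_mem' := by
        simp only [Set.mem_setOf_eq, Pi.zero_apply, map_zero]
        exact Q.zero_mem
      add_mem' := by
        intro y z hy hz
        simp only [Set.mem_setOf_eq, Pi.add_apply, map_add] at hy hz ⊢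
        exact Q.add_mem hy hz
      smul_mem' := by
        intro c y hy
        simp only [Set.mem_setOf_eq, Pi.smul_apply, smul_eq_mul, map_mul] at hy ⊢
        exact Q.smul_mem (algebraMap K L c) hy }
  have hQ₀ : ∀ y : ι → K, y ∈ Q₀ ↔ (fun k => algebraMap K L (y k)) ∈ Q := fun _ => Iff.rfl
  refine ⟨Q₀, le_antisymm ?_ ?_⟩
  · intro y hy
    have hσ : ∀ σ : L ≃ₐ[K] L, (fun k => σ (y k)) ∈ Q := by
      intro σ
      have h : (fun k => σ (y k)) ∈ cj σ Q := by
        rw [mem_cj]
        simpa using hy
      rwa [hQ σ] at h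
    have htr : ∀ c : L, (fun k => Algebra.trace K L (y k * c)) ∈ Q₀ := by
      intro c
      rw [hQ₀]
      have h1 : (fun k => algebraMap K L (Algebra.trace K L (y k * c)))
          = ∑ σ : L ≃ₐ[K] L, σ c • (fun k => σ (y k)) := by
        ext k
        rw [trace_eq_sum_automorphisms, Finset.sum_apply]
        refine Finset.sum_congr rfl ?_
        intro σ _
        rw [Pi.smul_apply, smul_eq_mul, map_mul, mul_comm]
      rw [h1]
      exact Submodule.sum_mem _ (fun σ _ => Q.smul_mem _ (hσ σ))
    let b := Module.finBasis K L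
    have hnd : (Algebra.traceForm K L).Nondegenerate := traceForm_nondegenerate K L
    let d := (Algebra.traceForm K L).dualBasis hnd b
    have hy2 : y = ∑ i, d i • (fun k => algebraMap K L (Algebra.trace K L (y k * b i))) := by
      ext k
      rw [Finset.sum_apply]
      conv_lhs => rw [← d.sum_repr (y k)]
      refine Finset.sum_congr rfl ?_
      intro i _
      rw [LinearMap.BilinForm.dualBasis_repr_apply, Algebra.traceForm_apply, Pi.smul_apply,
        smul_eq_mul, Algebra.smul_def, mul_comm]
    rw [hy2]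
    exact Submodule.sum_mem _ (fun i _ => Submodule.smul_mem _ _ (am_mem_bc (htr (b i))))
  · unfold bc
    rw [Submodule.span_le]
    rintro _ ⟨y, hy, rfl⟩
    exact (hQ₀ y).1 hy

end Pool.Agent.Lib.MP_44a246_ntO
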