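import Mathlib
import Pool.Agent.Lib.MP_44a246_ntO.OS6a

/-!
The height of a conjugate subspace.
-/

namespace Pool.Agent.Lib.MP_44a246_ntO

open Pool.Agent.Lib.MP_44a246_nt
open Pool.Agent.Lib.MP_44a246_ntL
open Pool.Agent.Lib.MP_44a246_ntS
open WithZero Module

variable {κ K L : Type*} [Field κ] [Field K] [Algebra κ K]
  [Field L] [Algebra κ L] [Algebra K L] [IsScalarTower κ K L] {ι : Type*}

/-- the pulled back place -/
private noncomputable def plc (σ : L ≃ₐ[K] L) (w : Place κ L) : Place κ L :=
  ⟨w.1.comap (σ : L →+* L), by
    constructor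
    · intro y
      obtain ⟨x, hx⟩ := w.2.1 y
      exact ⟨σ.symm x, by
        rw [Valuation.comap_apply]
        simpa using hx⟩
    · intro c hc
      rw [Valuation.comap_apply]
      have h1 : (σ : L →+* L) (algebraMap κ L c) = algebraMap κ L c := by
        rw [IsScalarTower.algebraMap_apply κ K L]
        exact σ.commutes _
      rw [h1]
      exact w.2.2 c hc⟩

private theorem plc_val (σ : L ≃ₐ[K] L) (w : Place κ L) (x : L) :
    (plc σ w).1 x = w.1 (σ x) := rfl

/-- the places are permuted -/
private noncomputable def plcEquiv (σ : L ≃ₐ[K] L) : Place κ L ≃ Place κ L where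
  toFun := plc σ
  invFun := plc σ.symm
  left_inv := by
    intro w
    apply Subtype.ext
    apply Valuation.ext
    intro x
    rw [plc_val, plc_val, AlgEquiv.apply_symm_apply]
  right_inv := by
    intro w
    apply Subtype.ext
    apply Valuation.ext
    intro x
    rw [plc_val, plc_val, AlgEquiv.symm_apply_apply]

private theorem pl_conj {ρ : Type*} [Fintype ρ] [DecidableEq ρ] [Fintype ι] (σ : L ≃ₐ[K] L)
    (w : Place κ L) (a : ρ → ι → L) :
    pl w.1 (fun i k => σ (a i k)) = pl (plc σ w).1 a := by
  unfold pl vmax
  congr 1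
  funext e
  rw [plc_val]
  congr 1
  rw [AlgEquiv.map_det]
  rfl

private theorem li_conj {ρ : Type*} (σ : L ≃ₐ[K] L) {a : ρ → ι → L}
    (ha : LinearIndependent L a) : LinearIndependent L (fun i k => σ (a i k)) := by
  rw [linearIndependent_iff'] at ha ⊢
  intro s g hg i hi
  have h1 : ∑ i ∈ s, σ.symm (g i) • a i = 0 := by
    funext k
    have h2 := congrFun hg k
    simp only [Finset.sum_apply, Pi.smul_apply, smul_eq_mul, Pi.zero_apply] at h2 ⊢
    have h3 := congrArg σ.symm h2
    rw [map_sum, map_zero] at h3
    rw [← h3]
    refine Finset.sum_congr rfl fun j _ => ?_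
    rw [map_mul, AlgEquiv.symm_apply_apply]
  have h4 := ha s (fun i => σ.symm (g i)) h1 i hi
  exact (map_eq_zero_iff σ.symm σ.symm.injective).mp h4

private theorem span_conj {ρ : Type*} (σ : L ≃ₐ[K] L) {a : ρ → ι → L}
    (A : Submodule L (ι → L)) (ha : Submodule.span L (Set.range a) = A) :
    Submodule.span L (Set.range (fun i k => σ (a i k))) = cj σ A := by
  apply le_antisymm
  · rw [Submodule.span_le]
    rintro _ ⟨i, rfl⟩
    show (fun k => σ.symm (σ (a i k))) ∈ A
    have h1 : (fun k => σ.symm (σ (a i k))) = a i := by
      funext k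
      rw [AlgEquiv.symm_apply_apply]
    rw [h1, ← ha]
    exact Submodule.subset_span ⟨i, rfl⟩
  · intro y hy
    have hy' : (fun k => σ.symm (y k)) ∈ Submodule.span L (Set.range a) := by
      rw [ha]
      exact hy
    have key : ∀ z : ι → L, z ∈ Submodule.span L (Set.range a) →
        (fun k => σ (z k)) ∈ Submodule.span L (Set.range (fun i k => σ (a i k))) := by
      intro z hz
      induction hz using Submodule.span_induction with
      | mem x hx =>
        obtain ⟨i, rfl⟩ := hx
        exact Submodule.subset_span ⟨i, rfl⟩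
      | zero =>
        have h0 : (fun k : ι => σ ((0 : ι → L) k)) = 0 := by
          funext k
          simp
        rw [h0]
        exact Submodule.zero_mem _
      | add x y _ _ hx hy =>
        have h0 : (fun k : ι => σ ((x + y) k)) = (fun k => σ (x k)) + fun k => σ (y k) := by
          funext k
          simp
        rw [h0]
        exact Submodule.add_mem _ hx hy
      | smul c x _ hx =>
        have h0 : (fun k : ι => σ ((c • x) k)) = σ c • fun k => σ (x k) := by
          funext k
          simp
        rw [h0]
        exact Submodule.smul_mem _ _ hx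
    have h2 := key _ hy'
    have h3 : (fun k => σ (σ.symm (y k))) = y := by
      funext k
      rw [AlgEquiv.apply_symm_apply]
    rw [h3] at h2
    exact h2

/-- The height is invariant. Proof: basis `a` of `A`, `σ ∘ a` is a basis of `cj σ A`, its minors are
the conjugates of the minors of `a`, `vmax w (σ ∘ x) = vmax (w.comap σ) x`, and `w ↦ w.comap σ` is a
bijection of the places (`finsum_comp_equiv`, `finsum_eq_of_bijective`); `σ` fixes the constants. -/
theorem ht_cj [IsAlgClosed κ] [CharZero κ] [Fintype ι] (h : IsFF κ L) (σ : L ≃ₐ[K] L)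
    (A : Submodule L (ι → L)) : ht κ (cj σ A) = ht κ A := by
  classical
  obtain ⟨h1, h2⟩ := finBasis_val A
  have h3 := span_conj σ A h2
  rw [← h3, ht_span h (li_conj σ h1)]
  unfold ht
  rw [finsum_congr fun w : Place κ L => congrArg log (pl_conj σ w _)]
  exact finsum_comp_equiv (f := fun w : Place κ L =>
    log (pl w.1 fun i k => (Module.finBasis L A i : ι → L) k)) (plcEquiv (κ := κ) σ)

end Pool.Agent.Lib.MP_44a246_ntO
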