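import Mathlib
import Pool.Agent.Lib.MP_44a246_ntO.OS6b
import Pool.Agent.Lib.MP_44a246_ntS.SC3

/-!
Slopes in Galois extensions.
-/

namespace Pool.Agent.Lib.MP_44a246_ntO

open Pool.Agent.Lib.MP_44a246_nt
open Pool.Agent.Lib.MP_44a246_ntL
open Pool.Agent.Lib.MP_44a246_ntS
open WithZero Module

variable {κ K L : Type*} [Field κ] [IsAlgClosed κ] [CharZero κ] [Field K] [Algebra κ K]
  [Field L] [Algebra κ L] [Algebra K L] [IsScalarTower κ K L] [FiniteDimensional K L]
  [IsGalois K L] {ι : Type*} [Fintype ι]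

/-- The minimum of `ht + [L:K] μ dim` over the spaces between `ξ` and `U` is attained over `K`.
Proof: `exists_max_slope` for `bc L U` gives a minimiser `Q` such that all smaller spaces have
larger values. For `σ`: `cj σ Q` has the same value and is `≤ cj σ (bc L U) = bc L U`, contains `ξ`;
`ht_sup_inf` and the modular law for dimensions: the value of `Q ⊓ cj σ Q` is minimal too, so
`Q ⊓ cj σ Q = Q`, `Q ≤ cj σ Q`, equality by `finrank_cj`. `exists_descent`, `bc_le_bc`,
`am_mem_bc_iff`, `ht_bc`, `finrank_bc`. -/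
theorem exists_min_descent (h : IsFF κ K) (μ : ℝ) {ξ : ι → K} {U : Submodule K (ι → K)}
    (hξ : ξ ∈ U) : ∃ Q₀ ≤ U, ξ ∈ Q₀ ∧ ∀ Q ≤ bc L U, (fun k => algebraMap K L (ξ k)) ∈ Q →
      finrank K L * ((ht κ Q₀ : ℝ) + μ * finrank K Q₀) ≤
        (ht κ Q : ℝ) + finrank K L * μ * finrank L Q := by
  classical
  have hL : IsFF κ L := h.of_finite
  set ξ' : ι → L := fun k => algebraMap K L (ξ k) with hξ'
  have hξU : ξ' ∈ bc L U := am_mem_bc hξ
  obtain ⟨Q, hQU, hξQ, hmin, hstrict⟩ := exists_max_slope hL (finrank K L * μ) hξU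
  have hcj : ∀ σ : L ≃ₐ[K] L, cj σ Q = Q := by
    intro σ
    have hξc : ξ' ∈ cj σ Q := by
      rw [mem_cj]
      have e : (fun k => σ.symm (ξ' k)) = ξ' := by
        funext k
        exact σ.symm.commutes (ξ k)
      rw [e]
      exact hξQ
    have hht : ht κ (cj σ Q) = ht κ Q := ht_cj hL σ Q
    have hfr : finrank L (cj σ Q) = finrank L Q := finrank_cj σ Q
    have hle : cj σ Q ≤ bc L U := by
      have h1 := cj_mono (σ := σ) hQU
      rwa [cj_bc] at h1
    have hQle : Q ≤ cj σ Q := by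
      by_contra hne
      have hne' : Q ⊓ cj σ Q ≠ Q := fun e => hne (inf_eq_left.mp e)
      have h1 := hstrict (Q ⊓ cj σ Q) inf_le_left ⟨hξQ, hξc⟩ hne'
      have h2 := hmin (Q ⊔ cj σ Q) (sup_le hQU hle) (Submodule.mem_sup_left hξQ)
      have h3 := ht_sup_inf hL Q (cj σ Q)
      have h4 := Submodule.finrank_sup_add_finrank_inf_eq Q (cj σ Q)
      rw [hht] at h3
      rw [hfr] at h4
      have h3' : (ht κ (Q ⊔ cj σ Q) : ℝ) + ht κ (Q ⊓ cj σ Q) ≤ ht κ Q + ht κ Q := by
        exact_mod_cast h3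
      have h4' : (finrank L (Q ⊔ cj σ Q : Submodule L (ι → L)) : ℝ) +
          finrank L (Q ⊓ cj σ Q : Submodule L (ι → L)) = finrank L Q + finrank L Q := by
        exact_mod_cast h4
      have h5 : (finrank K L * μ) * (finrank L (Q ⊔ cj σ Q : Submodule L (ι → L)) : ℝ) +
          (finrank K L * μ) * finrank L (Q ⊓ cj σ Q : Submodule L (ι → L)) =
            (finrank K L * μ) * finrank L Q + (finrank K L * μ) * finrank L Q := by
        rw [← mul_add, h4', mul_add]
      linarith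
    exact (Submodule.eq_of_le_of_finrank_eq hQle hfr.symm).symm
  obtain ⟨Q₀, hQ₀⟩ := exists_descent hcj
  refine ⟨Q₀, ?_, ?_, ?_⟩
  · rw [hQ₀] at hQU
    exact bc_le_bc.mp hQU
  · rw [hQ₀] at hξQ
    exact am_mem_bc_iff.mp hξQ
  · intro Q1 hQ1 hξ1
    have h1 := hmin Q1 hQ1 hξ1
    rw [hQ₀, ht_bc h Q₀, finrank_bc] at h1
    push_cast at h1
    linarith

/-- slopes of quotients in the extension -/
theorem HasSl_bc (h : IsFF κ K) {μ : ℝ} {ξ : ι → K} {U : Submodule K (ι → K)}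
    (hU : HasSl κ μ ξ U) :
    HasSl κ (finrank K L * μ) (fun k => algebraMap K L (ξ k)) (bc L U) := by
  obtain ⟨Q₀, hQ₀U, hξ, hmin⟩ := exists_min_descent (L := L) h μ hU.mem
  refine ⟨am_mem_bc hU.mem, fun U' hU' hξ' => ?_⟩
  have h1 := hmin U' hU' hξ'
  have h2 := hU.le Q₀ hQ₀U hξ
  have h3 := mul_le_mul_of_nonneg_left h2 (Nat.cast_nonneg (α := ℝ) (finrank K L))
  rw [ht_bc h U, finrank_bc]
  push_cast
  linarith

/-- maximal slopes in the extension -/
theorem slope_bc (h : IsFF κ K) {M : ℝ} {x : ι → K} (hx : x ≠ 0)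
    (hM : ∀ E : Submodule K (ι → K), x ∈ E →
      (height κ x : ℝ) - ht κ E ≤ M * ((finrank K E : ℝ) - 1))
    {E : Submodule L (ι → L)} (hE : (fun k => algebraMap K L (x k)) ∈ E) :
    (height κ (fun k => algebraMap K L (x k)) : ℝ) - ht κ E ≤
      finrank K L * M * ((finrank L E : ℝ) - 1) := by
  have hL : IsFF κ L := h.of_finite
  have hE' : E ≤ bc L (⊤ : Submodule K (ι → K)) := by
    rw [bc_top]
    exact le_top
  obtain ⟨Q₀, -, hxQ, hmin⟩ := exists_min_descent (L := L) h M (U := ⊤)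
    (Submodule.mem_top (x := x))
  have h1 := hmin E hE' hE
  have h2 := hM Q₀ hxQ
  have h3 := mul_le_mul_of_nonneg_left h2 (Nat.cast_nonneg (α := ℝ) (finrank K L))
  rw [hL.height_ext hx]
  push_cast
  linarith

end Pool.Agent.Lib.MP_44a246_ntO
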