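import Mathlib
import Pool.Agent.Lib.MP_44a246_ntO.OS1
import Pool.Agent.Lib.MP_44a246_ntO.O07a

/-!
Extension of scalars for spaces of functionals.
-/

namespace Pool.Agent.Lib.MP_44a246_ntO

open Pool.Agent.Lib.MP_44a246_nt
open Pool.Agent.Lib.MP_44a246_ntL
open Pool.Agent.Lib.MP_44a246_ntS
open Pool.Agent.Lib.MP_44a246_ntF
open Pool.Agent.Lib.MP_e52354_nt
open WithZero Module

variable {K L : Type*} [Field K] [Field L] [Algebra K L] {n d : ℕ}

theorem xm_am (x : Fin n → K) :
    xm d (fun k => algebraMap K L (x k)) = fun I => algebraMap K L (xm d x I) := by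
  funext I
  unfold xm mon
  rw [map_prod]
  exact Finset.prod_congr rfl fun j _ => (map_pow _ _ _).symm

/-- `≤`: `spn_le`, the generators of `bc L W`; `≥`: `bc_span`-like, `cm_mem_spn`. -/
theorem spn_bc (W : Submodule K (EX n (d + 1) → K)) : spn (bc L W) = bc L (spn W) := by
  have hcm : ∀ (φ : EX n d) (u : EX n (d + 1) → K),
      cm φ (fun I => algebraMap K L (u I)) = fun k => algebraMap K L (cm φ u k) := by
    intro φ u
    rfl
  refine le_antisymm (spn_le ?_) ?_
  · unfold bc
    rw [Submodule.span_le]
    rintro _ ⟨u, hu, rfl⟩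
    rw [SetLike.mem_coe, mem_Sd]
    intro φ
    rw [hcm]
    exact am_mem_bc (cm_mem_spn hu φ)
  · unfold bc
    rw [Submodule.span_le]
    rintro _ ⟨y, hy, rfl⟩
    rw [SetLike.mem_coe]
    have hy' : y ∈ spn W := hy
    unfold spn at hy'
    refine Submodule.iSup_induction (fun φ : EX n d => W.map (cm φ))
      (motive := fun y => (fun k => algebraMap K L (y k)) ∈
        spn (Submodule.span L ((fun (y : EX n (d + 1) → K) k => algebraMap K L (y k)) ''
          (W : Set (EX n (d + 1) → K))))) hy' ?_ ?_ ?_
    · rintro φ _ ⟨u, hu, rfl⟩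
      have h1 : (fun I => algebraMap K L (u I)) ∈ bc L W := am_mem_bc hu
      have h2 := cm_mem_spn h1 φ
      rw [hcm] at h2
      exact h2
    · have h0 : (fun k => algebraMap K L ((0 : Fin n → K) k)) = (0 : Fin n → L) := by
        funext k
        simp
      rw [h0]
      exact Submodule.zero_mem _
    · intro a b ha hb
      have h0 : (fun k => algebraMap K L ((a + b) k)) =
          (fun k => algebraMap K L (a k)) + fun k => algebraMap K L (b k) := by
        funext k
        simp
      rw [h0]
      exact Submodule.add_mem _ ha hb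

end Pool.Agent.Lib.MP_44a246_ntO
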