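import Mathlib
import Pool.Agent.Lib.MP_44a246_ntS.SJ1b

/-!
The action of a matrix with two rows on the binary forms of degree `m`.
-/

namespace Pool.Agent.Lib.MP_44a246_ntO

open Pool.Agent.Lib.MP_44a246_nt
open Pool.Agent.Lib.MP_44a246_ntL
open Pool.Agent.Lib.MP_44a246_ntS
open WithZero Module Polynomial

variable {L : Type*} [Field L]

/-- the linear substitution `G` in the binary form `Y₁ ^ i * Y₂ ^ (m - i)`, dehomogenised -/
noncomputable def bf (m : ℕ) (G : Matrix (Fin 2) (Fin 2) L) (i : ℕ) : L[X] :=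
  (C (G 0 0) * X + C (G 0 1)) ^ i * (C (G 1 0) * X + C (G 1 1)) ^ (m - i)

/-- the linear substitution `G` in a binary form of degree `m` (given by a polynomial) -/
noncomputable def sub2 (m : ℕ) (G : Matrix (Fin 2) (Fin 2) L) (p : L[X]) : L[X] :=
  ∑ i ∈ Finset.range (m + 1), C (p.coeff i) * bf m G i

/-- the matrix of the linear substitution `G` in the binary forms of degree `m` -/
noncomputable def Sm (m : ℕ) (G : Matrix (Fin 2) (Fin 2) L) :
    Matrix (Fin (m + 1)) (Fin (m + 1)) L := Matrix.of fun j i => (bf m G i).coeff j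

theorem natDegree_bf_le (m : ℕ) (G : Matrix (Fin 2) (Fin 2) L) {i : ℕ} (hi : i ≤ m) :
    (bf m G i).natDegree ≤ m := by
  unfold bf
  refine natDegree_mul_le.trans ?_
  have h1 : ((C (G 0 0) * X + C (G 0 1)) ^ i : L[X]).natDegree ≤ i * 1 :=
    natDegree_pow_le_of_le i natDegree_linear_le
  have h2 : ((C (G 1 0) * X + C (G 1 1)) ^ (m - i) : L[X]).natDegree ≤ (m - i) * 1 :=
    natDegree_pow_le_of_le (m - i) natDegree_linear_le
  omega

theorem Sm_one (m : ℕ) : Sm m (1 : Matrix (Fin 2) (Fin 2) L) = 1 := by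
  ext j i
  have h : bf m (1 : Matrix (Fin 2) (Fin 2) L) i = X ^ (i : ℕ) := by
    simp [bf]
  simp only [Sm, Matrix.of_apply, h, coeff_X_pow, Matrix.one_apply, Fin.ext_iff]

private theorem coeff_mul_le_one (v : Valuation L ℤᵐ⁰) {p q : L[X]} (hp : ∀ n, v (p.coeff n) ≤ 1)
    (hq : ∀ n, v (q.coeff n) ≤ 1) (n : ℕ) : v ((p * q).coeff n) ≤ 1 := by
  rw [coeff_mul]
  refine v.map_sum_le fun x _ => ?_
  rw [map_mul]
  exact mul_le_one' (hp _) (hq _)

private theorem coeff_pow_le_one (v : Valuation L ℤᵐ⁰) {p : L[X]} (hp : ∀ n, v (p.coeff n) ≤ 1)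
    (k n : ℕ) : v ((p ^ k).coeff n) ≤ 1 := by
  induction k generalizing n with
  | zero =>
    rw [pow_zero, coeff_one]
    split_ifs
    · rw [map_one]
    · rw [map_zero]
      exact zero_le
  | succ k ih =>
    rw [pow_succ]
    exact coeff_mul_le_one v ih hp n

private theorem coeff_linear_le_one (v : Valuation L ℤᵐ⁰) {a b : L} (ha : v a ≤ 1) (hb : v b ≤ 1)
    (n : ℕ) : v ((C a * X + C b : L[X]).coeff n) ≤ 1 := by
  rcases n with _ | _ | n
  · simpa using hb
  · simpa [coeff_C] using ha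
  · have : (C a * X + C b : L[X]).coeff (n + 1 + 1) = 0 := by
      simp
    rw [this, map_zero]
    exact zero_le

theorem Sm_le_one (v : Valuation L ℤᵐ⁰) (m : ℕ) {G : Matrix (Fin 2) (Fin 2) L}
    (hG : ∀ i j, v (G i j) ≤ 1) (j i : Fin (m + 1)) : v (Sm m G j i) ≤ 1 := by
  change v ((bf m G i).coeff j) ≤ 1
  exact coeff_mul_le_one v (coeff_pow_le_one v (coeff_linear_le_one v (hG 0 0) (hG 0 1)) _)
    (coeff_pow_le_one v (coeff_linear_le_one v (hG 1 0) (hG 1 1)) _) _

/-- `sub2` as a linear map -/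
private noncomputable def subL (m : ℕ) (G : Matrix (Fin 2) (Fin 2) L) : L[X] →ₗ[L] L[X] where
  toFun := sub2 m G
  map_add' p q := by
    simp only [sub2, coeff_add, C_add, add_mul, Finset.sum_add_distrib]
  map_smul' c p := by
    simp only [sub2, coeff_smul, smul_eq_mul, C_mul, RingHom.id_apply, Finset.smul_sum]
    exact Finset.sum_congr rfl fun i _ => by rw [smul_eq_C_mul, mul_assoc]

private theorem subL_apply (m : ℕ) (G : Matrix (Fin 2) (Fin 2) L) (p : L[X]) :
    subL m G p = sub2 m G p := rfl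

private theorem subL_X_pow (m : ℕ) (G : Matrix (Fin 2) (Fin 2) L) {i : ℕ} (hi : i ≤ m) :
    subL m G (X ^ i) = bf m G i := by
  rw [subL_apply]
  unfold sub2
  rw [Finset.sum_eq_single i]
  · rw [coeff_X_pow_self, C_1, one_mul]
  · intro b _ hb
    rw [coeff_X_pow, if_neg hb, C_0, zero_mul]
  · intro h
    exact absurd (Finset.mem_range.2 (by omega)) h

private theorem bf_mul {m m' : ℕ} (G : Matrix (Fin 2) (Fin 2) L) {i j : ℕ} (hi : i ≤ m)
    (hj : j ≤ m') : bf (m + m') G (i + j) = bf m G i * bf m' G j := by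
  unfold bf
  have e : m + m' - (i + j) = (m - i) + (m' - j) := by omega
  rw [e, pow_add, pow_add]
  ring

/-- multiplicativity (evaluate at `a / b` in the field of fractions, `b ≠ 0`; if the second row
of `G` is zero both sides are given by the leading terms - or assume nothing and expand) -/
theorem sub2_mul {m m' : ℕ} (G : Matrix (Fin 2) (Fin 2) L) {p q : L[X]} (hp : p.natDegree ≤ m)
    (hq : q.natDegree ≤ m') : sub2 (m + m') G (p * q) = sub2 m G p * sub2 m' G q := by
  rw [← subL_apply, ← subL_apply, ← subL_apply]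
  have hp' : p = ∑ i ∈ Finset.range (m + 1), p.coeff i • (X ^ i : L[X]) := by
    conv_lhs => rw [p.as_sum_range_C_mul_X_pow' (Nat.lt_succ_of_le hp)]
    exact Finset.sum_congr rfl fun i _ => by rw [smul_eq_C_mul]
  have hq' : q = ∑ i ∈ Finset.range (m' + 1), q.coeff i • (X ^ i : L[X]) := by
    conv_lhs => rw [q.as_sum_range_C_mul_X_pow' (Nat.lt_succ_of_le hq)]
    exact Finset.sum_congr rfl fun i _ => by rw [smul_eq_C_mul]
  rw [hp', hq', Finset.sum_mul_sum, map_sum, map_sum, map_sum, Finset.sum_mul_sum]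
  refine Finset.sum_congr rfl fun i hi => ?_
  rw [map_sum]
  refine Finset.sum_congr rfl fun j hj => ?_
  rw [Finset.mem_range] at hi hj
  rw [smul_mul_smul_comm, map_smul, map_smul, map_smul, smul_mul_smul_comm, ← pow_add,
    subL_X_pow _ _ (by omega), subL_X_pow _ _ (by omega), subL_X_pow _ _ (by omega),
    bf_mul G (by omega) (by omega)]

/-- linear forms -/
theorem sub2_linear (G : Matrix (Fin 2) (Fin 2) L) (a b : L) :
    sub2 1 G (C b * X - C a) =
      C b * (C (G 0 0) * X + C (G 0 1)) - C a * (C (G 1 0) * X + C (G 1 1)) := by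
  have h0 : (C b * X - C a : L[X]).coeff 0 = -a := by simp
  have h1 : (C b * X - C a : L[X]).coeff 1 = b := by simp [coeff_C]
  unfold sub2
  rw [Finset.sum_range_succ, Finset.sum_range_one, h0, h1]
  unfold bf
  rw [C_neg, pow_zero, Nat.sub_zero, pow_one, pow_one, Nat.sub_self, pow_zero]
  ring

/-- compatibility with extensions -/
theorem sub2_map {M : Type*} [Field M] (f : L →+* M) (m : ℕ) (G : Matrix (Fin 2) (Fin 2) L)
    (p : L[X]) : (sub2 m G p).map f = sub2 m (G.map f) (p.map f) := by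
  unfold sub2 bf
  rw [Polynomial.map_sum]
  refine Finset.sum_congr rfl fun i _ => ?_
  simp only [Polynomial.map_mul, Polynomial.map_pow, Polynomial.map_add, map_C, map_X, coeff_map,
    Matrix.map_apply]

end Pool.Agent.Lib.MP_44a246_ntO
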