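import Mathlib
import Pool.Agent.Lib.MP_44a246_ntO.OS2a

/-!
The action of a matrix with two rows on the binary forms of degree `m`: determinant.
-/

namespace Pool.Agent.Lib.MP_44a246_ntO

open Pool.Agent.Lib.MP_44a246_nt
open Pool.Agent.Lib.MP_44a246_ntL
open Pool.Agent.Lib.MP_44a246_ntS
open WithZero Module Polynomial

variable {L : Type*} [Field L]

private theorem natDegree_lin_le (α β : L) : (C α * X + C β : L[X]).natDegree ≤ 1 :=
  natDegree_linear_le

private theorem sub2_lin (H : Matrix (Fin 2) (Fin 2) L) (α β : L) :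
    sub2 1 H (C α * X + C β) =
      C α * (C (H 0 0) * X + C (H 0 1)) + C β * (C (H 1 0) * X + C (H 1 1)) := by
  have h0 : (C α * X + C β : L[X]).coeff 0 = β := by simp
  have h1 : (C α * X + C β : L[X]).coeff 1 = α := by simp [coeff_C]
  unfold sub2
  rw [Finset.sum_range_succ, Finset.sum_range_one, h0, h1]
  unfold bf
  rw [pow_zero, Nat.sub_zero, pow_one, pow_one, Nat.sub_self, pow_zero]
  ring

private theorem sub2_one (H : Matrix (Fin 2) (Fin 2) L) : sub2 0 H (1 : L[X]) = 1 := by
  unfold sub2 bf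
  rw [Finset.sum_range_one]
  simp

private theorem sub2_pow (H : Matrix (Fin 2) (Fin 2) L) (α β : L) (k : ℕ) :
    sub2 k H ((C α * X + C β) ^ k) =
      (C α * (C (H 0 0) * X + C (H 0 1)) + C β * (C (H 1 0) * X + C (H 1 1))) ^ k := by
  induction k with
  | zero => rw [pow_zero, pow_zero, sub2_one]
  | succ k ih =>
    have h1 : ((C α * X + C β) ^ k : L[X]).natDegree ≤ k := by
      have := natDegree_pow_le_of_le k (natDegree_lin_le α β)
      omega
    rw [pow_succ, sub2_mul H h1 (natDegree_lin_le α β), ih, sub2_lin, pow_succ]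

private theorem sub2_bf (m : ℕ) (G H : Matrix (Fin 2) (Fin 2) L) {i : ℕ} (hi : i ≤ m) :
    sub2 m H (bf m G i) = bf m (G * H) i := by
  obtain ⟨k, rfl⟩ := Nat.exists_eq_add_of_le hi
  have h1 : ((C (G 0 0) * X + C (G 0 1)) ^ i : L[X]).natDegree ≤ i := by
    have := natDegree_pow_le_of_le i (natDegree_lin_le (G 0 0) (G 0 1))
    omega
  have h2 : ((C (G 1 0) * X + C (G 1 1)) ^ k : L[X]).natDegree ≤ k := by
    have := natDegree_pow_le_of_le k (natDegree_lin_le (G 1 0) (G 1 1))
    omega
  unfold bf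
  rw [Nat.add_sub_cancel_left, sub2_mul H h1 h2, sub2_pow, sub2_pow]
  simp only [Matrix.mul_apply, Fin.sum_univ_two, C_add, C_mul]
  congr 1 <;> congr 1 <;> ring

/-- `s (G H Y)`: composition. Proof: for a polynomial `p` of degree `≤ m` with coefficients
`s`, `sub2 m G p` has the coefficients `(Sm m G).mulVec s`. In the field of fractions of `L[X]`, with
`a = C (H 0 0) * X + C (H 0 1)`, `b = C (H 1 0) * X + C (H 1 1)`:
`sub2 m H (bf m G i) = (G 0 0 a + G 0 1 b) ^ i * (G 1 0 a + G 1 1 b) ^ (m - i)` (first prove, by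
expanding, `∑ j, coeff j ((C α * X + C β) ^ i * (C γ * X + C δ) ^ (m - i)) * a ^ j * b ^ (m - j) =
(α a + β b) ^ i * (γ a + δ b) ^ (m - i)` for elements of any commutative ring: induction on `m`
via `sub2_mul`, or evaluate at `a / b`). -/
theorem Sm_mul (m : ℕ) (G H : Matrix (Fin 2) (Fin 2) L) : Sm m (G * H) = Sm m H * Sm m G := by
  ext j i
  rw [Matrix.mul_apply]
  have hi : (i : ℕ) ≤ m := Nat.lt_succ_iff.1 i.2
  change (bf m (G * H) i).coeff j = ∑ k : Fin (m + 1), (bf m H k).coeff j * (bf m G i).coeff k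
  rw [← sub2_bf m G H hi]
  unfold sub2
  rw [finset_sum_coeff, Finset.sum_range]
  refine Finset.sum_congr rfl fun k _ => ?_
  rw [coeff_C_mul, mul_comm]

private theorem sum_pows (m : ℕ) : ∑ i ∈ Finset.range (m + 1), i = m * (m + 1) / 2 := by
  rw [Finset.sum_range_id, Nat.add_sub_cancel, mul_comm]

private theorem sum_pows' (m : ℕ) : ∑ i ∈ Finset.range (m + 1), (m - i) = m * (m + 1) / 2 := by
  rw [← sum_pows m, ← Finset.sum_range_reflect (fun i => i) (m + 1)]
  exact Finset.sum_congr rfl fun i _ => by rw [Nat.add_sub_cancel]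

private theorem det_Sm_diagonal (m : ℕ) (D : Fin 2 → L) :
    (Sm m (Matrix.diagonal D)).det = (Matrix.diagonal D).det ^ (m * (m + 1) / 2) := by
  have h1 : Sm m (Matrix.diagonal D) =
      Matrix.diagonal fun i : Fin (m + 1) => D 0 ^ (i : ℕ) * D 1 ^ (m - (i : ℕ)) := by
    ext j i
    have h : bf m (Matrix.diagonal D) i = C (D 0 ^ (i : ℕ) * D 1 ^ (m - (i : ℕ))) * X ^ (i : ℕ) := by
      unfold bf
      rw [Matrix.diagonal_apply_eq, Matrix.diagonal_apply_eq,
        Matrix.diagonal_apply_ne _ (by decide), Matrix.diagonal_apply_ne _ (by decide),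
        C_0, add_zero, zero_mul, zero_add, mul_pow, C_mul, C_pow, C_pow]
      ring
    change (bf m (Matrix.diagonal D) i).coeff j = _
    rw [h, coeff_C_mul, coeff_X_pow, Matrix.diagonal_apply]
    by_cases hij : j = i
    · rw [hij, if_pos rfl, if_pos rfl, mul_one]
    · rw [if_neg (fun h' => hij (Fin.ext h')), if_neg hij, mul_zero]
  rw [h1, Matrix.det_diagonal, Matrix.det_diagonal, Fin.prod_univ_two,
    Fin.prod_univ_eq_prod_range (fun i : ℕ => D 0 ^ i * D 1 ^ (m - i)) (m + 1),
    Finset.prod_mul_distrib, Finset.prod_pow_eq_pow_sum, Finset.prod_pow_eq_pow_sum, sum_pows,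
    sum_pows', mul_pow]

private theorem det_Sm_transvec (m : ℕ) (t : Matrix.TransvectionStruct (Fin 2) L) :
    (Sm m t.toMatrix).det = 1 := by
  obtain ⟨i, j, hij, c⟩ := t
  rw [Matrix.TransvectionStruct.toMatrix_mk]
  have hcases : (i = 0 ∧ j = 1) ∨ (i = 1 ∧ j = 0) := by
    revert hij
    revert i j
    decide
  rcases hcases with ⟨rfl, rfl⟩ | ⟨rfl, rfl⟩
  · have hb : ∀ k : ℕ, bf m (Matrix.transvection (0 : Fin 2) 1 c) k = (X + C c) ^ k := by
      intro k
      unfold bf
      simp [Matrix.transvection, Matrix.single_apply]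
    have hd : ∀ k : ℕ, ((X + C c : L[X]) ^ k).natDegree = k := fun k => by
      rw [natDegree_pow, natDegree_X_add_C, mul_one]
    rw [Matrix.det_of_upperTriangular]
    · refine Finset.prod_eq_one fun k _ => ?_
      change (bf m (Matrix.transvection (0 : Fin 2) 1 c) k).coeff k = 1
      rw [hb]
      have := ((monic_X_add_C c).pow (k : ℕ)).coeff_natDegree
      rwa [hd] at this
    · intro a b hab
      change (bf m (Matrix.transvection (0 : Fin 2) 1 c) b).coeff a = 0
      rw [hb]
      refine coeff_eq_zero_of_natDegree_lt ?_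
      rw [hd]
      exact hab
  · have hb : ∀ k : ℕ, bf m (Matrix.transvection (1 : Fin 2) 0 c) k =
        (C c * X + 1) ^ (m - k) * X ^ k := by
      intro k
      unfold bf
      simp [Matrix.transvection, Matrix.single_apply]
      ring
    rw [Matrix.det_of_lowerTriangular]
    · refine Finset.prod_eq_one fun k _ => ?_
      change (bf m (Matrix.transvection (1 : Fin 2) 0 c) k).coeff k = 1
      rw [hb, coeff_mul_X_pow', if_pos le_rfl, Nat.sub_self, coeff_zero_eq_eval_zero]
      simp
    · intro a b hab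
      change (bf m (Matrix.transvection (1 : Fin 2) 0 c) b).coeff a = 0
      have hab' : (a : ℕ) < b := OrderDual.toDual_lt_toDual.1 hab
      rw [hb, coeff_mul_X_pow', if_neg (not_le.2 hab')]

/-- `Matrix.diagonal_transvection_induction`: diagonal matrices give diagonal matrices
(`bf m (diagonal) i = C (..) * X ^ i`), transvections give triangular matrices with ones on the
diagonal. (`Sm_mul` reverses the order, `det` is multiplicative.) -/
theorem det_Sm (m : ℕ) (G : Matrix (Fin 2) (Fin 2) L) :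
    (Sm m G).det = G.det ^ (m * (m + 1) / 2) := by
  refine Matrix.diagonal_transvection_induction
    (fun G : Matrix (Fin 2) (Fin 2) L => (Sm m G).det = G.det ^ (m * (m + 1) / 2)) G
    (fun D _ => det_Sm_diagonal m D) (fun t => ?_) (fun A B hA hB => ?_)
  · rw [det_Sm_transvec, t.det, one_pow]
  · rw [Sm_mul, Matrix.det_mul, Matrix.det_mul, hA, hB, mul_pow, mul_comm]

end Pool.Agent.Lib.MP_44a246_ntO
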