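import Mathlib
import Pool.Agent.Lib.MP_44a246_ntO.O02
import Pool.Agent.Lib.MP_44a246_ntO.O03a
import Pool.Agent.Lib.MP_44a246_ntO.OS2c

/-!
A binary form of small norm on a plane.
-/

namespace Pool.Agent.Lib.MP_44a246_ntO

open Pool.Agent.Lib.MP_44a246_nt
open Pool.Agent.Lib.MP_44a246_ntL
open Pool.Agent.Lib.MP_44a246_ntS
open Pool.Agent.Lib.MP_44a246_ntR
open WithZero Module Polynomial Matrix

section aux

variable {L : Type*} [Field L] {ρ ι : Type*} [Fintype ρ] [DecidableEq ρ] [Fintype ι]

/-- the entries of a family with a unit minor are minors -/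
private theorem os2b_entry_le_pl (v : Valuation L ℤᵐ⁰) {a : ρ → ι → L} {f : ρ → ι}
    (hf : ∀ i j, a i (f j) = if i = j then 1 else 0) (i : ρ) (k : ι) : v (a i k) ≤ pl v a := by
  have h1 := le_vmax v (fun e : ρ → ι => (Matrix.of fun i j => a i (e j)).det)
    (Function.update f i k)
  have h2 : (Matrix.of fun i' j' => a i' (Function.update f i k j')).det = a i k := by
    have h3 : (Matrix.of fun i' j' => a i' (Function.update f i k j')) =
        (1 : Matrix ρ ρ L).updateCol i (fun i' => a i' k) := by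
      ext i' j'
      rw [Matrix.updateCol_apply, Matrix.of_apply]
      by_cases hj : j' = i
      · rw [if_pos hj, hj, Function.update_self]
      · rw [if_neg hj, Function.update_of_ne hj, hf, Matrix.one_apply]
    rw [h3, ← Matrix.cramer_apply, Matrix.cramer_one]
    rfl
  rw [h2] at h1
  exact h1

/-- the unit minor -/
private theorem os2b_one_le_pl (v : Valuation L ℤᵐ⁰) {a : ρ → ι → L} {f : ρ → ι}
    (hf : ∀ i j, a i (f j) = if i = j then 1 else 0) : 1 ≤ pl v a := by
  have h1 := le_vmax v (fun e : ρ → ι => (Matrix.of fun i j => a i (e j)).det) f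
  have h2 : (Matrix.of fun i' j' => a i' (f j')) = (1 : Matrix ρ ρ L) := by
    ext i' j'
    rw [Matrix.of_apply, hf, Matrix.one_apply]
  simp only [h2, Matrix.det_one, map_one] at h1
  exact h1

/-- the local matrix -/
private theorem os2b_exists_local (v : Valuation L ℤᵐ⁰) {a : ρ → ι → L} (ha : LinearIndependent L a)
    {f : ρ → ι} (hf : ∀ i j, a i (f j) = if i = j then 1 else 0) :
    ∃ (G : Matrix ρ ρ L) (q : ρ → ι), (∀ i j, v (G i j) ≤ 1) ∧
      v G.det = exp (-((log (pl v a)).toNat : ℤ)) ∧ ((log (pl v a)).toNat = 0 → G = 1) ∧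
      Red v (fun i k => ∑ j, G i j * a j k) q := by
  have hone := os2b_one_le_pl v hf
  have hne := pl_ne_zero v ha
  have hlog : 0 ≤ log (pl v a) := by
    rw [← log_one]
    exact (log_le_log one_ne_zero hne).2 hone
  have hcast : ((log (pl v a)).toNat : ℤ) = log (pl v a) := Int.toNat_of_nonneg hlog
  by_cases h0 : (log (pl v a)).toNat = 0
  · have h1 : pl v a = 1 := by
      rw [h0, Nat.cast_zero] at hcast
      rw [← exp_log hne, ← hcast, exp_zero]
    have h2 : (fun i k => ∑ j, (1 : Matrix ρ ρ L) i j * a j k) = a := by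
      funext i k
      rw [Finset.sum_eq_single i]
      · rw [Matrix.one_apply_eq, one_mul]
      · intro j _ hj
        rw [Matrix.one_apply_ne (Ne.symm hj), zero_mul]
      · intro h
        exact absurd (Finset.mem_univ i) h
    refine ⟨1, f, ?_, ?_, fun _ => rfl, ?_⟩
    · intro i j
      rw [Matrix.one_apply]
      split_ifs
      · rw [map_one]
      · rw [map_zero]
        exact zero_le
    · rw [Matrix.det_one, map_one, h0, Nat.cast_zero, neg_zero, exp_zero]
    · rw [h2]
      exact ⟨hf, fun i k => by rw [← h1]; exact os2b_entry_le_pl v hf i k⟩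
  · obtain ⟨G, q, hG, hR⟩ := exists_red v ha
    have h3 : ∀ i j, (∑ l, G i l * a l (f j)) = G i j := by
      intro i j
      rw [Finset.sum_eq_single j]
      · rw [hf, if_pos rfl, mul_one]
      · intro l _ hl
        rw [hf, if_neg hl, mul_zero]
      · intro h
        exact absurd (Finset.mem_univ j) h
    refine ⟨G, q, ?_, ?_, fun h => absurd h h0, hR⟩
    · intro i j
      have := hR.int i (f j)
      rw [h3] at this
      exact this
    · have h4 := hR.pl_eq
      rw [pl_mul] at h4
      rw [hcast, WithZero.exp_neg, exp_log hne]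
      exact eq_inv_of_mul_eq_one_left h4

end aux

section form

variable {L : Type*} [Field L]

private theorem os2b_coeff {m : ℕ} (s : Fin (m + 1) → L) (j : Fin (m + 1)) :
    (∑ i : Fin (m + 1), C (s i) * X ^ (i : ℕ) : L[X]).coeff j = s j := by
  rw [finsetSum_coeff, Finset.sum_eq_single j]
  · rw [coeff_C_mul, coeff_X_pow_self, mul_one]
  · intro i _ hi
    rw [coeff_C_mul, coeff_X_pow, if_neg (fun h => hi (Fin.ext h.symm)), mul_zero]
  · intro h
    exact absurd (Finset.mem_univ _) h

private theorem os2b_sub2_coeff {m : ℕ} (G : Matrix (Fin 2) (Fin 2) L) (s : Fin (m + 1) → L)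
    (j : Fin (m + 1)) :
    (sub2 m G (∑ i : Fin (m + 1), C (s i) * X ^ (i : ℕ))).coeff j = (Sm m G).mulVec s j := by
  unfold sub2
  rw [finsetSum_coeff, Finset.sum_range]
  simp only [Matrix.mulVec, dotProduct]
  refine Finset.sum_congr rfl fun i _ => ?_
  rw [os2b_coeff, coeff_C_mul, mul_comm]
  rfl

private theorem os2b_sub2_coeff_big {m : ℕ} (G : Matrix (Fin 2) (Fin 2) L) (p : L[X]) {n : ℕ}
    (hn : m < n) : (sub2 m G p).coeff n = 0 := by
  unfold sub2
  rw [finsetSum_coeff]
  refine Finset.sum_eq_zero fun i hi => ?_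
  have h1 : (bf m G i).coeff n = 0 := coeff_eq_zero_of_natDegree_lt
    ((natDegree_bf_le m G (by rw [Finset.mem_range] at hi; omega)).trans_lt hn)
  rw [coeff_C_mul, h1, mul_zero]

end form

variable {κ K : Type*} [Field κ] [IsAlgClosed κ] [CharZero κ] [Field K] [Algebra κ K]
  {ι : Type*} [Fintype ι]

/-- A binary form of degree `2 m` of small norm. Proof: at every place `G w`, `q w` as in
`exists_local` (private in O03a: copy it), `e w = (log (pl w v)).toNat`, `∑ e = ht V` (`ht_span`).
`exists_lattice_vector` for the matrices `Sm (2 * m) (G w)ᵀ` (integral: `Sm_le_one`; determinant: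
`det_Sm`, exponent `(2 m) (2 m + 1) / 2 = m (2 m + 1)`; `Sm_one` if `G w = 1`) with
`D := single P (-(m * ht V - genus))`: `(2 m + 1) (- m ht V + genus + 1 - genus) + m (2 m + 1) ht V =
2 m + 1 > 0`. The polynomial `p = ∑ i, C (s i) * X ^ i`. -/
theorem exists_form (h : IsFF κ K) {v : Fin 2 → ι → K} {f : Fin 2 → ι}
    (hf : ∀ i j, v i (f j) = if i = j then 1 else 0) (m : ℕ) :
    ∃ (p : K[X]) (G : Place κ K → Matrix (Fin 2) (Fin 2) K) (q : Place κ K → Fin 2 → ι)
      (D : Place κ K → ℤ), p ≠ 0 ∧ p.natDegree ≤ 2 * m ∧ (Function.support D).Finite ∧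
      ∑ᶠ w, D w = -(m * ht κ (Submodule.span K (Set.range v)) - genus κ K) ∧
      (∀ w, (G w).det ≠ 0) ∧ (∀ w : Place κ K, w.1 (G w).det * pl w.1 v = 1) ∧
      (∀ w : Place κ K, Red w.1 (fun i k => ∑ j, G w i j * v j k) (q w)) ∧
      ∀ w : Place κ K, gn w.1 (sub2 (2 * m) (G w)ᵀ p) ≤ exp (D w) := by
  classical
  have hli : LinearIndependent K v := by
    rw [Fintype.linearIndependent_iff]
    intro g hg i
    have h1 := congrFun hg (f i)
    rw [Finset.sum_apply, Finset.sum_eq_single i] at h1
    · rw [Pi.smul_apply, hf, if_pos rfl, smul_eq_mul, mul_one] at h1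
      exact h1
    · intro j _ hj
      rw [Pi.smul_apply, hf, if_neg hj, smul_zero]
    · intro h
      exact absurd (Finset.mem_univ _) h
  choose G q hG1 hGdet hGone hGR using fun w : Place κ K => os2b_exists_local w.1 hli hf
  have hlogn : ∀ w : Place κ K, ((log (pl w.1 v)).toNat : ℤ) = log (pl w.1 v) := by
    intro w
    have hone := os2b_one_le_pl w.1 hf
    have hne := pl_ne_zero w.1 hli
    apply Int.toNat_of_nonneg
    rw [← log_one]
    exact (log_le_log one_ne_zero hne).2 hone
  have hfin : (Function.support fun w : Place κ K => (log (pl w.1 v)).toNat).Finite := by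
    refine (pl_support h hli).subset fun w hw => ?_
    rw [Function.mem_support] at hw ⊢
    intro h0
    rw [h0] at hw
    exact hw rfl
  obtain ⟨e, he⟩ : ∃ e : Place κ K →₀ ℕ, ∀ w, e w = (log (pl w.1 v)).toNat :=
    ⟨Finsupp.ofSupportFinite _ hfin, fun w => rfl⟩
  have hht : ht κ (Submodule.span K (Set.range v)) = e.sum fun _ n => (n : ℤ) := by
    rw [ht_span h hli, Finsupp.sum]
    have h2 : (fun w : Place κ K => log (pl w.1 v)) = fun w => ((e w : ℕ) : ℤ) := by
      funext w
      rw [he w, hlogn]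
    rw [h2]
    refine finsum_eq_sum_of_support_subset _ fun w hw => ?_
    rw [Function.mem_support] at hw
    rw [Finset.mem_coe, Finsupp.mem_support_iff]
    intro h0
    rw [h0] at hw
    exact hw rfl
  obtain ⟨P⟩ := exists_place h
  obtain ⟨D, hD⟩ : ∃ D : Place κ K →₀ ℤ, D = Finsupp.single P
    (-(m * ht κ (Submodule.span K (Set.range v)) - genus κ K)) := ⟨_, rfl⟩
  have hDdeg : divDeg D = -(m * ht κ (Submodule.span K (Set.range v)) - genus κ K) := by
    rw [hD]
    unfold divDeg
    rw [Finsupp.sum_single_index rfl]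
  have hexp : (2 * m) * (2 * m + 1) / 2 = m * (2 * m + 1) := by
    rw [mul_assoc, Nat.mul_div_cancel_left _ (by norm_num)]
  have hesum : ((m * (2 * m + 1)) • e).sum (fun _ n => (n : ℤ)) =
      (m * (2 * m + 1) : ℕ) * e.sum fun _ n => (n : ℤ) := by
    rw [Finsupp.sum_smul_index' (fun _ => rfl), Finsupp.mul_sum]
    refine Finsupp.sum_congr fun w _ => ?_
    rw [smul_eq_mul]
    push_cast
    ring
  obtain ⟨s, hs0, hs⟩ := exists_lattice_vector h (ρ := Fin (2 * m + 1))
    (g := fun w => Sm (2 * m) (G w)ᵀ) (fun w => Sm_le_one w.1 _ fun i j => hG1 w j i)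
    (e := (m * (2 * m + 1)) • e)
    (by
      intro w
      rw [det_Sm, Matrix.det_transpose, hexp, map_pow, hGdet, ← WithZero.exp_nsmul, Finsupp.smul_apply,
        he, smul_eq_mul, nsmul_eq_mul]
      congr 1
      push_cast
      ring)
    (by
      intro w hw
      rw [Finsupp.smul_apply, smul_eq_mul, mul_eq_zero] at hw
      rcases hw with hw | hw
      · have hm : m = 0 := by
          rcases Nat.mul_eq_zero.1 hw with hw | hw
          · exact hw
          · omega
        subst hm
        ext j i
        have hj : j = 0 := Fin.ext (by omega)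
        have hi : i = 0 := Fin.ext (by omega)
        rw [hj, hi, Matrix.one_apply_eq]
        simp [Sm, bf]
      · rw [hGone w (by rw [← he w]; exact hw), Matrix.transpose_one, Sm_one])
    D
    (by
      rw [Fintype.card_fin, hDdeg, hesum, ← hht]
      push_cast
      nlinarith)
  refine ⟨∑ i : Fin (2 * m + 1), C (s i) * X ^ (i : ℕ), G, q, fun w => D w, ?_, ?_, ?_, ?_, ?_, ?_,
    hGR, ?_⟩
  · intro h0
    apply hs0
    funext j
    rw [← os2b_coeff s j, h0, coeff_zero]
    rfl
  · refine natDegree_sum_le_of_forall_le _ _ fun i _ => ?_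
    refine (natDegree_C_mul_X_pow_le _ _).trans ?_
    have := i.2
    omega
  · exact D.hasFiniteSupport
  · rw [← hDdeg]
    unfold divDeg
    rw [Finsupp.sum]
    refine finsum_eq_sum_of_support_subset _ fun w hw => ?_
    rw [Function.mem_support] at hw
    rw [Finset.mem_coe, Finsupp.mem_support_iff]
    exact hw
  · intro w h0
    have h1 := hGdet w
    rw [h0, map_zero] at h1
    exact exp_ne_zero h1.symm
  · intro w
    rw [hGdet, hlogn, WithZero.exp_neg, exp_log (pl_ne_zero w.1 hli), inv_mul_cancel₀ (pl_ne_zero w.1 hli)]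
  · intro w
    refine gn_le _ fun n => ?_
    by_cases hn : n < 2 * m + 1
    · have h1 := os2b_sub2_coeff (G w)ᵀ s ⟨n, hn⟩
      simp only at h1
      rw [h1]
      exact hs w ⟨n, hn⟩
    · rw [os2b_sub2_coeff_big _ _ (by omega), map_zero]
      exact zero_le

end Pool.Agent.Lib.MP_44a246_ntO
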