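import Mathlib
import Pool.Agent.Lib.MP_44a246_ntO.OS2a
import Pool.Agent.Lib.MP_44a246_ntS.SA2b

/-!
The norm of a linear form on a plane.
-/

namespace Pool.Agent.Lib.MP_44a246_ntO

open Pool.Agent.Lib.MP_44a246_nt
open Pool.Agent.Lib.MP_44a246_ntL
open Pool.Agent.Lib.MP_44a246_ntS
open WithZero Module Polynomial Matrix

variable {K : Type*} [Field K] {ι : Type*} [Fintype ι]

private theorem gn_lin (v : Valuation K ℤᵐ⁰) (c d : K) :
    gn v (C c * X + C d) = max (v c) (v d) := by
  refine le_antisymm (gn_le v fun i => ?_) (max_le ?_ ?_)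
  · rw [coeff_add, coeff_C_mul, coeff_X, coeff_C]
    rcases i with _ | _ | i
    · simp
    · simp
    · simp
  · have h := le_gn v (C c * X + C d) 1
    simpa [coeff_C] using h
  · have h := le_gn v (C c * X + C d) 0
    simpa using h

/-- The norm of a linear form. With `z` = coordinates of `a • u 0 + b • u 1` in the reduced
basis: `a = G 0 0 * z 0 + G 1 0 * z 1`, `b = G 0 1 * z 0 + G 1 1 * z 1`, the coefficient of `X` is
`det * z 1`, the constant coefficient `- det * z 0`, and `vmax = max (v (z 0)) (v (z 1))` by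
reducedness (`z i` is the coordinate at the pivot `q i`). -/
theorem gn_factor (v : Valuation K ℤᵐ⁰) {u : Fin 2 → ι → K} {G : Matrix (Fin 2) (Fin 2) K}
    {q : Fin 2 → ι} (hG : G.det ≠ 0) (hR : Red v (fun i k => ∑ j, G i j * u j k) q) (a b : K) :
    gn v (sub2 1 Gᵀ (C b * X - C a)) = v G.det * vmax v (fun k => a * u 0 k + b * u 1 k) := by
  obtain ⟨z0, hz0⟩ : ∃ z : K, G.det * z = a * G 1 1 - b * G 1 0 :=
    ⟨G.det⁻¹ * (a * G 1 1 - b * G 1 0), by rw [mul_inv_cancel_left₀ hG]⟩
  obtain ⟨z1, hz1⟩ : ∃ z : K, G.det * z = b * G 0 0 - a * G 0 1 :=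
    ⟨G.det⁻¹ * (b * G 0 0 - a * G 0 1), by rw [mul_inv_cancel_left₀ hG]⟩
  have hpoly : sub2 1 Gᵀ (C b * X - C a) = C (G.det * z1) * X + C (-(G.det * z0)) := by
    rw [sub2_linear, hz0, hz1]
    simp only [Matrix.transpose_apply, C_sub, C_mul, C_neg]
    ring
  have hx : ∀ k, a * u 0 k + b * u 1 k
      = z0 * (∑ j, G 0 j * u j k) + z1 * (∑ j, G 1 j * u j k) := by
    intro k
    apply mul_left_cancel₀ hG
    rw [mul_add G.det (z0 * _) (z1 * _), ← mul_assoc, ← mul_assoc, hz0, hz1, Matrix.det_fin_two,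
      Fin.sum_univ_two, Fin.sum_univ_two]
    ring
  have hmax : vmax v (fun k => a * u 0 k + b * u 1 k) = max (v z0) (v z1) := by
    unfold vmax
    apply le_antisymm
    · refine Finset.sup_le fun k _ => ?_
      simp only [hx k]
      refine (v.map_add _ _).trans (max_le_max ?_ ?_)
      · rw [map_mul]
        exact mul_le_of_le_one_right' (hR.int 0 k)
      · rw [map_mul]
        exact mul_le_of_le_one_right' (hR.int 1 k)
    · refine max_le ?_ ?_
      · have h := Finset.le_sup (f := fun k => v (a * u 0 k + b * u 1 k)) (Finset.mem_univ (q 0))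
        refine le_trans (le_of_eq ?_) h
        simp only [hx]
        have h1 := hR.piv 0 0
        have h2 := hR.piv 1 0
        simp only at h1 h2
        rw [h1, h2]
        simp
      · have h := Finset.le_sup (f := fun k => v (a * u 0 k + b * u 1 k)) (Finset.mem_univ (q 1))
        refine le_trans (le_of_eq ?_) h
        simp only [hx]
        have h1 := hR.piv 0 1
        have h2 := hR.piv 1 1
        simp only at h1 h2
        rw [h1, h2]
        simp
  have hmono : Monotone fun t : ℤᵐ⁰ => v G.det * t := fun s t hst => mul_le_mul_right hst _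
  rw [hpoly, gn_lin, hmax, Valuation.map_neg, map_mul, map_mul, max_comm (v z0) (v z1)]
  exact (hmono.map_max (a := v z1) (b := v z0)).symm

end Pool.Agent.Lib.MP_44a246_ntO
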