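import Mathlib
import Pool.Agent.Lib.MP_44a246_ntO.OS2d

/-!
Products of linear forms on a plane.
-/

namespace Pool.Agent.Lib.MP_44a246_ntO

open Pool.Agent.Lib.MP_44a246_nt
open Pool.Agent.Lib.MP_44a246_ntL
open Pool.Agent.Lib.MP_44a246_ntS
open WithZero Module Polynomial

private theorem exists_factors_multiset {L : Type*} [Field L] :
    ∀ (m : ℕ) (s : Multiset L), s.card ≤ m →
    ∃ (a b : Fin m → L), (∀ i, a i ≠ 0 ∨ b i ≠ 0) ∧
      (s.map fun ρ => (X - C ρ : L[X])).prod = ∏ i, (C (b i) * X - C (a i)) := by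
  intro m
  induction m with
  | zero =>
    intro s hs
    have hs0 : s = 0 := Multiset.card_eq_zero.1 (Nat.le_zero.1 hs)
    subst hs0
    exact ⟨fun _ => 0, fun _ => 0, fun i => i.elim0, by simp⟩
  | succ m ih =>
    intro s hs
    rcases Multiset.empty_or_exists_mem s with hs0 | ⟨ρ, hρ⟩
    · subst hs0
      refine ⟨fun _ => -1, fun _ => 0, fun i => Or.inl (neg_ne_zero.2 one_ne_zero), ?_⟩
      simp
    · obtain ⟨t, rfl⟩ := Multiset.exists_cons_of_mem hρ
      rw [Multiset.card_cons] at hs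
      obtain ⟨a, b, hab, hprod⟩ := ih t (by omega)
      refine ⟨Fin.cons ρ a, Fin.cons 1 b, ?_, ?_⟩
      · intro i
        refine Fin.cases ?_ (fun j => ?_) i
        · right
          rw [Fin.cons_zero]
          exact one_ne_zero
        · rw [Fin.cons_succ, Fin.cons_succ]
          exact hab j
      · rw [Multiset.map_cons, Multiset.prod_cons, hprod, Fin.prod_univ_succ]
        simp only [Fin.cons_zero, Fin.cons_succ, C_1, one_mul]

/-- The factors of a form over a field in which it splits. Proof: `p = C c * ∏ (X - ρ)` over the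
roots (`Splits`), `p.natDegree ≤ m`; `m - natDegree` further factors `C 0 * X - C (-1) = 1`;
put the constant `c` aside. -/
theorem exists_factors {L : Type*} [Field L] {m : ℕ} {p : L[X]} (hp : p ≠ 0)
    (hd : p.natDegree ≤ m) (hs : p.Splits) :
    ∃ (c : L) (a b : Fin m → L), c ≠ 0 ∧ (∀ i, a i ≠ 0 ∨ b i ≠ 0) ∧
      p = C c * ∏ i, (C (b i) * X - C (a i)) := by
  obtain ⟨a, b, hab, hprod⟩ := exists_factors_multiset m p.roots
    ((card_roots' p).trans hd)
  refine ⟨p.leadingCoeff, a, b, leadingCoeff_ne_zero.2 hp, hab, ?_⟩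
  rw [← hprod]
  exact hs.eq_prod_roots

private theorem natDegree_lin {L : Type*} [Field L] (a b : L) :
    (C b * X - C a : L[X]).natDegree ≤ 1 := by
  rw [sub_eq_add_neg, ← C_neg]
  exact natDegree_linear_le

private theorem natDegree_prod_lin {L : Type*} [Field L] {m : ℕ} (a b : Fin m → L) :
    (∏ i, (C (b i) * X - C (a i)) : L[X]).natDegree ≤ m := by
  refine (natDegree_prod_le _ _).trans ?_
  refine (Finset.sum_le_sum fun i _ => natDegree_lin (a i) (b i)).trans ?_
  simp

private theorem gn_prod_aux {L : Type*} [Field L] {ι : Type*} [Fintype ι] (v : Valuation L ℤᵐ⁰)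
    {u : Fin 2 → ι → L} {G : Matrix (Fin 2) (Fin 2) L} {q : Fin 2 → ι} (hG : G.det ≠ 0)
    (hR : Red v (fun i k => ∑ j, G i j * u j k) q) :
    ∀ (m : ℕ) (a b : Fin m → L),
    gn v (sub2 m G.transpose (∏ i, (C (b i) * X - C (a i)))) =
      ∏ i, (v G.det * vmax v (fun k => a i * u 0 k + b i * u 1 k)) := by
  intro m
  induction m with
  | zero =>
    intro a b
    have h1 : sub2 0 G.transpose (1 : L[X]) = 1 := by
      simp [sub2, bf]
    rw [Fin.prod_univ_zero, Fin.prod_univ_zero, h1, gn_one]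
  | succ m ih =>
    intro a b
    rw [Fin.prod_univ_castSucc, Fin.prod_univ_castSucc,
      sub2_mul G.transpose (natDegree_prod_lin (fun i => a i.castSucc) fun i => b i.castSucc)
        (natDegree_lin (a (Fin.last m)) (b (Fin.last m))), gn_mul,
      ih (fun i => a i.castSucc) fun i => b i.castSucc, gn_factor v hG hR]

/-- the norm of a product of linear forms: `sub2_mul`, `gn_mul`, `gn_factor` (induction on `m`) -/
theorem gn_prod {L : Type*} [Field L] {ι : Type*} [Fintype ι] (v : Valuation L ℤᵐ⁰)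
    {u : Fin 2 → ι → L} {G : Matrix (Fin 2) (Fin 2) L} {q : Fin 2 → ι} (hG : G.det ≠ 0)
    (hR : Red v (fun i k => ∑ j, G i j * u j k) q) {m : ℕ} (c : L) (a b : Fin m → L) :
    gn v (sub2 m G.transpose (C c * ∏ i, (C (b i) * X - C (a i)))) =
      v c * ∏ i, (v G.det * vmax v (fun k => a i * u 0 k + b i * u 1 k)) := by
  have h1 : sub2 m G.transpose (C c * ∏ i, (C (b i) * X - C (a i))) =
      C c * sub2 m G.transpose (∏ i, (C (b i) * X - C (a i))) := by
    unfold sub2
    rw [Finset.mul_sum]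
    refine Finset.sum_congr rfl fun i _ => ?_
    rw [coeff_C_mul, C_mul, mul_assoc]
  rw [h1, gn_mul, gn_C, gn_prod_aux v hG hR]

end Pool.Agent.Lib.MP_44a246_ntO
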