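import Mathlib
import Pool.Agent.Lib.MP_44a246_ntO.OS1
import Pool.Agent.Lib.MP_44a246_ntO.OS2b
import Pool.Agent.Lib.MP_44a246_ntO.OS2e

/-!
A plane contains, over a finite extension, a vector of height about half of the height of the
plane.
-/

namespace Pool.Agent.Lib.MP_44a246_ntO

open Pool.Agent.Lib.MP_44a246_nt
open Pool.Agent.Lib.MP_44a246_ntL
open Pool.Agent.Lib.MP_44a246_ntS
open Pool.Agent.Lib.MP_44a246_ntR (genus)
open WithZero Module Polynomial

universe u

private theorem os2_basis {K : Type*} [Field K] {ι : Type*} {V : Submodule K (ι → K)}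
    (hV : finrank K V = 2) : ∃ a : Fin 2 → ι → K, LinearIndependent K a ∧
      Submodule.span K (Set.range a) = V := by
  have hfd : Module.Finite K V := Module.finite_of_finrank_pos (by rw [hV]; norm_num)
  let b := Module.finBasisOfFinrankEq K V hV
  refine ⟨fun i => (b i : ι → K), b.linearIndependent.map' V.subtype V.ker_subtype, ?_⟩
  have h1 : (Set.range fun i => (b i : ι → K)) = V.subtype '' Set.range b := by
    rw [← Set.range_comp]; rfl
  rw [h1, Submodule.span_image, b.span_eq, Submodule.map_top, Submodule.range_subtype]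

private theorem os2_span_change {L : Type*} [Field L] {ρ ι : Type*} [Fintype ρ] [DecidableEq ρ]
    {a : ρ → ι → L} {g : Matrix ρ ρ L} (hg : g.det ≠ 0) :
    Submodule.span L (Set.range fun i k => ∑ j, g i j * a j k) =
      Submodule.span L (Set.range a) := by
  have hu : IsUnit g.det := isUnit_iff_ne_zero.2 hg
  have hb : ∀ i, (fun k => ∑ j, g i j * a j k) = ∑ j, g i j • a j := by
    intro i
    funext k
    rw [Finset.sum_apply]
    rfl
  apply le_antisymm
  · rw [Submodule.span_le]
    rintro _ ⟨i, rfl⟩
    simp only [SetLike.mem_coe]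
    rw [hb i]
    exact Submodule.sum_mem _ fun j _ => Submodule.smul_mem _ _ (Submodule.subset_span ⟨j, rfl⟩)
  · rw [Submodule.span_le]
    rintro _ ⟨i, rfl⟩
    simp only [SetLike.mem_coe]
    have h1 : a i = ∑ l, g⁻¹ i l • (fun k => ∑ j, g l j * a j k) := by
      funext k
      rw [Finset.sum_apply]
      have h2 : ∑ l, (g⁻¹ i l • (fun k => ∑ j, g l j * a j k)) k =
          ∑ l, ∑ j, g⁻¹ i l * (g l j * a j k) := by
        refine Finset.sum_congr rfl fun l _ => ?_
        rw [Pi.smul_apply, smul_eq_mul, Finset.mul_sum]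
      rw [h2, Finset.sum_comm]
      have h3 : ∀ j, ∑ l, g⁻¹ i l * (g l j * a j k) = (g⁻¹ * g) i j * a j k := by
        intro j
        rw [Matrix.mul_apply, Finset.sum_mul]
        exact Finset.sum_congr rfl fun l _ => by ring
      rw [Finset.sum_congr rfl fun j _ => h3 j, Matrix.nonsing_inv_mul g hu]
      rw [Finset.sum_eq_single i]
      · rw [Matrix.one_apply_eq, one_mul]
      · intro j _ hj
        rw [Matrix.one_apply_ne (Ne.symm hj), zero_mul]
      · intro h
        exact absurd (Finset.mem_univ i) h
    rw [h1]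
    exact Submodule.sum_mem _ fun l _ => Submodule.smul_mem _ _ (Submodule.subset_span ⟨l, rfl⟩)

section ext

variable {κ K L : Type*} [Field κ] [IsAlgClosed κ] [CharZero κ] [Field K] [Algebra κ K]
  [Field L] [Algebra κ L] [Algebra K L] [IsScalarTower κ K L] [FiniteDimensional K L]
  {ι : Type*} [Fintype ι]

/-- the local inequality at a place of the extension -/
private theorem os2_local {v : Fin 2 → ι → K} (w' : Place κ L) {G : Matrix (Fin 2) (Fin 2) K}
    {q : Fin 2 → ι} {d : ℤ} {p : K[X]} {n : ℕ} (hG : G.det ≠ 0)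
    (hpl : (below K w').1 G.det * pl (below K w').1 v = 1)
    (hR : Red (below K w').1 (fun i k => ∑ j, G i j * v j k) q)
    (hgn : gn (below K w').1 (sub2 n G.transpose p) ≤ exp d) {c : L} {a b : Fin n → L}
    (hc : c ≠ 0) (hp : p.map (algebraMap K L) = C c * ∏ i, (C (b i) * X - C (a i)))
    (hy : ∀ i, (fun k => a i * algebraMap K L (v 0 k) + b i * algebraMap K L (v 1 k)) ≠ 0) :
    log (w'.1 c) + ∑ i, log (vmax w'.1 fun k =>
      a i * algebraMap K L (v 0 k) + b i * algebraMap K L (v 1 k)) ≤
      ramIdx K w'.1 * (d + n * log (pl (below K w').1 v)) := by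
  have hGm : (G.map (algebraMap K L)).det = algebraMap K L G.det := by
    rw [RingHom.map_det]
    rfl
  have hG' : (G.map (algebraMap K L)).det ≠ 0 := by
    rw [hGm]
    exact (_root_.map_ne_zero _).mpr hG
  have hR' : Red w'.1 (fun i k => ∑ j, (G.map (algebraMap K L)) i j * algebraMap K L (v j k)) q := by
    have hsum : ∀ i k, ∑ j, (G.map (algebraMap K L)) i j * algebraMap K L (v j k) =
        algebraMap K L (∑ j, G i j * v j k) := by
      intro i k
      rw [map_sum]
      exact Finset.sum_congr rfl fun j _ => by rw [map_mul, Matrix.map_apply]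
    constructor
    · intro i j
      have h1 := hR.piv i j
      beta_reduce at h1 ⊢
      rw [hsum, h1]
      split_ifs
      · rw [map_one]
      · rw [map_zero]
    · intro i k
      have h1 := hR.int i k
      beta_reduce at h1 ⊢
      rw [hsum, below_pow]
      exact pow_le_one' h1 _
  have h1 := gn_prod w'.1 (u := fun i k => algebraMap K L (v i k)) hG' hR' c a b
  have h2 : gn w'.1 (sub2 n (G.map (algebraMap K L)).transpose
      (C c * ∏ i, (C (b i) * X - C (a i)))) ≤ exp ((ramIdx K w'.1 : ℤ) * d) := by
    rw [← hp]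
    have h3 : sub2 n (G.map (algebraMap K L)).transpose (p.map (algebraMap K L)) =
        (sub2 n G.transpose p).map (algebraMap K L) := by
      rw [sub2_map]
      rfl
    rw [h3]
    refine gn_le _ fun i => ?_
    rw [coeff_map, below_pow]
    have h4 := (le_gn (below K w').1 (sub2 n G.transpose p) i).trans hgn
    refine (pow_le_pow_left' h4 _).trans (le_of_eq ?_)
    rw [← exp_nsmul, nsmul_eq_mul]
  rw [h1] at h2
  have hdet0 : w'.1 (G.map (algebraMap K L)).det ≠ 0 := (w'.1.ne_zero_iff).mpr hG'
  have hc0 : w'.1 c ≠ 0 := (w'.1.ne_zero_iff).mpr hc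
  have hv0 : ∀ i, (vmax w'.1 fun k =>
      a i * algebraMap K L (v 0 k) + b i * algebraMap K L (v 1 k)) ≠ 0 := by
    intro i
    rw [Ne, vmax_eq_zero_iff]
    exact hy i
  have hpr : (∏ i, (w'.1 (G.map (algebraMap K L)).det * vmax w'.1 fun k =>
      a i * algebraMap K L (v 0 k) + b i * algebraMap K L (v 1 k))) ≠ 0 :=
    Finset.prod_ne_zero_iff.mpr fun i _ => mul_ne_zero hdet0 (hv0 i)
  have h5 := (log_le_log (mul_ne_zero hc0 hpr) exp_ne_zero).mpr h2
  have hlogprod : ∀ (s : Finset (Fin n)) (f : Fin n → ℤᵐ⁰), (∀ i, f i ≠ 0) →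
      log (∏ i ∈ s, f i) = ∑ i ∈ s, log (f i) := by
    classical
    intro s f hf
    induction s using Finset.induction_on with
    | empty => rw [Finset.prod_empty, Finset.sum_empty, log_one]
    | @insert i s hi ih =>
      rw [Finset.prod_insert hi, Finset.sum_insert hi,
        log_mul (hf i) (Finset.prod_ne_zero_iff.mpr fun j _ => hf j), ih]
  rw [log_exp, log_mul hc0 hpr, hlogprod _ _ fun i => mul_ne_zero hdet0 (hv0 i)] at h5
  have h6 : ∀ i, log (w'.1 (G.map (algebraMap K L)).det * vmax w'.1 fun k =>
      a i * algebraMap K L (v 0 k) + b i * algebraMap K L (v 1 k)) =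
      log (w'.1 (G.map (algebraMap K L)).det) + log (vmax w'.1 fun k =>
      a i * algebraMap K L (v 0 k) + b i * algebraMap K L (v 1 k)) := fun i =>
    log_mul hdet0 (hv0 i)
  rw [Finset.sum_congr rfl fun i _ => h6 i, Finset.sum_add_distrib, Finset.sum_const,
    Finset.card_univ, Fintype.card_fin, nsmul_eq_mul] at h5
  have h7 : log (w'.1 (G.map (algebraMap K L)).det) =
      -((ramIdx K w'.1 : ℤ) * log (pl (below K w').1 v)) := by
    rw [hGm, below_pow, log_pow, nsmul_eq_mul]
    have h8 : log ((below K w').1 G.det) = - log (pl (below K w').1 v) := by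
      have h9 : (below K w').1 G.det ≠ 0 := left_ne_zero_of_mul_eq_one hpl
      have h10 : pl (below K w').1 v ≠ 0 := right_ne_zero_of_mul_eq_one hpl
      have h11 := congrArg log hpl
      rw [log_mul h9 h10, log_one] at h11
      linarith
    rw [h8]
    ring
  rw [h7] at h5
  have h12 : (ramIdx K w'.1 : ℤ) * (d + n * log (pl (below K w').1 v)) =
      (ramIdx K w'.1 : ℤ) * d + n * ((ramIdx K w'.1 : ℤ) * log (pl (below K w').1 v)) := by ring
  rw [h12]
  have h13 : (n : ℤ) * -((ramIdx K w'.1 : ℤ) * log (pl (below K w').1 v)) =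
      -((n : ℤ) * ((ramIdx K w'.1 : ℤ) * log (pl (below K w').1 v))) := by ring
  rw [h13] at h5
  linarith

/-- the sum over all places -/
private theorem os2_global (h : IsFF κ K) {v : Fin 2 → ι → K} (hv : LinearIndependent K v)
    {p : K[X]} {n : ℕ} {G : Place κ K → Matrix (Fin 2) (Fin 2) K} {q : Place κ K → Fin 2 → ι}
    {D : Place κ K → ℤ} (hD : (Function.support D).Finite)
    (hG : ∀ w, (G w).det ≠ 0) (hpl : ∀ w : Place κ K, w.1 (G w).det * pl w.1 v = 1)
    (hR : ∀ w : Place κ K, Red w.1 (fun i k => ∑ j, G w i j * v j k) (q w))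
    (hgn : ∀ w : Place κ K, gn w.1 (sub2 n (G w).transpose p) ≤ exp (D w))
    {c : L} {a b : Fin n → L} (hc : c ≠ 0)
    (hp : p.map (algebraMap K L) = C c * ∏ i, (C (b i) * X - C (a i)))
    (hy : ∀ i, (fun k => a i * algebraMap K L (v 0 k) + b i * algebraMap K L (v 1 k)) ≠ 0) :
    ∑ i, height κ (fun k => a i * algebraMap K L (v 0 k) + b i * algebraMap K L (v 1 k)) ≤
      finrank K L * ((∑ᶠ w, D w) + n * ht κ (Submodule.span K (Set.range v))) := by
  classical
  have hL : IsFF κ L := IsFF.of_finite (K := K) h
  have hs : (Function.support fun w : Place κ K => D w + n * log (pl w.1 v)).Finite := by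
    refine (hD.union (pl_support h hv)).subset fun w hw => ?_
    by_contra hcon
    rw [Set.mem_union, not_or, Function.notMem_support, Function.notMem_support] at hcon
    apply hw
    simp only at hcon ⊢
    rw [hcon.1, hcon.2, mul_zero, add_zero]
  obtain ⟨h1, h2⟩ := finsum_below (L := L) h hs
  have hsupy : ∀ i, (Function.support fun w : Place κ L => log (vmax w.1 fun k =>
      a i * algebraMap K L (v 0 k) + b i * algebraMap K L (v 1 k))).Finite := fun i =>
    hL.vmax_support (hy i)
  have hsum : (Function.support fun w : Place κ L => ∑ i, log (vmax w.1 fun k =>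
      a i * algebraMap K L (v 0 k) + b i * algebraMap K L (v 1 k))).Finite := by
    refine (Set.finite_iUnion hsupy).subset fun w hw => ?_
    by_contra hcon
    rw [Set.mem_iUnion, not_exists] at hcon
    apply hw
    simp only
    refine Finset.sum_eq_zero fun i _ => ?_
    have := hcon i
    rw [Function.notMem_support] at this
    exact this
  have h3 : ∑ᶠ w : Place κ L, (log (w.1 c) + ∑ i, log (vmax w.1 fun k =>
      a i * algebraMap K L (v 0 k) + b i * algebraMap K L (v 1 k))) =
      ∑ i, height κ (fun k => a i * algebraMap K L (v 0 k) + b i * algebraMap K L (v 1 k)) := by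
    rw [finsum_add_distrib (hL.place_support hc) hsum, hL.product_formula hc, zero_add,
      finsum_sum_comm _ _ fun i _ => hsupy i]
    rfl
  have h4 : ∑ᶠ w : Place κ K, (D w + n * log (pl w.1 v)) =
      (∑ᶠ w, D w) + n * ht κ (Submodule.span K (Set.range v)) := by
    have h5 : (Function.support fun w : Place κ K => (n : ℤ) * log (pl w.1 v)).Finite := by
      refine (pl_support h hv).subset fun w hw h0 => hw ?_
      simp only at h0 ⊢
      rw [h0, mul_zero]
    rw [finsum_add_distrib hD h5, ht_span h hv]
    congr 1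
    exact (mul_finsum (fun w : Place κ K => log (pl w.1 v)) (n : ℤ)).symm
  rw [← h3, ← h4, ← h2]
  refine finsum_mono ?_ h1 fun w => os2_local w (hG _) (hpl _) (hR _) (hgn _) hc hp hy
  refine ((hL.place_support hc).union hsum).subset fun w hw => ?_
  by_contra hcon
  rw [Set.mem_union, not_or, Function.notMem_support, Function.notMem_support] at hcon
  apply hw
  simp only at hcon ⊢
  rw [hcon.1, hcon.2, add_zero]

end ext

/-- **Rank two.** Proof. `V` has a basis `v` with `v i (f j) = δ` for two columns `f` (as in O03a).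
`m ≥ 1` with `genus ≤ m * ε`; `exists_form`; `L` := splitting field of `p` (tower: `Algebra κ L` by
composition). `exists_factors` for `p.map (algebraMap K L)` and degree `2 m`. At a place `w'` of `L`
over `w = below K w'`: the mapped basis is reduced with the mapped matrix `G w` (`below_pow`), the
Gauss norm of a mapped polynomial is the power `ramIdx` of the Gauss norm (`vmax_algebraMap` style),
`gn_prod`. Take `log` and sum over all `w'` (`finsum_below`, `IsFF.product_formula` for `c`):
`∑ i, height (a i • v 0 + b i • v 1) - 2 m [L:K] ht V ≤ [L:K] (- (m ht V - genus))`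
(`∑ log (w (det G w)) = - ht V`), so some `i` has `2 m * height ≤ [L:K] (m ht V + genus)`. The vector
is not zero because the mapped basis is independent. -/
theorem rank_two {κ : Type*} {K : Type u} [Field κ] [IsAlgClosed κ] [CharZero κ] [Field K]
    [Algebra κ K] {ι : Type*} [Fintype ι] (h : IsFF κ K) {V : Submodule K (ι → K)}
    (hV : finrank K V = 2) {ε : ℝ} (hε : 0 < ε) :
    ∃ (L : Type u) (_ : Field L) (_ : Algebra κ L) (_ : Algebra K L) (_ : IsScalarTower κ K L)
      (_ : FiniteDimensional K L), ∃ y ∈ bc L V, y ≠ 0 ∧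
        2 * (height κ y : ℝ) ≤ finrank K L * (ht κ V + ε) := by
  classical
  obtain ⟨w0⟩ := Pool.Agent.Lib.MP_44a246_ntR.exists_place h
  obtain ⟨a0, ha0, hs0⟩ := os2_basis hV
  obtain ⟨g0, f, hg0, hR0⟩ := exists_red w0.1 ha0
  obtain ⟨v, hvdef⟩ : ∃ v : Fin 2 → ι → K, v = fun i k => ∑ j, g0 i j * a0 j k := ⟨_, rfl⟩
  have hf : ∀ i j, v i (f j) = if i = j then 1 else 0 := by
    rw [hvdef]
    exact hR0.piv
  have hv : LinearIndependent K v := by
    rw [hvdef]
    exact hR0.linearIndependent
  have hs : Submodule.span K (Set.range v) = V := by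
    rw [hvdef, os2_span_change hg0]
    exact hs0
  obtain ⟨m0, hm0⟩ := exists_nat_ge ((genus κ K : ℝ) / ε)
  obtain ⟨m, hm⟩ : ∃ m, m = m0 + 1 := ⟨_, rfl⟩
  have hmpos : (0 : ℝ) < m := by
    rw [hm]
    positivity
  have hgm : (genus κ K : ℝ) ≤ m * ε := by
    rw [div_le_iff₀ hε] at hm0
    refine hm0.trans ?_
    rw [hm]
    push_cast
    nlinarith
  obtain ⟨p, G, q, D, hp0, hpd, hD, hDs, hG, hpl, hR, hgn⟩ := exists_form h hf m
  obtain ⟨c, a, b, hc, hab, hfac⟩ := exists_factors (L := p.SplittingField) (m := 2 * m)
    (p := p.map (algebraMap K p.SplittingField))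
    ((Polynomial.map_ne_zero_iff (algebraMap K p.SplittingField).injective).mpr hp0)
    ((Polynomial.natDegree_map_le).trans hpd) (SplittingField.splits p)
  have hu := linearIndependent_am (L := p.SplittingField) hv
  have hy : ∀ i, (fun k => a i * algebraMap K p.SplittingField (v 0 k) +
      b i * algebraMap K p.SplittingField (v 1 k)) ≠ 0 := by
    intro i h0
    have h1 := LinearIndependent.pair_iff.mp
      (show LinearIndependent p.SplittingField
        ![fun k => algebraMap K p.SplittingField (v 0 k),
          fun k => algebraMap K p.SplittingField (v 1 k)] by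
        convert hu using 1
        funext j
        fin_cases j <;> rfl) (a i) (b i) (by
        funext k
        exact congrFun h0 k)
    rcases hab i with h2 | h2
    · exact h2 h1.1
    · exact h2 h1.2
  have hmain := os2_global (L := p.SplittingField) h hv hD hG hpl hR hgn hc hfac hy
  rw [hs, hDs, hs] at hmain
  have hex : ∃ i : Fin (2 * m), 2 * (m : ℤ) * height κ (fun k =>
      a i * algebraMap K p.SplittingField (v 0 k) + b i * algebraMap K p.SplittingField (v 1 k)) ≤
      finrank K p.SplittingField * (m * ht κ V + genus κ K) := by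
    by_contra hcon
    push Not at hcon
    have hne : (Finset.univ : Finset (Fin (2 * m))).Nonempty := ⟨⟨0, by omega⟩, Finset.mem_univ _⟩
    have h1 := Finset.sum_lt_sum_of_nonempty hne fun i _ => hcon i
    rw [Finset.sum_const, Finset.card_univ, Fintype.card_fin, nsmul_eq_mul, ← Finset.mul_sum] at h1
    have h2 : ((2 * m : ℕ) : ℤ) * (finrank K p.SplittingField * (m * ht κ V + genus κ K)) =
        2 * (m : ℤ) * (finrank K p.SplittingField * (m * ht κ V + genus κ K)) := by
      push_cast
      ring
    rw [h2] at h1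
    have h3 : (0 : ℤ) < 2 * (m : ℤ) := by omega
    have h4 := lt_of_mul_lt_mul_left h1 h3.le
    have h5 : (finrank K p.SplittingField : ℤ) * (-(↑m * ht κ V - ↑(genus κ K)) +
        ↑(2 * m) * ht κ V) = finrank K p.SplittingField * (m * ht κ V + genus κ K) := by
      push_cast
      ring
    rw [h5] at hmain
    exact absurd hmain (not_le.mpr h4)
  obtain ⟨i, hi⟩ := hex
  refine ⟨p.SplittingField, inferInstance, inferInstance, inferInstance, inferInstance,
    inferInstance, fun k => a i * algebraMap K p.SplittingField (v 0 k) +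
      b i * algebraMap K p.SplittingField (v 1 k), ?_, hy i, ?_⟩
  · have hmem : ∀ j, (fun k => algebraMap K p.SplittingField (v j k)) ∈
        bc p.SplittingField V := by
      intro j
      apply am_mem_bc
      rw [← hs]
      exact Submodule.subset_span ⟨j, rfl⟩
    exact Submodule.add_mem _ (Submodule.smul_mem _ (a i) (hmem 0))
      (Submodule.smul_mem _ (b i) (hmem 1))
  · have h1 : (2 * (m : ℝ) * (height κ (fun k =>
      a i * algebraMap K p.SplittingField (v 0 k) +
        b i * algebraMap K p.SplittingField (v 1 k)) : ℝ)) ≤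
      finrank K p.SplittingField * (m * ht κ V + genus κ K) := by exact_mod_cast hi
    have h2 : (0 : ℝ) ≤ finrank K p.SplittingField := Nat.cast_nonneg _
    have h3 : (finrank K p.SplittingField : ℝ) * (m * ht κ V + genus κ K) ≤
        finrank K p.SplittingField * (m * ht κ V + m * ε) := by
      gcongr
    have h4 : (m : ℝ) * (2 * (height κ (fun k =>
      a i * algebraMap K p.SplittingField (v 0 k) +
        b i * algebraMap K p.SplittingField (v 1 k)) : ℝ)) ≤
        m * (finrank K p.SplittingField * (ht κ V + ε)) := by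
      calc _ = 2 * (m : ℝ) * (height κ (fun k =>
            a i * algebraMap K p.SplittingField (v 0 k) +
              b i * algebraMap K p.SplittingField (v 1 k)) : ℝ) := by ring
        _ ≤ _ := h1
        _ ≤ _ := h3
        _ = _ := by ring
    exact le_of_mul_le_mul_left h4 hmpos

end Pool.Agent.Lib.MP_44a246_ntO
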