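import Mathlib
import Pool.Agent.Lib.MP_44a246_ntS.SA3c

/-!
The vector of the minors of a family and one further vector.
-/

namespace Pool.Agent.Lib.MP_44a246_ntO

open Pool.Agent.Lib.MP_44a246_nt
open Pool.Agent.Lib.MP_44a246_ntL
open Pool.Agent.Lib.MP_44a246_ntS
open WithZero

variable {L : Type*} [Field L] {ρ ι : Type*} [Fintype ρ] [DecidableEq ρ] [Fintype ι]

omit [Fintype ρ] [Fintype ι] in
private theorem os3a_mat (a : ρ → ι → L) (y : ι → L) (e : ρ ⊕ Unit → ι) :
    (Matrix.of fun i j => Sum.elim a (fun _ : Unit => y) i (e j)) =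
      (Matrix.of fun i j => Sum.elim a (fun _ : Unit => (0 : ι → L)) i (e j)).updateRow
        (Sum.inr ()) (fun j => y (e j)) := by
  ext i j
  rcases i with i | i
  · rw [Matrix.updateRow_ne (by simp)]
    rfl
  · rw [Matrix.updateRow_self]
    rfl

/-- the vector of the minors of the family `a` and the vector `y`: linear in `y` -/
noncomputable def pv (a : ρ → ι → L) : (ι → L) →ₗ[L] ((ρ ⊕ Unit → ι) → L) where
  toFun y := fun e => (Matrix.of fun i j => Sum.elim a (fun _ : Unit => y) i (e j)).det
  map_add' y z := by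
    funext e
    simp only [Pi.add_apply]
    rw [os3a_mat a (y + z) e, os3a_mat a y e, os3a_mat a z e, ← Matrix.det_updateRow_add]
    rfl
  map_smul' c y := by
    funext e
    simp only [Pi.smul_apply, RingHom.id_apply, smul_eq_mul]
    rw [os3a_mat a (c • y) e, os3a_mat a y e, ← Matrix.det_updateRow_smul]
    rfl

theorem vmax_pv (v : Valuation L ℤᵐ⁰) (a : ρ → ι → L) (y : ι → L) :
    vmax v (pv a y) = pl v (Sum.elim a fun _ : Unit => y) := rfl

/-- independence: `a` with `y` is independent iff the vector of minors is not zero -/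
theorem pv_ne_zero {a : ρ → ι → L} {y : ι → L}
    (h : LinearIndependent L (Sum.elim a fun _ : Unit => y)) : pv a y ≠ 0 := by
  classical
  intro h0
  have h1 := pl_ne_zero (1 : Valuation L ℤᵐ⁰) h
  rw [← vmax_pv, h0] at h1
  exact h1 ((vmax_eq_zero_iff _).2 rfl)

theorem pv_linearIndependent {a : ρ → ι → L} {e : Fin 2 → ι → L}
    (h : LinearIndependent L (Sum.elim a e)) : LinearIndependent L (fun i => pv a (e i)) := by
  classical
  rw [Fintype.linearIndependent_iff]
  intro g hg
  by_contra hcon
  push Not at hcon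
  obtain ⟨i0, hi0⟩ := hcon
  have h1 : pv a (∑ i, g i • e i) = 0 := by
    rw [map_sum, ← hg]
    exact Finset.sum_congr rfl fun i _ => map_smul _ _ _
  refine pv_ne_zero ?_ h1
  rw [Fintype.linearIndependent_iff] at h ⊢
  intro c hc
  rw [Fintype.sum_sum_type] at hc
  have h2 := h (Sum.elim (fun r => c (Sum.inl r)) fun i => c (Sum.inr ()) * g i) (by
    rw [Fintype.sum_sum_type]
    simp only [Sum.elim_inl, Sum.elim_inr]
    rw [← hc]
    congr 1
    simp only [Finset.univ_unique, Finset.sum_singleton, Sum.elim_inr, PUnit.default_eq_unit,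
      Finset.smul_sum, smul_smul])
  have h3 : c (Sum.inr ()) = 0 := by
    have := h2 (Sum.inr i0)
    simp only [Sum.elim_inr] at this
    exact (mul_eq_zero.1 this).resolve_right hi0
  rintro (i | i)
  · exact h2 (Sum.inl i)
  · exact h3

omit [Fintype ι] in
/-- the minors after a change of basis of the family -/
private theorem pv_mul (g : Matrix ρ ρ L) (a : ρ → ι → L) (y : ι → L) :
    pv (fun i k => ∑ j, g i j * a j k) y = g.det • pv a y := by
  funext e
  rw [Pi.smul_apply, smul_eq_mul]
  show (Matrix.of fun i j => Sum.elim (fun i k => ∑ j, g i j * a j k) (fun _ : Unit => y) i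
      (e j)).det = g.det * (Matrix.of fun i j => Sum.elim a (fun _ : Unit => y) i (e j)).det
  have h1 : g.det = (Matrix.fromBlocks g 0 0 (1 : Matrix Unit Unit L)).det := by
    rw [Matrix.det_fromBlocks_zero₂₁, Matrix.det_one, mul_one]
  rw [h1, ← Matrix.det_mul]
  congr 1
  ext i j
  rcases i with i | i
  · simp [Matrix.mul_apply, Fintype.sum_sum_type]
  · simp [Matrix.mul_apply, Fintype.sum_sum_type]

omit [Fintype ι] in
/-- a vector of the family -/
private theorem pv_self (a : ρ → ι → L) (r : ρ) : pv a (a r) = 0 := by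
  funext e
  exact Matrix.det_zero_of_row_eq (i := Sum.inl r) (j := Sum.inr ()) (by simp) rfl

omit [Fintype ι] in
/-- adding a combination of the family -/
private theorem pv_add_comb (a : ρ → ι → L) (y : ι → L) (m : ρ → L) :
    pv a (fun k => y k + ∑ j, m j * a j k) = pv a y := by
  have h1 : (fun k => y k + ∑ j, m j * a j k) = y + ∑ j, m j • a j := by
    funext k
    rw [Pi.add_apply, Finset.sum_apply]
    rfl
  rw [h1, map_add, map_sum, Finset.sum_eq_zero, add_zero]
  intro j _
  rw [map_smul, pv_self, smul_zero]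

omit [Fintype ι] in
/-- a combination of vectors -/
private theorem pv_comb (a : ρ → ι → L) (e : Fin 2 → ι → L) (h : Matrix (Fin 2) (Fin 2) L)
    (i : Fin 2) : pv a (fun k => ∑ j, h i j * e j k) = fun k => ∑ j, h i j * pv a (e j) k := by
  have h1 : (fun k => ∑ j, h i j * e j k) = ∑ j, h i j • e j := by
    funext k
    rw [Finset.sum_apply]
    rfl
  rw [h1, map_sum]
  funext k
  rw [Finset.sum_apply]
  refine Finset.sum_congr rfl fun j _ => ?_
  rw [map_smul]
  rfl

/-- integral minors -/
private theorem pv_int (v : Valuation L ℤᵐ⁰) {b : ρ → ι → L} {y : ι → L}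
    (hb : ∀ i k, v (b i k) ≤ 1) (hy : ∀ k, v (y k) ≤ 1) (f : ρ ⊕ Unit → ι) :
    v (pv b y f) ≤ 1 := by
  have h1 : pl v (Sum.elim b fun _ : Unit => y) ≤ 1 := by
    refine pl_le_one v ?_
    rintro (i | i) k
    · exact hb i k
    · exact hy k
  exact (le_vmax v (pv b y) f).trans h1

/-- Proof: if the family `Sum.elim a e` is independent (otherwise?, only this case is needed)
choose a reduced basis `g a` of the span of `a` (`exists_red`), then a reduced family for the whole
space of the form `(g a, g' e + m a)`: reduce `e` modulo `a` and at the pivots of `a`, and apply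
`exists_red` again to the remaining part (as in `Red.pl_sum`, `pl_local_red`); `pv (g a) y =
det g * pv a y`, `pv a (y + combination of a) = pv a y`; both sides of the inequality are multiplied
by `|det g| ^ 2 |det g'|`; for the reduced family all entries of `pv` are integral and both factors
on the right are one. -/
theorem pl_pv_le (v : Valuation L ℤᵐ⁰) {a : ρ → ι → L} {e : Fin 2 → ι → L}
    (h : LinearIndependent L (Sum.elim a e)) :
    pl v (fun i => pv a (e i)) ≤ pl v a * pl v (Sum.elim a e) := by
  classical
  have ha : LinearIndependent L a := by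
    have h1 := h.comp Sum.inl Sum.inl_injective
    rwa [Sum.elim_comp_inl] at h1
  obtain ⟨g, q, hg, hR⟩ := exists_red v ha
  obtain ⟨b, hb⟩ : ∃ b : ρ → ι → L, b = fun i k => ∑ j, g i j * a j k := ⟨_, rfl⟩
  rw [← hb] at hR
  obtain ⟨e', he'⟩ : ∃ e' : Fin 2 → ι → L,
      e' = fun i k => e i k + ∑ j, (-e i (q j)) * b j k := ⟨_, rfl⟩
  have he'q : ∀ i j, e' i (q j) = 0 := by
    intro i j
    rw [he']
    simp only
    rw [Finset.sum_eq_single j]
    · rw [hR.piv, if_pos rfl, mul_one, add_neg_cancel]
    · intro l _ hl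
      rw [hR.piv, if_neg hl, mul_zero]
    · intro hj
      exact absurd (Finset.mem_univ j) hj
  -- `e'` is independent
  have hE : pl v (Sum.elim b e') = v g.det * pl v (Sum.elim a e) := by
    rw [he', pl_sum_unip v (fun i j => -e i (q j)) b e, hb]
    have h1 := pl_sum_mul v g (1 : Matrix (Fin 2) (Fin 2) L) a e
    rw [Matrix.det_one, map_one, mul_one] at h1
    rw [← h1]
    congr 2
    funext i k
    rw [Finset.sum_eq_single i]
    · rw [Matrix.one_apply_eq, one_mul]
    · intro j _ hj
      rw [Matrix.one_apply_ne (Ne.symm hj), zero_mul]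
    · intro hj
      exact absurd (Finset.mem_univ i) hj
  have hgv : v g.det ≠ 0 := (Valuation.ne_zero_iff v).2 hg
  have he'i : LinearIndependent L e' := by
    by_contra hcon
    have h1 : pl v (Sum.elim b e') = 0 := by
      refine pl_eq_zero v fun h2 => hcon ?_
      have h3 := h2.comp Sum.inr Sum.inr_injective
      rwa [Sum.elim_comp_inr] at h3
    rw [hE] at h1
    rcases mul_eq_zero.1 h1 with h2 | h2
    · exact hgv h2
    · exact pl_ne_zero v h h2
  obtain ⟨h', q', hh', hR'⟩ := exists_red v he'i
  obtain ⟨e'', he''⟩ : ∃ e'' : Fin 2 → ι → L, e'' = fun i k => ∑ j, h' i j * e' j k := ⟨_, rfl⟩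
  rw [← he''] at hR'
  have he''q : ∀ i j, e'' i (q j) = 0 := by
    intro i j
    rw [he'']
    exact Finset.sum_eq_zero fun l _ => by rw [he'q, mul_zero]
  -- the factors
  have hD : v g.det * pl v a = 1 := by
    rw [← pl_mul, ← hb]
    exact hR.pl_eq
  have hF : v h'.det * (v g.det * pl v (Sum.elim a e)) = 1 := by
    rw [← hE]
    have h1 := pl_sum_mul v (1 : Matrix ρ ρ L) h' b e'
    rw [Matrix.det_one, map_one, one_mul] at h1
    rw [← h1, ← he'']
    have h2 : (fun i k => ∑ j, (1 : Matrix ρ ρ L) i j * b j k) = b := by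
      funext i k
      rw [Finset.sum_eq_single i]
      · rw [Matrix.one_apply_eq, one_mul]
      · intro j _ hj
        rw [Matrix.one_apply_ne (Ne.symm hj), zero_mul]
      · intro hj
        exact absurd (Finset.mem_univ i) hj
    rw [h2, hR.pl_sum v he''q]
    exact hR'.pl_eq
  have hP : v h'.det * (v g.det * v g.det * pl v (fun i => pv a (e i))) ≤ 1 := by
    have h1 : pl v (fun i => pv b (e'' i)) ≤ 1 := by
      refine pl_le_one v fun i f => ?_
      exact pv_int v hR.int (hR'.int i) f
    have h2 : (fun i => pv b (e'' i)) = fun i k => ∑ j, h' i j * pv b (e' j) k := by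
      rw [he'']
      funext i
      exact pv_comb b e' h' i
    have h3 : ∀ j, pv b (e' j) = g.det • pv a (e j) := by
      intro j
      rw [he']
      simp only
      rw [pv_add_comb, hb, pv_mul]
    rw [h2, pl_mul v h' (fun j => pv b (e' j))] at h1
    have h4 : (fun j => pv b (e' j)) = fun i k => ∑ j, (g.det • (1 : Matrix (Fin 2) (Fin 2) L)) i j *
        pv a (e j) k := by
      funext i
      rw [h3]
      funext k
      rw [Finset.sum_eq_single i]
      · rw [Matrix.smul_apply, Matrix.one_apply_eq, smul_eq_mul, mul_one, Pi.smul_apply,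
          smul_eq_mul]
      · intro j _ hj
        rw [Matrix.smul_apply, Matrix.one_apply_ne (Ne.symm hj), smul_zero, zero_mul]
      · intro hj
        exact absurd (Finset.mem_univ i) hj
    rw [h4, pl_mul, Matrix.det_smul, Matrix.det_one, mul_one, Fintype.card_fin, map_pow, pow_two]
      at h1
    exact h1
  calc pl v (fun i => pv a (e i))
      = (v g.det * pl v a) * (v h'.det * (v g.det * pl v (Sum.elim a e))) *
          pl v (fun i => pv a (e i)) := by rw [hD, hF, one_mul, one_mul]
    _ = (v h'.det * (v g.det * v g.det * pl v (fun i => pv a (e i)))) *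
          (pl v a * pl v (Sum.elim a e)) := by ac_rfl
    _ ≤ 1 * (pl v a * pl v (Sum.elim a e)) := mul_le_mul_left hP _
    _ = pl v a * pl v (Sum.elim a e) := one_mul _

end Pool.Agent.Lib.MP_44a246_ntO
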