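import Mathlib
import Pool.Agent.Lib.MP_44a246_ntO.OS2
import Pool.Agent.Lib.MP_44a246_ntO.OS3a

/-!
Between two subspaces of codimension two there is, over a finite extension, a space of height
about the mean of the two heights.
-/

namespace Pool.Agent.Lib.MP_44a246_ntO

open Pool.Agent.Lib.MP_44a246_nt
open Pool.Agent.Lib.MP_44a246_ntL
open Pool.Agent.Lib.MP_44a246_ntS
open WithZero Module

universe u

/-- Proof: `a` a basis of `A`, `Sum.elim a e` a basis of `B` (`exists_compl`, SB2), `V` the span of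
`pv a (e i)`: `finrank V = 2` (`pv_linearIndependent`), `ht V ≤ ht A + ht B` (`ht_span`, `pl_pv_le`,
`log`, `finsum_mono`). `rank_two` gives `L` and `y = ∑ c i • pv a' (e' i) = pv a' (∑ c i • e' i)` with
the mapped families (`bc_span`; the minors commute with `algebraMap`). `C := bc L A ⊔ span {∑ c i e' i}`
= span of `Sum.elim a' (fun _ => ∑ c i • e' i)`, independent since `c ≠ 0`, `ht C = height y` by
`vmax_pv` and `ht_span`. -/
theorem pencil {κ : Type*} {K : Type u} [Field κ] [IsAlgClosed κ] [CharZero κ] [Field K]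
    [Algebra κ K] {ι : Type*} [Fintype ι] (h : IsFF κ K) {A B : Submodule K (ι → K)}
    (hAB : A ≤ B) (hr : finrank K B = finrank K A + 2) {ε : ℝ} (hε : 0 < ε) :
    ∃ (L : Type u) (_ : Field L) (_ : Algebra κ L) (_ : Algebra K L) (_ : IsScalarTower κ K L)
      (_ : FiniteDimensional K L), ∃ C : Submodule L (ι → L), bc L A ≤ C ∧ C ≤ bc L B ∧
        finrank L C = finrank K A + 1 ∧
        2 * (ht κ C : ℝ) ≤ finrank K L * (ht κ A + ht κ B + ε) := by
  classical
  obtain ⟨α, b, hα, hαs, hαb, hαbs⟩ := exists_compl hAB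
  have h2 : finrank K B - finrank K A = 2 := by omega
  obtain ⟨e, he⟩ : ∃ e : Fin 2 → ι → K, e = fun i => b (finCongr h2.symm i) := ⟨_, rfl⟩
  have hαe : LinearIndependent K (Sum.elim α e) := by
    have h3 := hαb.comp (Equiv.sumCongr (Equiv.refl _) (finCongr h2.symm)) (Equiv.injective _)
    convert h3 using 1
    rw [he]
    funext i
    rcases i with i | i <;> rfl
  have hαes : Submodule.span K (Set.range (Sum.elim α e)) = B := by
    rw [← hαbs, Set.Sum.elim_range, Set.Sum.elim_range]
    congr 2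
    rw [he]
    exact (finCongr h2.symm).surjective.range_comp b
  have hpi := pv_linearIndependent hαe
  set V : Submodule K ((Fin (finrank K A) ⊕ Unit → ι) → K) :=
    Submodule.span K (Set.range fun i => pv α (e i)) with hV
  have hV2 : finrank K V = 2 := by
    rw [hV, finrank_span_eq_card hpi, Fintype.card_fin]
  have hhtV : ht κ V ≤ ht κ A + ht κ B := by
    have t1 : ht κ V = ∑ᶠ w : Place κ K, log (pl w.1 fun i => pv α (e i)) := by
      rw [hV, ht_span h hpi]
    have t2 : ht κ A = ∑ᶠ w : Place κ K, log (pl w.1 α) := by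
      rw [← ht_span h hα, hαs]
    have t3 : ht κ B = ∑ᶠ w : Place κ K, log (pl w.1 (Sum.elim α e)) := by
      rw [← ht_span h hαe, hαes]
    rw [t1, t2, t3, ← finsum_add_distrib (pl_support h hα) (pl_support h hαe)]
    refine finsum_mono (pl_support h hpi)
      (((pl_support h hα).union (pl_support h hαe)).subset (Function.support_add _ _)) fun w => ?_
    rw [← log_mul (pl_ne_zero w.1 hα) (pl_ne_zero w.1 hαe)]
    exact (log_le_log (pl_ne_zero w.1 hpi)
      (mul_ne_zero (pl_ne_zero w.1 hα) (pl_ne_zero w.1 hαe))).mpr (pl_pv_le w.1 hαe)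
  obtain ⟨L, fL, aL, aKL, tL, fdL, y, hy, hy0, hyh⟩ := rank_two h hV2 hε
  refine ⟨L, fL, aL, aKL, tL, fdL, ?_⟩
  obtain ⟨α', hα'⟩ : ∃ α' : Fin (finrank K A) → ι → L,
      α' = fun i k => algebraMap K L (α i k) := ⟨_, rfl⟩
  obtain ⟨e', he'⟩ : ∃ e' : Fin 2 → ι → L, e' = fun i k => algebraMap K L (e i k) := ⟨_, rfl⟩
  have hmap : ∀ i, (fun k => algebraMap K L (pv α (e i) k)) = pv α' (e' i) := by
    intro i
    funext k
    change algebraMap K L (Matrix.of fun i' j => Sum.elim α (fun _ : Unit => e i) i' (k j)).det =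
      (Matrix.of fun i' j => Sum.elim α' (fun _ : Unit => e' i) i' (k j)).det
    rw [RingHom.map_det]
    congr 1
    ext i' j
    rcases i' with i' | i'
    · simp [hα']
    · simp [he']
  have hbcV : bc L V = Submodule.span L (Set.range fun i => pv α' (e' i)) := by
    rw [hV, bc_span, ← Set.range_comp]
    congr 2
    funext i
    exact hmap i
  rw [hbcV, Submodule.mem_span_range_iff_exists_fun] at hy
  obtain ⟨c, hc⟩ := hy
  obtain ⟨z, hz⟩ : ∃ z : ι → L, z = ∑ i, c i • e' i := ⟨_, rfl⟩
  have hyz : y = pv α' z := by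
    rw [← hc, hz, map_sum]
    exact Finset.sum_congr rfl fun i _ => by rw [map_smul]
  have hind : LinearIndependent L (Sum.elim α' fun _ : Unit => z) := by
    by_contra hn
    have h3 : pl (1 : Valuation L ℤᵐ⁰) (Sum.elim α' fun _ : Unit => z) = 0 := pl_eq_zero _ hn
    rw [← vmax_pv, vmax_eq_zero_iff, ← hyz] at h3
    exact hy0 h3
  have hbcA : bc L A = Submodule.span L (Set.range α') := by
    have h3 : bc L (Submodule.span K (Set.range α)) = Submodule.span L (Set.range α') := by
      rw [bc_span, ← Set.range_comp, hα']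
      rfl
    exact (congrArg (bc L) hαs).symm.trans h3
  have hzB : z ∈ bc L B := by
    rw [hz]
    refine Submodule.sum_mem _ fun i _ => Submodule.smul_mem _ _ ?_
    rw [he']
    refine am_mem_bc ?_
    rw [← hαes]
    exact Submodule.subset_span ⟨Sum.inr i, rfl⟩
  refine ⟨Submodule.span L (Set.range (Sum.elim α' fun _ : Unit => z)), ?_, ?_, ?_, ?_⟩
  · rw [hbcA]
    refine Submodule.span_mono ?_
    rw [Set.Sum.elim_range]
    exact Set.subset_union_left
  · rw [Submodule.span_le]
    rintro _ ⟨i | i, rfl⟩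
    · have h3 : bc L A ≤ bc L B := bc_mono hAB
      refine h3 ?_
      rw [hbcA]
      exact Submodule.subset_span ⟨i, rfl⟩
    · exact hzB
  · rw [finrank_span_eq_card hind, Fintype.card_sum, Fintype.card_fin, Fintype.card_unit]
  · have hhtC : ht κ (Submodule.span L (Set.range (Sum.elim α' fun _ : Unit => z))) =
        height κ y := by
      rw [ht_span (h.of_finite : IsFF κ L) hind, hyz]
      rfl
    rw [hhtC]
    refine hyh.trans ?_
    have h3 : ((ht κ V : ℤ) : ℝ) ≤ (ht κ A : ℝ) + (ht κ B : ℝ) := by exact_mod_cast hhtV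
    have h4 : (0 : ℝ) ≤ (finrank K L : ℝ) := Nat.cast_nonneg _
    exact mul_le_mul_of_nonneg_left (by linarith) h4

end Pool.Agent.Lib.MP_44a246_ntO
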