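import Mathlib
import Pool.Agent.Lib.MP_44a246_ntO.OS3

/-!
The absolute Siegel lemma: hyperplanes of small height over finite extensions.
-/

namespace Pool.Agent.Lib.MP_44a246_ntO

open Pool.Agent.Lib.MP_44a246_nt
open Pool.Agent.Lib.MP_44a246_ntL
open Pool.Agent.Lib.MP_44a246_ntS
open WithZero Module

universe u

/-- over a finite extension the space `Λ` has a subspace of dimension `r` and of normalised height
at most `y` -/
def HypLE (κ : Type*) [Field κ] {K : Type u} [Field K] [Algebra κ K] {ι : Type*} [Fintype ι]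
    (Λ : Submodule K (ι → K)) (r : ℕ) (y : ℝ) : Prop :=
  ∃ (L : Type u) (_ : Field L) (_ : Algebra κ L) (_ : Algebra K L) (_ : IsScalarTower κ K L)
    (_ : FiniteDimensional K L), ∃ C : Submodule L (ι → L), C ≤ bc L Λ ∧ finrank L C = r ∧
      (ht κ C : ℝ) ≤ finrank K L * y

section

variable {κ : Type*} {K : Type u} [Field κ] [IsAlgClosed κ] [CharZero κ] [Field K] [Algebra κ K]
  {ι : Type*} [Fintype ι]

/-- Extensions of extensions: from `L / K` and `M / L` make `Algebra K M` by composition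
(`(algebraMap L M).comp (algebraMap K L)).toAlgebra`, `IsScalarTower K L M := .of_algebraMap_eq
fun _ => rfl`), `FiniteDimensional.trans`, `Module.finrank_mul_finrank`, `bc_bc`. -/
theorem HypLE.of_ext {L : Type u} [Field L] [Algebra κ L] [Algebra K L] [IsScalarTower κ K L]
    [FiniteDimensional K L] {Λ : Submodule K (ι → K)} {r : ℕ} {y : ℝ}
    (hC : HypLE κ (bc L Λ) r (finrank K L * y)) : HypLE κ Λ r y := by
  obtain ⟨M, fM, aκM, aLM, tM, dM, C, hCle, hCr, hCht⟩ := hC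
  let aKM : Algebra K M := ((algebraMap L M).comp (algebraMap K L)).toAlgebra
  have t1 : IsScalarTower K L M := IsScalarTower.of_algebraMap_eq fun _ => rfl
  have t2 : IsScalarTower κ K M := IsScalarTower.of_algebraMap_eq fun x => by
    rw [IsScalarTower.algebraMap_apply κ L M, IsScalarTower.algebraMap_apply κ K L]
    rfl
  have d1 : FiniteDimensional K M := FiniteDimensional.trans K L M
  refine ⟨M, fM, aκM, aKM, t2, d1, C, ?_, hCr, ?_⟩
  · rwa [bc_bc] at hCle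
  · refine hCht.trans (le_of_eq ?_)
    rw [← Module.finrank_mul_finrank K L M]
    push_cast
    ring

theorem HypLE.mono_space {Λ Λ' : Submodule K (ι → K)} (hΛ : Λ ≤ Λ') {r : ℕ} {y : ℝ}
    (hC : HypLE κ Λ r y) : HypLE κ Λ' r y := by
  obtain ⟨M, fM, aκM, aKM, tM, dM, C, hCle, hCr, hCht⟩ := hC
  exact ⟨M, fM, aκM, aKM, tM, dM, C, hCle.trans (bc_mono hΛ), hCr, hCht⟩

theorem HypLE.mono {Λ : Submodule K (ι → K)} {r : ℕ} {y y' : ℝ} (hy : y ≤ y')
    (hC : HypLE κ Λ r y) : HypLE κ Λ r y' := by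
  obtain ⟨M, fM, aκM, aKM, tM, dM, C, hCle, hCr, hCht⟩ := hC
  exact ⟨M, fM, aκM, aKM, tM, dM, C, hCle, hCr,
    hCht.trans (mul_le_mul_of_nonneg_left hy (Nat.cast_nonneg _))⟩

/-- one step of the induction. Proof: `L / K` and `Λ₁ ≤ bc L Λ` of dimension `r + 1`, of height
`≤ [L:K] y` (`hC`); `hind` for `Λ₁` over `L`, `ε [L:K]`: `M / L` and `Λ₂ ≤ bc M Λ₁` of dimension `r`,
height `≤ [M:L] (c ht Λ₁ + ε [L:K]) ≤ [M:K] (c y + ε)` (`0 ≤ c`); `pencil` for `Λ₂ ≤ bc M (bc L Λ)`: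
`2 ht C ≤ [N:M] (ht Λ₂ + [M:K] ht Λ + ε)`, `of_ext` twice. -/
theorem hyp_step {r : ℕ} {c : ℝ} (hc : 0 ≤ c)
    (hind : ∀ (L : Type u) [Field L] [Algebra κ L], IsFF κ L → ∀ Λ : Submodule L (ι → L),
      finrank L Λ = r + 1 → ∀ ε : ℝ, 0 < ε → HypLE κ Λ r (c * ht κ Λ + ε))
    (h : IsFF κ K) {Λ : Submodule K (ι → K)} (hr : finrank K Λ = r + 2) {y : ℝ}
    (hC : HypLE κ Λ (r + 1) y) {ε : ℝ} (hε : 0 < ε) :
    HypLE κ Λ (r + 1) ((c * y + ht κ Λ + 2 * ε) / 2) := by
  obtain ⟨L, fL, aκL, aKL, tL, dL, Λ₁, hle₁, hr₁, hht₁⟩ := hC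
  have hL : IsFF κ L := h.of_finite
  have hm : (0 : ℝ) < finrank K L := Nat.cast_pos.mpr finrank_pos
  obtain ⟨M, fM, aκM, aLM, tM, dM, Λ₂, hle₂, hr₂, hht₂⟩ :=
    hind L hL Λ₁ hr₁ (ε * finrank K L) (mul_pos hε hm)
  have hM : IsFF κ M := hL.of_finite
  have hm' : (0 : ℝ) < finrank L M := Nat.cast_pos.mpr finrank_pos
  have hB : finrank M (bc M (bc L Λ)) = finrank M Λ₂ + 2 := by
    rw [finrank_bc, finrank_bc, hr, hr₂]
  obtain ⟨N, fN, aκN, aMN, tN, dN, C, -, hCle, hCr, hCht⟩ :=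
    pencil hM (hle₂.trans (bc_mono hle₁)) hB (mul_pos (mul_pos hε hm) hm')
  have hhtB : (ht κ (bc M (bc L Λ)) : ℝ) = finrank L M * (finrank K L * ht κ Λ) := by
    rw [ht_bc hL, ht_bc h]
    push_cast
    ring
  refine HypLE.of_ext (L := L) (HypLE.of_ext (L := M) ?_)
  refine ⟨N, fN, aκN, aMN, tN, dN, C, hCle, by rw [hCr, hr₂], ?_⟩
  have h1 : (ht κ Λ₂ : ℝ) ≤ finrank L M * (c * (finrank K L * y) + ε * finrank K L) := by
    refine hht₂.trans ?_
    refine mul_le_mul_of_nonneg_left ?_ hm'.le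
    have := mul_le_mul_of_nonneg_left hht₁ hc
    linarith
  rw [hhtB] at hCht
  have h2 : (0 : ℝ) ≤ finrank M N := Nat.cast_nonneg _
  have h3 : (finrank M N : ℝ) * (ht κ Λ₂ + finrank L M * (finrank K L * ht κ Λ) +
      ε * finrank K L * finrank L M) ≤
      finrank M N * (finrank L M * (c * (finrank K L * y) + ε * finrank K L) +
        finrank L M * (finrank K L * ht κ Λ) + ε * finrank K L * finrank L M) := by
    refine mul_le_mul_of_nonneg_left ?_ h2
    linarith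
  have h4 := hCht.trans h3
  have h5 : (ht κ C : ℝ) ≤ (finrank M N * (finrank L M * (c * (finrank K L * y) +
      ε * finrank K L) + finrank L M * (finrank K L * ht κ Λ) +
        ε * finrank K L * finrank L M)) / 2 := by linarith
  refine h5.trans (le_of_eq ?_)
  ring

end

end Pool.Agent.Lib.MP_44a246_ntO
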