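import Mathlib
import Pool.Agent.Lib.MP_44a246_ntO.OS4a

/-!
The absolute Siegel lemma: hyperplanes of small height over finite extensions.
-/

namespace Pool.Agent.Lib.MP_44a246_ntO

open Pool.Agent.Lib.MP_44a246_nt
open Pool.Agent.Lib.MP_44a246_ntL
open Pool.Agent.Lib.MP_44a246_ntS
open WithZero Module

universe u

section

variable {κ : Type*} [Field κ] [IsAlgClosed κ] [CharZero κ] {ι : Type*} [Fintype ι]

/-- **The absolute Siegel lemma.** Induction on `r`. `r = 0`: the zero space (`ht_bot`). `r + 1`: the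
set `Y` of the `y` with `HypLE κ Λ (r + 1) y` is nonempty (`L = K`, any hyperplane of `Λ`) and bounded
below by `0` (`ht_nonneg` over `L`, `IsFF.of_finite`); `y₀ := sInf Y`. `hyp_step` with
`c = 1 - 1 / (r + 1)`: `y₀ ≤ (c (y₀ + ε) + ht Λ + 2 ε) / 2` for all `ε > 0`, so
`y₀ (2 - c) ≤ ht Λ`, `2 - c = (r + 2) / (r + 1)`, i.e. `y₀ ≤ (1 - 1 / (r + 2)) ht Λ`. -/
theorem hyperplane (r : ℕ) : ∀ (K : Type u) [Field K] [Algebra κ K], IsFF κ K →
    ∀ Λ : Submodule K (ι → K), finrank K Λ = r + 1 → ∀ ε : ℝ, 0 < ε →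
      HypLE κ Λ r ((1 - 1 / ((r : ℝ) + 1)) * ht κ Λ + ε) := by
  induction r with
  | zero =>
    intro K _ _ h Λ hΛ ε hε
    refine ⟨K, inferInstance, inferInstance, Algebra.id K, inferInstance, inferInstance, ⊥, bot_le,
      finrank_bot K _, ?_⟩
    rw [ht_bot h, Module.finrank_self]
    simp
    exact hε.le
  | succ r ih =>
    intro K _ _ h Λ hΛ ε hε
    set c : ℝ := 1 - 1 / ((r : ℝ) + 1) with hc
    have hr0 : (0 : ℝ) ≤ r := Nat.cast_nonneg r
    have hc0 : 0 ≤ c := by
      rw [hc, sub_nonneg, div_le_one (by linarith)]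
      linarith
    set Y : Set ℝ := {y | HypLE κ Λ (r + 1) y} with hY
    -- a hyperplane over `K`
    have hne : Y.Nonempty := by
      obtain ⟨C₀, hC₀, hC₀r⟩ : ∃ C₀ : Submodule K (ι → K), C₀ ≤ Λ ∧ finrank K C₀ = r + 1 := by
        let b := Module.finBasis K Λ
        have hb : LinearIndependent K (fun i => (b i : ι → K)) :=
          b.linearIndependent.map' Λ.subtype (Submodule.ker_subtype Λ)
        let e : Fin (r + 1) → Fin (finrank K Λ) := fun i => ⟨i.1, by
          have := i.2
          omega⟩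
        have he : Function.Injective e := by
          intro i j hij
          have := congrArg Fin.val hij
          exact Fin.ext this
        refine ⟨Submodule.span K (Set.range fun i => (b (e i) : ι → K)), ?_, ?_⟩
        · rw [Submodule.span_le]
          rintro _ ⟨i, rfl⟩
          exact (b (e i)).2
        · have h1 := finrank_span_eq_card (hb.comp e he)
          rw [Fintype.card_fin] at h1
          exact h1
      refine ⟨(ht κ C₀ : ℝ), K, inferInstance, inferInstance, Algebra.id K, inferInstance,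
        inferInstance, bc K C₀, bc_mono hC₀, ?_, ?_⟩
      · rw [finrank_bc, hC₀r]
      · rw [ht_bc h]
        push_cast
        exact le_rfl
    have hbd : BddBelow Y := by
      refine ⟨0, ?_⟩
      rintro y ⟨L, fL, aκL, aKL, tL, dL, C, hCle, hCr, hCht⟩
      have hL : IsFF κ L := IsFF.of_finite (K := K) h
      have h1 : (0 : ℝ) ≤ ht κ C := by exact_mod_cast ht_nonneg hL C
      have h2 : (0 : ℝ) < finrank K L := Nat.cast_pos.mpr finrank_pos
      by_contra hcon
      push Not at hcon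
      nlinarith
    have hstep : ∀ y ∈ Y, ∀ δ : ℝ, 0 < δ → (c * y + ht κ Λ + 2 * δ) / 2 ∈ Y := by
      intro y hy δ hδ
      refine hyp_step hc0 ?_ h (by rw [hΛ]) hy hδ
      intro L _ _ hL Λ' hΛ' ε' hε'
      exact ih L hL Λ' hΛ' ε' hε'
    set y₀ := sInf Y with hy₀
    have hlt : ∀ δ : ℝ, 0 < δ → ∃ y ∈ Y, y < y₀ + δ := fun δ hδ =>
      Real.lt_sInf_add_pos hne hδ
    have hmain : (2 - c) * y₀ ≤ ht κ Λ := by
      refine le_of_forall_pos_le_add fun δ hδ => ?_
      obtain ⟨y, hyY, hy⟩ := hlt (δ / 4) (by positivity)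
      have h1 := csInf_le hbd (hstep y hyY (δ / 4) (by positivity))
      have h2 : c * y ≤ c * (y₀ + δ / 4) := mul_le_mul_of_nonneg_left hy.le hc0
      have h3 : c ≤ 1 := by
        rw [hc]
        have : (0 : ℝ) ≤ 1 / ((r : ℝ) + 1) := by positivity
        linarith
      have h4 : c * (δ / 4) ≤ δ / 4 := by nlinarith
      linarith
    obtain ⟨y, hyY, hy⟩ := hlt ε hε
    refine HypLE.mono ?_ hyY
    have h1 : 2 - c = ((r : ℝ) + 2) / (r + 1) := by
      rw [hc]
      field_simp
      ring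
    have h2 : y₀ ≤ (1 - 1 / (((r + 1 : ℕ) : ℝ) + 1)) * ht κ Λ := by
      have h3 : (1 - 1 / (((r + 1 : ℕ) : ℝ) + 1)) = ((r : ℝ) + 1) / (r + 2) := by
        push_cast
        field_simp
        ring
      rw [h3]
      rw [h1] at hmain
      have h4 : (0 : ℝ) < (r : ℝ) + 2 := by linarith
      have h5 : (0 : ℝ) < (r : ℝ) + 1 := by linarith
      have h6 : ((r : ℝ) + 2) / (r + 1) * y₀ * (((r : ℝ) + 1) / (r + 2)) = y₀ := by
        field_simp
      have h7 := mul_le_mul_of_nonneg_right hmain (show (0 : ℝ) ≤ ((r : ℝ) + 1) / (r + 2) by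
        positivity)
      rw [h6] at h7
      linarith
    linarith

end

end Pool.Agent.Lib.MP_44a246_ntO
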