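import Mathlib
import Pool.Agent.Lib.MP_44a246_ntS.SB2c

/-!
The linear form which belongs to a hyperplane of a subspace.
-/

namespace Pool.Agent.Lib.MP_44a246_ntO

open Pool.Agent.Lib.MP_44a246_nt
open Pool.Agent.Lib.MP_44a246_ntL
open Pool.Agent.Lib.MP_44a246_ntS
open WithZero Module

variable {κ L : Type*} [Field κ] [IsAlgClosed κ] [CharZero κ] [Field L] [Algebra κ L]
  {ι : Type*} [Fintype ι]

/-- the minor of `(a, y)` in the columns `e`, as a linear form in `y` -/
private noncomputable def os5D {ρ : Type*} [Fintype ρ] [DecidableEq ρ] (a : ρ → ι → L)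
    (e : ρ ⊕ Unit → ι) : (ι → L) →ₗ[L] L where
  toFun y := (Matrix.of fun i j => Sum.elim a (fun _ : Unit => y) i (e j)).det
  map_add' y z := by
    have h : ∀ y : ι → L, (Matrix.of fun i j => Sum.elim a (fun _ : Unit => y) i (e j)) =
        (Matrix.of fun i j => Sum.elim a (fun _ : Unit => 0) i (e j)).updateRow (Sum.inr ())
          (fun j => y (e j)) := by
      intro y
      ext i j
      rcases i with i | i
      · rw [Matrix.updateRow_ne (by simp)]
        rfl
      · rw [Matrix.updateRow_self]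
        rfl
    rw [h, h y, h z, ← Matrix.det_updateRow_add]
    rfl
  map_smul' c y := by
    have h : ∀ y : ι → L, (Matrix.of fun i j => Sum.elim a (fun _ : Unit => y) i (e j)) =
        (Matrix.of fun i j => Sum.elim a (fun _ : Unit => 0) i (e j)).updateRow (Sum.inr ())
          (fun j => y (e j)) := by
      intro y
      ext i j
      rcases i with i | i
      · rw [Matrix.updateRow_ne (by simp)]
        rfl
      · rw [Matrix.updateRow_self]
        rfl
    rw [h, h y, RingHom.id_apply, smul_eq_mul, ← Matrix.det_updateRow_smul]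
    rfl

/-- The linear form which belongs to a hyperplane. Proof: `a : Fin r → ι → L` a basis of `C`,
`y₀ ∈ Λ`, `y₀ ∉ C`, `b := Sum.elim a (fun _ : Unit => y₀)` a basis of `Λ`. For columns
`e : Fin r ⊕ Unit → ι` with nonzero minor `δ e` put `l e k := δ e⁻¹ * (minor of (a, k-th unit vector)
in the columns e)`: so `∑ k, l e k * y k = δ e⁻¹ * (minor of (a, y) in the columns e)`, which
vanishes on `C` and is `1` at `y₀`; on `Λ` all `l e` agree. `l := l e₀` for some `e₀`. At a place `w`
choose `e` with `|δ e| = pl w b` (`exists_vmax`), `m := l e`: `|m k| ≤ pl w a / pl w b` (expansion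
along the row of the unit vector: the minors of `a` of size `r`). `τ w := log (pl w a) - log (pl w b)`,
`∑ τ = ht C - ht Λ` (`ht_span`, `pl_support`, `finsum_sub_distrib`). -/
theorem form_of_hyperplane (h : IsFF κ L) {Λ C : Submodule L (ι → L)} (hC : C ≤ Λ)
    (hr : finrank L Λ = finrank L C + 1) :
    ∃ (l : ι → L) (τ : Place κ L → ℤ), (Function.support τ).Finite ∧
      (∑ᶠ w, τ w) = ht κ C - ht κ Λ ∧ (∃ y ∈ Λ, ∑ k, l k * y k ≠ 0) ∧
      ∀ w : Place κ L, ∃ m : ι → L, (∀ k, w.1 (m k) ≤ exp (τ w)) ∧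
        ∀ y ∈ Λ, ∑ k, m k * y k = ∑ k, l k * y k := by
  classical
  obtain ⟨a, ha, haC⟩ := SB2b_basis C
  have hlt : ¬ Λ ≤ C := by
    intro h0
    have := Submodule.finrank_mono h0
    omega
  obtain ⟨y₀, hy₀Λ, hy₀C⟩ := SetLike.not_le_iff_exists.1 hlt
  have hy0 : y₀ ≠ 0 := by
    rintro rfl
    exact hy₀C C.zero_mem
  let b : Fin (finrank L C) ⊕ Unit → ι → L := Sum.elim a (fun _ => y₀)
  have hbi : LinearIndependent L b := by
    refine LinearIndependent.sum_type ha (linearIndependent_unique_iff.mpr hy0) ?_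
    rw [haC, Set.range_const, Submodule.disjoint_span_singleton' hy0]
    exact hy₀C
  have hbs : Submodule.span L (Set.range b) = Λ := by
    apply Submodule.eq_of_le_of_finrank_eq
    · rw [Submodule.span_le]
      rintro _ ⟨i, rfl⟩
      rcases i with i | i
      · apply hC
        change a i ∈ C
        have h1 : a i ∈ Submodule.span L (Set.range a) := Submodule.subset_span ⟨i, rfl⟩
        rwa [haC] at h1
      · exact hy₀Λ
    · rw [finrank_span_eq_card hbi, hr]
      simp
  let D : (Fin (finrank L C) ⊕ Unit → ι) → (ι → L) →ₗ[L] L := fun e => os5D a e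
  have hDC : ∀ e, ∀ y ∈ C, D e y = 0 := by
    intro e y hy
    rw [← haC] at hy
    have hle : Submodule.span L (Set.range a) ≤ LinearMap.ker (D e) := by
      rw [Submodule.span_le]
      rintro _ ⟨i, rfl⟩
      change (Matrix.of fun i' j => Sum.elim a (fun _ : Unit => a i) i' (e j)).det = 0
      exact Matrix.det_zero_of_row_eq (i := Sum.inl i) (j := Sum.inr ()) (by simp)
        (by funext j; rfl)
    exact hle hy
  let E : ι → ι → L := fun k j => if k = j then 1 else 0
  let l : (Fin (finrank L C) ⊕ Unit → ι) → ι → L := fun e k => (D e y₀)⁻¹ * D e (E k)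
  have hl : ∀ e y, ∑ k, l e k * y k = (D e y₀)⁻¹ * D e y := by
    intro e y
    have h1 : D e y = ∑ k, y k • D e (E k) := LinearMap.pi_apply_eq_sum_univ (D e) y
    rw [h1, Finset.mul_sum]
    refine Finset.sum_congr rfl fun k _ => ?_
    simp only [l, smul_eq_mul]
    ring
  have hagree : ∀ e e', D e y₀ ≠ 0 → D e' y₀ ≠ 0 → ∀ y ∈ Λ,
      ∑ k, l e k * y k = ∑ k, l e' k * y k := by
    intro e e' he he' y hy
    rw [hl, hl]
    let f : (ι → L) →ₗ[L] L := (D e y₀)⁻¹ • D e - (D e' y₀)⁻¹ • D e'
    have hle : Submodule.span L (Set.range b) ≤ LinearMap.ker f := by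
      rw [Submodule.span_le]
      rintro _ ⟨i, rfl⟩
      rcases i with i | i
      · have hi : a i ∈ C := by
          have h1 : a i ∈ Submodule.span L (Set.range a) := Submodule.subset_span ⟨i, rfl⟩
          rwa [haC] at h1
        change (D e y₀)⁻¹ * D e (a i) - (D e' y₀)⁻¹ * D e' (a i) = 0
        rw [hDC e _ hi, hDC e' _ hi, mul_zero, mul_zero, sub_zero]
      · change (D e y₀)⁻¹ * D e y₀ - (D e' y₀)⁻¹ * D e' y₀ = 0
        rw [inv_mul_cancel₀ he, inv_mul_cancel₀ he', sub_self]
    rw [← hbs] at hy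
    have h1 : (D e y₀)⁻¹ * D e y - (D e' y₀)⁻¹ * D e' y = 0 := hle hy
    exact sub_eq_zero.1 h1
  have hne : (fun e : Fin (finrank L C) ⊕ Unit → ι => (Matrix.of fun i j => b i (e j)).det) ≠ 0 := by
    intro h0
    refine pl_ne_zero (1 : Valuation L ℤᵐ⁰) hbi ?_
    unfold pl
    rw [h0, vmax_eq_zero_iff]
  obtain ⟨e₀, he₀, -, -⟩ := exists_vmax (1 : Valuation L ℤᵐ⁰) hne
  refine ⟨l e₀, fun w => log (pl w.1 a) - log (pl w.1 b), ?_, ?_, ⟨y₀, hy₀Λ, ?_⟩, ?_⟩
  · exact ((pl_support h ha).union (pl_support h hbi)).subset (Function.support_sub _ _)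
  · rw [finsum_sub_distrib (pl_support h ha) (pl_support h hbi), ← ht_span h ha, ← ht_span h hbi,
      haC, hbs]
  · rw [hl]
    exact mul_ne_zero (inv_ne_zero he₀) he₀
  · intro w
    obtain ⟨e, he, hemax, -⟩ := exists_vmax w.1 hne
    refine ⟨l e, fun k => ?_, fun y hy => hagree e e₀ he he₀ y hy⟩
    have h1 : w.1 (D e (E k)) ≤ pl w.1 a := by
      have h2 : w.1 (D e (E k)) ≤ pl w.1 (Sum.elim a (fun _ : Unit => E k)) :=
        le_vmax w.1 (fun e : Fin (finrank L C) ⊕ Unit → ι =>
          (Matrix.of fun i j => Sum.elim a (fun _ : Unit => E k) i (e j)).det) e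
      have h3 := pl_sum_le w.1 a (fun _ : Unit => E k)
      have h4 : pl w.1 (fun _ : Unit => E k) ≤ 1 := by
        refine pl_le_one w.1 fun _ j => ?_
        simp only [E]
        split_ifs
        · rw [map_one]
        · rw [map_zero]; exact zero_le
      calc w.1 (D e (E k)) ≤ pl w.1 a * pl w.1 (fun _ : Unit => E k) := h2.trans h3
        _ ≤ pl w.1 a * 1 := mul_le_mul_right h4 _
        _ = pl w.1 a := mul_one _
    have h5 : pl w.1 b = w.1 (D e y₀) := hemax
    have h6 : (w.1 (D e y₀)) ≠ 0 := (w.1.ne_zero_iff).mpr he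
    simp only [l]
    rw [map_mul, map_inv₀, exp_sub, exp_log (pl_ne_zero w.1 ha), exp_log (pl_ne_zero w.1 hbi), h5,
      div_eq_inv_mul]
    exact mul_le_mul_right h1 _

end Pool.Agent.Lib.MP_44a246_ntO
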