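import Mathlib
import Pool.Agent.Lib.MP_44a246_ntO.OS4
import Pool.Agent.Lib.MP_44a246_ntO.OS5

/-!
The absolute Siegel lemma for linear forms, over Galois extensions.
-/

namespace Pool.Agent.Lib.MP_44a246_ntO

open Pool.Agent.Lib.MP_44a246_nt
open Pool.Agent.Lib.MP_44a246_ntL
open Pool.Agent.Lib.MP_44a246_ntS
open WithZero Module

universe u

/-- a finite extension in characteristic zero is contained in a finite Galois extension -/
private theorem exists_galois_over {K L : Type u} [Field K] [CharZero K] [Field L] [Algebra K L]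
    [FiniteDimensional K L] :
    ∃ (M : Type u) (_ : Field M) (_ : Algebra K M) (_ : Algebra L M) (_ : IsScalarTower K L M)
      (_ : FiniteDimensional K M), IsGalois K M := by
  let M := IntermediateField.normalClosure K L (AlgebraicClosure L)
  have hn : Normal K M := inferInstance
  have hd : FiniteDimensional K M := inferInstance
  have hs : Algebra.IsSeparable K M := inferInstance
  exact ⟨M, inferInstance, inferInstance, inferInstance, inferInstance, hd, ⟨⟩⟩

private theorem absolute_siegel_aux {κ : Type*} {K L M : Type u} [Field κ] [IsAlgClosed κ]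
    [CharZero κ] [Field K] [Algebra κ K] {ι : Type*} [Fintype ι] (h : IsFF κ K)
    [Field L] [Algebra κ L] [Algebra K L] [IsScalarTower κ K L] [FiniteDimensional K L]
    [Field M] [Algebra κ M] [Algebra K M] [Algebra L M] [IsScalarTower κ K M]
    [IsScalarTower κ L M] [IsScalarTower K L M] [FiniteDimensional K M] [FiniteDimensional L M]
    {Λ : Submodule K (ι → K)} {a : ℝ} {r : ℕ} (hr : finrank K Λ = r + 1)
    {C : Submodule L (ι → L)} (hCle : C ≤ bc L Λ) (hCr : finrank L C = r)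
    (hCht : (ht κ C : ℝ) ≤ finrank K L * (ht κ Λ - a)) :
    ∃ (l : ι → M) (τ : Place κ M → ℤ) (b : ℤ),
      (Function.support τ).Finite ∧ (∑ᶠ w, τ w) = -b ∧ finrank K M * a ≤ b ∧
      (∃ y ∈ bc M Λ, ∑ k, l k * y k ≠ 0) ∧
      ∀ w : Place κ M, ∃ m : ι → M, (∀ k, w.1 (m k) ≤ exp (τ w)) ∧
        ∀ y ∈ bc M Λ, ∑ k, m k * y k = ∑ k, l k * y k := by
  have hL : IsFF κ L := h.of_finite
  have hM : IsFF κ M := h.of_finite
  have hle : bc M C ≤ bc M Λ := by
    have h1 := bc_mono (L := M) hCle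
    rwa [bc_bc] at h1
  have hfr : finrank M (bc M Λ) = finrank M (bc M C) + 1 := by
    rw [finrank_bc, finrank_bc, hr, hCr]
  obtain ⟨l, τ, hτ, hsum, hy, hm⟩ := form_of_hyperplane hM hle hfr
  refine ⟨l, τ, ht κ (bc M Λ) - ht κ (bc M C), hτ, by rw [hsum]; ring, ?_, hy, hm⟩
  rw [ht_bc h, ht_bc hL]
  push_cast
  have h1 : (finrank K M : ℝ) = finrank K L * finrank L M := by
    rw [← Module.finrank_mul_finrank K L M]
    push_cast
    ring
  have h2 : (0 : ℝ) ≤ finrank L M := Nat.cast_nonneg _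
  have h3 := mul_le_mul_of_nonneg_left hCht h2
  rw [h1]
  linarith

/-- **The absolute Siegel lemma for linear forms.** Proof: `r := finrank Λ ≥ 1`; `hyperplane (r - 1)`
with `ε = ht Λ / r - a > 0` gives `L / K` and `C ≤ bc L Λ`, `finrank C + 1 = r`,
`ht C ≤ [L:K] (ht Λ - a)`. Replace `L` by its normal closure `M` over `K` (e.g. in an algebraic
closure of `L`; separable: characteristic zero), `C` by `bc M C` (`ht_bc`, `bc_bc`).
`form_of_hyperplane`: `∑ τ = ht C - ht (bc M Λ) = - b`, `b ≥ [M:K] a`. -/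
theorem absolute_siegel {κ : Type*} {K : Type u} [Field κ] [IsAlgClosed κ] [CharZero κ] [Field K]
    [Algebra κ K] {ι : Type*} [Fintype ι] (h : IsFF κ K) {Λ : Submodule K (ι → K)} (hΛ : Λ ≠ ⊥)
    {a : ℝ} (ha : a * finrank K Λ < ht κ Λ) :
    ∃ (L : Type u) (_ : Field L) (_ : Algebra κ L) (_ : Algebra K L) (_ : IsScalarTower κ K L)
      (_ : FiniteDimensional K L) (_ : IsGalois K L) (l : ι → L) (τ : Place κ L → ℤ) (b : ℤ),
      (Function.support τ).Finite ∧ (∑ᶠ w, τ w) = -b ∧ finrank K L * a ≤ b ∧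
      (∃ y ∈ bc L Λ, ∑ k, l k * y k ≠ 0) ∧
      ∀ w : Place κ L, ∃ m : ι → L, (∀ k, w.1 (m k) ≤ exp (τ w)) ∧
        ∀ y ∈ bc L Λ, ∑ k, m k * y k = ∑ k, l k * y k := by
  have : CharZero K := charZero_of_injective_algebraMap (algebraMap κ K).injective
  obtain ⟨r, hr⟩ : ∃ r, finrank K Λ = r + 1 := by
    refine Nat.exists_eq_succ_of_ne_zero fun h0 => hΛ ?_
    exact Submodule.finrank_eq_zero.1 h0
  have hr0 : (0 : ℝ) < (r : ℝ) + 1 := by positivity
  have hε : (0 : ℝ) < ht κ Λ / ((r : ℝ) + 1) - a := by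
    rw [sub_pos, lt_div_iff₀ hr0]
    rw [hr] at ha
    push_cast at ha
    exact ha
  obtain ⟨L, fL, aκL, aKL, tL, dL, C, hCle, hCr, hCht⟩ := hyperplane r K h Λ hr _ hε
  have hCht' : (ht κ C : ℝ) ≤ finrank K L * (ht κ Λ - a) := by
    refine hCht.trans (le_of_eq ?_)
    congr 1
    ring
  obtain ⟨M, fM, aKM, aLM, tM, dM, gM⟩ := exists_galois_over (K := K) (L := L)
  let aκM : Algebra κ M := ((algebraMap K M).comp (algebraMap κ K)).toAlgebra
  have t1 : IsScalarTower κ K M := IsScalarTower.of_algebraMap_eq fun _ => rfl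
  have t2 : IsScalarTower κ L M := IsScalarTower.of_algebraMap_eq fun x => by
    rw [IsScalarTower.algebraMap_apply κ K L, ← IsScalarTower.algebraMap_apply K L M]
    rfl
  have d2 : FiniteDimensional L M := FiniteDimensional.right K L M
  obtain ⟨l, τ, b, H⟩ := absolute_siegel_aux (M := M) h hr hCle hCr hCht'
  exact ⟨M, fM, aκM, aKM, t1, dM, gM, l, τ, b, H⟩

end Pool.Agent.Lib.MP_44a246_ntO
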