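import Mathlib
import Pool.Agent.Lib.MP_44a246_ntO.OS6
import Pool.Agent.Lib.MP_44a246_ntO.OS7a
import Pool.Agent.Lib.MP_44a246_ntO.OS7b
import Pool.Agent.Lib.MP_44a246_ntO.O08b
import Pool.Agent.Lib.MP_44a246_ntO.O08c

/-!
The key lemma, without the genus.
-/

namespace Pool.Agent.Lib.MP_44a246_ntO

open Pool.Agent.Lib.MP_44a246_nt
open Pool.Agent.Lib.MP_44a246_ntL
open Pool.Agent.Lib.MP_44a246_ntS
open Pool.Agent.Lib.MP_44a246_ntF
open WithZero Module

variable {κ K : Type*} [Field κ] [IsAlgClosed κ] [CharZero κ] [Field K] [Algebra κ K] {n d : ℕ}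

/-- **The key lemma (P3), without the genus**, `j + 1` contractions. Proof: `absolute_siegel` for
`spn W` (not zero: `mem_spn`) gives a Galois extension `L` and `l`, `τ`, `b ≥ [L:K] a`. Over `L`:
`x' := algebraMap ∘ x`, `W' := bc L W`, `HasSl κ ([L:K] t) (xm _ x') W'` (`HasSl_bc`, `xm_am`), slopes
of the `E ∋ x'` at most `[L:K] M` (`slope_bc`), `spn W' = bc L (spn W)` (`spn_bc`). `form_ne_zero`
and `key_induction` (`Λ = spn W'`, `le_Sd_spn`, `j + 1` contractions, the number `b`):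
`(d + 1 + (j + 1)) height x' - ht W' ≤ (j + 1) (height x' - b)`; `IsFF.height_ext`, `ht_bc`, divide
by `[L:K] > 0`. (`d + 1 + j + 1` and `d + 1 + (j + 1)` are definitionally equal: `show` / `change`.) -/
theorem key_lemma_abs (h : IsFF κ K) {x : Fin n → K} (hx : x ≠ 0) {M t : ℝ}
    (hM : ∀ E : Submodule K (Fin n → K), x ∈ E →
      (height κ x : ℝ) - ht κ E ≤ M * ((finrank K E : ℝ) - 1)) {j : ℕ}
    {W : Submodule K (EX n (d + 1 + j + 1) → K)} (hW : HasSl κ t (xm (d + 1 + j + 1) x) W)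
    {a : ℝ} (ha : 0 ≤ a) (hta : 0 < t + a) (hj : M < t + (j + 1) * a)
    (hsz : a * finrank K (spn W) < ht κ (spn W)) :
    ((d + 1 + j + 1 : ℕ) : ℝ) * height κ x - ht κ W ≤ (j + 1) * ((height κ x : ℝ) - a) := by
  have hxs : x ∈ spn W := mem_spn hx hW.mem
  have hne : spn W ≠ ⊥ := by
    intro h0
    rw [h0, Submodule.mem_bot] at hxs
    exact hx hxs
  obtain ⟨L, _, _, _, _, _, _, l, τ, b, hτ, hsum, hb, hl, hm⟩ := absolute_siegel h hne hsz
  have hL : IsFF κ L := h.of_finite
  have hN : (0 : ℝ) < finrank K L := by exact_mod_cast finrank_pos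
  have hx' : (fun k => algebraMap K L (x k)) ≠ 0 := by
    obtain ⟨k, hk⟩ := Function.ne_iff.1 hx
    refine Function.ne_iff.2 ⟨k, fun h0 => hk ?_⟩
    exact (algebraMap K L).injective (by simpa using h0)
  have hW' : HasSl κ (finrank K L * t) (xm (d + 1 + j + 1) fun k => algebraMap K L (x k))
      (bc L W) := by
    rw [xm_am]
    exact HasSl_bc h hW
  have hb0 : (0 : ℝ) ≤ b := le_trans (mul_nonneg hN.le ha) hb
  have hb1 : 0 ≤ b := by exact_mod_cast hb0
  have hsp : spn (bc L W) = bc L (spn W) := spn_bc W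
  rw [← hsp] at hl hm
  have htb : 0 < (finrank K L * t : ℝ) + b := by
    have h1 : 0 < (finrank K L : ℝ) * (t + a) := mul_pos hN hta
    nlinarith
  have hlx := form_ne_zero hL htb hW' hτ hsum hl hm
  have hMt : (finrank K L : ℝ) * M < finrank K L * t + ((j + 1 : ℕ) : ℝ) * b := by
    have h1 : (finrank K L : ℝ) * M < finrank K L * (t + (j + 1) * a) :=
      mul_lt_mul_of_pos_left hj hN
    have h2 : ((j : ℝ) + 1) * (finrank K L * a) ≤ (j + 1) * b :=
      mul_le_mul_of_nonneg_left hb (by positivity)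
    push_cast
    nlinarith
  have key := key_induction hL hx' (M := finrank K L * M)
    (fun E hE => slope_bc h hx hM hE) hb1 hτ hsum hlx hm (j + 1) (finrank K L * t)
    (bc L W) (le_Sd_spn (bc L W)) hW' hMt
  rw [hL.height_ext hx, ht_bc h] at key
  push_cast at key ⊢
  have h3 : ((j : ℝ) + 1) * (finrank K L * a) ≤ (j + 1) * b :=
      mul_le_mul_of_nonneg_left hb (by positivity)
  refine le_of_mul_le_mul_left ?_ hN
  nlinarith

end Pool.Agent.Lib.MP_44a246_ntO
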