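import Mathlib
import Pool.Agent.Lib.MP_44a246_ntO.O07
import Pool.Agent.Lib.MP_44a246_ntO.OS7

/-!
Lemma P for one block, without the genus, sharp numbers.
-/

namespace Pool.Agent.Lib.MP_44a246_ntO

open Pool.Agent.Lib.MP_44a246_nt
open Pool.Agent.Lib.MP_44a246_ntL
open Pool.Agent.Lib.MP_44a246_ntS
open Pool.Agent.Lib.MP_44a246_ntF
open WithZero Module

variable {κ K : Type*} [Field κ] [IsAlgClosed κ] [CharZero κ] [Field K] [Algebra κ K] {n d : ℕ}

/-- Lemma P, one block (compare `spn_height` in O10a). Let `H = height x`, `t = (9/20) M`,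
`Λ = spn W`, `R = finrank Λ ≥ 1`, `η = ht Λ`. `hasSl_spn`, `HasSl.le (span {x})`:
`t (R - 1) ≤ H - η` (second claim: `η ≥ 0`). Suppose `20 η > H`. `a := (49/50) η / R > 0`,
`a R < η`. Wanted `M < t + 35 a`, i.e. `(11/9) t < 35 a = (343/10) η / R`: `(11/9) t R ≤
(11/9) (t + H - η) ≤ (11/9) (9 H / 20 + H - η) = (319/180) H - (11/9) η < (343/10) η` because
`20 η > H`. `key_lemma_abs` with `j = 34`: `cost W ≤ 35 (H - a)`, and `35 a > E`:
`35 a ≥ 35 (49/50) (H / 20) / R`, `R ≤ n`, `n E ≤ H`, `H > 0` (`35 * 49 / 1000 > 1`). Contradiction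
to `hcost`. -/
theorem spn_height_abs (h : IsFF κ K) {x : Fin n → K} (hx : x ≠ 0) {M : ℝ} (hM0 : 0 < M)
    (hMH : M ≤ height κ x)
    (hM : ∀ E : Submodule K (Fin n → K), x ∈ E →
      (height κ x : ℝ) - ht κ E ≤ M * ((finrank K E : ℝ) - 1))
    {W : Submodule K (EX n (d + 1 + 34 + 1) → K)}
    (hW : HasSl κ (9 / 20 * M) (xm (d + 1 + 34 + 1) x) W) {E : ℝ} (hE : 0 ≤ E)
    (hEH : n * E ≤ height κ x)
    (hcost : 35 * (height κ x : ℝ) - E ≤ ((d + 36 : ℕ) : ℝ) * height κ x - ht κ W) :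
    20 * ht κ (spn W) ≤ height κ x ∧
      9 / 20 * M * ((finrank K (spn W) : ℝ) - 1) ≤ height κ x := by
  have hΛ := hasSl_spn (d := d + 1 + 34) h hx hW
  obtain ⟨R, hR⟩ : ∃ R : ℕ, R = finrank K (spn (d := d + 1 + 34) W) := ⟨_, rfl⟩
  obtain ⟨η, hη⟩ : ∃ η : ℤ, η = ht κ (spn (d := d + 1 + 34) W) := ⟨_, rfl⟩
  obtain ⟨H, hH⟩ : ∃ H : ℤ, H = height κ x := ⟨_, rfl⟩
  have hη0 : 0 ≤ η := by rw [hη]; exact ht_nonneg h _
  have hxs : x ∈ spn (d := d + 1 + 34) W := mem_spn (d := d + 1 + 34) hx hW.mem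
  have hR1 : 1 ≤ R := by
    rw [hR]
    have h1 : Submodule.span K {x} ≤ spn (d := d + 1 + 34) W := by
      rw [Submodule.span_singleton_le_iff_mem]
      exact hxs
    calc 1 = finrank K (Submodule.span K {x}) := (finrank_span_singleton hx).symm
      _ ≤ _ := Submodule.finrank_mono h1
  have hRn : R ≤ n := by
    rw [hR]
    calc finrank K (spn (d := d + 1 + 34) W) ≤ finrank K (Fin n → K) := Submodule.finrank_le _
      _ = n := by simp
  have hslope : 9 / 20 * M * ((R : ℝ) - 1) ≤ (H : ℝ) - η := by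
    have h1 := hΛ.le (Submodule.span K {x}) (by
      rw [Submodule.span_singleton_le_iff_mem]
      exact hxs) (Submodule.mem_span_singleton_self x)
    rw [finrank_span_singleton hx, ht_single h hx, Nat.cast_one, ← hR, ← hη, ← hH] at h1
    exact h1
  have hηR : (0 : ℝ) ≤ (η : ℝ) := by exact_mod_cast hη0
  rw [← hH] at hMH hEH hcost
  rw [← hR, ← hη, ← hH]
  refine ⟨?_, by linarith⟩
  by_contra hcon
  rw [not_le] at hcon
  have hcon' : (H : ℝ) < 20 * (η : ℝ) := by exact_mod_cast hcon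
  have hη1 : (0 : ℝ) < (η : ℝ) := by linarith
  have hR1' : (1 : ℝ) ≤ (R : ℝ) := by exact_mod_cast hR1
  have hR0 : (0 : ℝ) < (R : ℝ) := by linarith
  have hRn' : (R : ℝ) ≤ (n : ℝ) := by exact_mod_cast hRn
  obtain ⟨a, ha⟩ : ∃ a : ℝ, a = 49 / 50 * (η : ℝ) / R := ⟨_, rfl⟩
  have haR : a * R = 49 / 50 * (η : ℝ) := by
    rw [ha]
    field_simp
  have ha0 : 0 < a := by
    rw [ha]
    positivity
  have hj : M < 9 / 20 * M + (((34 : ℕ) : ℝ) + 1) * a := by
    have h1 : M * R < (9 / 20 * M + (((34 : ℕ) : ℝ) + 1) * a) * R := by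
      have h2 : (9 / 20 * M + (((34 : ℕ) : ℝ) + 1) * a) * R =
          9 / 20 * (M * R) + 35 * (a * R) := by
        push_cast
        ring
      rw [h2, haR]
      nlinarith
    exact lt_of_mul_lt_mul_right h1 hR0.le
  have hkey := key_lemma_abs (d := d) h hx hM (j := 34) hW ha0.le (by positivity) hj (by
    rw [← hR, ← hη, haR]
    linarith)
  rw [← hH] at hkey
  have e1 : ((d + 1 + 34 + 1 : ℕ) : ℝ) = ((d + 36 : ℕ) : ℝ) := by
    push_cast
    ring
  rw [e1] at hkey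
  have h3 : 35 * a ≤ E := by
    push_cast at hkey hcost
    linarith
  have h4 : 35 * (a * R) ≤ E * R := by
    have := mul_le_mul_of_nonneg_right h3 hR0.le
    linarith
  have h5 : E * R ≤ H := by
    have := mul_le_mul_of_nonneg_left hRn' hE
    linarith
  rw [haR] at h4
  linarith

end Pool.Agent.Lib.MP_44a246_ntO
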