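import Mathlib
import Pool.Agent.Lib.MP_44a246_ntO.O10
import Pool.Agent.Lib.MP_44a246_ntO.OS8

/-!
Lemma P, without the genus, sharp numbers.
-/

namespace Pool.Agent.Lib.MP_44a246_ntO

open Pool.Agent.Lib.MP_44a246_nt
open Pool.Agent.Lib.MP_44a246_ntL
open Pool.Agent.Lib.MP_44a246_ntS
open Pool.Agent.Lib.MP_44a246_ntF
open WithZero Module

variable {κ K : Type*} [Field κ] [IsAlgClosed κ] [CharZero κ] [Field K] [Algebra κ K] {n p : ℕ}

theorem block_abs (h : IsFF κ K) {x : Fin n → K} (hx : x ≠ 0) {M : ℝ} (hM0 : 0 < M)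
    (hMH : M ≤ height κ x)
    (hM : ∀ E : Submodule K (Fin n → K), x ∈ E →
      (height κ x : ℝ) - ht κ E ≤ M * ((finrank K E : ℝ) - 1)) {D : ℕ} (hD : 36 ≤ D)
    {U : Submodule K (EX n D → K)} (hU : xm D x ∈ U) {E : ℝ} (hE : 0 ≤ E)
    (hEH : n * E ≤ height κ x)
    (hcost : 35 * (height κ x : ℝ) - E ≤
      (D : ℝ) * height κ x - ht κ U - 9 / 20 * M * ((finrank K U : ℝ) - 1)) :
    ∃ P : Submodule K (Fin n → K), x ∈ P ∧ 20 * ht κ P ≤ height κ x ∧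
      9 / 20 * M * ((finrank K P : ℝ) - 1) ≤ height κ x := by
  obtain ⟨e, rfl⟩ : ∃ e, D = e + 1 + 34 + 1 := ⟨D - 36, by omega⟩
  obtain ⟨W, hWU, hW, hle⟩ := exists_hasSl h (9 / 20 * M) hU
  have h1 : (1 : ℝ) ≤ finrank K W := by
    exact_mod_cast one_le_finrank_aux (xm_ne_zero (d := e + 1 + 34 + 1) hx) hW.mem
  have h2 : 0 ≤ 9 / 20 * M * ((finrank K W : ℝ) - 1) :=
    mul_nonneg (by linarith) (by linarith)
  have h3 := spn_height_abs h hx hM0 hMH hM hW hE hEH (by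
    have e1 : ((e + 36 : ℕ) : ℝ) = ((e + 1 + 34 + 1 : ℕ) : ℝ) := by push_cast; ring
    rw [e1]
    nlinarith)
  exact ⟨spn W, mem_spn hx hW.mem, h3.1, h3.2⟩

/-- **Lemma P, without the genus** (compare the proof of `lemmaP` in O10). Let `H = height x > 0`.
`exists_slope` gives `E₁`, `M`, `p₁ = finrank E₁ - 1 ≥ 1`, `M p₁ = H - ht E₁`.
(0) `PairHyp` for `span {x}` and `t = M`, `cost_le_aux`: `k H - E ≤ M (r + c)`; so `M > 0`, `M ≤ H`,
`r M ≥ (k - 1 - c) H ≥ 10 H` (`E ≤ n E ≤ H`, `c + 11 ≤ k`).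
(1) `PairHyp` for `E₁`, `t = (9/20) M`, `exists_hasSl` inside `U` gives `W` in the block `j` with
`HasSl` and `ρ cost W ≥ (k - p₁) H + r M p₁ - (9/20) M ((p₁ + 1) r + c) - E ≥
k H - (9/20) c H - E + p₁ (r M / 10 - H) ≥ 35 ρ H - E` (`p₁ + 1 ≤ 2 p₁`, `9 c + 700 ρ ≤ 20 k`). So
`cost W ≥ 35 H - E` (`ρ ≥ 1`, `E ≥ 0`).
(2) `spn_height_abs`, `P := spn W` (`d j = d' + 1 + 34 + 1`): `20 ht P ≤ H`,
`(9/20) M (finrank P - 1) ≤ H`; with (0): `9 (k - 1) H (finrank P - 1) ≤ 9 M (r + c) (finrank P - 1)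
≤ 20 (r + c) H`. -/
theorem lemmaP_abs (h : IsFF κ K) (hn : 2 ≤ n) {x : Fin n → K} (hx : x ≠ 0) {d : Fin p → ℕ}
    (hd : ∀ j, 36 ≤ d j) {ρ r c k : ℕ} (hρ : 1 ≤ ρ) {E : ℝ} (hE : 0 ≤ E)
    (hP : PairHyp κ x d ρ r c k E) (hk : c + 11 ≤ k) (hk2 : 9 * c + 700 * ρ ≤ 20 * k)
    (hEH : n * E ≤ height κ x) (hH : 0 < height κ x) :
    ∃ P : Submodule K (Fin n → K), x ∈ P ∧ 20 * ht κ P ≤ height κ x ∧
      9 * (k - 1 : ℤ) * ((finrank K P : ℤ) - 1) ≤ 20 * (r + c) := by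
  obtain ⟨E₁, M, hxE, hE2, hEM, hM⟩ := exists_slope h hx (by rw [Fintype.card_fin]; exact hn)
  have hHR : (0 : ℝ) < height κ x := by exact_mod_cast hH
  have hr0 : (0 : ℝ) ≤ r := Nat.cast_nonneg r
  have hc0 : (0 : ℝ) ≤ c := Nat.cast_nonneg c
  have hkc : (c : ℝ) + 11 ≤ k := by exact_mod_cast hk
  have hk2R : (9 : ℝ) * c + 700 * ρ ≤ 20 * k := by exact_mod_cast hk2
  have hρR : (1 : ℝ) ≤ ρ := by exact_mod_cast hρ
  have hE2R : (2 : ℝ) ≤ finrank K E₁ := by exact_mod_cast hE2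
  have hE1ht : (0 : ℝ) ≤ ht κ E₁ := by exact_mod_cast ht_nonneg h E₁
  have hnR : (2 : ℝ) ≤ n := by exact_mod_cast hn
  have hEH1 : E ≤ height κ x := by nlinarith
  -- `M > 0`
  have h0 : ∀ t : ℝ, 0 ≤ t → M ≤ t → (k : ℝ) * height κ x - E ≤ t * (r + c) := by
    intro t ht0 hMt
    obtain ⟨j, U, hU, hle⟩ := hP (K ∙ x) (Submodule.mem_span_singleton_self x) t ht0
    have h1 := cost_le_aux h hx hM (by have := hd j; omega : 1 ≤ d j) hU
    have h2 : (1 : ℝ) ≤ finrank K U := by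
      exact_mod_cast one_le_finrank_aux (xm_ne_zero (d := d j) hx) hU
    have h3 : ht κ (K ∙ x) = height κ x := ht_single h hx
    rw [finrank_span_singleton hx, h3] at hle
    have h4 : (d j : ℝ) * height κ x - ht κ U - t * ((finrank K U : ℝ) - 1) ≤ 0 := by
      nlinarith
    have h5 : (ρ : ℝ) * ((d j : ℝ) * height κ x - ht κ U - t * ((finrank K U : ℝ) - 1)) ≤ 0 :=
      mul_nonpos_of_nonneg_of_nonpos (by linarith) h4
    push_cast at hle
    nlinarith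
  have hM0 : 0 < M := by
    by_contra hM0
    have h1 := h0 0 le_rfl (not_lt.1 hM0)
    nlinarith
  have h01 := h0 M hM0.le le_rfl
  have hMH : M ≤ height κ x := by
    have h1 : M * 1 ≤ M * ((finrank K E₁ : ℝ) - 1) :=
      mul_le_mul_of_nonneg_left (by linarith) hM0.le
    linarith
  obtain ⟨j, U, hU, hle⟩ := hP E₁ hxE (9 / 20 * M) (by linarith)
  have hcM : (c : ℝ) * M ≤ c * height κ x := mul_le_mul_of_nonneg_left hMH hc0
  have hrM : 10 * (height κ x : ℝ) ≤ r * M := by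
    have h2 : (11 : ℝ) * height κ x ≤ (k - c) * height κ x :=
      mul_le_mul_of_nonneg_right (by linarith) hHR.le
    nlinarith
  have hcost : 35 * (height κ x : ℝ) - E ≤
      (d j : ℝ) * height κ x - ht κ U - 9 / 20 * M * ((finrank K U : ℝ) - 1) := by
    have h2 : 0 ≤ ((finrank K E₁ : ℝ) - 1) * (r * M / 10 - height κ x) :=
      mul_nonneg (by linarith) (by linarith)
    have h3 : 0 ≤ ((finrank K E₁ : ℝ) - 2) * (M * r) :=
      mul_nonneg (by linarith) (mul_nonneg hM0.le hr0)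
    have h4 : (35 * ρ : ℝ) * height κ x ≤ (k - 9 * c / 20) * height κ x :=
      mul_le_mul_of_nonneg_right (by linarith) hHR.le
    have h5 : (35 * ρ : ℝ) * (height κ x : ℝ) - E ≤
        ρ * ((d j : ℝ) * height κ x - ht κ U - 9 / 20 * M * ((finrank K U : ℝ) - 1)) := by
      refine le_trans ?_ hle
      nlinarith
    have h7 : E ≤ ρ * E := by nlinarith
    have h6 : (ρ : ℝ) * (35 * (height κ x : ℝ) - E) ≤
        ρ * ((d j : ℝ) * height κ x - ht κ U - 9 / 20 * M * ((finrank K U : ℝ) - 1)) := by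
      linarith
    exact le_of_mul_le_mul_left h6 (by linarith)
  obtain ⟨P, hxP, hP1, hP2⟩ := block_abs h hx hM0 hMH hM (hd j) hU hE hEH hcost
  refine ⟨P, hxP, hP1, ?_⟩
  have hP3 : (1 : ℝ) ≤ finrank K P := by exact_mod_cast one_le_finrank_aux hx hxP
  have h1 : ((k : ℝ) - 1) * height κ x ≤ M * (r + c) := by nlinarith
  have h2 : ((k : ℝ) - 1) * height κ x * ((finrank K P : ℝ) - 1) ≤
      M * (r + c) * ((finrank K P : ℝ) - 1) := mul_le_mul_of_nonneg_right h1 (by linarith)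
  have h3 : (r + c : ℝ) * (9 / 20 * M * ((finrank K P : ℝ) - 1)) ≤ (r + c) * height κ x :=
    mul_le_mul_of_nonneg_left hP2 (by linarith)
  have h4 : (9 * ((k : ℝ) - 1) * ((finrank K P : ℝ) - 1)) * height κ x ≤
      (20 * (r + c)) * height κ x := by nlinarith
  have h5 := le_of_mul_le_mul_right h4 hHR
  exact_mod_cast h5

end Pool.Agent.Lib.MP_44a246_ntO
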