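import Mathlib
import Pool.Agent.Lib.MP_44a246_ntR.GR4

/-!
The equality in the theorem of Riemann for divisors of large degree; approximation.
-/

namespace Pool.Agent.Lib.MP_44a246_ntO

open Pool.Agent.Lib.MP_44a246_nt
open Pool.Agent.Lib.MP_44a246_ntL
open Pool.Agent.Lib.MP_44a246_ntR
open WithZero Module

variable {κ L : Type*} [Field κ] [IsAlgClosed κ] [CharZero κ] [Field L] [Algebra κ L]

/-- Equality for divisors of large degree. Proof: the integers `a D := finrank (rr D) - divDeg D`
are bounded below by `1 - genus` (`genus_spec`), let `a D₀ = 1 - g` be the smallest one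
(`Int` well-foundedness / `Nat.find`). `N := divDeg D₀ + genus`. If `divDeg D ≥ N` then
`finrank (rr (D - D₀)) ≥ 1` (`genus_spec`), take `z ≠ 0` in it; `rr_shift` for `D₀` and `z` gives
`D₁` with `D₁ v = D₀ v + log (v z) ≤ D v` and `a D₁ = a D₀`; `finrank_rr_le` for `D₁ ≤ D` gives
`a D ≤ a D₁ = 1 - g`, minimality gives equality. -/
theorem riemann_eq (h : IsFF κ L) : ∃ g N : ℤ, ∀ D : Place κ L →₀ ℤ, N ≤ divDeg D →
    (finrank κ (rr D) : ℤ) = divDeg D + 1 - g := by
  classical
  have hex : ∃ k : ℕ, ∃ D : Place κ L →₀ ℤ,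
      (finrank κ (rr D) : ℤ) - divDeg D = 1 - genus κ L + k := by
    have h0 := genus_spec h (0 : Place κ L →₀ ℤ)
    refine ⟨((finrank κ (rr (0 : Place κ L →₀ ℤ)) : ℤ) - divDeg (0 : Place κ L →₀ ℤ) -
      (1 - genus κ L)).toNat, 0, ?_⟩
    rw [Int.toNat_of_nonneg (by omega)]
    ring
  obtain ⟨D₀, hD₀⟩ := Nat.find_spec hex
  have hmin : ∀ D : Place κ L →₀ ℤ,
      1 - (genus κ L : ℤ) + (Nat.find hex : ℕ) ≤ (finrank κ (rr D) : ℤ) - divDeg D := by
    intro D
    have h1 := genus_spec h D
    have h2 := Nat.find_min' hex (m := ((finrank κ (rr D) : ℤ) - divDeg D -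
      (1 - genus κ L)).toNat) ⟨D, by
        rw [Int.toNat_of_nonneg (by omega)]
        ring⟩
    omega
  refine ⟨genus κ L - (Nat.find hex : ℕ), divDeg D₀ + genus κ L, ?_⟩
  intro D hD
  have h1 := genus_spec h (D - D₀)
  have h2 : divDeg (D - D₀) = divDeg D - divDeg D₀ := by
    have h3 := divDeg_add (D - D₀) D₀
    rw [sub_add_cancel] at h3
    omega
  have h4 : 0 < finrank κ (rr (D - D₀)) := by omega
  have hfd := finite_rr h (D - D₀)
  obtain ⟨z, hz, hz0⟩ : ∃ z ∈ rr (D - D₀), z ≠ 0 := by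
    refine Submodule.exists_mem_ne_zero_of_ne_bot ?_
    intro hbot
    rw [hbot, finrank_bot] at h4
    exact lt_irrefl _ h4
  obtain ⟨D₁, hD₁, hdeg, hfr⟩ := rr_shift h D₀ hz0
  have hle : D₁ ≤ D := by
    intro v
    rw [hD₁ v]
    have h5 := hz v
    have h6 : log (v.1 z) ≤ (D - D₀) v :=
      (log_le_iff_le_exp ((v.1.ne_zero_iff).mpr hz0)).mpr h5
    rw [Finsupp.sub_apply] at h6
    omega
  have h7 := finrank_rr_le h hle
  have h8 := hmin D
  rw [hfr, hdeg] at h7
  omega

/-- there are infinitely many places -/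
theorem infinite_place (h : IsFF κ L) : Infinite (Place κ L) := by
  obtain ⟨t, ht, _⟩ := id h
  have hex : ∀ c : κ, ∃ v : Place κ L, v.1 (t - algebraMap κ L c) < 1 := by
    intro c
    by_contra hcon
    push Not at hcon
    have h1 : t - algebraMap κ L c ≠ 0 := by
      intro h2
      rw [sub_eq_zero] at h2
      exact ht (h2 ▸ isAlgebraic_algebraMap c)
    obtain ⟨e, he⟩ := const_of_rr_zero h (f := (t - algebraMap κ L c)⁻¹) (by
      intro v
      rw [map_inv₀]
      exact inv_le_one_of_one_le₀ (hcon v))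
    have h2 : t = algebraMap κ L (e⁻¹ + c) := by
      rw [map_add, map_inv₀, he, inv_inv, sub_add_cancel]
    exact ht (h2 ▸ isAlgebraic_algebraMap _)
  choose f hf using hex
  have hinf : Infinite κ := IsAlgClosed.instInfinite
  refine Infinite.of_injective f ?_
  intro c c' hcc
  by_contra hne
  have h1 := hf c
  have h2 := hf c'
  rw [← hcc] at h2
  have h3 : (f c).1 (algebraMap κ L (c' - c)) < 1 := by
    have e : algebraMap κ L (c' - c) =
        (t - algebraMap κ L c) - (t - algebraMap κ L c') := by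
      rw [map_sub]
      ring
    rw [e]
    exact ((f c).1.map_sub _ _).trans_lt (max_lt h1 h2)
  rw [(f c).2.2 (c' - c) (sub_ne_zero.mpr (Ne.symm hne))] at h3
  exact lt_irrefl _ h3

/-- Approximation at finitely many places. Proof: there is a place `Q` outside `insert w₀ S`
(there are infinitely many places: e.g. for `t : L` transcendental, the elements `t - c`, `c : κ`,
have different zeros; or `rr` of a divisor supported on finitely many places would have to be the
whole field, but `finite_rr`). `D := (w₀ ↦ n₀, w ↦ N for w ∈ S \ {w₀}, Q ↦ k)` with `k` large,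
`riemann_eq` for `D` and `D - single w₀ 1` gives `f ∈ rr D` which is not in `rr (D - single w₀ 1)`. -/
theorem exists_approx (h : IsFF κ L) (w₀ : Place κ L) (S : Finset (Place κ L)) (n₀ N : ℤ) :
    ∃ f : L, w₀.1 f = exp n₀ ∧ ∀ w ∈ S, w ≠ w₀ → w.1 f ≤ exp N := by
  classical
  obtain ⟨g, M, hM⟩ := riemann_eq h
  have hinf := infinite_place h
  obtain ⟨Q, hQ⟩ := Infinite.exists_notMem_finset (insert w₀ S)
  rw [Finset.mem_insert, not_or] at hQ
  obtain ⟨hQ0, hQS⟩ := hQ
  obtain ⟨E, hE⟩ : ∃ E : Place κ L →₀ ℤ, E = ∑ w ∈ S.erase w₀, Finsupp.single w N := ⟨_, rfl⟩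
  have hE1 : ∀ w ∈ S, w ≠ w₀ → E w = N := by
    intro w hw hw0
    rw [hE, Finsupp.finset_sum_apply, Finset.sum_eq_single w]
    · exact Finsupp.single_eq_same
    · intro b _ hb
      exact Finsupp.single_eq_of_ne hb.symm
    · intro hc
      exact absurd (Finset.mem_erase.mpr ⟨hw0, hw⟩) hc
  have hE2 : E w₀ = 0 := by
    rw [hE, Finsupp.finset_sum_apply]
    refine Finset.sum_eq_zero fun b hb => ?_
    exact Finsupp.single_eq_of_ne (Finset.mem_erase.mp hb).1.symm
  obtain ⟨D, hD⟩ : ∃ D : Place κ L →₀ ℤ, D = E + Finsupp.single w₀ n₀ +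
      Finsupp.single Q (M + 1 - n₀ - divDeg E) := ⟨_, rfl⟩
  have hdD : divDeg D = M + 1 := by
    rw [hD, divDeg_add, divDeg_add, divDeg_single, divDeg_single]
    ring
  have hD0 : D w₀ = n₀ := by
    rw [hD, Finsupp.add_apply, Finsupp.add_apply, hE2, Finsupp.single_eq_same,
      Finsupp.single_eq_of_ne (Ne.symm hQ0), zero_add, add_zero]
  have hD1 : ∀ w ∈ S, w ≠ w₀ → D w = N := by
    intro w hw hw0
    have hwQ : w ≠ Q := fun e => hQS (e ▸ hw)
    rw [hD, Finsupp.add_apply, Finsupp.add_apply, hE1 w hw hw0, Finsupp.single_eq_of_ne hw0,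
      Finsupp.single_eq_of_ne hwQ, add_zero, add_zero]
  have hdD' : divDeg (D - Finsupp.single w₀ 1) = M := by
    have h3 := divDeg_add (D - Finsupp.single w₀ 1) (Finsupp.single w₀ 1)
    rw [sub_add_cancel, divDeg_single] at h3
    omega
  have h1 := hM D (by omega)
  have h2 := hM (D - Finsupp.single w₀ 1) (by omega)
  have hfd := finite_rr h (D - Finsupp.single w₀ 1)
  have hnle : ¬ rr D ≤ rr (D - Finsupp.single w₀ 1) := by
    intro hle
    have h4 := Submodule.finrank_mono hle
    omega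
  obtain ⟨f, hf, hf'⟩ := SetLike.not_le_iff_exists.mp hnle
  refine ⟨f, ?_, ?_⟩
  · apply le_antisymm
    · have := hf w₀
      rwa [hD0] at this
    · by_contra hlt
      apply hf'
      intro v
      by_cases hv : v = w₀
      · rw [hv, Finsupp.sub_apply, Finsupp.single_eq_same, hD0]
        have h5 : w₀.1 f < exp (n₀ - 1 + 1) := by
          rw [sub_add_cancel]
          exact not_le.mp hlt
        rw [exp_add] at h5
        exact (lt_mul_exp_iff_le exp_ne_zero).mp h5
      · rw [Finsupp.sub_apply, Finsupp.single_eq_of_ne hv, sub_zero]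
        exact hf v
  · intro w hw hw0
    have := hf w
    rwa [hD1 w hw hw0] at this

end Pool.Agent.Lib.MP_44a246_ntO
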