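import Mathlib
import Pool.Agent.Lib.MP_44a246_ntR.GR4

/-!
Bases of a function field over the field of rational functions with minimal orders of the poles.
-/

namespace Pool.Agent.Lib.MP_44a246_ntO

open Pool.Agent.Lib.MP_44a246_nt
open Pool.Agent.Lib.MP_44a246_ntL
open Pool.Agent.Lib.MP_44a246_ntR
open WithZero Module

variable {κ L : Type*} [Field κ] [Field L] [Algebra κ L] [Algebra (RatFunc κ) L]
  [IsScalarTower κ (RatFunc κ) L] [IsAlgClosed κ] [CharZero κ] [FiniteDimensional (RatFunc κ) L]

/-- a basis with minimal orders of the poles -/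
structure IsMin (P : Place κ L →₀ ℤ) (A : Fin (finrank (RatFunc κ) L) → ℕ)
    (y : Fin (finrank (RatFunc κ) L) → L) : Prop where
  ind : LinearIndependent (RatFunc κ) y
  mem : ∀ i, y i ∈ rr (A i • P)
  min : ∀ (A' : Fin (finrank (RatFunc κ) L) → ℕ) (y' : Fin (finrank (RatFunc κ) L) → L),
    LinearIndependent (RatFunc κ) y' → (∀ i, y' i ∈ rr (A' i • P)) → ∑ i, A i ≤ ∑ i, A' i

/-- `gr4_basis` gives a basis with `y i ∈ rr (c • P)` (`gr4_le_exp`); `Nat.find` for the sum -/
theorem exists_min {P : Place κ L →₀ ℤ} (hP : IsPole P) : ∃ A y, IsMin P A y := by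
  classical
  have hex : ∃ s : ℕ, ∃ (A : Fin (finrank (RatFunc κ) L) → ℕ)
      (y : Fin (finrank (RatFunc κ) L) → L), LinearIndependent (RatFunc κ) y ∧
        (∀ i, y i ∈ rr (A i • P)) ∧ ∑ i, A i = s := by
    obtain ⟨c, y, hy, hyc⟩ := gr4_basis hP
    refine ⟨_, fun _ => c, y, hy, fun i v => ?_, rfl⟩
    refine gr4_le_exp v fun h0 => ?_
    have h1 := hyc i v h0
    simpa using h1
  obtain ⟨A, y, hy, hmem, hs⟩ := Nat.find_spec hex
  refine ⟨A, y, hy, hmem, fun A' y' hy' hmem' => ?_⟩
  rw [hs]
  exact Nat.find_min' hex ⟨A', y', hy', hmem', rfl⟩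

/-- The exchange argument. Proof: `g := ∑ i, α i • y i ≠ 0` by independence. If `m < 0` then
`g ∈ rr D` with `D w = m * P w` of negative degree (`hP.deg`, `finrank > 0`), `rr_of_neg`:
contradiction. If `m ≥ 0`: `Function.update y j g` is independent (`α j ≠ 0`) and
`Function.update A j m.toNat` has a smaller sum. -/
theorem IsMin.exchange {P : Place κ L →₀ ℤ} (hP : IsPole P)
    {A : Fin (finrank (RatFunc κ) L) → ℕ} {y : Fin (finrank (RatFunc κ) L) → L}
    (hmin : IsMin P A y) {α : Fin (finrank (RatFunc κ) L) → RatFunc κ}
    {j : Fin (finrank (RatFunc κ) L)} (hj : α j ≠ 0) {m : ℤ} (hm : m < A j)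
    (hg : ∀ w : Place κ L, w.1 (∑ i, α i • y i) ≤ exp (m * P w)) : False := by
  classical
  have hF : IsFF κ L := isFF_of_ratFunc κ L
  have hg0 : ∑ i, α i • y i ≠ 0 := fun h =>
    hj (Fintype.linearIndependent_iff.1 hmin.ind α h j)
  rcases lt_or_ge m 0 with hm0 | hm0
  · have h1 : ∀ v, (m • P) v = m * P v := fun v => by simp
    have h2 : divDeg (m • P) = m * divDeg P := by
      unfold divDeg
      rw [Finsupp.sum_smul_index (fun _ => rfl), Finsupp.mul_sum]
    have h3 : divDeg (m • P) < 0 := by
      rw [h2, hP.deg]
      have h4 : (0 : ℤ) < finrank (RatFunc κ) L := by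
        exact_mod_cast finrank_pos
      exact mul_neg_of_neg_of_pos hm0 h4
    have h5 : ∑ i, α i • y i ∈ rr (m • P) := by
      intro v
      rw [h1]
      exact hg v
    rw [rr_of_neg hF h3, Submodule.mem_bot] at h5
    exact hg0 h5
  · obtain ⟨n, rfl⟩ := Int.eq_ofNat_of_zero_le hm0
    have hn : n < A j := by exact_mod_cast hm
    have hind : LinearIndependent (RatFunc κ) (Function.update y j (∑ i, α i • y i)) := by
      rw [Fintype.linearIndependent_iff]
      intro β hβ
      have h1 : ∑ i, (β j * α i + (if i = j then 0 else β i)) • y i = 0 := by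
        rw [← hβ]
        have h2 : ∀ i, β i • Function.update y j (∑ i, α i • y i) i =
            (if i = j then β j • ∑ i, α i • y i else 0) + (if i = j then 0 else β i) • y i := by
          intro i
          by_cases hi : i = j
          · subst hi
            simp
          · simp [hi]
        rw [Finset.sum_congr rfl fun i _ => h2 i, Finset.sum_add_distrib,
          Finset.sum_ite_eq' Finset.univ j, if_pos (Finset.mem_univ j), Finset.smul_sum,
          ← Finset.sum_add_distrib]
        refine Finset.sum_congr rfl fun i _ => ?_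
        rw [add_smul, mul_smul]
      have h3 := Fintype.linearIndependent_iff.1 hmin.ind _ h1
      have h4 : β j = 0 := by
        have h5 := h3 j
        rw [if_pos rfl, add_zero] at h5
        exact (mul_eq_zero.1 h5).resolve_right hj
      intro i
      by_cases hi : i = j
      · rw [hi, h4]
      · have h5 := h3 i
        rw [if_neg hi, h4, zero_mul, zero_add] at h5
        exact h5
    have hmem : ∀ i, Function.update y j (∑ i, α i • y i) i ∈
        rr (Function.update A j n i • P) := by
      intro i
      by_cases hi : i = j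
      · subst hi
        rw [Function.update_self, Function.update_self]
        intro v
        have h1 := hg v
        have h2 : ((n : ℕ) • P) v = (n : ℤ) * P v := by simp
        rw [h2]
        exact h1
      · rw [Function.update_of_ne hi, Function.update_of_ne hi]
        exact hmin.mem i
    have hle := hmin.min _ _ hind hmem
    have hlt : ∑ i, Function.update A j n i < ∑ i, A i := by
      apply Finset.sum_lt_sum
      · intro i _
        by_cases hi : i = j
        · subst hi
          rw [Function.update_self]
          exact hn.le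
        · rw [Function.update_of_ne hi]
      · exact ⟨j, Finset.mem_univ _, by rw [Function.update_self]; exact hn⟩
    omega

end Pool.Agent.Lib.MP_44a246_ntO
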