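import Mathlib
import Pool.Agent.Lib.MP_44a246_ntR.GR3

/-!
The places of the field of rational functions.
-/

namespace Pool.Agent.Lib.MP_44a246_ntO

open Pool.Agent.Lib.MP_44a246_nt
open Pool.Agent.Lib.MP_44a246_ntL
open Pool.Agent.Lib.MP_44a246_ntR
open WithZero Module

variable {κ : Type*} [Field κ] [IsAlgClosed κ] [CharZero κ]

/-- a sum of nonnegative integers with value one has exactly one nonzero term -/
private theorem og2a_one {ι : Type*} {f : ι → ℤ} (hf : (Function.support f).Finite)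
    (h0 : ∀ i, 0 ≤ f i) (h1 : ∑ᶠ i, f i = 1) : ∃ i, f i = 1 ∧ ∀ j, j ≠ i → f j = 0 := by
  classical
  rw [finsum_eq_sum_of_support_subset f (s := hf.toFinset) (by simp)] at h1
  have h2 : ∃ i ∈ hf.toFinset, f i ≠ 0 := by
    apply Finset.exists_ne_zero_of_sum_ne_zero
    rw [h1]
    exact one_ne_zero
  obtain ⟨i, hi, hi0⟩ := h2
  have h3 := Finset.add_sum_erase hf.toFinset f hi
  have h4 : 0 ≤ ∑ j ∈ hf.toFinset.erase i, f j := Finset.sum_nonneg fun j _ => h0 j
  have h5 := h0 i
  have h6 : f i = 1 := by omega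
  refine ⟨i, h6, fun j hj => ?_⟩
  by_contra hj0
  have h7 : ∑ j ∈ hf.toFinset.erase i, f j = 0 := by omega
  have h8 : j ∈ hf.toFinset.erase i := by
    rw [Finset.mem_erase, Set.Finite.mem_toFinset]
    exact ⟨hj, hj0⟩
  exact hj0 ((Finset.sum_eq_zero_iff_of_nonneg fun j _ => h0 j).1 h7 j h8)

private theorem og2a_log {x : ℤᵐ⁰} (hx : x ≠ 0) : log (max 1 x) = max 0 (log x) := by
  rcases le_total x 1 with h | h
  · have h1 : log x ≤ 0 := by
      rw [log_le_iff_le_exp hx, exp_zero]
      exact h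
    rw [max_eq_left h, max_eq_left h1, log_one]
  · have h1 : 0 ≤ log x := by
      rw [le_log_iff_exp_le hx, exp_zero]
      exact h
    rw [max_eq_right h, max_eq_right h1]

/-- There is exactly one place with `v X > 1`, and `v X = exp 1` there: `height_ratFunc_X`
(`∑ᶠ v, log (max 1 (v X)) = 1`, all terms are `≥ 0`). -/
theorem ratFunc_infty : ∃ v : Place κ (RatFunc κ), v.1 RatFunc.X = exp 1 ∧
    ∀ v' : Place κ (RatFunc κ), v' ≠ v → v'.1 RatFunc.X ≤ 1 := by
  have hx : (![1, (RatFunc.X : RatFunc κ)]) ≠ 0 := by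
    intro h
    have := congrFun h 0
    simp at this
  have hX0 : ∀ v : Place κ (RatFunc κ), v.1 RatFunc.X ≠ 0 := fun v =>
    (v.1.ne_zero_iff).2 RatFunc.X_ne_zero
  have h2 : ∀ v : Place κ (RatFunc κ), log (vmax v.1 ![1, (RatFunc.X : RatFunc κ)]) =
      max 0 (log (v.1 RatFunc.X)) := by
    intro v
    rw [vmax_pair, og2a_log (hX0 v)]
  obtain ⟨v, hv, hv'⟩ := og2a_one ((isFF_ratFunc κ).vmax_support hx)
    (fun v => by rw [h2]; exact le_max_left _ _) (height_ratFunc_X κ)
  refine ⟨v, ?_, fun v' hne => ?_⟩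
  · rw [h2] at hv
    have h3 : log (v.1 RatFunc.X) = 1 := by omega
    rw [← exp_log (hX0 v), h3]
  · have h3 := hv' v' hne
    rw [h2] at h3
    have h4 : log (v'.1 RatFunc.X) ≤ 0 := by omega
    rw [log_le_iff_le_exp (hX0 v'), exp_zero] at h4
    exact h4

/-- The finite places: `h.place_residue` gives `c` with `v (X - c) < 1`. The pole of `X - c` is
the infinite place with order one (`ratFunc_infty`); product formula: `v (X - c) = exp (-1)` and all
other places with `v' X ≤ 1` have `v' (X - c) = 1`; if `v' X > 1` then `v' (X - c) = v' X`. -/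
theorem ratFunc_finite {v : Place κ (RatFunc κ)} (hv : v.1 RatFunc.X ≤ 1) :
    ∃ c : κ, v.1 (RatFunc.X - algebraMap κ (RatFunc κ) c) = exp (-1) ∧
      ∀ v' : Place κ (RatFunc κ), v' ≠ v →
        v'.1 (RatFunc.X - algebraMap κ (RatFunc κ) c) = max 1 (v'.1 RatFunc.X) := by
  classical
  obtain ⟨w, hw, hw'⟩ := ratFunc_infty (κ := κ)
  obtain ⟨c, hc⟩ := (isFF_ratFunc κ).place_residue v hv
  have h1e : (1 : ℤᵐ⁰) < exp 1 := by
    rw [← exp_zero, exp_lt_exp]
    exact one_pos
  have hcon : ∀ v' : Place κ (RatFunc κ), v'.1 (algebraMap κ (RatFunc κ) c) ≤ 1 := by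
    intro v'
    by_cases h0 : c = 0
    · rw [h0, map_zero, map_zero]
      exact zero_le_one
    · exact (v'.2.2 c h0).le
  have hwx : w.1 (RatFunc.X - algebraMap κ (RatFunc κ) c) = exp 1 := by
    rw [Valuation.map_sub_eq_of_lt_left, hw]
    rw [hw]
    exact (hcon w).trans_lt h1e
  have hx0 : (RatFunc.X - algebraMap κ (RatFunc κ) c) ≠ 0 := by
    intro h0
    rw [h0, map_zero] at hwx
    exact exp_ne_zero hwx.symm
  have hvw : v ≠ w := by
    rintro rfl
    rw [hw] at hv
    exact absurd hv (not_le.2 h1e)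
  have hle : ∀ v' : Place κ (RatFunc κ), v' ≠ w →
      log (v'.1 (RatFunc.X - algebraMap κ (RatFunc κ) c)) ≤ 0 := by
    intro v' h0
    rw [log_le_iff_le_exp ((v'.1.ne_zero_iff).2 hx0), exp_zero]
    exact (v'.1.map_sub _ _).trans (max_le (hw' v' h0) (hcon v'))
  set f : Place κ (RatFunc κ) → ℤ := fun v' =>
    -log (v'.1 (RatFunc.X - algebraMap κ (RatFunc κ) c)) + (if v' = w then 1 else 0) with hf
  have hs1 : (Function.support fun v' : Place κ (RatFunc κ) =>
      -log (v'.1 (RatFunc.X - algebraMap κ (RatFunc κ) c))).Finite := by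
    rw [Function.support_fun_neg]
    exact (isFF_ratFunc κ).place_support hx0
  have hs2 : (Function.support fun v' : Place κ (RatFunc κ) => if v' = w then (1 : ℤ) else 0).Finite := by
    refine (Set.finite_singleton w).subset fun v' h0 => ?_
    by_contra h3
    apply h0
    have h4 : v' ≠ w := h3
    simp only
    rw [if_neg h4]
  have hsum : ∑ᶠ v', f v' = 1 := by
    rw [hf, finsum_add_distrib hs1 hs2, finsum_neg_distrib, (isFF_ratFunc κ).product_formula hx0,
      neg_zero, zero_add, finsum_eq_single _ w]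
    · rw [if_pos rfl]
    · intro v' h0
      rw [if_neg h0]
  have hf0 : ∀ v', 0 ≤ f v' := by
    intro v'
    simp only [hf]
    by_cases h0 : v' = w
    · rw [if_pos h0, h0, hwx, log_exp]
      norm_num
    · rw [if_neg h0, add_zero]
      have := hle v' h0
      omega
  have hfs : (Function.support f).Finite := by
    refine (hs1.union hs2).subset fun v' h0 => ?_
    by_contra h3
    rw [Set.mem_union, not_or, Function.notMem_support, Function.notMem_support] at h3
    apply h0
    simp only [hf]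
    rw [h3.1, h3.2, add_zero]
  obtain ⟨u, hu, hu'⟩ := og2a_one hfs hf0 hsum
  have hfv : f v ≠ 0 := by
    simp only [hf]
    rw [if_neg hvw, add_zero]
    have h3 : log (v.1 (RatFunc.X - algebraMap κ (RatFunc κ) c)) < 0 := by
      rw [log_lt_iff_lt_exp ((v.1.ne_zero_iff).2 hx0), exp_zero]
      exact hc
    omega
  have huv : v = u := by
    by_contra h0
    exact hfv (hu' v h0)
  rw [← huv] at hu hu'
  refine ⟨c, ?_, fun v' hne => ?_⟩
  · simp only [hf] at hu
    rw [if_neg hvw, add_zero] at hu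
    have h3 : log (v.1 (RatFunc.X - algebraMap κ (RatFunc κ) c)) = -1 := by omega
    rw [← exp_log ((v.1.ne_zero_iff).2 hx0), h3]
  · by_cases h0 : v' = w
    · rw [h0, hwx, hw, max_eq_right h1e.le]
    · have h3 := hu' v' hne
      simp only [hf] at h3
      rw [if_neg h0, add_zero] at h3
      have h4 : log (v'.1 (RatFunc.X - algebraMap κ (RatFunc κ) c)) = 0 := by omega
      rw [max_eq_left (hw' v' h0), ← exp_log ((v'.1.ne_zero_iff).2 hx0), h4, exp_zero]

end Pool.Agent.Lib.MP_44a246_ntO
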