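import Mathlib
import Pool.Agent.Lib.MP_44a246_ntO.OG1
import Pool.Agent.Lib.MP_44a246_ntO.OG2a

/-!
A basis with minimal orders of the poles is a basis at the finite places.
-/

namespace Pool.Agent.Lib.MP_44a246_ntO

open Pool.Agent.Lib.MP_44a246_nt
open Pool.Agent.Lib.MP_44a246_ntL
open Pool.Agent.Lib.MP_44a246_ntR
open WithZero Module

variable {κ L : Type*} [Field κ] [Field L] [Algebra κ L] [Algebra (RatFunc κ) L]
  [IsScalarTower κ (RatFunc κ) L] [IsAlgClosed κ] [CharZero κ] [FiniteDimensional (RatFunc κ) L]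

omit [IsAlgClosed κ] [CharZero κ] [FiniteDimensional (RatFunc κ) L] in
private theorem og2_t0 : tL κ L ≠ 0 := by
  intro h
  exact transcendental_tL (κ := κ) (L := L) (h ▸ isAlgebraic_zero)

/-- `exp (P w)` in terms of the place below -/
private theorem og2_expP {P : Place κ L →₀ ℤ} (hP : IsPole P) (w : Place κ L) :
    exp (P w) = (max 1 ((below (RatFunc κ) w).1 RatFunc.X)) ^ ramIdx (RatFunc κ) w.1 := by
  have hw : w.1 (tL κ L) ≠ 0 := (w.1.ne_zero_iff).2 og2_t0
  have h1 : w.1 (tL κ L) = (below (RatFunc κ) w).1 RatFunc.X ^ ramIdx (RatFunc κ) w.1 :=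
    below_pow w RatFunc.X
  have h2 : exp (P w) = max 1 (w.1 (tL κ L)) := by
    rw [hP w]
    rcases le_or_gt (w.1 (tL κ L)) 1 with h | h
    · have h3 : log (w.1 (tL κ L)) ≤ 0 := by
        rw [log_le_iff_le_exp hw, exp_zero]
        exact h
      rw [max_eq_left h3, max_eq_left h, exp_zero]
    · have h3 : 0 ≤ log (w.1 (tL κ L)) := by
        rw [le_log_iff_exp_le hw, exp_zero]
        exact h.le
      rw [max_eq_right h3, max_eq_right h.le, exp_log hw]
  rw [h2, h1]
  rcases le_or_gt ((below (RatFunc κ) w).1 RatFunc.X) 1 with h | h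
  · rw [max_eq_left h, max_eq_left (pow_le_one' h _), one_pow]
  · rw [max_eq_right h.le, max_eq_right (one_le_pow_of_one_le' h.le _)]

/-- The coefficients at a finite place. Proof. Suppose `max_j v (φ j) = exp m`, `m ≥ 1`. Let
`π = X - c` (`ratFunc_finite`), `ψ j := π ^ (m - 1) * φ j`, `max_j v (ψ j) = exp 1`,
`f' := ∑ ψ j • y j` has `w f' ≤ 1` for `w` over `v`. `π * ψ j` is integral at `v`: residue
`α j : κ`, `v (π ψ j - α j) ≤ exp (-1)`, i.e. `v (ψ j - α j / π) ≤ 1`; not all `α j = 0`. Let `j` with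
`α j ≠ 0` and `A j` maximal among these. `g := ∑ (α i / π) • y i`. At `w` over `v`:
`g - f' = ∑ (α i / π - ψ i) • y i` is integral (`y i` is integral there: `P w = 0`, `below_pow`), so
`w g ≤ 1 = exp ((A j - 1) * P w)`. At `w` over another `v'`: `w (1 / π) = (max 1 (v' X))⁻¹ ^ e =
exp (- P w)` and `w (y i) ≤ exp (A i * P w) ≤ exp (A j * P w)` for `α i ≠ 0`. So
`w g ≤ exp ((A j - 1) * P w)` for all `w`: contradiction by `IsMin.exchange`. -/
theorem IsMin.coeff_finite {P : Place κ L →₀ ℤ} (hP : IsPole P)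
    {A : Fin (finrank (RatFunc κ) L) → ℕ} {y : Fin (finrank (RatFunc κ) L) → L}
    (hmin : IsMin P A y) {v : Place κ (RatFunc κ)} (hv : v.1 RatFunc.X ≤ 1)
    {φ : Fin (finrank (RatFunc κ) L) → RatFunc κ}
    (hf : ∀ w : Place κ L, below (RatFunc κ) w = v → w.1 (∑ i, φ i • y i) ≤ 1)
    (j : Fin (finrank (RatFunc κ) L)) : v.1 (φ j) ≤ 1 := by
  classical
  by_contra hcon
  push Not at hcon
  obtain ⟨i0, -, hi0⟩ := Finset.exists_max_image Finset.univ (fun i => v.1 (φ i))
    ⟨j, Finset.mem_univ j⟩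
  have h1i0 : 1 < v.1 (φ i0) := hcon.trans_le (hi0 j (Finset.mem_univ _))
  have hne0 : v.1 (φ i0) ≠ 0 := (zero_lt_one.trans h1i0).ne'
  set m : ℤ := log (v.1 (φ i0)) with hm
  have hm1 : 1 ≤ m := by
    have h2 : 0 < m := by
      rw [hm, lt_log_iff_exp_lt hne0, exp_zero]
      exact h1i0
    omega
  obtain ⟨c, hc, hc'⟩ := ratFunc_finite hv
  set π : RatFunc κ := RatFunc.X - algebraMap κ (RatFunc κ) c with hπ
  have hπ0 : π ≠ 0 := by
    intro h
    rw [h, map_zero] at hc
    exact exp_ne_zero hc.symm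
  set k : ℕ := (m - 1).toNat with hk
  have hkm : (k : ℤ) = m - 1 := by
    rw [hk]
    exact Int.toNat_of_nonneg (by omega)
  set ψ : Fin (finrank (RatFunc κ) L) → RatFunc κ := fun i => π ^ k * φ i with hψ
  have hvk : v.1 (π ^ k) = exp (1 - m) := by
    rw [map_pow, hc, ← exp_nsmul]
    congr 1
    rw [nsmul_eq_mul, hkm]
    ring
  have hψle : ∀ i, v.1 (π * ψ i) ≤ 1 := by
    intro i
    have h2 : v.1 (φ i) ≤ exp m := by
      rw [hm, exp_log hne0]
      exact hi0 i (Finset.mem_univ _)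
    rw [hψ]
    simp only [map_mul]
    rw [hvk, hc]
    calc exp (-1 : ℤ) * (exp (1 - m) * v.1 (φ i)) ≤ exp (-1 : ℤ) * (exp (1 - m) * exp m) :=
          mul_le_mul_right (mul_le_mul_right h2 _) _
      _ = 1 := by
          rw [← exp_add, ← exp_add, ← exp_zero]
          congr 1
          ring
  have hψi0 : v.1 (π * ψ i0) = 1 := by
    rw [hψ]
    simp only [map_mul]
    rw [hvk, hc, ← exp_log hne0, ← hm, ← exp_add, ← exp_add, ← exp_zero]
    congr 1
    ring
  choose α hα using fun i => (isFF_ratFunc κ).place_residue v (hψle i)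
  have hαi0 : α i0 ≠ 0 := by
    intro h
    have h2 := hα i0
    rw [h, map_zero, sub_zero, hψi0] at h2
    exact lt_irrefl _ h2
  -- the difference of the coefficients
  have hdiff : ∀ i, v.1 (algebraMap κ (RatFunc κ) (α i) * π⁻¹ - ψ i) ≤ 1 := by
    intro i
    have e1 : algebraMap κ (RatFunc κ) (α i) * π⁻¹ - ψ i =
        -((π * ψ i - algebraMap κ (RatFunc κ) (α i)) * π⁻¹) := by
      field_simp
      ring
    rw [e1, Valuation.map_neg, map_mul, map_inv₀, hc]
    by_cases h0 : π * ψ i - algebraMap κ (RatFunc κ) (α i) = 0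
    · rw [h0, map_zero, zero_mul]
      exact zero_le
    · have h2 : v.1 (π * ψ i - algebraMap κ (RatFunc κ) (α i)) ≠ 0 := (v.1.ne_zero_iff).2 h0
      have h3 : log (v.1 (π * ψ i - algebraMap κ (RatFunc κ) (α i))) < 0 := by
        rw [log_lt_iff_lt_exp h2, exp_zero]
        exact hα i
      have h4 : v.1 (π * ψ i - algebraMap κ (RatFunc κ) (α i)) ≤ exp (-1 : ℤ) := by
        rw [← log_le_iff_le_exp h2]
        omega
      calc _ ≤ exp (-1 : ℤ) * (exp (-1 : ℤ))⁻¹ := mul_le_mul_left h4 _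
        _ = 1 := mul_inv_cancel₀ exp_ne_zero
  obtain ⟨j1, hj1, hj1max⟩ := Finset.exists_max_image
    (Finset.univ.filter fun i => α i ≠ 0) A ⟨i0, Finset.mem_filter.2 ⟨Finset.mem_univ _, hαi0⟩⟩
  have hαj1 : α j1 ≠ 0 := (Finset.mem_filter.1 hj1).2
  have hβj1 : algebraMap κ (RatFunc κ) (α j1) * π⁻¹ ≠ 0 :=
    mul_ne_zero ((map_ne_zero _).2 hαj1) (inv_ne_zero hπ0)
  refine hmin.exchange hP (α := fun i => algebraMap κ (RatFunc κ) (α i) * π⁻¹) (j := j1) hβj1
    (m := (A j1 : ℤ) - 1) (by omega) fun w => ?_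
  have hyw : ∀ i, w.1 (y i) ≤ exp ((A i : ℤ) * P w) := by
    intro i
    have h2 := hmin.mem i w
    have h3 : (A i • P) w = (A i : ℤ) * P w := by simp
    rwa [h3] at h2
  by_cases hwv : below (RatFunc κ) w = v
  · have hPw : P w = 0 := by
      have h2 := og2_expP hP w
      rw [hwv, max_eq_left hv, one_pow] at h2
      have h3 : exp (P w) = exp (0 : ℤ) := by rw [h2, exp_zero]
      exact exp_inj.1 h3
    rw [hPw, mul_zero, exp_zero]
    have hsplit : (∑ i, (algebraMap κ (RatFunc κ) (α i) * π⁻¹) • y i) =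
        π ^ k • (∑ i, φ i • y i) +
          ∑ i, (algebraMap κ (RatFunc κ) (α i) * π⁻¹ - ψ i) • y i := by
      rw [Finset.smul_sum, ← Finset.sum_add_distrib]
      refine Finset.sum_congr rfl fun i _ => ?_
      rw [smul_smul, ← add_smul]
      congr 1
      rw [hψ]
      ring
    rw [hsplit]
    refine (w.1.map_add _ _).trans (max_le ?_ ?_)
    · rw [Algebra.smul_def, map_mul, below_pow w (π ^ k), hwv, hvk]
      have h2 : exp (1 - m) ^ ramIdx (RatFunc κ) w.1 ≤ (1 : ℤᵐ⁰) := by
        refine pow_le_one' ?_ _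
        rw [← exp_zero, exp_le_exp]
        omega
      calc _ ≤ (1 : ℤᵐ⁰) * 1 := mul_le_mul' h2 (hf w hwv)
        _ = 1 := one_mul _
    · refine w.1.map_sum_le fun i _ => ?_
      rw [Algebra.smul_def, map_mul, below_pow w _, hwv]
      have h2 : w.1 (y i) ≤ 1 := by
        have h3 := hyw i
        rwa [hPw, mul_zero, exp_zero] at h3
      calc _ ≤ (1 : ℤᵐ⁰) * 1 := mul_le_mul' (pow_le_one' (hdiff i) _) h2
        _ = 1 := one_mul _
  · refine w.1.map_sum_le fun i _ => ?_
    by_cases hαi : α i = 0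
    · rw [hαi, map_zero, zero_mul, zero_smul, map_zero]
      exact zero_le
    · have hAi : A i ≤ A j1 := hj1max i (Finset.mem_filter.2 ⟨Finset.mem_univ _, hαi⟩)
      have hπw : w.1 (algebraMap (RatFunc κ) L π) = exp (P w) := by
        rw [below_pow w π, hc' _ hwv, og2_expP hP w]
      have hαw : w.1 (algebraMap (RatFunc κ) L (algebraMap κ (RatFunc κ) (α i))) = 1 := by
        rw [← IsScalarTower.algebraMap_apply κ (RatFunc κ) L]
        exact w.2.2 _ hαi
      rw [Algebra.smul_def, map_mul, map_mul, map_mul, map_inv₀, map_inv₀, hαw, hπw, one_mul,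
        ← exp_neg]
      calc exp (-P w) * w.1 (y i) ≤ exp (-P w) * exp ((A i : ℤ) * P w) :=
            mul_le_mul_right (hyw i) _
        _ = exp (((A i : ℤ) - 1) * P w) := by
            rw [← exp_add]
            congr 1
            ring
        _ ≤ exp (((A j1 : ℤ) - 1) * P w) := by
            rw [exp_le_exp]
            refine mul_le_mul_of_nonneg_right ?_ (hP.nonneg w)
            have : (A i : ℤ) ≤ A j1 := by exact_mod_cast hAi
            omega

end Pool.Agent.Lib.MP_44a246_ntO
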