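import Mathlib
import Pool.Agent.Lib.MP_44a246_ntO.OG1
import Pool.Agent.Lib.MP_44a246_ntO.OG2a

/-!
A basis with minimal orders of the poles at the infinite place.
-/

namespace Pool.Agent.Lib.MP_44a246_ntO

open Pool.Agent.Lib.MP_44a246_nt
open Pool.Agent.Lib.MP_44a246_ntL
open Pool.Agent.Lib.MP_44a246_ntR
open WithZero Module

variable {κ L : Type*} [Field κ] [Field L] [Algebra κ L] [Algebra (RatFunc κ) L]
  [IsScalarTower κ (RatFunc κ) L] [IsAlgClosed κ] [CharZero κ] [FiniteDimensional (RatFunc κ) L]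

/-- The coefficients at the infinite place. Proof. Suppose `M := max_j (log (v (φ j)) + A j) ≥ 1`
(over the `j` with `φ j ≠ 0`). `v (φ j) ≤ exp (M - A j)`, so there is `α j : κ` (residue of
`φ j / X ^ (M - A j)`) with `v (φ j - α j X ^ (M - A j)) ≤ exp (M - A j - 1)`; not all `α j = 0`. Let
`j` with `α j ≠ 0` and `A j` maximal among these, `g := ∑ i, (α i * X ^ (A j - A i)) • y i`
(`A i ≤ A j` if `α i ≠ 0`). At `w` over a finite place (`v' X ≤ 1`): `w g ≤ 1 = exp ((A j - 1) * P w)`
(`P w = 0`). At `w` over `v`: `X ^ (M - A j) • g - f = ∑ (α i X ^ (M - A i) - φ i) • y i` has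
`w ≤ exp ((M - 1) * P w)` (`w (y i) ≤ exp (A i * P w)`, `P w = ramIdx`), `w f ≤ 1 ≤ exp ((M-1) * P w)`,
so `w g ≤ exp ((M - 1) P w - (M - A j) P w) = exp ((A j - 1) * P w)`: contradiction by
`IsMin.exchange`. All places over which `v' X > 1` lie over `v` (`ratFunc_infty`). -/
theorem IsMin.coeff_infty {P : Place κ L →₀ ℤ} (hP : IsPole P)
    {A : Fin (finrank (RatFunc κ) L) → ℕ} {y : Fin (finrank (RatFunc κ) L) → L}
    (hmin : IsMin P A y) {v : Place κ (RatFunc κ)} (hv : v.1 RatFunc.X = exp 1)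
    {φ : Fin (finrank (RatFunc κ) L) → RatFunc κ}
    (hf : ∀ w : Place κ L, below (RatFunc κ) w = v → w.1 (∑ i, φ i • y i) ≤ 1)
    (j : Fin (finrank (RatFunc κ) L)) : v.1 (φ j) ≤ exp (-(A j : ℤ)) := by
  classical
  have hFF : IsFF κ (RatFunc κ) := isFF_ratFunc κ
  have hX : (RatFunc.X : RatFunc κ) ≠ 0 := RatFunc.X_ne_zero
  obtain ⟨v0, hv0, hv0'⟩ := ratFunc_infty (κ := κ)
  have hvv : v = v0 := by
    by_contra h
    have h1 := hv0' v h
    rw [hv] at h1
    have h2 : (1 : ℤᵐ⁰) < exp 1 := by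
      rw [← exp_zero]
      exact exp_lt_exp.2 one_pos
    exact absurd h1 (not_le.2 h2)
  have hfinite : ∀ v' : Place κ (RatFunc κ), v' ≠ v → v'.1 RatFunc.X ≤ 1 := by
    rw [hvv]
    exact hv0'
  have hPv : ∀ w : Place κ L, below (RatFunc κ) w = v → P w = ramIdx (RatFunc κ) w.1 := by
    intro w hw
    rw [hP w]
    unfold tL
    rw [below_pow, hw, hv, log_pow, log_exp, nsmul_eq_mul, mul_one]
    exact max_eq_right (Int.natCast_nonneg _)
  have hXf : ∀ w : Place κ L, below (RatFunc κ) w ≠ v →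
      w.1 (algebraMap (RatFunc κ) L RatFunc.X) ≤ 1 := by
    intro w hw
    rw [below_pow]
    exact pow_le_one₀ zero_le (hfinite _ hw)
  have hPf : ∀ w : Place κ L, below (RatFunc κ) w ≠ v → P w = 0 := by
    intro w hw
    rw [hP w]
    apply max_eq_left
    have h1 : w.1 (tL κ L) ≤ 1 := hXf w hw
    by_cases h0 : w.1 (tL κ L) = 0
    · rw [h0, log_zero]
    · rw [log_le_iff_le_exp h0, exp_zero]
      exact h1
  have hup : ∀ w : Place κ L, below (RatFunc κ) w = v → ∀ (c : RatFunc κ) (n : ℤ),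
      v.1 c ≤ exp n → w.1 (algebraMap (RatFunc κ) L c) ≤ exp (n * P w) := by
    intro w hw c n hc
    rw [below_pow, hw, hPv w hw]
    refine (pow_le_pow_left₀ zero_le hc _).trans (le_of_eq ?_)
    rw [← exp_nsmul, nsmul_eq_mul, mul_comm]
  have hvX : ∀ n : ℤ, v.1 ((RatFunc.X : RatFunc κ) ^ n) = exp n := by
    intro n
    rw [map_zpow₀, hv, ← exp_zsmul, smul_eq_mul, mul_one]
  have hyw : ∀ (i : Fin (finrank (RatFunc κ) L)) (w : Place κ L), w.1 (y i) ≤ exp (A i * P w) := by
    intro i w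
    have h1 := hmin.mem i w
    rw [Finsupp.smul_apply, nsmul_eq_mul] at h1
    exact h1
  by_contra hcon
  push Not at hcon
  have hj0 : φ j ≠ 0 := by
    intro h0
    rw [h0, map_zero] at hcon
    exact not_lt_zero hcon
  obtain ⟨j0, hj0m, hmax⟩ := Finset.exists_max_image
    (Finset.univ.filter fun i => φ i ≠ 0) (fun i => log (v.1 (φ i)) + A i)
    ⟨j, Finset.mem_filter.2 ⟨Finset.mem_univ _, hj0⟩⟩
  have hφ0 : φ j0 ≠ 0 := (Finset.mem_filter.1 hj0m).2
  obtain ⟨M, hM⟩ : ∃ M : ℤ, M = log (v.1 (φ j0)) + A j0 := ⟨_, rfl⟩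
  have hM1 : 1 ≤ M := by
    have h1 := hmax j (Finset.mem_filter.2 ⟨Finset.mem_univ _, hj0⟩)
    have h2 : -(A j : ℤ) < log (v.1 (φ j)) := by
      have h3 := (log_lt_log exp_ne_zero ((v.1.ne_zero_iff).2 hj0)).2 hcon
      rwa [log_exp] at h3
    rw [hM]
    omega
  have hφle : ∀ i, v.1 (φ i) ≤ exp (M - A i) := by
    intro i
    refine gr4_le_exp v fun hi => ?_
    have h1 := hmax i (Finset.mem_filter.2 ⟨Finset.mem_univ _, hi⟩)
    rw [hM]
    omega
  have hres : ∀ i, ∃ c : κ, v.1 (φ i * (RatFunc.X : RatFunc κ) ^ (-(M - A i)) -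
      algebraMap κ (RatFunc κ) c) < 1 := by
    intro i
    refine hFF.place_residue v ?_
    rw [map_mul, hvX]
    calc v.1 (φ i) * exp (-(M - A i)) ≤ exp (M - A i) * exp (-(M - A i)) :=
          mul_le_mul_left (hφle i) _
      _ = 1 := by rw [← exp_add, add_neg_cancel, exp_zero]
  choose α hα using hres
  have hα2 : ∀ i, v.1 (algebraMap κ (RatFunc κ) (α i) * (RatFunc.X : RatFunc κ) ^ (M - A i) -
      φ i) ≤ exp (M - A i - 1) := by
    intro i
    have h1 : algebraMap κ (RatFunc κ) (α i) * (RatFunc.X : RatFunc κ) ^ (M - A i) - φ i =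
        -((φ i * (RatFunc.X : RatFunc κ) ^ (-(M - A i)) - algebraMap κ (RatFunc κ) (α i)) *
          (RatFunc.X : RatFunc κ) ^ (M - A i)) := by
      have h2 : (RatFunc.X : RatFunc κ) ^ (-(M - A i)) * (RatFunc.X : RatFunc κ) ^ (M - A i) = 1 := by
        rw [← zpow_add₀ hX, neg_add_cancel, zpow_zero]
      linear_combination (φ i) * h2
    have h3 : v.1 (φ i * (RatFunc.X : RatFunc κ) ^ (-(M - A i)) -
        algebraMap κ (RatFunc κ) (α i)) ≤ exp (-1) := by
      refine gr4_le_exp v fun hne => ?_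
      have h4 := (log_lt_log ((v.1.ne_zero_iff).2 hne) one_ne_zero).2 (hα i)
      rw [log_one] at h4
      omega
    rw [h1, Valuation.map_neg, map_mul, hvX]
    calc _ ≤ exp (-1) * exp (M - A i) := mul_le_mul_left h3 _
      _ = exp (M - A i - 1) := by
        rw [← exp_add]
        congr 1
        ring
  have hα0 : α j0 ≠ 0 := by
    intro h0
    have h1 := hα j0
    rw [h0, map_zero, sub_zero, map_mul, hvX] at h1
    have h2 : v.1 (φ j0) = exp (M - A j0) := by
      rw [hM, add_sub_cancel_right, exp_log ((v.1.ne_zero_iff).2 hφ0)]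
    rw [h2, ← exp_add, add_neg_cancel, exp_zero] at h1
    exact lt_irrefl _ h1
  obtain ⟨j1, hj1m, hmax1⟩ := Finset.exists_max_image
    (Finset.univ.filter fun i => α i ≠ 0) (fun i => A i)
    ⟨j0, Finset.mem_filter.2 ⟨Finset.mem_univ _, hα0⟩⟩
  have hα1 : α j1 ≠ 0 := (Finset.mem_filter.1 hj1m).2
  have hA1 : ∀ i, α i ≠ 0 → A i ≤ A j1 := fun i hi =>
    hmax1 i (Finset.mem_filter.2 ⟨Finset.mem_univ _, hi⟩)
  have hconst : ∀ (w : Place κ L) (c : κ),
      w.1 (algebraMap (RatFunc κ) L (algebraMap κ (RatFunc κ) c)) ≤ 1 := by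
    intro w c
    rw [← IsScalarTower.algebraMap_apply]
    by_cases hc : c = 0
    · rw [hc, map_zero, map_zero]
      exact zero_le
    · exact (w.2.2 c hc).le
  refine hmin.exchange hP
    (α := fun i => algebraMap κ (RatFunc κ) (α i) * (RatFunc.X : RatFunc κ) ^ (A j1 - A i))
    (j := j1) (m := (A j1 : ℤ) - 1) ?_ (by omega) ?_
  · rw [Nat.sub_self, pow_zero, mul_one]
    exact (map_ne_zero _).2 hα1
  · intro w
    by_cases hw : below (RatFunc κ) w = v
    · obtain ⟨g, hg⟩ : ∃ g : L, g = ∑ i, (algebraMap κ (RatFunc κ) (α i) *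
        (RatFunc.X : RatFunc κ) ^ (A j1 - A i)) • y i := ⟨_, rfl⟩
      rw [← hg]
      have h1 : (RatFunc.X : RatFunc κ) ^ (M - A j1) • g =
          ∑ i, (algebraMap κ (RatFunc κ) (α i) * (RatFunc.X : RatFunc κ) ^ (M - A i) - φ i) • y i +
            ∑ i, φ i • y i := by
        rw [hg, Finset.smul_sum, ← Finset.sum_add_distrib]
        refine Finset.sum_congr rfl fun i _ => ?_
        rw [smul_smul, ← add_smul, sub_add_cancel]
        congr 1
        by_cases hi : α i = 0
        · rw [hi, map_zero, zero_mul, zero_mul, mul_zero]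
        · have h2 := hA1 i hi
          have h3 : (M - A i : ℤ) = (M - A j1) + ((A j1 - A i : ℕ) : ℤ) := by
            push_cast [Nat.cast_sub h2]
            ring
          rw [h3, zpow_add₀ hX, zpow_natCast]
          ring
      have h2 : w.1 ((RatFunc.X : RatFunc κ) ^ (M - A j1) • g) ≤ exp ((M - 1) * P w) := by
        rw [h1]
        refine (w.1.map_add _ _).trans (max_le ?_ ?_)
        · refine Valuation.map_sum_le w.1 fun i _ => ?_
          rw [Algebra.smul_def, map_mul]
          calc _ ≤ exp ((M - A i - 1) * P w) * exp (A i * P w) :=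
                mul_le_mul' (hup w hw _ _ (hα2 i)) (hyw i w)
            _ = exp ((M - 1) * P w) := by
              rw [← exp_add]
              congr 1
              ring
        · refine (hf w hw).trans ?_
          rw [← exp_zero]
          exact exp_le_exp.2 (mul_nonneg (by omega) (hP.nonneg w))
      rw [Algebra.smul_def, map_mul] at h2
      have h3 : w.1 (algebraMap (RatFunc κ) L ((RatFunc.X : RatFunc κ) ^ (M - A j1))) =
          exp ((M - A j1) * P w) := by
        rw [below_pow, hw, hPv w hw, hvX, ← exp_nsmul, nsmul_eq_mul, mul_comm]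
      rw [h3] at h2
      have h4 : w.1 g = exp (-((M - A j1) * P w)) * (exp ((M - A j1) * P w) * w.1 g) := by
        rw [← mul_assoc, ← exp_add, neg_add_cancel, exp_zero, one_mul]
      rw [h4]
      calc _ ≤ exp (-((M - A j1) * P w)) * exp ((M - 1) * P w) := mul_le_mul_right h2 _
        _ = exp (((A j1 : ℤ) - 1) * P w) := by
          rw [← exp_add]
          congr 1
          ring
    · rw [hPf w hw, mul_zero, exp_zero]
      refine Valuation.map_sum_le w.1 fun i _ => ?_
      rw [Algebra.smul_def, map_mul, map_mul, map_mul, map_pow, map_pow]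
      have h1 := hyw i w
      rw [hPf w hw, mul_zero, exp_zero] at h1
      exact mul_le_one' (mul_le_one' (hconst w _) (pow_le_one₀ zero_le (hXf w hw))) h1

end Pool.Agent.Lib.MP_44a246_ntO
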