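import Mathlib
import Pool.Agent.Lib.MP_44a246_ntR.GR7

/-!
The trace of an element which is a unit at one place and small at the other places.
-/

namespace Pool.Agent.Lib.MP_44a246_ntO

open Pool.Agent.Lib.MP_44a246_nt
open Pool.Agent.Lib.MP_44a246_ntL
open Pool.Agent.Lib.MP_44a246_ntR
open WithZero Module

section Aux

open Polynomial

private theorem le_one_of_log {a : ℤᵐ⁰} (ha : a ≠ 0) (h : log a ≤ 0) : a ≤ 1 := by
  rw [← exp_log ha, ← exp_zero, exp_le_exp]
  exact h

private theorem log_nonpos' {a : ℤᵐ⁰} (ha : a ≠ 0) (h : a ≤ 1) : log a ≤ 0 := by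
  rw [← log_one]
  exact (log_le_log ha one_ne_zero).2 h

section Red

variable {κ K : Type*} [Field κ] [Field K] [Algebra κ K]

private theorem pl_le (v : Place κ K) (c : κ) : v.1 (algebraMap κ K c) ≤ 1 := by
  by_cases hc : c = 0
  · rw [hc, map_zero, map_zero]; exact zero_le_one
  · exact (v.2.2 c hc).le

private theorem pl_lt (v : Place κ K) {c : κ} (h : v.1 (algebraMap κ K c) < 1) : c = 0 := by
  by_contra hc
  rw [v.2.2 c hc] at h
  exact lt_irrefl _ h

variable [IsAlgClosed κ] [CharZero κ]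

/-- reduction of polynomials -/
private theorem red (h : IsFF κ K) (v : Place κ K) (p : K[X]) (hp : ∀ i, v.1 (p.coeff i) ≤ 1) :
    ∃ q : κ[X], (∀ i, v.1 (p.coeff i - algebraMap κ K (q.coeff i)) < 1) ∧
      q.natDegree ≤ p.natDegree ∧
      ∀ c : κ, v.1 (p.eval (algebraMap κ K c) - algebraMap κ K (q.eval c)) < 1 := by
  choose c hc using fun i => h.place_residue v (hp i)
  let q : κ[X] := ∑ i ∈ Finset.range (p.natDegree + 1), monomial i (c i)
  have hq : ∀ i, q.coeff i = if i < p.natDegree + 1 then c i else 0 := by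
    intro i
    simp only [q, finsetSum_coeff, coeff_monomial]
    rw [Finset.sum_ite_eq' (Finset.range (p.natDegree + 1)) i]
    simp only [Finset.mem_range]
  have hqd : q.natDegree ≤ p.natDegree := by
    rw [natDegree_le_iff_coeff_eq_zero]
    intro i hi
    rw [hq, if_neg (by omega)]
  have h1 : ∀ i, v.1 (p.coeff i - algebraMap κ K (q.coeff i)) < 1 := by
    intro i
    rw [hq]
    split_ifs with hi
    · exact hc i
    · rw [coeff_eq_zero_of_natDegree_lt (by omega), map_zero, sub_zero, map_zero]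
      exact zero_lt_one
  refine ⟨q, h1, hqd, ?_⟩
  intro a
  rw [eval_eq_sum_range' (show p.natDegree < p.natDegree + 1 by omega),
    eval_eq_sum_range' (show q.natDegree < p.natDegree + 1 by omega), map_sum,
    ← Finset.sum_sub_distrib]
  refine v.1.map_sum_lt one_ne_zero fun i _ => ?_
  have h2 : p.coeff i * algebraMap κ K a ^ i - algebraMap κ K (q.coeff i * a ^ i) =
      (p.coeff i - algebraMap κ K (q.coeff i)) * algebraMap κ K (a ^ i) := by
    rw [map_mul, map_pow]
    ring
  rw [h2, map_mul]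
  calc v.1 (p.coeff i - algebraMap κ K (q.coeff i)) * v.1 (algebraMap κ K (a ^ i))
      ≤ v.1 (p.coeff i - algebraMap κ K (q.coeff i)) * 1 := by
        gcongr
        exact pl_le v _
    _ < 1 := by rw [mul_one]; exact h1 i

/-- a polynomial with integral values at the constants has integral coefficients -/
private theorem coeff_le (h : IsFF κ K) (v : Place κ K) (f : K[X])
    (hf : ∀ c : κ, v.1 (f.eval (algebraMap κ K c)) ≤ 1) (i : ℕ) : v.1 (f.coeff i) ≤ 1 := by
  obtain ⟨i0, hi0, hmax⟩ := Finset.exists_max_image (Finset.range (f.natDegree + 1))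
    (fun i => v.1 (f.coeff i)) ⟨0, by simp⟩
  have hmax' : ∀ i, v.1 (f.coeff i) ≤ v.1 (f.coeff i0) := by
    intro i
    by_cases hi : i < f.natDegree + 1
    · exact hmax i (Finset.mem_range.2 hi)
    · rw [coeff_eq_zero_of_natDegree_lt (by omega), map_zero]
      exact zero_le
  refine (hmax' i).trans ?_
  by_contra hcon
  push Not at hcon
  have h0 : f.coeff i0 ≠ 0 := by
    intro h1
    rw [h1, map_zero] at hcon
    exact absurd hcon (not_lt.2 zero_le)
  have hv0 : v.1 (f.coeff i0) ≠ 0 := (v.1.ne_zero_iff).2 h0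
  obtain ⟨q, h1, -, h2⟩ := red h v (C (f.coeff i0)⁻¹ * f) (by
    intro j
    rw [coeff_C_mul, map_mul, map_inv₀]
    calc (v.1 (f.coeff i0))⁻¹ * v.1 (f.coeff j) ≤ (v.1 (f.coeff i0))⁻¹ * v.1 (f.coeff i0) := by
          gcongr
          exact hmax' j
      _ = 1 := inv_mul_cancel₀ hv0)
  have hq0 : q = 0 := by
    apply Polynomial.funext
    intro c
    rw [eval_zero]
    apply pl_lt v
    have h3 := h2 c
    have h4 : v.1 ((C (f.coeff i0)⁻¹ * f).eval (algebraMap κ K c)) < 1 := by
      rw [eval_mul, eval_C, map_mul, map_inv₀]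
      calc (v.1 (f.coeff i0))⁻¹ * v.1 (f.eval (algebraMap κ K c)) ≤ (v.1 (f.coeff i0))⁻¹ * 1 := by
            gcongr
            exact hf c
        _ < 1 := by
            rw [mul_one]
            exact inv_lt_one_of_one_lt₀ hcon
    have h5 : algebraMap κ K (q.eval c) = (C (f.coeff i0)⁻¹ * f).eval (algebraMap κ K c) -
        ((C (f.coeff i0)⁻¹ * f).eval (algebraMap κ K c) - algebraMap κ K (q.eval c)) := by ring
    rw [h5]
    exact v.1.map_sub_lt h4 h3
  have h6 := h1 i0
  rw [hq0, coeff_zero, map_zero, sub_zero, coeff_C_mul, inv_mul_cancel₀ h0, map_one] at h6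
  exact lt_irrefl _ h6

omit [IsAlgClosed κ] [CharZero κ] in
/-- the sum of a multiset with elements `0` and `γ` -/
private theorem sum_two (γ : κ) (s : Multiset κ) : (∀ c ∈ s, c = 0 ∨ c = γ) →
    ∃ n : ℕ, s.sum = n * γ ∧ (γ ∈ s → 1 ≤ n) := by
  induction s using Multiset.induction with
  | empty =>
    intro _
    exact ⟨0, by simp, fun h => absurd h (Multiset.notMem_zero γ)⟩
  | cons a s ih =>
    intro hs
    obtain ⟨n, h1, h2⟩ := ih fun c hc => hs c (Multiset.mem_cons_of_mem hc)
    by_cases ha : a = γ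
    · exact ⟨n + 1, by rw [Multiset.sum_cons, h1, ha]; push_cast; ring, fun _ => by omega⟩
    · have ha0 : a = 0 := (hs a (Multiset.mem_cons_self a s)).resolve_right ha
      refine ⟨n, by rw [Multiset.sum_cons, h1, ha0, zero_add], fun h => h2 ?_⟩
      rcases Multiset.mem_cons.1 h with h3 | h3
      · exact absurd h3.symm ha
      · exact h3

/-- a monic polynomial whose reduction has the roots `0` and `γ ≠ 0` -/
private theorem coeff_unit (h : IsFF κ K) (v : Place κ K) (f : K[X]) (hm : f.Monic)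
    (hd : 0 < f.natDegree) {γ : κ} (hγ : γ ≠ 0)
    (hf : ∀ c : κ, v.1 (f.eval (algebraMap κ K c)) ≤ 1)
    (hf1 : ∀ c : κ, c ≠ 0 → c ≠ γ → v.1 (f.eval (algebraMap κ K c)) = 1)
    (hf2 : v.1 (f.eval (algebraMap κ K γ)) < 1) :
    v.1 (f.coeff (f.natDegree - 1)) = 1 := by
  obtain ⟨q, h1, h2, h3⟩ := red h v f (coeff_le h v f hf)
  have hq1 : q.coeff f.natDegree = 1 := by
    have h4 := h1 f.natDegree
    rw [hm.coeff_natDegree, ← (algebraMap κ K).map_one, ← map_sub] at h4
    have h5 := pl_lt v h4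
    exact (sub_eq_zero.1 h5).symm
  have hqm : q.Monic := monic_of_natDegree_le_of_coeff_eq_one _ h2 hq1
  have hqd : q.natDegree = f.natDegree := by
    apply le_antisymm h2
    apply le_natDegree_of_ne_zero
    rw [hq1]
    exact one_ne_zero
  have hroot : ∀ c, q.eval c = 0 → c = 0 ∨ c = γ := by
    intro c hc
    by_contra hc0
    push Not at hc0
    have h4 := h3 c
    rw [hc, map_zero, sub_zero, hf1 c hc0.1 hc0.2] at h4
    exact lt_irrefl _ h4
  have hrγ : q.eval γ = 0 := by
    apply pl_lt v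
    have h4 := h3 γ
    have h5 : algebraMap κ K (q.eval γ) = f.eval (algebraMap κ K γ) -
        (f.eval (algebraMap κ K γ) - algebraMap κ K (q.eval γ)) := by ring
    rw [h5]
    exact v.1.map_sub_lt hf2 h4
  obtain ⟨n, h6, h7⟩ := sum_two γ q.roots fun c hc => hroot c (Polynomial.isRoot_of_mem_roots hc)
  have hn : 1 ≤ n := h7 ((Polynomial.mem_roots hqm.ne_zero).2 hrγ)
  have h8 := (IsAlgClosed.splits q).nextCoeff_eq_neg_sum_roots_of_monic hqm
  rw [Polynomial.nextCoeff_of_natDegree_pos (by rw [hqd]; exact hd), h6, hqd] at h8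
  have h9 : q.coeff (f.natDegree - 1) ≠ 0 := by
    rw [h8]
    refine neg_ne_zero.2 (mul_ne_zero ?_ hγ)
    exact_mod_cast (by omega : n ≠ 0)
  have h10 : v.1 (algebraMap κ K (q.coeff (f.natDegree - 1))) = 1 := v.2.2 _ h9
  have h11 := h1 (f.natDegree - 1)
  refine (Valuation.map_eq_of_sub_lt v.1 (h11.trans_eq h10.symm)).trans h10

end Red

end Aux

variable {κ K L : Type*} [Field κ] [IsAlgClosed κ] [CharZero κ] [Field K] [Algebra κ K]
  [Field L] [Algebra κ L] [Algebra K L] [IsScalarTower κ K L] [FiniteDimensional K L]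

private theorem norm_form (h : IsFF κ K) (v : Place κ K) :
    ∃ S : Finset (Place κ L), (∀ w, w ∈ S ↔ below K w = v) ∧
    (∀ y : L, y ≠ 0 → log (v.1 (Algebra.norm K y)) = ∑ w ∈ S, log (w.1 y)) := by
  refine (h.of_finite (L := L)).ind ?_
  intro _ _ _ _ _ _ _ _ _
  obtain ⟨S, h1, h2, -⟩ := local_main (L := L) v
  exact ⟨S, h1, h2⟩

/-- The trace of an element which is a unit at one place over `v` and small at the others.
Proof (as `trace_lt`, GR7; copy the private lemmas `red`, `coeff_le`, `norm_form` if needed).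
Let `f` be the characteristic polynomial of `u` (`f (c) = norm (c - u)` for `c : κ`), `γ ≠ 0` the
residue of `u` at `w₀`. `v (f c) = ∏ w (c - u)` (norm formula) is `≤ 1` for all `c : κ`, `= 1` for
`c ≠ 0, γ`, and `< 1` for `c = γ`. So `f` has integral coefficients (`coeff_le`) and a reduction
`q : κ[X]` (`red`), monic of degree `D = finrank`, whose roots are in `{0, γ}` and `q γ = 0`; so
`q = X ^ a * (X - γ) ^ b` with `b ≥ 1` (`κ` algebraically closed) and the coefficient of degree
`D - 1` of `q` is `- b γ ≠ 0` (characteristic zero). Hence `v (trace u) = v (coeff f (D-1)) = 1`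
(`Matrix.trace_eq_neg_charpoly_coeff`). -/
theorem trace_unit (h : IsFF κ K) (v : Place κ K) {u : L} {w₀ : Place κ L}
    (hw₀ : below K w₀ = v) (h1 : w₀.1 u = 1)
    (h2 : ∀ w : Place κ L, below K w = v → w ≠ w₀ → w.1 u < 1) :
    v.1 (Algebra.trace K L u) = 1 := by
  classical
  obtain ⟨S, hS, hN⟩ := norm_form (L := L) h v
  obtain ⟨γ, hγ⟩ := (h.of_finite (L := L)).place_residue w₀ h1.le
  have hγ0 : γ ≠ 0 := by
    rintro rfl
    rw [map_zero, sub_zero, h1] at hγ
    exact lt_irrefl _ hγ
  let b := Module.finBasis K L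
  set M := Algebra.leftMulMatrix b u with hM
  have hn : 0 < Module.finrank K L := Module.finrank_pos
  have hne : Nonempty (Fin (Module.finrank K L)) := ⟨⟨0, hn⟩⟩
  have heval : ∀ c : κ, M.charpoly.eval (algebraMap κ K c) =
      Algebra.norm K (algebraMap κ L c - u) := by
    intro c
    rw [Matrix.eval_charpoly, Algebra.norm_eq_matrix_det b, map_sub,
      IsScalarTower.algebraMap_apply κ K L, AlgHom.commutes]
    rfl
  have hle : ∀ (c : κ) (w : Place κ L), below K w = v → w.1 (algebraMap κ L c - u) ≤ 1 := by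
    intro c w hw
    refine (w.1.map_sub _ _).trans (max_le ?_ ?_)
    · by_cases hc : c = 0
      · rw [hc, map_zero, map_zero]
        exact zero_le_one
      · exact (w.2.2 c hc).le
    · by_cases hww : w = w₀
      · rw [hww, h1]
      · exact (h2 w hw hww).le
  have h0 : ∀ c : κ, v.1 (M.charpoly.eval (algebraMap κ K c)) ≤ 1 := by
    intro c
    rw [heval]
    by_cases hy0 : algebraMap κ L c - u = 0
    · rw [hy0, Algebra.norm_zero, map_zero]
      exact zero_le_one
    have h6 : v.1 (Algebra.norm K (algebraMap κ L c - u)) ≠ 0 :=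
      (v.1.ne_zero_iff).2 (Algebra.norm_ne_zero_iff.2 hy0)
    apply le_one_of_log h6
    rw [hN _ hy0]
    refine Finset.sum_nonpos fun w hw => ?_
    exact log_nonpos' ((w.1.ne_zero_iff).2 hy0) (hle c w ((hS w).1 hw))
  have hγ' : ∀ c : κ, c ≠ γ → w₀.1 (algebraMap κ L c - u) = 1 := by
    intro c hc
    have h3 : algebraMap κ L c - u = algebraMap κ L (c - γ) - (u - algebraMap κ L γ) := by
      rw [map_sub]
      ring
    have h4 : w₀.1 (algebraMap κ L (c - γ)) = 1 := w₀.2.2 _ (sub_ne_zero.2 hc)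
    rw [h3, Valuation.map_sub_eq_of_lt_left, h4]
    rw [h4]
    exact hγ
  have h3 : ∀ c : κ, c ≠ 0 → c ≠ γ → v.1 (M.charpoly.eval (algebraMap κ K c)) = 1 := by
    intro c hc hcγ
    have hw : ∀ w : Place κ L, below K w = v → w.1 (algebraMap κ L c - u) = 1 := by
      intro w hw
      by_cases hww : w = w₀
      · rw [hww]
        exact hγ' c hcγ
      · have h2' : w.1 u < w.1 (algebraMap κ L c) := by
          rw [w.2.2 c hc]
          exact h2 w hw hww
        rw [Valuation.map_sub_eq_of_lt_left _ h2', w.2.2 c hc]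
    have hy0 : algebraMap κ L c - u ≠ 0 := by
      intro h3
      have h4 := hw w₀ hw₀
      rw [h3, map_zero] at h4
      exact zero_ne_one h4
    have h5 := hN _ hy0
    rw [Finset.sum_eq_zero (fun w hw' => by rw [hw w ((hS w).1 hw'), log_one])] at h5
    rw [heval]
    have h6 : v.1 (Algebra.norm K (algebraMap κ L c - u)) ≠ 0 :=
      (v.1.ne_zero_iff).2 (Algebra.norm_ne_zero_iff.2 hy0)
    rw [← exp_log h6, h5, exp_zero]
  have h4 : v.1 (M.charpoly.eval (algebraMap κ K γ)) < 1 := by
    rw [heval]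
    by_cases hy0 : algebraMap κ L γ - u = 0
    · rw [hy0, Algebra.norm_zero, map_zero]
      exact zero_lt_one
    have h6 : v.1 (Algebra.norm K (algebraMap κ L γ - u)) ≠ 0 :=
      (v.1.ne_zero_iff).2 (Algebra.norm_ne_zero_iff.2 hy0)
    have h7 : w₀.1 (algebraMap κ L γ - u) < 1 := by
      rw [← Valuation.map_neg, neg_sub]
      exact hγ
    have h8 : log (w₀.1 (algebraMap κ L γ - u)) < 0 :=
      ((log_lt_log ((w₀.1.ne_zero_iff).2 hy0) one_ne_zero).2 h7).trans_eq log_one
    have h9 : log (v.1 (Algebra.norm K (algebraMap κ L γ - u))) < 0 := by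
      rw [hN _ hy0]
      rw [← Finset.add_sum_erase S _ ((hS w₀).2 hw₀)]
      have h10 : ∑ w ∈ S.erase w₀, log (w.1 (algebraMap κ L γ - u)) ≤ 0 := by
        refine Finset.sum_nonpos fun w hw => ?_
        exact log_nonpos' ((w.1.ne_zero_iff).2 hy0)
          (hle γ w ((hS w).1 (Finset.mem_of_mem_erase hw)))
      linarith
    calc v.1 (Algebra.norm K (algebraMap κ L γ - u))
        = exp (log (v.1 (Algebra.norm K (algebraMap κ L γ - u)))) := (exp_log h6).symm
      _ < exp 0 := exp_lt_exp.2 h9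
      _ = 1 := exp_zero
  have hd : M.charpoly.natDegree = Module.finrank K L := by
    rw [Matrix.charpoly_natDegree_eq_dim, Fintype.card_fin]
  have h8 := coeff_unit h v M.charpoly M.charpoly_monic (by rw [hd]; exact hn) hγ0 h0 h3 h4
  have h9 : M.charpoly.natDegree - 1 = Fintype.card (Fin (Module.finrank K L)) - 1 := by
    rw [hd, Fintype.card_fin]
  rw [h9] at h8
  rw [Algebra.trace_eq_matrix_trace b, Matrix.trace_eq_neg_charpoly_coeff, Valuation.map_neg]
  exact h8

end Pool.Agent.Lib.MP_44a246_ntO
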