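import Mathlib
import Pool.Agent.Lib.MP_44a246_ntO.OG0
import Pool.Agent.Lib.MP_44a246_ntO.OG4a

/-!
The dual of the integral elements for the trace form.
-/

namespace Pool.Agent.Lib.MP_44a246_ntO

open Pool.Agent.Lib.MP_44a246_nt
open Pool.Agent.Lib.MP_44a246_ntL
open Pool.Agent.Lib.MP_44a246_ntR
open WithZero Module

variable {κ K L : Type*} [Field κ] [IsAlgClosed κ] [CharZero κ] [Field K] [Algebra κ K]
  [Field L] [Algebra κ L] [Algebra K L] [IsScalarTower κ K L] [FiniteDimensional K L]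

/-- The dual of the integral elements. Proof: let `π : K`, `v π = exp (-1)`, and suppose
`w₀ y > exp (e m + e - 1)`, `e = ramIdx K w₀`, i.e. `w₀ (y π^m) ≥ exp e` (`below_pow`). Let `S` be the
finite set of the places over `v` (`overFin`, or the set `S` of `local_main` / `exists_over`), choose
`f` by `exists_approx` with `w₀ f = exp (e - log (w₀ (y π^m))) ≤ 1` and, for the other `w ∈ S`,
`w f ≤ exp N` with `N` so small that `w f ≤ 1` and `w (y π^(m+1) f) < 1`. Then `u := y * π^(m+1) * f`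
has `w₀ u = 1` and `w u < 1` for the other `w`: `trace_unit` gives `v (trace u) = 1`, but
`trace u = π^(m+1) * trace (y f)` has `v ≤ exp (-(m+1)) * exp m < 1`. -/
theorem dual_bound (h : IsFF κ K) (v : Place κ K) {y : L} {m : ℤ}
    (hy : ∀ f : L, (∀ w : Place κ L, below K w = v → w.1 f ≤ 1) →
      v.1 (Algebra.trace K L (y * f)) ≤ exp m) (w₀ : Place κ L) (hw₀ : below K w₀ = v) :
    w₀.1 y ≤ exp ((ramIdx K w₀.1 : ℤ) * m + ((ramIdx K w₀.1 - 1 : ℕ) : ℤ)) := by
  classical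
  have hL : IsFF κ L := h.of_finite
  by_contra hcon
  push Not at hcon
  have he := one_le_ramIdx (K := K) w₀.1 w₀.2.1
  set e := ramIdx K w₀.1 with hedef
  have hy0 : y ≠ 0 := by
    rintro rfl
    rw [map_zero] at hcon
    exact absurd hcon (not_lt.mpr zero_le)
  have hwy : w₀.1 y ≠ 0 := (Valuation.ne_zero_iff w₀.1).mpr hy0
  set l := log (w₀.1 y) with hl
  have hyl : w₀.1 y = exp l := (exp_log hwy).symm
  have hlb : (e : ℤ) * m + e ≤ l := by
    rw [hyl, exp_lt_exp] at hcon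
    have : ((e - 1 : ℕ) : ℤ) = (e : ℤ) - 1 := by
      push_cast [Nat.cast_sub he]
      ring
    rw [this] at hcon
    omega
  obtain ⟨π, hπ⟩ := v.2.1 (exp (-1 : ℤ))
  have hπ0 : π ≠ 0 := by
    rintro rfl
    rw [map_zero] at hπ
    exact exp_ne_zero hπ.symm
  have hπL : w₀.1 (algebraMap K L π) = exp (-(e : ℤ)) := by
    rw [below_pow, hw₀, hπ, ← exp_nsmul, nsmul_eq_mul]
    congr 1
    ring
  set g : L := algebraMap K L (π ^ (m + 1)) * y with hg
  have hg0 : g ≠ 0 := mul_ne_zero ((_root_.map_ne_zero _).mpr (zpow_ne_zero _ hπ0)) hy0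
  have hwg : w₀.1 g = exp (l - (e : ℤ) * (m + 1)) := by
    rw [hg, map_mul, map_zpow₀, map_zpow₀, hπL, hyl, ← exp_zsmul, ← exp_add]
    congr 1
    simp only [smul_eq_mul]
    ring
  obtain ⟨S, -, hS, -⟩ := hL.exists_over (K := K) v
  set N : ℤ := -(∑ w ∈ S, |log (w.1 g)|) - 1 with hN
  have hN1 : ∀ w ∈ S, log (w.1 g) + N < 0 := by
    intro w hw
    have h1 : |log (w.1 g)| ≤ ∑ w ∈ S, |log (w.1 g)| :=
      Finset.single_le_sum (f := fun w : Place κ L => |log (w.1 g)|)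
        (fun _ _ => abs_nonneg _) hw
    have h2 := le_abs_self (log (w.1 g))
    omega
  have hN0 : N ≤ 0 := by
    have h1 : 0 ≤ ∑ w ∈ S, |log (w.1 g)| := Finset.sum_nonneg fun _ _ => abs_nonneg _
    omega
  obtain ⟨f, hf0, hf⟩ := exists_approx hL w₀ S ((e : ℤ) * (m + 1) - l) N
  have hu1 : w₀.1 (g * f) = 1 := by
    rw [map_mul, hwg, hf0, ← exp_add]
    have h9 : l - (e : ℤ) * (m + 1) + ((e : ℤ) * (m + 1) - l) = 0 := by ring
    rw [h9, exp_zero]
  have hu2 : ∀ w : Place κ L, below K w = v → w ≠ w₀ → w.1 (g * f) < 1 := by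
    intro w hw hne
    have hwS := (hS w).mpr hw
    have h1 := hf w hwS hne
    have h2 := hN1 w hwS
    have h3 : w.1 g ≠ 0 := (Valuation.ne_zero_iff w.1).mpr hg0
    rw [map_mul]
    calc w.1 g * w.1 f ≤ w.1 g * exp N := mul_le_mul' le_rfl h1
      _ = exp (log (w.1 g) + N) := by rw [exp_add, exp_log h3]
      _ < exp (0 : ℤ) := exp_lt_exp.mpr h2
      _ = 1 := exp_zero
  have hf1 : ∀ w : Place κ L, below K w = v → w.1 f ≤ 1 := by
    intro w hw
    by_cases hne : w = w₀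
    · rw [hne, hf0]
      exact (exp_le_exp.mpr (by nlinarith)).trans_eq exp_zero
    · exact ((hf w ((hS w).mpr hw) hne).trans (exp_le_exp.mpr hN0)).trans_eq exp_zero
  have h1 := trace_unit h v hw₀ hu1 hu2
  have h2 : Algebra.trace K L (g * f) = π ^ (m + 1) * Algebra.trace K L (y * f) := by
    have h3 : g * f = (π ^ (m + 1)) • (y * f) := by
      rw [hg, Algebra.smul_def, mul_assoc]
    rw [h3, map_smul, smul_eq_mul]
  rw [h2, map_mul, map_zpow₀, hπ, ← exp_zsmul] at h1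
  have h3 := hy f hf1
  have h4 : exp ((m + 1) • (-1 : ℤ)) * v.1 (Algebra.trace K L (y * f)) ≤
      exp ((m + 1) • (-1 : ℤ)) * exp m := mul_le_mul' le_rfl h3
  rw [h1, ← exp_add] at h4
  have h5 : exp (0 : ℤ) ≤ exp ((m + 1) • (-1 : ℤ) + m) := exp_zero.trans_le h4
  rw [exp_le_exp] at h5
  simp only [smul_eq_mul] at h5
  omega

end Pool.Agent.Lib.MP_44a246_ntO
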