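import Mathlib
import Pool.Agent.Lib.MP_44a246_ntO.OG2
import Pool.Agent.Lib.MP_44a246_ntO.OG3
import Pool.Agent.Lib.MP_44a246_ntO.OG4

/-!
The orders of the poles of a minimal basis are bounded by the ramification.
-/

namespace Pool.Agent.Lib.MP_44a246_ntO

open Pool.Agent.Lib.MP_44a246_nt
open Pool.Agent.Lib.MP_44a246_ntL
open Pool.Agent.Lib.MP_44a246_ntR
open WithZero Module

variable {κ L : Type*} [Field κ] [Field L] [Algebra κ L] [Algebra (RatFunc κ) L]
  [IsScalarTower κ (RatFunc κ) L] [IsAlgClosed κ] [CharZero κ] [FiniteDimensional (RatFunc κ) L]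

variable (κ L) in
private theorem exists_ramDiv' : ∃ R : Place κ L →₀ ℤ,
    (∀ w : Place κ L, R w = ((ramIdx (RatFunc κ) w.1 - 1 : ℕ) : ℤ)) ∧
      divDeg R = ramDeg κ L (RatFunc κ) := by
  classical
  have hFF := isFF_of_ratFunc κ L
  have hfin : {v : Place κ L | ramIdx (RatFunc κ) v.1 ≠ 1}.Finite := hFF.ramIdx_finite
  have hs : ∀ v : Place κ L, ramIdx (RatFunc κ) v.1 - 1 ≠ 0 → v ∈ hfin.toFinset := by
    intro v hv
    rw [Set.Finite.mem_toFinset]
    intro h
    rw [h] at hv
    exact hv rfl
  refine ⟨Finsupp.onFinset hfin.toFinset (fun w => ((ramIdx (RatFunc κ) w.1 - 1 : ℕ) : ℤ))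
    (fun v hv => hs v (by exact_mod_cast hv)), fun w => rfl, ?_⟩
  unfold divDeg ramDeg
  rw [Finsupp.onFinset_sum _ (fun _ => rfl), finsum_eq_sum_of_support_subset (s := hfin.toFinset)]
  · push_cast
    rfl
  · intro v hv
    exact hs v hv

omit [Algebra (RatFunc κ) L] [IsScalarTower κ (RatFunc κ) L] [IsAlgClosed κ] [CharZero κ]
  [FiniteDimensional (RatFunc κ) L] in
private theorem divDeg_nsmul' (m : ℕ) (D : Place κ L →₀ ℤ) : divDeg (m • D) = m * divDeg D := by
  induction m with
  | zero =>
    rw [zero_smul, Nat.cast_zero, zero_mul]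
    rfl
  | succ m ih =>
    rw [succ_nsmul, divDeg_add, ih]
    push_cast
    ring

/-- The orders of the poles of a minimal basis. Proof: let `b` be the basis of `L` over `RatFunc κ`
given by `y` (independent, cardinality `finrank`) and `z j` the dual basis for the trace form
(`(Algebra.traceForm (RatFunc κ) L).dualBasis`, `traceForm_nondegenerate`, see `ramDeg_le` in GR9):
for `f = ∑ φ i • y i`, `trace (z j * f) = φ j`. At a finite place `v` (`v X ≤ 1`): `coeff_finite` and
`dual_bound` with `m = 0`: `w (z j) ≤ exp (e_w - 1)`. At the infinite place (`ratFunc_infty`)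
`coeff_infty` and `dual_bound` with `m = - A j`: `w (z j) ≤ exp (- e_w A j + e_w - 1)`, and
`P w = e_w` there, `P w = 0` at the other places. Product formula for `z j ≠ 0`:
`0 ≤ ramDeg - A j * divDeg P`, `hP.deg`. -/
theorem IsMin.pole_le {P : Place κ L →₀ ℤ} (hP : IsPole P)
    {A : Fin (finrank (RatFunc κ) L) → ℕ} {y : Fin (finrank (RatFunc κ) L) → L}
    (hmin : IsMin P A y) (j : Fin (finrank (RatFunc κ) L)) :
    A j * finrank (RatFunc κ) L ≤ ramDeg κ L (RatFunc κ) := by
  classical
  have hFF := isFF_of_ratFunc κ L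
  obtain ⟨R, hR, hRdeg⟩ := exists_ramDiv' κ L
  have : Nonempty (Fin (finrank (RatFunc κ) L)) := ⟨j⟩
  let b : Basis (Fin (finrank (RatFunc κ) L)) (RatFunc κ) L :=
    basisOfLinearIndependentOfCardEqFinrank hmin.ind (by rw [Fintype.card_fin])
  have hb : ∀ i, b i = y i := fun i => by
    simp only [b, coe_basisOfLinearIndependentOfCardEqFinrank]
  have hB : (Algebra.traceForm (RatFunc κ) L).Nondegenerate := traceForm_nondegenerate _ _
  let bd := (Algebra.traceForm (RatFunc κ) L).dualBasis hB b
  have htr : ∀ f : L, Algebra.trace (RatFunc κ) L (bd j * f) = b.repr f j := by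
    intro f
    have h1 : ∀ i, Algebra.trace (RatFunc κ) L (bd j * b i) = if i = j then 1 else 0 := by
      intro i
      have h2 := LinearMap.BilinForm.apply_dualBasis_left hB b j i
      rw [Algebra.traceForm_apply] at h2
      exact h2
    conv_lhs => rw [← b.sum_repr f]
    rw [Finset.mul_sum, map_sum]
    have h3 : ∀ i, Algebra.trace (RatFunc κ) L (bd j * (b.repr f i • b i)) =
        if i = j then b.repr f i else 0 := by
      intro i
      rw [mul_smul_comm, map_smul, h1, smul_eq_mul, mul_ite, mul_one, mul_zero]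
    rw [Finset.sum_congr rfl fun i _ => h3 i, Finset.sum_ite_eq' Finset.univ j]
    simp
  have hsum : ∀ f : L, ∑ i, b.repr f i • y i = f := by
    intro f
    have := b.sum_repr f
    simpa only [hb] using this
  have hz0 : bd j ≠ 0 := bd.ne_zero j
  obtain ⟨vi, hvi, hvi'⟩ := ratFunc_infty (κ := κ)
  set D : Place κ L →₀ ℤ := R - A j • P with hD
  have hmem : bd j ∈ rr D := by
    intro w
    have hpow : w.1 (tL κ L) = (below (RatFunc κ) w).1 RatFunc.X ^ ramIdx (RatFunc κ) w.1 :=
      below_pow w _
    have hDw : D w = R w - A j * P w := by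
      rw [hD, Finsupp.sub_apply, Finsupp.smul_apply, nsmul_eq_mul]
    by_cases hw : below (RatFunc κ) w = vi
    · have h1 := dual_bound (isFF_ratFunc κ) vi (y := bd j) (m := -(A j : ℤ)) (by
        intro f hf
        rw [htr]
        exact hmin.coeff_infty hP hvi (φ := fun i => b.repr f i)
          (fun w' hw' => by rw [hsum]; exact hf w' hw') j) w hw
      have hPw : P w = (ramIdx (RatFunc κ) w.1 : ℤ) := by
        rw [hP w, hpow, hw, hvi, log_pow, log_exp, nsmul_eq_mul, mul_one]
        exact max_eq_right (Nat.cast_nonneg _)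
      refine h1.trans ?_
      rw [exp_le_exp, hDw, hR, hPw]
      apply le_of_eq
      ring
    · have hfin := hvi' _ hw
      have h1 := dual_bound (isFF_ratFunc κ) (below (RatFunc κ) w) (y := bd j) (m := 0) (by
        intro f hf
        rw [htr, exp_zero]
        exact hmin.coeff_finite hP hfin (φ := fun i => b.repr f i)
          (fun w' hw' => by rw [hsum]; exact hf w' hw') j) w rfl
      have hPw : P w = 0 := by
        rw [hP w, hpow, log_pow, nsmul_eq_mul]
        have h5 := (log_le_log ((Valuation.ne_zero_iff (below (RatFunc κ) w).1).mpr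
          RatFunc.X_ne_zero) one_ne_zero).2 hfin
        rw [log_one] at h5
        exact max_eq_left (mul_nonpos_of_nonneg_of_nonpos (Nat.cast_nonneg _) h5)
      refine h1.trans ?_
      rw [exp_le_exp, hDw, hR, hPw]
      apply le_of_eq
      ring
  have hdeg : divDeg R = divDeg D + divDeg (A j • P) := by
    rw [← divDeg_add, hD, sub_add_cancel]
  rw [divDeg_nsmul', hP.deg, hRdeg] at hdeg
  by_contra hcon
  push Not at hcon
  have hneg : divDeg D < 0 := by
    have h1 : (ramDeg κ L (RatFunc κ) : ℤ) < (A j : ℤ) * finrank (RatFunc κ) L := by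
      exact_mod_cast hcon
    linarith
  rw [rr_of_neg hFF hneg, Submodule.mem_bot] at hmem
  exact hz0 hmem

end Pool.Agent.Lib.MP_44a246_ntO
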