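import Mathlib
import Pool.Agent.Lib.MP_44a246_ntO.OG5

/-!
The genus is bounded by the ramification.
-/

namespace Pool.Agent.Lib.MP_44a246_ntO

open Pool.Agent.Lib.MP_44a246_nt
open Pool.Agent.Lib.MP_44a246_ntL
open Pool.Agent.Lib.MP_44a246_ntR
open WithZero Module

variable {κ L : Type*} [Field κ] [Field L] [Algebra κ L] [Algebra (RatFunc κ) L]
  [IsScalarTower κ (RatFunc κ) L] [IsAlgClosed κ] [CharZero κ] [FiniteDimensional (RatFunc κ) L]

private theorem og6_sum_le {P : Place κ L →₀ ℤ} (hP : IsPole P)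
    {A : Fin (finrank (RatFunc κ) L) → ℕ} {y : Fin (finrank (RatFunc κ) L) → L}
    (hmin : IsMin P A y) : ∑ j, A j ≤ ramDeg κ L (RatFunc κ) := by
  have hn : 0 < finrank (RatFunc κ) L := finrank_pos
  have h1 : (∑ j, A j) * finrank (RatFunc κ) L ≤
      ramDeg κ L (RatFunc κ) * finrank (RatFunc κ) L := by
    rw [Finset.sum_mul]
    refine (Finset.sum_le_card_nsmul _ _ (ramDeg κ L (RatFunc κ))
      (fun j _ => hmin.pole_le hP j)).trans ?_
    rw [Finset.card_univ, Fintype.card_fin, smul_eq_mul, Nat.mul_comm]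
  exact Nat.le_of_mul_le_mul_right h1 hn

/-- `X ^ i • y j`, `i ≤ N - A j`, are independent over `κ` (compare `gr4_lower`) and
`∑ A j ≤ ramDeg` by `IsMin.pole_le` (`finrank` terms, each at most `ramDeg / finrank`). Let
`n = finrank`. For `N ≥ all A j`: `finrank (rr (N • P)) ≥ n (N + 1) - ∑ A j`; for smaller `N` it
still holds (replace `N - A j + 1` by `0` if negative). -/
theorem finrank_pole_ge {P : Place κ L →₀ ℤ} (hP : IsPole P) (N : ℕ) :
    (finrank (RatFunc κ) L : ℤ) * (N + 1) - ramDeg κ L (RatFunc κ) ≤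
      finrank κ (rr (N • P)) := by
  obtain ⟨A, y, hmin⟩ := exists_min hP
  have hF : IsFF κ L := isFF_of_ratFunc κ L
  have hfd : FiniteDimensional κ (rr (N • P)) := finite_rr hF _
  have hy := hmin.ind
  have h1 : LinearIndependent κ fun p : ℕ × Fin (finrank (RatFunc κ) L) =>
      (RatFunc.X : RatFunc κ) ^ p.1 • y p.2 := linearIndependent_smul gr4_pow_indep hy
  have h2 : LinearIndependent κ fun p : (Σ j : Fin (finrank (RatFunc κ) L), Fin (N + 1 - A j)) =>
      (RatFunc.X : RatFunc κ) ^ (p.2 : ℕ) • y p.1 := by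
    have h3 := h1.comp (fun p : (Σ j : Fin (finrank (RatFunc κ) L), Fin (N + 1 - A j)) =>
      ((p.2 : ℕ), p.1)) (by
        rintro ⟨a1, a2⟩ ⟨b1, b2⟩ hab
        simp only [Prod.mk.injEq] at hab
        obtain ⟨hab1, hab2⟩ := hab
        subst hab2
        rw [Fin.ext hab1])
    exact h3
  have hmem : ∀ p : (Σ j : Fin (finrank (RatFunc κ) L), Fin (N + 1 - A j)),
      (RatFunc.X : RatFunc κ) ^ (p.2 : ℕ) • y p.1 ∈ rr (N • P) := by
    intro p v
    apply gr4_le_exp
    intro _
    have hy0 : y p.1 ≠ 0 := hy.ne_zero p.1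
    have ht : tL κ L ≠ 0 := by
      unfold tL
      intro h
      exact RatFunc.X_ne_zero ((algebraMap (RatFunc κ) L).injective (h.trans (map_zero _).symm))
    have e1 : (RatFunc.X : RatFunc κ) ^ (p.2 : ℕ) • y p.1 = tL κ L ^ (p.2 : ℕ) * y p.1 := by
      rw [Algebra.smul_def, map_pow]
      rfl
    have hv1 : v.1 (tL κ L) ≠ 0 := (v.1.ne_zero_iff).mpr ht
    have hv2 : v.1 (y p.1) ≠ 0 := (v.1.ne_zero_iff).mpr hy0
    rw [e1, map_mul, map_pow, log_mul (pow_ne_zero _ hv1) hv2, log_pow]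
    have h4 : log (v.1 (y p.1)) ≤ (A p.1 : ℤ) * P v := by
      have h5 := hmin.mem p.1 v
      have h6 : (A p.1 • P) v = (A p.1 : ℤ) * P v := by simp
      rw [h6, ← exp_log hv2, exp_le_exp] at h5
      exact h5
    have h5 : log (v.1 (tL κ L)) ≤ P v := by
      rw [hP v]
      exact le_max_right _ _
    have h6 : ((p.2 : ℕ) : ℤ) + A p.1 ≤ N := by
      have := p.2.2
      omega
    have h7 := hP.nonneg v
    have h8 : (N • P) v = (N : ℤ) * P v := by
      simp
    rw [h8]
    have h9 : ((p.2 : ℕ) : ℤ) * log (v.1 (tL κ L)) ≤ ((p.2 : ℕ) : ℤ) * P v :=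
      mul_le_mul_of_nonneg_left h5 (by omega)
    have h10 : (((p.2 : ℕ) : ℤ) + A p.1) * P v ≤ N * P v := mul_le_mul_of_nonneg_right h6 h7
    rw [nsmul_eq_mul]
    linarith
  have h3 : LinearIndependent κ fun p : (Σ j : Fin (finrank (RatFunc κ) L), Fin (N + 1 - A j)) =>
      (⟨(RatFunc.X : RatFunc κ) ^ (p.2 : ℕ) • y p.1, hmem p⟩ : rr (N • P)) := by
    apply LinearIndependent.of_comp (Submodule.subtype _)
    exact h2
  have h4 := h3.fintype_card_le_finrank
  rw [Fintype.card_sigma] at h4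
  simp only [Fintype.card_fin] at h4
  have h5 : finrank (RatFunc κ) L * (N + 1) ≤ (∑ j, (N + 1 - A j)) + ∑ j, A j := by
    rw [← Finset.sum_add_distrib]
    have h6 : ∑ _j : Fin (finrank (RatFunc κ) L), (N + 1) ≤ ∑ j, (N + 1 - A j + A j) :=
      Finset.sum_le_sum fun j _ => by omega
    rw [Finset.sum_const, Finset.card_univ, Fintype.card_fin, smul_eq_mul] at h6
    exact h6
  have h6 := og6_sum_le hP hmin
  have h7 : (finrank (RatFunc κ) L * (N + 1) : ℕ) ≤
      finrank κ (rr (N • P)) + ramDeg κ L (RatFunc κ) := by omega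
  have h8 : ((finrank (RatFunc κ) L * (N + 1) : ℕ) : ℤ) ≤
      ((finrank κ (rr (N • P)) + ramDeg κ L (RatFunc κ) : ℕ) : ℤ) := by exact_mod_cast h7
  push_cast at h8
  linarith

/-- The genus is at most the degree of the ramification divisor: `genus` is the least `g` (`sInf`,
`Nat.sInf_le`), so it is enough to show `divDeg D + 1 - ramDeg ≤ finrank (rr D)` for all `D`; as in
the proof of `gr4_riemann`: `clear_poles`, `rr_shift`, `finrank_rr_le`, `finrank_pole_ge`,
`hP.deg`. -/
theorem genus_le_ramDeg : genus κ L ≤ ramDeg κ L (RatFunc κ) := by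
  have hF : IsFF κ L := isFF_of_ratFunc κ L
  obtain ⟨P, hP⟩ := exists_pole κ L
  have hdeg : ∀ m : ℕ, divDeg (m • P) = m * Module.finrank (RatFunc κ) L := by
    intro m
    induction m with
    | zero => simp [divDeg]
    | succ k ih =>
      rw [succ_nsmul, divDeg_add, ih, hP.deg]
      push_cast
      ring
  refine Nat.sInf_le (s := {g : ℕ | ∀ D : Place κ L →₀ ℤ,
    divDeg D + 1 - g ≤ Module.finrank κ (rr D)}) ?_
  intro D
  obtain ⟨p, hp, m, hm⟩ := clear_poles hP D
  obtain ⟨D', hD', hdeg', hfr⟩ := rr_shift hF D (gr4_pL_ne (L := L) hp)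
  have hle : D' ≤ m • P := by
    intro v
    rw [hD' v]
    have := hm v
    simpa using this
  have h1 := finrank_rr_le hF hle
  rw [hdeg m, hdeg', hfr] at h1
  have h2 := finrank_pole_ge hP m
  have hn : (1 : ℤ) ≤ finrank (RatFunc κ) L := by
    have : 0 < finrank (RatFunc κ) L := finrank_pos
    exact_mod_cast this
  linarith

end Pool.Agent.Lib.MP_44a246_ntO
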