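import Mathlib
import Pool.Agent.Lib.MP_44a246_ntO.OG6
import Pool.Agent.Lib.MP_44a246_ntR.GR5
import Pool.Agent.Lib.MP_44a246_ntL.LTrans

/-!
The genus of the finite extensions of a function field.
-/

namespace Pool.Agent.Lib.MP_44a246_ntO

open Pool.Agent.Lib.MP_44a246_nt
open Pool.Agent.Lib.MP_44a246_ntL
open Pool.Agent.Lib.MP_44a246_ntR
open WithZero Module

/-- The genus of the finite extensions. Proof: `hK` gives `t : K` transcendental; `with_ratFunc`
(GR5) gives the structure of a finite extension of `RatFunc κ` on `K`; put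
`Algebra (RatFunc κ) L := ((algebraMap K L).comp (algebraMap (RatFunc κ) K)).toAlgebra` (towers!).
`genus_le_ramDeg` for `L`, and `ramDeg_trans` (LTrans) for `RatFunc κ ⊆ K ⊆ L` bounds
`ramDeg κ L (RatFunc κ)` by `ramDeg κ L K` and `finrank K L * ramDeg κ K (RatFunc κ)` (see the exact
statement there; the factor of `ramDeg κ L K` is bounded by `finrank (RatFunc κ) K`). -/
theorem exists_genus_le {κ K : Type*} [Field κ] [IsAlgClosed κ] [CharZero κ] [Field K]
    [Algebra κ K] (hK : IsFF κ K) :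
    ∃ C : ℕ, ∀ (L : Type*) [Field L] [Algebra κ L] [Algebra K L] [IsScalarTower κ K L]
      [FiniteDimensional K L], genus κ L ≤ C * (finrank K L + ramDeg κ L K) := by
  obtain ⟨t, ht, -⟩ := id hK
  refine with_ratFunc hK ht ?_
  intro iA iT iF _
  refine ⟨1 + ramDeg κ K (RatFunc κ), ?_⟩
  intro L _ _ _ _ _
  let iL : Algebra (RatFunc κ) L :=
    ((algebraMap K L).comp (algebraMap (RatFunc κ) K)).toAlgebra
  have t1 : IsScalarTower (RatFunc κ) K L := IsScalarTower.of_algebraMap_eq fun _ => rfl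
  have t2 : IsScalarTower κ (RatFunc κ) L := IsScalarTower.of_algebraMap_eq fun u => by
    rw [IsScalarTower.algebraMap_apply (RatFunc κ) K L, ← IsScalarTower.algebraMap_apply κ (RatFunc κ) K,
      ← IsScalarTower.algebraMap_apply κ K L]
  have t3 : FiniteDimensional (RatFunc κ) L := FiniteDimensional.trans (RatFunc κ) K L
  have h1 : genus κ L ≤ ramDeg κ L (RatFunc κ) := genus_le_ramDeg
  have h2 : ramDeg κ L (RatFunc κ) ≤ ramDeg κ L K + finrank K L * ramDeg κ K (RatFunc κ) :=
    ramDeg_trans (K := RatFunc κ) (L := K) (M := L) (isFF_ratFunc κ)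
  calc genus κ L ≤ ramDeg κ L K + finrank K L * ramDeg κ K (RatFunc κ) := h1.trans h2
    _ ≤ (1 + ramDeg κ K (RatFunc κ)) * (finrank K L + ramDeg κ L K) := by
        nlinarith [Nat.zero_le (finrank K L), Nat.zero_le (ramDeg κ L K),
          Nat.zero_le (ramDeg κ K (RatFunc κ)),
          Nat.zero_le (ramDeg κ K (RatFunc κ) * ramDeg κ L K)]

end Pool.Agent.Lib.MP_44a246_ntO
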