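import Mathlib
import Pool.Agent.Lib.MP_44a246_ntL.LFF

/-!
Binary forms: factorisation into linear factors, one inequality of the lemma of Gauss.
-/

namespace Pool.Agent.Lib.MP_44a246_ntO

open Polynomial

section factor

theorem hom_sum {K A : Type*} [Field K] [CommRing A] [Algebra K A] (p : K[X]) (m : ℕ) (a b : A) :
    MvPolynomial.aeval ![a, b] (p.homogenize m) =
      ∑ i ∈ Finset.range (m + 1), algebraMap K A (p.coeff i) * (a ^ i * b ^ (m - i)) := by
  unfold Polynomial.homogenize
  rw [map_sum, Finset.Nat.sum_antidiagonal_eq_sum_range_succ_mk]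
  refine Finset.sum_congr rfl fun i _ => ?_
  rw [MvPolynomial.aeval_monomial, Finsupp.update_eq_add_single (by simp),
    Finsupp.prod_add_index' (by simp) (by intro i x y; rw [pow_add]), Finsupp.prod_single_index (by simp),
    Finsupp.prod_single_index (by simp)]
  simp

theorem hom_linear {K A : Type*} [Field K] [CommRing A] [Algebra K A] (x : K) (a b : A) :
    MvPolynomial.aeval ![a, b] ((X - C x : K[X]).homogenize 1) = a - algebraMap K A x * b := by
  rw [Polynomial.homogenize_sub, Polynomial.homogenize_X one_ne_zero, Polynomial.homogenize_C]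
  simp

/-- the factorisation of a binary form -/
theorem exists_factor {K A : Type*} [Field K] [CommRing A] [Algebra K A] {p : K[X]} (hp : p ≠ 0)
    (hs : p.Splits) {m : ℕ} (hm : p.natDegree ≤ m) :
    ∃ (c : K) (R : Multiset (K × K)), c ≠ 0 ∧ R.card = m ∧ (∀ r ∈ R, r ≠ 0) ∧
      ∀ a b : A, MvPolynomial.aeval ![a, b] (p.homogenize m) =
        algebraMap K A c * (R.map fun r => algebraMap K A r.2 * a - algebraMap K A r.1 * b).prod := by
  have key : ∀ (s : Multiset K) (n : ℕ) (a b : A),
      MvPolynomial.aeval ![a, b] (((s.map fun x => X - C x).prod : K[X]).homogenize (s.card + n)) =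
        (s.map fun x => a - algebraMap K A x * b).prod * b ^ n := by
    intro s
    induction s using Multiset.induction_on with
    | empty =>
      intro n a b
      simp
    | cons x s ih =>
      intro n a b
      rw [Multiset.map_cons, Multiset.prod_cons, Multiset.map_cons, Multiset.prod_cons,
        Multiset.card_cons, show s.card + 1 + n = 1 + (s.card + n) by ring,
        Polynomial.homogenize_mul, map_mul, ih, hom_linear, mul_assoc]
      · exact (natDegree_X_sub_C_le x)
      · refine le_trans ?_ (Nat.le_add_right _ _)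
        rw [natDegree_multiset_prod_X_sub_C_eq_card]
  have hcard : p.roots.card ≤ m := (Polynomial.card_roots' p).trans hm
  refine ⟨p.leadingCoeff, p.roots.map (fun x => (x, 1)) + Multiset.replicate (m - p.roots.card) (-1, 0),
    leadingCoeff_ne_zero.2 hp, ?_, ?_, ?_⟩
  · rw [Multiset.card_add, Multiset.card_map, Multiset.card_replicate]
    omega
  · intro r hr
    rw [Multiset.mem_add] at hr
    rcases hr with hr | hr
    · rw [Multiset.mem_map] at hr
      obtain ⟨x, -, rfl⟩ := hr
      intro h
      exact one_ne_zero (congrArg Prod.snd h)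
    · rw [Multiset.eq_of_mem_replicate hr]
      intro h
      exact (neg_ne_zero.2 one_ne_zero) (congrArg Prod.fst h)
  · intro a b
    conv_lhs => rw [hs.eq_prod_roots, Polynomial.homogenize_C_mul, map_mul,
      show m = p.roots.card + (m - p.roots.card) by omega, key]
    rw [Multiset.map_add, Multiset.prod_add, Multiset.map_map, Multiset.map_replicate,
      Multiset.prod_replicate]
    simp

/-- a multiset of cardinality `m` as a family -/
theorem exists_fin {α : Type*} {m : ℕ} {R : Multiset α} (hR : R.card = m) :
    ∃ r : Fin m → α, R = Finset.univ.val.map r := by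
  subst hR
  induction R using Quot.inductionOn with
  | h l =>
    refine ⟨fun i => l.get (i.cast (by simp)), ?_⟩
    have h1 : (Finset.univ : Finset (Fin (Multiset.card (Quot.mk _ l : Multiset α)))).val.map
        (fun i => l.get (i.cast (by simp))) = (l : Multiset α) := by
      change (Finset.univ : Finset (Fin l.length)).val.map (fun i => l.get i) = (l : Multiset α)
      rw [Fin.univ_val_map]
      simp
    exact h1.symm

/-- the factorisation of a binary form, indexed by `Fin m` -/
theorem exists_factor' {K A : Type*} [Field K] [CommRing A] [Algebra K A] {p : K[X]} (hp : p ≠ 0)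
    (hs : p.Splits) {m : ℕ} (hm : p.natDegree ≤ m) :
    ∃ (c : K) (r : Fin m → K × K), c ≠ 0 ∧ (∀ i, r i ≠ 0) ∧
      ∀ a b : A, MvPolynomial.aeval ![a, b] (p.homogenize m) =
        algebraMap K A c * ∏ i, (algebraMap K A (r i).2 * a - algebraMap K A (r i).1 * b) := by
  obtain ⟨c, R, hc, hR, hR0, hR1⟩ := exists_factor (A := A) hp hs hm
  obtain ⟨r, rfl⟩ := exists_fin hR
  refine ⟨c, r, hc, fun i => hR0 _ (Multiset.mem_map_of_mem _ (Finset.mem_univ i)), fun a b => ?_⟩
  rw [hR1 a b, Multiset.map_map]
  rfl

end factor

section gauss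

variable {L Γ : Type*} [Field L] [LinearOrderedCommGroupWithZero Γ] (v : Valuation L Γ)

private theorem lin_coeff_zero (f : L[X]) (p q : L) :
    (f * (C p * X + C q)).coeff 0 = f.coeff 0 * q := by
  rw [mul_add, ← mul_assoc, coeff_add, coeff_mul_X_zero, zero_add, coeff_mul_C]

private theorem lin_coeff_succ (f : L[X]) (p q : L) (i : ℕ) :
    (f * (C p * X + C q)).coeff (i + 1) = f.coeff i * p + f.coeff (i + 1) * q := by
  rw [mul_add, ← mul_assoc, coeff_add, coeff_mul_X, coeff_mul_C, coeff_mul_C]

/-- one linear factor -/
theorem gauss_step (f : L[X]) (p q : L) {B : Γ} (hB : ∃ i, B ≤ v (f.coeff i)) :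
    ∃ i, B * max (v p) (v q) ≤ v ((f * (C p * X + C q)).coeff i) := by
  classical
  obtain ⟨i₀, hi₀⟩ := hB
  rcases eq_or_ne f 0 with rfl | hf
  · refine ⟨0, ?_⟩
    rw [coeff_zero, map_zero] at hi₀
    rw [le_zero_iff.1 hi₀, zero_mul]
    exact zero_le
  · obtain ⟨j, hj, hmax⟩ := Finset.exists_max_image f.support (fun i => v (f.coeff i))
      (support_nonempty.2 hf)
    have hle : ∀ i, v (f.coeff i) ≤ v (f.coeff j) := by
      intro i
      by_cases hi : i ∈ f.support
      · exact hmax i hi
      · rw [notMem_support_iff.1 hi, map_zero]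
        exact zero_le
    have hpos : 0 < v (f.coeff j) := by
      rw [zero_lt_iff, Valuation.ne_zero_iff]
      exact mem_support_iff.1 hj
    have hBj : B ≤ v (f.coeff j) := hi₀.trans (hle i₀)
    rcases lt_or_ge (v p) (v q) with hpq | hpq
    · -- coefficient j
      rw [max_eq_right hpq.le]
      have hq : 0 < v q := lt_of_le_of_lt zero_le hpq
      refine ⟨j, ?_⟩
      have h1 : v ((f * (C p * X + C q)).coeff j) = v (f.coeff j) * v q := by
        cases j with
        | zero => rw [lin_coeff_zero, map_mul]
        | succ k =>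
          rw [lin_coeff_succ, Valuation.map_add_eq_of_lt_right, map_mul]
          rw [map_mul, map_mul]
          calc v (f.coeff k) * v p ≤ v (f.coeff (k + 1)) * v p := by gcongr; exact hle k
            _ < v (f.coeff (k + 1)) * v q := by
                exact (mul_lt_mul_iff_right₀ hpos).2 hpq
      rw [h1]
      gcongr
    · rw [max_eq_left hpq]
      rcases eq_or_ne (v p) 0 with hp0 | hp0
      · exact ⟨0, by rw [hp0, mul_zero]; exact zero_le⟩
      have hp : 0 < v p := zero_lt_iff.2 hp0
      -- the largest index
      obtain ⟨k, hk, hkmax⟩ := Finset.exists_max_image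
        (f.support.filter fun i => v (f.coeff i) = v (f.coeff j)) id
        ⟨j, Finset.mem_filter.2 ⟨hj, rfl⟩⟩
      rw [Finset.mem_filter] at hk
      have hlt : v (f.coeff (k + 1)) < v (f.coeff k) := by
        rw [hk.2]
        refine lt_of_le_of_ne (hle _) fun h => ?_
        have h2 : k + 1 ∈ f.support.filter fun i => v (f.coeff i) = v (f.coeff j) := by
          rw [Finset.mem_filter]
          refine ⟨?_, h⟩
          rw [mem_support_iff, ← Valuation.ne_zero_iff v, h]
          exact hpos.ne'
        have := hkmax _ h2
        simp at this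
      refine ⟨k + 1, ?_⟩
      have h1 : v ((f * (C p * X + C q)).coeff (k + 1)) = v (f.coeff k) * v p := by
        rw [lin_coeff_succ, Valuation.map_add_eq_of_lt_left, map_mul]
        rw [map_mul, map_mul]
        calc v (f.coeff (k + 1)) * v q ≤ v (f.coeff (k + 1)) * v p := by gcongr
          _ < v (f.coeff k) * v p := by
              exact (mul_lt_mul_iff_left₀ hp).2 hlt
      rw [h1, hk.2]
      gcongr

/-- one inequality of the lemma of Gauss for products of linear polynomials -/
theorem gauss_multiset (c : L) (R : Multiset (L × L)) :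
    ∃ i, v c * (R.map fun r => max (v r.1) (v r.2)).prod ≤
      v ((C c * (R.map fun r => C r.1 * X + C r.2).prod).coeff i) := by
  induction R using Multiset.induction_on with
  | empty => exact ⟨0, by simp⟩
  | cons r R ih =>
    obtain ⟨i, hi⟩ := gauss_step v _ r.1 r.2 ih
    refine ⟨i, ?_⟩
    rw [Multiset.map_cons, Multiset.prod_cons, Multiset.map_cons, Multiset.prod_cons]
    rw [mul_comm (max _ _), ← mul_assoc, mul_comm (C r.1 * X + C r.2), ← mul_assoc]
    exact hi

theorem gauss_fin (c : L) {m : ℕ} (p q : Fin m → L) :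
    ∃ i, v c * ∏ j, max (v (p j)) (v (q j)) ≤ v ((C c * ∏ j, (C (p j) * X + C (q j))).coeff i) := by
  obtain ⟨i, hi⟩ := gauss_multiset v c (Finset.univ.val.map fun j => (p j, q j))
  rw [Multiset.map_map, Multiset.map_map] at hi
  exact ⟨i, hi⟩

end gauss

end Pool.Agent.Lib.MP_44a246_ntO
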